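import Pool.Agent.Lib.MP_132c47_lc.AL1

/-! Algebraic elements of the completed cyclotomic field, and the standard model. -/

namespace Pool.Agent.Lib.MP_132c47_lc

open Polynomial
set_option linter.unusedSectionVars false

variable {C : Type} [NormedField C] [IsUltrametricDist C] [CompleteSpace C] [IsAlgClosed C]
  [CharZero C] {p : ℕ} [Fact p.Prime]

namespace AL

theorem lift {K : Subfield C} {N : ℕ} (h : ∀ ξ : C, ξ ^ N = 1 → ξ ∈ K) {r : C}
    (hr : r ∈ Rmu C N) : ∃ r' ∈ Rmu K N, (r' : C) = r :=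
  (Subring.closure_le (t := (Rmu K N).map K.subtype)).2 (fun ξ hξ =>
    ⟨⟨ξ, h ξ hξ⟩, Subring.subset_closure (Subtype.ext hξ), rfl⟩) hr

theorem coe_mem {K : Subfield C} {N : ℕ} {w : K} (h : w ∈ Rmu K N) : (w : C) ∈ Rmu C N :=
  (Subring.closure_le (t := (Rmu C N).comap K.subtype)).2 (fun ξ hξ =>
    Subring.subset_closure (congrArg Subtype.val hξ : (ξ : C) ^ N = 1)) h

theorem avg' {K : Type} [Field K] (τ : K →+* K) {M n B m b : ℕ} (h1 : B ≡ 1 [MOD M])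
    (h2 : B ≡ 1 [MOD p ^ 2]) (hB : 1 ≤ B) (hN : M * p ^ n ≠ 0)
    (hτ : ∀ i (ξ : K), ξ ^ (M * p ^ n) = 1 → (τ ^ i) ξ = ξ ^ B ^ i) (hm : m ∣ M)
    (hb : B ≡ b [MOD p ^ n]) (hb1 : 1 ≤ b) {r : K} (hr : r ∈ Rmu K (m * p ^ n)) :
    ∃ w ∈ Rmu K (m * (b - 1)), ∑ i ∈ Finset.range (p ^ n), (τ ^ i) r = p ^ n * w := by
  rw [Subring.mem_closure_iff] at hr
  induction hr using AddSubgroup.closure_induction with
  | mem ξ h =>
    have h3 : ξ ^ (m * p ^ n) = 1 :=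
      (Submonoid.closure_le (S := MonoidHom.mker (powMonoidHom (m * p ^ n) : K →* K))).2
        (fun x hx => hx) h
    have h4 : ξ ^ (M * p ^ n) = 1 := by
      obtain ⟨k, rfl⟩ := hm
      rw [mul_right_comm, pow_mul, h3, one_pow]
    simp only [hτ _ ξ h4]
    rcases avg h1 h2 hB hN h4 with e | e
    · have e' : ∀ i, ξ ^ B ^ i = ξ := fun i => by
        induction i with
        | zero => simp
        | succ i ih => rw [pow_succ, pow_mul, ih, e]
      have h0 : ξ ^ m ≠ 0 := pow_ne_zero _ (by rintro rfl; simp [zero_pow hN] at h4)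
      refine ⟨ξ, Subring.subset_closure (?_ : ξ ^ _ = 1), by simp [e']⟩
      rw [pow_mul, ← mul_left_inj' h0, ← pow_succ, Nat.sub_add_cancel hb1, one_mul,
        ← pow_eq_pow_of_modEq hb (by rw [← pow_mul, h3]), pow_right_comm, e]
    · exact ⟨0, zero_mem _, by rw [e, mul_zero]⟩
  | zero => exact ⟨0, zero_mem _, by simp⟩
  | add x y _ _ ix iy =>
    obtain ⟨w, hw, e⟩ := ix
    obtain ⟨w', hw', e'⟩ := iy
    exact ⟨w + w', add_mem hw hw', by simp only [map_add, Finset.sum_add_distrib, e, e', mul_add]⟩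
  | neg x _ ix =>
    obtain ⟨w, hw, e⟩ := ix
    exact ⟨-w, neg_mem hw, by simp only [map_neg, Finset.sum_neg_distrib, e, mul_neg]⟩

theorem krasner (hp : ‖(p : C)‖ < 1) (f : ℤ[X]) (hf : f.Monic) {y : C} (hy : y ∈ Kz C)
    (h0 : aeval y f = 0) {d : ℕ} (hd : 0 < d) : ∃ N, 0 < N ∧ d ∣ N ∧ y ∈ KM C N := by
  classical
  have hfin : ({r : C | aeval r f = 0} \ {y}).Finite :=
    ((f.aroots C).toFinset.finite_toSet.subset fun r hr => by
      rw [Finset.mem_coe, Multiset.mem_toFinset, mem_aroots']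
      exact ⟨(hf.map _).ne_zero, hr⟩).sdiff
  obtain ⟨δ, hδ, h⟩ := Metric.mem_nhds_iff.1 (hfin.isClosed.isOpen_compl.mem_nhds
    (show y ∈ _ from fun h => h.2 rfl))
  obtain ⟨e, he, hye⟩ := Metric.mem_closure_iff.1 hy δ hδ
  obtain ⟨a, ha, b, hb, rfl⟩ := Subfield.mem_closure_iff.1 he
  obtain ⟨N, hN, hdN, hS⟩ := exists_level {a, b} (by simpa using ⟨ha, hb⟩) hd
  refine ⟨N, hN, hdN, by_contra fun hn => ?_⟩
  have hK : a / b ∈ KM C N := FM_le (div_mem (Rmu_le (hS a (by simp))) (Rmu_le (hS b (by simp))))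
  have hi : IsIntegral (KM C N) y := (show IsIntegral ℤ y from ⟨f, hf, h0⟩).tower_top
  obtain ⟨y', hne, hc⟩ := (notMem_iff_exists_ne_and_isConjRoot (K := KM C N) (x := y)
    (minpoly.irreducible hi).separable (IsAlgClosed.splits _)).1
      (by rintro ⟨c, rfl⟩; exact hn c.2)
  have h1 : ‖y' - a / b‖ = ‖y - a / b‖ := norm_conj hp (Subfield.isClosed_topologicalClosure _)
    (hi.sub (isIntegral_algebraMap (x := (⟨_, hK⟩ : KM C N)))) (hc.sub_algebraMap ⟨_, hK⟩).aeval_eq_zero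
  rw [dist_eq_norm] at hye
  refine h (mem_ball_iff_norm.2 ?_) ⟨aeval_eq_zero_of_dvd_aeval_eq_zero (minpoly.dvd (KM C N) y
    (p := f.map (algebraMap ℤ _)) (by rwa [aeval_map_algebraMap])) hc.aeval_eq_zero |>
      (aeval_map_algebraMap _ _ _).symm.trans, hne.symm⟩
  simpa using sub_lt (h1.trans_lt hye) hye

theorem digits (hp : ‖(p : C)‖ < 1) {M n e j : ℕ} (hM : ¬ p ∣ M) (hn : 0 < n)
    (he : e ≡ p ^ j [MOD M]) (he' : e ≡ 1 [MOD p ^ n]) (hj : 1 < p ^ j) (hq : p ^ j - 1 ∣ M)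
    (φ : KM C (M * p ^ n) →+* KM C (M * p ^ n)) (hφ : ∀ x, ‖φ x‖ = ‖x‖)
    (hφ' : ∀ ξ, ξ ^ (M * p ^ n) = 1 → φ ξ = ξ ^ e) {ζ : C} (hζ : IsPrimitiveRoot ζ (p ^ n))
    (k : ℕ) : ∀ x : KM C (M * p ^ n), ‖x‖ ≤ 1 → φ x = x →
      ∃ w ∈ Rmu C ((p ^ j - 1) * p ^ n), ‖(x : C) - w‖ ≤ ‖ζ - 1‖ ^ k := by
  have hM0 : M ≠ 0 := by rintro rfl; exact hM (dvd_zero p)
  have hp' : p.Prime := Fact.out
  have hζ1 : ζ - 1 ≠ 0 := sub_ne_zero.2 (hζ.ne_one (Nat.one_lt_pow hn.ne' hp'.one_lt))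
  have fix : ∀ ξ : C, ξ ^ (p ^ j - 1) = 1 ∨ ξ ^ p ^ n = 1 → ξ ∈ Rmu C ((p ^ j - 1) * p ^ n) ∧
      ∃ h, φ ⟨ξ, h⟩ = ⟨ξ, h⟩ := fun ξ h => by
    have h1 : ξ ^ ((p ^ j - 1) * p ^ n) = 1 := by
      rcases h with h | h
      · rw [pow_mul, h, one_pow]
      · rw [pow_mul', h, one_pow]
    have h2 : ξ ^ (M * p ^ n) = 1 := by
      obtain ⟨k, hk⟩ := hq
      rw [hk, mul_right_comm, pow_mul, h1, one_pow]
    refine ⟨Subring.subset_closure h1, FM_le (Subfield.subset_closure h2),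
      (hφ' _ (Subtype.ext h2)).trans (Subtype.ext ((?_ : ξ ^ e = ξ ^ 1).trans (pow_one ξ)))⟩
    rcases h with h | h
    · exact pow_eq_pow_of_modEq ((he.of_dvd hq).trans
        ((Nat.modEq_iff_dvd' hj.le).2 dvd_rfl).symm) h
    · exact pow_eq_pow_of_modEq he' h
  obtain ⟨zR, zK, zφ⟩ := fix ζ (Or.inr hζ.pow_eq_one)
  induction k with
  | zero => exact fun x hx _ => ⟨0, zero_mem _, by rw [sub_zero, pow_zero]; exact hx⟩
  | succ k ih =>
    intro x hx hfx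
    have hπ := near_one hp hζ.pow_eq_one
    obtain ⟨r, hr, hxr⟩ := dense_level hp (Nat.pos_of_ne_zero (mul_ne_zero hM0
      (pow_ne_zero _ hp'.ne_zero))) ((dvd_pow_self p hn.ne').mul_left M) x.2 hx (norm_pos_iff.2 hζ1)
    have a1 := (frob_cong hp hM0 he FM_le ((KM C _).subtype.comp φ)
      (fun ξ h => congrArg Subtype.val (hφ' ξ (Subtype.ext h))) hr).2
    have a2 : ‖(x : C) - φ ⟨r, FM_le (Rmu_le hr)⟩‖ < 1 := by
      have := hφ (x - ⟨r, FM_le (Rmu_le hr)⟩)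
      rw [map_sub, hfx] at this
      exact (this.trans_lt hxr).trans hπ
    obtain ⟨ω, hω, a3⟩ := exists_root_near (x := r) (Nat.sub_pos_of_lt hj) (by
      rw [Nat.sub_add_cancel hj.le]
      convert sub_lt (hxr.trans hπ) (add_lt a1 a2) using 2
      simp)
    obtain ⟨oR, oK, oφ⟩ : ω ∈ Rmu C ((p ^ j - 1) * p ^ n) ∧ ∃ h, φ ⟨ω, h⟩ = ⟨ω, h⟩ := by
      rcases hω with rfl | h
      · exact ⟨zero_mem _, zero_mem _, map_zero φ⟩
      · exact fix ω (Or.inl h)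
    have a4 : ‖(x : C) - ω‖ ≤ ‖ζ - 1‖ := by
      simpa using add_le hxr.le (norm_le_pi hp hM hn hζ (sub_mem hr
        (Rmu_mono (mul_dvd_mul_right hq _) oR)) a3).2
    obtain ⟨w, hw, a5⟩ := ih ((x - ⟨ω, oK⟩) / (⟨ζ, zK⟩ - 1))
      (by rw [norm_div]; exact div_le_one_of_le₀ a4 (norm_nonneg _))
      (by rw [map_div₀, map_sub, map_sub, hfx, oφ, zφ, map_one])
    refine ⟨ω + w * (ζ - 1), add_mem oR (mul_mem hw (sub_mem zR (one_mem _))), ?_⟩
    rw [show (x : C) - (ω + w * (ζ - 1)) = ((x - ω) / (ζ - 1) - w) * (ζ - 1) by field_simp; ring,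
      norm_mul, pow_succ]
    exact mul_le_mul_of_nonneg_right a5 (norm_nonneg _)

end AL

open AL

theorem alg_part (hp : ‖(p : C)‖ < 1) (f : ℤ[X]) (hf : f.Monic) {y : C} (hy : y ∈ Kz C)
    (h0 : aeval y f = 0) {ε : ℝ} (hε : 0 < ε) : ∃ w ∈ Rmu C (Md p f.natDegree), ‖y - w‖ < ε := by
  have hp' : p.Prime := Fact.out
  have hq := Nat.one_lt_pow f.natDegree.factorial_ne_zero hp'.one_lt
  obtain ⟨N, hN, hd, hK⟩ := krasner hp f hf hy h0 (mul_pos (Nat.sub_pos_of_lt hq)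
    (pow_pos hp'.pos 2))
  obtain ⟨n, M, hM, rfl⟩ := Nat.exists_eq_pow_mul_and_not_dvd hN.ne' p hp'.ne_one
  have co : M.Coprime p := ((Nat.Prime.coprime_iff_not_dvd hp').2 hM).symm
  have d1 : p ^ f.natDegree.factorial - 1 ∣ M := Nat.Coprime.dvd_of_dvd_mul_left
    (Nat.Coprime.pow_right n (((Nat.coprime_self_sub_left hq.le).2 (by simp)).coprime_dvd_right
      (dvd_pow_self p f.natDegree.factorial_ne_zero))) ((dvd_mul_right _ _).trans hd)
  have d2 : p ^ 2 ∣ p ^ n := (co.symm.pow_left 2).dvd_of_dvd_mul_right ((dvd_mul_left _ _).trans hd)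
  have hn : 0 < n := two_pos.trans_le ((Nat.pow_dvd_pow_iff_le_right hp'.one_lt).1 d2)
  rw [mul_comm] at hK hN
  obtain ⟨c, c1, c2⟩ := Nat.chineseRemainder (co.pow_right n) 1 (1 + p ^ 2)
  obtain ⟨c', c3, c4⟩ := Nat.chineseRemainder (co.pow_right n) p 1
  have c5 : c ≡ 1 [MOD p ^ 2] := (c2.of_dvd d2).trans (by simp [Nat.ModEq])
  obtain ⟨σ, s1, s2⟩ := exists_sigma (c := c) (j := 0) hp hM hn (Nat.Coprime.mul_right
    (c1.gcd_eq.trans (by simp)) (Nat.Coprime.pow_right _ (Nat.Coprime.coprime_dvd_right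
      (dvd_pow_self p two_ne_zero) (c5.gcd_eq.trans (by simp))))) (by simpa using c1)
  obtain ⟨σ', s3, s4⟩ := exists_sigma (c := c') (j := 1) hp hM hn (Nat.Coprime.mul_right
    (c3.gcd_eq.trans co.symm) (c4.gcd_eq.trans (by simp))) (by simpa using c3)
  have h0' : aeval (⟨y, hK⟩ : KM C (M * p ^ n)) f = 0 := by
    have := aeval_algHom_apply (KM C (M * p ^ n)).subtype.toIntAlgHom ⟨y, hK⟩ f
    exact Subtype.ext (this.symm.trans h0)
  have := NeZero.mk (pow_ne_zero n hp'.ne_zero)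
  obtain ⟨ζ, hζ⟩ := HasEnoughRootsOfUnity.exists_primitiveRoot C (p ^ n)
  have hp0 : (p : C) ^ n ≠ 0 := pow_ne_zero _ (Nat.cast_ne_zero.2 hp'.ne_zero)
  obtain ⟨k, hk⟩ := exists_pow_lt_of_lt_one (mul_pos (norm_pos_iff.2 hp0) hε)
    (near_one hp hζ.pow_eq_one)
  obtain ⟨r, hr, e1⟩ := digits hp hM hn (c3.pow _) (by simpa using c4.pow f.natDegree.factorial)
    hq d1 _ (pow_norm σ' s3 _) (fun ξ h => pow_apply σ' s4 _ h) hζ k ⟨y, hK⟩
    (norm_le_of_root (Int.castRingHom C) hf (fun _ => IsUltrametricDist.norm_intCast_le_one _ _)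
      (by rwa [← eval₂_eq_eval_map])) (pow_fix σ' f hf h0')
  obtain ⟨r, hr', rfl⟩ := lift (K := KM C (M * p ^ n)) (fun ξ h => FM_le (Rmu_le
    (Rmu_mono (mul_dvd_mul_right d1 _) (Subring.subset_closure h)))) hr
  obtain ⟨w, hw, e2⟩ := avg' (σ ^ f.natDegree.factorial) (B := c ^ f.natDegree.factorial)
    (by simpa using c1.pow f.natDegree.factorial) (by simpa using c5.pow f.natDegree.factorial)
    (Nat.one_le_pow _ _ (Nat.pos_of_ne_zero (by
      rintro rfl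
      exact (Nat.one_lt_pow two_ne_zero hp'.one_lt).ne' (by simpa using c5.gcd_eq))))
    hN.ne' (fun i ξ h => pow_apply _ (fun ξ h => pow_apply σ s2 _ h) i h) d1 (c2.pow _)
    (Nat.one_le_pow _ _ (by positivity)) hr'
  refine ⟨w, coe_mem hw, lt_of_mul_lt_mul_left (lt_of_le_of_lt ?_ (e1.trans_lt hk)) (norm_nonneg _)⟩
  have e3 : ∀ i, ((σ ^ f.natDegree.factorial) ^ i) ⟨y, hK⟩ = ⟨y, hK⟩ := fun i => by
    rw [RingHom.coe_pow]; exact Function.iterate_fixed (pow_fix σ f hf h0') i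
  have e4 : ∑ i ∈ Finset.range (p ^ n), ((σ ^ f.natDegree.factorial) ^ i) (⟨y, hK⟩ - r) =
      p ^ n * (⟨y, hK⟩ - w) := by
    simp only [map_sub, Finset.sum_sub_distrib, e2, e3, mul_sub]; simp
  rw [← norm_mul]
  refine (congrArg norm e4).symm.trans_le (IsUltrametricDist.norm_sum_le_of_forall_le_of_nonneg
    (norm_nonneg _) fun i _ => ?_)
  rw [← pow_mul]
  exact (pow_norm σ s1 _ _).le

theorem std_model (hC : CRes p C) : Model p (Oz (Kz C)) := by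
  have hp' : p.Prime := Fact.out
  have hp0 : (p : C) ≠ 0 := Nat.cast_ne_zero.2 hp'.ne_zero
  have mem : ∀ {m : ℕ} {ξ : C}, 0 < m → ξ ^ m = 1 → ξ ∈ Kz C := fun hm h =>
    Subfield.le_topologicalClosure _ (Subfield.subset_closure ⟨_, hm, h⟩)
  refine ⟨fun n hn => Nat.cast_ne_zero.2 hn.ne', fun h => ?_, fun f hf hi h0 i => ?_,
    fun f hf hd hc => ?_, fun n hn => ?_, fun f y hf h0 N => ?_⟩
  · have : ‖(p : C)⁻¹‖ ≤ 1 := by simpa using (show ‖(((p : Kz C)⁻¹ : Kz C) : C)‖ ≤ 1 from h)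
    rw [norm_inv, inv_le_one₀ (norm_pos_iff.2 hp0)] at this
    exact hC.vp.not_ge this
  · obtain ⟨x, hx⟩ := IsAlgClosed.exists_aeval_eq_zero C f (degree_pos_of_irreducible hi).ne'
    have hm := hf.map (algebraMap (Kz C) C)
    have sp := IsAlgClosed.splits (f.map (algebraMap (Kz C) C))
    have hr : ∀ a ∈ (f.map (algebraMap (Kz C) C)).roots, ‖a‖ = ‖x‖ := fun a ha =>
      norm_conj hC.vp (K := Kz C) (Subfield.isClosed_topologicalClosure _) ⟨f, hf, hx⟩ (by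
        rw [← minpoly.eq_of_irreducible_of_monic hi hx hf, aeval_def, eval₂_eq_eval_map]
        exact (mem_roots hm.ne_zero).1 ha)
    have h1 : ‖x‖ ≤ 1 := by
      have e := congrArg (NormedField.valuation (K := C)) (sp.coeff_zero_eq_prod_roots_of_monic hm)
      rw [map_mul, map_multiset_prod, Multiset.map_congr rfl (f := NormedField.valuation (K := C)) (g := fun _ => ‖x‖₊)
        fun a ha => NNReal.eq (hr a ha), Multiset.map_const', Multiset.prod_replicate,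
        ← sp.natDegree_eq_card_roots, hf.natDegree_map, coeff_map, map_pow, Valuation.map_neg,
        map_one, one_pow, one_mul] at e
      exact (pow_le_one_iff (x := ‖x‖₊) (hi.natDegree_pos).ne').1 (e.symm.trans_le h0)
    obtain ⟨c, hc⟩ := (lifts_iff_coeff_lifts _).1 (sp.mem_lift_of_roots_mem_range hm (UB C).subtype
      fun a ha => ⟨⟨a, (hr a ha).trans_le h1⟩, rfl⟩) i
    rw [coeff_map] at hc
    exact (congrArg norm hc).symm.trans_le c.2
  · obtain ⟨x, hx⟩ := IsAlgClosed.exists_aeval_eq_zero C f (natDegree_pos_iff_degree_pos.1 hd).ne'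
    rw [aeval_def, eval₂_eq_eval_map] at hx
    have h1 := norm_le_of_root _ hf hc hx
    obtain ⟨N, hN, h2⟩ := hC.res x h1
    obtain ⟨ω, hω, h3⟩ := exists_root_near hN h2
    have h4 : ω ∈ Kz C := hω.elim (fun h => h ▸ zero_mem _) (mem hN)
    have h5 : ‖ω‖ ≤ 1 := hω.elim (fun h => by simp [h]) fun h => (norm_root hN.ne' h).le
    refine ⟨⟨ω, h4⟩, h5, (Oz (Kz C)).mem_nonunits_iff_or.2 (or_iff_not_imp_left.2 fun h6 h7 => ?_)⟩
    obtain ⟨g, hg⟩ := (mem_lifts _).1 ((lifts_iff_coeff_lifts (f := (UB C).subtype)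
      (f.map (algebraMap (Kz C) C))).2 fun k => ⟨⟨_, hc k⟩, (coeff_map (algebraMap (Kz C) C) k).symm⟩)
    obtain ⟨r, hr⟩ := sub_dvd_eval_sub (⟨x, h1⟩ : UB C) ⟨ω, h5⟩ g
    have e := congrArg (UB C).subtype hr
    rw [map_sub, ← eval₂_hom, ← eval₂_hom, ← eval_map, ← eval_map, hg, map_mul, mul_comm] at e
    have h8 : ‖((f.eval ⟨ω, h4⟩ : Kz C) : C)‖ < 1 := by
      have := mul_lt r.2 h3
      rw [show (r : C) * (x - ω) = _ from e.symm, show eval ((UB C).subtype ⟨x, h1⟩) _ = 0 from hx,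
        zero_sub, norm_neg, eval_map] at this
      exact (congrArg norm (eval₂_hom (algebraMap (Kz C) C) ⟨ω, h4⟩)).symm.trans_lt this
    have h9 : ‖((f.eval ⟨ω, h4⟩ : Kz C) : C)‖⁻¹ ≤ 1 := by
      rw [← norm_inv]; exact h7
    exact h8.not_ge ((inv_le_one₀ (norm_pos_iff.2 fun h => h6 (Subtype.ext h))).1 h9)
  · have := NeZero.mk hn.ne'
    obtain ⟨ζ, hζ⟩ := HasEnoughRootsOfUnity.exists_primitiveRoot C n
    exact ⟨⟨ζ, mem hn hζ.pow_eq_one⟩, IsPrimitiveRoot.coe_submonoidClass_iff.1 hζ⟩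
  · have h1 : 0 < ‖(p : C) ^ N‖ := norm_pos_iff.2 (pow_ne_zero _ hp0)
    obtain ⟨w, hw, e⟩ := alg_part hC.vp f hf y.2 ((aeval_algHom_apply
      (Kz C).subtype.toIntAlgHom y f).trans (by rw [h0, map_zero])) h1
    obtain ⟨w, hw', rfl⟩ := lift (K := Kz C) (fun ξ h => mem (mul_pos (Nat.sub_pos_of_lt
      (Nat.one_lt_pow f.natDegree.factorial_ne_zero hp'.one_lt)) (Nat.sub_pos_of_lt
        (Nat.one_lt_pow f.natDegree.factorial_ne_zero (lt_add_of_pos_right 1 (pow_pos hp'.pos 2)))))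
          h) hw
    refine ⟨w, hw', (?_ : ‖(((y - w) / p ^ N : Kz C) : C)‖ ≤ 1)⟩
    push_cast
    rw [norm_div]
    exact div_le_one_of_le₀ e.le h1.le

end Pool.Agent.Lib.MP_132c47_lc
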