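import Pool.Agent.Lib.MP_132c47_lc.CY

/-! Algebraic elements of the completed cyclotomic field, and the standard model. -/

namespace Pool.Agent.Lib.MP_132c47_lc

open Polynomial
set_option linter.unusedSectionVars false

variable {C : Type} [NormedField C] [IsUltrametricDist C] [CompleteSpace C] [IsAlgClosed C]
  [CharZero C] {p : ℕ} [Fact p.Prime]

namespace AL

theorem add_lt {a b : C} {r : ℝ} (ha : ‖a‖ < r) (hb : ‖b‖ < r) : ‖a + b‖ < r :=
  (IsUltrametricDist.norm_add_le_max a b).trans_lt (max_lt ha hb)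

theorem sub_lt {a b : C} {r : ℝ} (ha : ‖a‖ < r) (hb : ‖b‖ < r) : ‖a - b‖ < r := by
  rw [sub_eq_add_neg]; exact add_lt ha (by rwa [norm_neg])

theorem add_le {a b : C} {r : ℝ} (ha : ‖a‖ ≤ r) (hb : ‖b‖ ≤ r) : ‖a + b‖ ≤ r :=
  (IsUltrametricDist.norm_add_le_max a b).trans (max_le ha hb)

theorem norm_eq_one {a b : C} (hb : ‖b‖ = 1) (h : ‖a - b‖ < 1) : ‖a‖ = 1 := by
  refine le_antisymm (sub_add_cancel a b ▸ add_le h.le hb.le) (not_lt.1 fun ha => ?_)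
  have := sub_lt ha h
  rw [sub_sub_cancel, hb] at this
  exact lt_irrefl _ this

/-- The unit ball. -/
noncomputable abbrev UB (C : Type) [NormedField C] [IsUltrametricDist C] : Subring C :=
  (NormedField.valuation (K := C)).integer

theorem mem_UB {x : C} : x ∈ UB C ↔ ‖x‖ ≤ 1 := Iff.rfl

theorem mul_lt {a b : C} (ha : ‖a‖ ≤ 1) (hb : ‖b‖ < 1) : ‖a * b‖ < 1 := by
  rw [norm_mul]; exact mul_lt_one_of_nonneg_of_lt_one_right ha (norm_nonneg _) hb

theorem frob_add (hp : ‖(p : C)‖ < 1) (j : ℕ) {x y : C} (hx : ‖x‖ ≤ 1) (hy : ‖y‖ ≤ 1) :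
    ‖(x + y) ^ p ^ j - x ^ p ^ j - y ^ p ^ j‖ < 1 := by
  obtain ⟨r, hr⟩ := exists_add_pow_prime_pow_eq (Fact.out : p.Prime) (⟨x, hx⟩ : UB C) ⟨y, hy⟩ j
  have := congrArg Subtype.val hr
  push_cast at this
  rw [this, show x ^ p ^ j + y ^ p ^ j + p * x * y * r - x ^ p ^ j - y ^ p ^ j = x * (y * (r * p)) by
    ring]
  exact mul_lt hx (mul_lt hy (mul_lt r.2 hp))

theorem norm_root {ξ : C} {m : ℕ} (hm : m ≠ 0) (h : ξ ^ m = 1) : ‖ξ‖ = 1 := by
  have := congrArg norm h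
  rwa [norm_pow, norm_one, pow_eq_one_iff_of_nonneg (norm_nonneg _) hm] at this

theorem near_one (hp : ‖(p : C)‖ < 1) {η : C} {n : ℕ} (h : η ^ p ^ n = 1) : ‖η - 1‖ < 1 := by
  have h0 : p ^ n ≠ 0 := pow_ne_zero _ (Fact.out : p.Prime).ne_zero
  have h1 : ‖η - 1‖ ≤ 1 := (UB C).sub_mem (norm_root h0 h).le (UB C).one_mem
  have := frob_add hp n h1 norm_one.le
  rw [sub_add_cancel, h, one_pow, sub_sub_cancel_left, norm_neg, norm_pow] at this
  exact lt_of_pow_lt_pow_left₀ _ zero_le_one (by rwa [one_pow])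

theorem exists_root_near {x : C} {N : ℕ} (hN : 0 < N) (h : ‖x ^ (N + 1) - x‖ < 1) :
    ∃ ω : C, (ω = 0 ∨ ω ^ N = 1) ∧ ‖x - ω‖ < 1 := by
  have hm : (X ^ (N + 1) - X : C[X]).Monic :=
    monic_X_pow_sub (by rw [degree_X]; exact_mod_cast Nat.succ_lt_succ hN)
  by_contra hc
  push Not at hc
  have e := (IsAlgClosed.splits (X ^ (N + 1) - X : C[X])).eval_eq_prod_roots_of_monic hm x
  simp only [eval_sub, eval_pow, eval_X] at e
  refine absurd h (not_lt.2 ?_)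
  rw [e]
  refine Multiset.prod_induction (fun z : C => 1 ≤ ‖z‖) _ (fun a b ha hb => ?_) norm_one.ge
    fun a ha => ?_
  · rw [norm_mul]; exact one_le_mul_of_one_le_of_one_le ha hb
  · obtain ⟨r, hr, rfl⟩ := Multiset.mem_map.1 ha
    have := (mem_roots hm.ne_zero).1 hr
    simp only [IsRoot.def, eval_sub, eval_pow, eval_X] at this
    refine hc r (mul_eq_zero.1 (?_ : r * (r ^ N - 1) = 0) |>.imp_right sub_eq_zero.1)
    rw [← this]; ring

theorem norm_le_of_root {R : Type} [CommRing R] (i : R →+* C) {f : R[X]} (hf : f.Monic)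
    (hc : ∀ k, ‖i (f.coeff k)‖ ≤ 1) {x : C} (h : (f.map i).eval x = 0) : ‖x‖ ≤ 1 := by
  obtain ⟨g, hg, -, hm⟩ := lifts_and_natDegree_eq_and_monic (f := (UB C).subtype)
    ((lifts_iff_coeff_lifts (f.map i)).2 fun k => ⟨⟨_, hc k⟩, (coeff_map i k).symm⟩) (hf.map i)
  exact (Valuation.integer.integers _).mem_of_integral ⟨g, hm, by
    rw [eval₂_eq_eval_map]; exact hg ▸ h⟩

/-- The field generated by the `M`-th roots of unity. -/
abbrev FM (C : Type) [Field C] (M : ℕ) : Subfield C := Subfield.closure {ξ : C | ξ ^ M = 1}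

/-- Its closure. -/
noncomputable abbrev KM (C : Type) [NormedField C] (M : ℕ) : Subfield C :=
  (FM C M).topologicalClosure

theorem Rmu_le {M : ℕ} {x : C} (h : x ∈ Rmu C M) : x ∈ FM C M := Subfield.subring_closure_le _ h

theorem FM_le {M : ℕ} : FM C M ≤ KM C M := Subfield.le_topologicalClosure _

theorem frob_cong (hp : ‖(p : C)‖ < 1) {M n e j : ℕ} (hM : M ≠ 0) (he : e ≡ p ^ j [MOD M])
    {S : Subfield C} (hS : FM C (M * p ^ n) ≤ S) (ρ : S →+* C)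
    (hρ : ∀ ξ : S, (ξ : C) ^ (M * p ^ n) = 1 → ρ ξ = ξ ^ e) {x : C} (hx : x ∈ Rmu C (M * p ^ n)) :
    ‖x‖ ≤ 1 ∧ ‖ρ ⟨x, hS (Rmu_le hx)⟩ - x ^ p ^ j‖ < 1 := by
  have h0 : M * p ^ n ≠ 0 := mul_ne_zero hM (pow_ne_zero _ (Fact.out : p.Prime).ne_zero)
  have hj : p ^ j ≠ 0 := pow_ne_zero _ (Fact.out : p.Prime).ne_zero
  induction hx using Subring.closure_induction with
  | mem ξ h =>
    have h1 := norm_root h0 h
    have hξ : ξ ≠ 0 := by rintro rfl; simp at h1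
    refine ⟨h1.le, ?_⟩
    rw [hρ ⟨ξ, _⟩ h]
    obtain ⟨k, hk⟩ := he.symm.dvd
    have h2 : ξ ^ e = ξ ^ p ^ j * ξ ^ ((M : ℤ) * k) := by
      rw [← hk, ← zpow_natCast ξ (p ^ j), ← zpow_add₀ hξ, add_sub_cancel, zpow_natCast]
    change ‖ξ ^ e - _‖ < 1
    rw [h2, ← mul_sub_one]
    refine mul_lt (by rw [norm_pow, h1, one_pow]) (near_one hp (n := n) ?_)
    rw [← zpow_natCast, ← zpow_mul, mul_right_comm, zpow_mul, ← Nat.cast_mul, zpow_natCast,
      show ξ ^ (M * p ^ n) = 1 from h, one_zpow]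
  | zero => exact ⟨by simp, by rw [show ρ ⟨0, _⟩ = 0 from map_zero ρ]; simp [zero_pow hj]⟩
  | one => exact ⟨by simp, by rw [show ρ ⟨1, _⟩ = 1 from map_one ρ]; simp⟩
  | add x y hx hy ix iy =>
    refine ⟨add_le ix.1 iy.1, ?_⟩
    rw [show ρ ⟨x + y, _⟩ = _ from map_add ρ ⟨x, hS (Rmu_le hx)⟩ ⟨y, hS (Rmu_le hy)⟩]
    convert sub_lt (add_lt ix.2 iy.2) (frob_add hp j ix.1 iy.1) using 2
    ring
  | neg x hx ix =>
    have h1 : ‖-x‖ ≤ 1 := by rw [norm_neg]; exact ix.1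
    refine ⟨h1, ?_⟩
    rw [show ρ ⟨-x, _⟩ = _ from map_neg ρ ⟨x, hS (Rmu_le hx)⟩]
    convert sub_lt (frob_add hp j ix.1 h1) ix.2 using 2
    rw [add_neg_cancel, zero_pow hj]
    ring
  | mul x y hx hy ix iy =>
    refine ⟨(UB C).mul_mem ix.1 iy.1, ?_⟩
    rw [show ρ ⟨x * y, _⟩ = _ from map_mul ρ ⟨x, hS (Rmu_le hx)⟩ ⟨y, hS (Rmu_le hy)⟩]
    have a1 : ‖ρ ⟨x, hS (Rmu_le hx)⟩‖ ≤ 1 :=
      sub_add_cancel (ρ _) (x ^ p ^ j) ▸ add_le ix.2.le ((UB C).pow_mem ix.1 _)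
    convert add_lt (mul_lt a1 iy.2) (mul_lt ((UB C).pow_mem iy.1 (p ^ j)) ix.2) using 2
    ring

theorem norm_sub_one_le {ζ : C} (h : ‖ζ‖ ≤ 1) (c : ℕ) : ‖ζ ^ c - 1‖ ≤ ‖ζ - 1‖ := by
  obtain ⟨r, hr⟩ := sub_dvd_pow_sub_pow (⟨ζ, h⟩ : UB C) 1 c
  have := congrArg Subtype.val hr
  push_cast at this
  rw [one_pow] at this
  rw [this, norm_mul]
  exact mul_le_of_le_one_right (norm_nonneg _) r.2

theorem exists_hom {N c : ℕ} (hN : N ≠ 0) (hc : c.Coprime N) :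
    ∃ σ : FM C N →+* C, ∀ ξ : FM C N, (ξ : C) ^ N = 1 → σ ξ = ξ ^ c := by
  have := NeZero.mk hN
  obtain ⟨ζ, hζ⟩ := HasEnoughRootsOfUnity.exists_primitiveRoot C N
  have hi : IsIntegral ℚ ζ := (hζ.isIntegral (Nat.pos_of_ne_zero hN)).tower_top
  have hr : ζ ^ c ∈ (minpoly ℚ ζ).aroots C := by
    rw [mem_aroots, ← cyclotomic_eq_minpoly_rat hζ (Nat.pos_of_ne_zero hN), aeval_def,
      eval₂_eq_eval_map, map_cyclotomic]
    exact ⟨cyclotomic_ne_zero _ _, (hζ.pow_of_coprime c hc).isRoot_cyclotomic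
      (Nat.pos_of_ne_zero hN)⟩
  have hle : FM C N ≤ (IntermediateField.adjoin ℚ {ζ}).toSubfield :=
    Subfield.closure_le.2 fun ξ hξ => by
      obtain ⟨i, -, rfl⟩ := hζ.eq_pow_of_pow_eq_one hξ
      exact pow_mem (IntermediateField.mem_adjoin_simple_self ℚ ζ) i
  let g := (IntermediateField.algHomAdjoinIntegralEquiv ℚ hi).symm ⟨_, hr⟩
  refine ⟨g.toRingHom.comp (Subfield.inclusion hle), fun ξ hξ => ?_⟩
  obtain ⟨i, -, e⟩ := hζ.eq_pow_of_pow_eq_one hξ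
  have : Subfield.inclusion hle ξ = IntermediateField.AdjoinSimple.gen ℚ ζ ^ i :=
    Subtype.ext e.symm
  refine (congrArg g this).trans ?_
  rw [map_pow, ← e, ← pow_mul, mul_comm, pow_mul]
  exact congrArg (· ^ i) (IntermediateField.algHomAdjoinIntegralEquiv_symm_apply_gen ℚ hi ⟨_, hr⟩)

theorem exists_sigma (hp : ‖(p : C)‖ < 1) {M n c j : ℕ} (hM : ¬ p ∣ M) (hn : 0 < n)
    (hc : c.Coprime (M * p ^ n)) (he : c ≡ p ^ j [MOD M]) :
    ∃ σ : KM C (M * p ^ n) →+* KM C (M * p ^ n), (∀ x, ‖σ x‖ = ‖x‖) ∧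
      ∀ ξ : KM C (M * p ^ n), ξ ^ (M * p ^ n) = 1 → σ ξ = ξ ^ c := by
  have hM0 : M ≠ 0 := by rintro rfl; exact hM (dvd_zero p)
  have hp0 : p ^ n ≠ 0 := pow_ne_zero _ (Fact.out : p.Prime).ne_zero
  obtain ⟨σ, hσ⟩ := exists_hom (C := C) (mul_ne_zero hM0 hp0) hc
  have := NeZero.mk hp0
  obtain ⟨ζ, hζ⟩ := HasEnoughRootsOfUnity.exists_primitiveRoot C (p ^ n)
  have hζ1 : ζ ^ (M * p ^ n) = 1 := by rw [pow_mul', hζ.pow_eq_one, one_pow]
  have hζR : ζ ∈ Rmu C (M * p ^ n) := Subring.subset_closure hζ1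
  have unit : ∀ s (hs : s ∈ Rmu C (M * p ^ n)), ‖s‖ = 1 → ‖σ ⟨s, Rmu_le hs⟩‖ = 1 := fun s hs h =>
    norm_eq_one (by rw [norm_pow, h, one_pow]) (frob_cong hp hM0 he le_rfl σ hσ hs).2
  have hπ : ‖ζ ^ c - 1‖ = ‖ζ - 1‖ := by
    have h1 := norm_root hp0 hζ.pow_eq_one
    refine le_antisymm (norm_sub_one_le h1.le c) ?_
    obtain ⟨i, -, e⟩ := (hζ.pow_of_coprime c hc.coprime_mul_left_right).eq_pow_of_pow_eq_one
      hζ.pow_eq_one
    conv_lhs => rw [← e]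
    exact norm_sub_one_le (by rw [norm_pow, h1, one_pow]) i
  have iR : ∀ x (hx : x ∈ Rmu C (M * p ^ n)), ‖σ ⟨x, Rmu_le hx⟩‖ = ‖x‖ := fun x hx => by
    by_cases h0 : x = 0
    · subst h0; rw [show σ ⟨0, _⟩ = 0 from map_zero σ]
    obtain ⟨k, s, y, hs, hy, s1, y1, e⟩ := exists_pi_pow hp hM hn hζ hx h0
    have e' : (⟨s, Rmu_le hs⟩ * ⟨x, Rmu_le hx⟩ : FM C (M * p ^ n)) =
      (⟨ζ, Rmu_le hζR⟩ - 1) ^ k * ⟨y, Rmu_le hy⟩ := Subtype.ext e
    have a1 := congrArg norm e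
    have a2 := congrArg (fun z => ‖σ z‖) e'
    simp only [map_mul, map_pow, map_sub, map_one, norm_mul, norm_pow, unit s hs s1, unit y hy y1,
      hσ ⟨ζ, Rmu_le hζR⟩ hζ1, hπ, s1, y1, one_mul] at a1 a2
    rw [a1, a2]
  have iF : ∀ x, ‖σ x‖ = ‖x‖ := by
    rintro ⟨x, hx⟩
    obtain ⟨y, hy, z, hz, rfl⟩ := Subfield.mem_closure_iff.1 hx
    rw [show σ ⟨y / z, hx⟩ = _ from map_div₀ σ ⟨y, Rmu_le hy⟩ ⟨z, Rmu_le hz⟩, norm_div,
      iR y hy, iR z hz, ← norm_div]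
    rfl
  have mem : ∀ x, σ x ∈ KM C (M * p ^ n) := by
    rintro ⟨x, hx⟩
    refine FM_le ?_
    induction hx using Subfield.closure_induction with
    | mem ξ h => rw [hσ ⟨ξ, _⟩ h]; exact pow_mem (Subfield.subset_closure h) c
    | one => rw [show σ ⟨1, _⟩ = 1 from map_one σ]; exact one_mem _
    | add x y hx hy ix iy =>
      rw [show σ ⟨x + y, _⟩ = _ from map_add σ ⟨x, hx⟩ ⟨y, hy⟩]; exact add_mem ix iy
    | neg x hx ix => rw [show σ ⟨-x, _⟩ = _ from map_neg σ ⟨x, hx⟩]; exact neg_mem ix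
    | inv x hx ix => rw [show σ ⟨x⁻¹, _⟩ = _ from map_inv₀ σ ⟨x, hx⟩]; exact inv_mem ix
    | mul x y hx hy ix iy =>
      rw [show σ ⟨x * y, _⟩ = _ from map_mul σ ⟨x, hx⟩ ⟨y, hy⟩]; exact mul_mem ix iy
  let i := Subfield.inclusion (FM_le (C := C) (M := M * p ^ n))
  have ui : IsUniformInducing i := (show Isometry i from fun _ _ => rfl).isUniformInducing
  have di : DenseRange i := (denseRange_inclusion_iff (s := (FM C (M * p ^ n) : Set C))
    (t := KM C (M * p ^ n)) FM_le).2 subset_rfl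
  have : CompleteSpace (KM C (M * p ^ n)) :=
    (Subfield.isClosed_topologicalClosure _).completeSpace_coe
  have uf : UniformContinuous (σ.codRestrict _ mem) :=
    (AddMonoidHomClass.isometry_of_norm (σ.codRestrict _ mem) iF).uniformContinuous
  have ext : ∀ x, IsDenseInducing.extendRingHom ui di uf (i x) = σ.codRestrict _ mem x :=
    uniformly_extend_of_ind ui di uf
  refine ⟨IsDenseInducing.extendRingHom ui di uf, fun x => ?_, fun ξ hξ => ?_⟩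
  · refine di.induction_on x (isClosed_eq
      (uniformContinuous_uniformly_extend ui di uf).continuous.norm continuous_norm) fun a => ?_
    rw [ext]; exact iF a
  · have h1 : (ξ : C) ^ (M * p ^ n) = 1 := congrArg Subtype.val hξ
    exact (ext ⟨ξ, Subfield.subset_closure h1⟩).trans (Subtype.ext (hσ ⟨ξ, _⟩ h1))

theorem pow_fix {K : Type} [Field K] (σ : K →+* K) (f : ℤ[X]) (hf : f.Monic) {y : K}
    (h : aeval y f = 0) : (σ ^ f.natDegree.factorial) y = y := by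
  classical
  have hr : ∀ z, z ∈ (f.aroots K).toFinset ↔ aeval z f = 0 := fun z => by
    rw [Multiset.mem_toFinset, mem_aroots', and_iff_right (hf.map _).ne_zero]
  let g : (f.aroots K).toFinset → (f.aroots K).toFinset := fun z => ⟨σ z, (hr _).2 (by
    rw [show σ z = σ.toIntAlgHom z from rfl, aeval_algHom_apply, (hr _).1 z.2, map_zero])⟩
  have gi : Function.Injective g := fun a b e =>
    Subtype.ext (σ.injective (congrArg Subtype.val e))
  have hp := (Function.isPeriodicPt_factorial_card_of_mem_periodicPts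
    (gi.mem_periodicPts ⟨y, (hr y).2 h⟩)).trans_dvd (Nat.factorial_dvd_factorial
      (n := f.natDegree) (by
        rw [Fintype.card_coe]
        exact (Multiset.toFinset_card_le _).trans ((card_roots' _).trans natDegree_map_le)))
  have hs : Function.Semiconj Subtype.val g σ := fun _ => rfl
  rw [RingHom.coe_pow]
  exact (hs.iterate_right _ ⟨y, (hr y).2 h⟩).symm.trans (congrArg Subtype.val hp)

theorem pow_apply {K : Type} [Field K] (σ : K →+* K) {N c : ℕ}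
    (h : ∀ ξ : K, ξ ^ N = 1 → σ ξ = ξ ^ c) (i : ℕ) {ξ : K} (hξ : ξ ^ N = 1) :
    (σ ^ i) ξ = ξ ^ c ^ i := by
  induction i with
  | zero => simp
  | succ i ih => rw [pow_succ', RingHom.coe_mul, Function.comp_apply, ih, map_pow, h ξ hξ,
      ← pow_mul, pow_succ']

theorem pow_norm {K : Type} [NormedField K] (σ : K →+* K) (h : ∀ x, ‖σ x‖ = ‖x‖) (i : ℕ) (x : K) :
    ‖(σ ^ i) x‖ = ‖x‖ := by
  induction i with
  | zero => simp
  | succ i ih => rw [pow_succ', RingHom.coe_mul, Function.comp_apply, h, ih]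

theorem geom_modEq {D m : ℕ} (h : D ≡ 1 [MOD m]) (k : ℕ) :
    ∑ i ∈ Finset.range k, D ^ i ≡ k [MOD m] := by
  induction k with
  | zero => rfl
  | succ k ih => rw [Finset.sum_range_succ]; exact ih.add (by simpa using h.pow k)

theorem avg {K : Type} [Field K] {M n B : ℕ} (h1 : B ≡ 1 [MOD M]) (h2 : B ≡ 1 [MOD p ^ 2])
    (hB : 1 ≤ B) (hN : M * p ^ n ≠ 0) {ξ : K} (hξ : ξ ^ (M * p ^ n) = 1) :
    ξ ^ B = ξ ∨ ∑ i ∈ Finset.range (p ^ n), ξ ^ B ^ i = 0 := by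
  classical
  have hp : p.Prime := Fact.out
  have hD : ∀ k, 1 ≤ B ^ k := fun k => Nat.one_le_pow _ _ hB
  have fac : ∀ k, B ^ p ^ (k + 1) - 1 =
      (B ^ p ^ k - 1) * ∑ i ∈ Finset.range p, (B ^ p ^ k) ^ i := fun k => by
    rw [pow_succ p, pow_mul, mul_comm, geom_sum_mul_of_one_le (hD _)]
  have hS : ∀ k, ∃ t, ∑ i ∈ Finset.range p, (B ^ p ^ k) ^ i = p * (1 + p * t) := fun k => by
    have := geom_modEq (by simpa using h2.pow (p ^ k) : B ^ p ^ k ≡ 1 [MOD p ^ 2]) p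
    have le := Finset.card_nsmul_le_sum (Finset.range p) (fun i => (B ^ p ^ k) ^ i) 1
      fun i _ => Nat.one_le_pow _ _ (hD _)
    rw [Finset.card_range, smul_eq_mul, mul_one] at le
    obtain ⟨t, ht⟩ := (Nat.modEq_iff_dvd' le).1 this.symm
    exact ⟨t, by rw [mul_add, mul_one, ← mul_assoc, ← sq, ← ht, Nat.add_sub_cancel' le]⟩
  have dv : ∀ k, M * p ^ k ∣ B ^ p ^ k - 1 := fun k => by
    induction k with
    | zero => simpa using (Nat.modEq_iff_dvd' hB).1 h1.symm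
    | succ k ih =>
      obtain ⟨t, ht⟩ := hS k
      rw [fac, ht, pow_succ, ← mul_assoc]
      exact mul_dvd_mul ih (dvd_mul_right _ _)
  have per : ∀ η : K, η ^ (M * p ^ n) = 1 → η ^ B ^ p ^ n = η := fun η h => by
    obtain ⟨t, ht⟩ := dv n
    rw [← Nat.sub_add_cancel (hD (p ^ n)), ht, pow_succ, pow_mul, h, one_pow, one_mul]
  have tel : ∀ k, ∑ i ∈ Finset.range (p ^ n), (ξ ^ B ^ k) ^ B ^ i =
      ∑ i ∈ Finset.range (p ^ n), ξ ^ B ^ i := fun k => by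
    induction k with
    | zero => simp
    | succ k ih =>
      have e := Finset.sum_range_succ' (fun i => (ξ ^ B ^ k) ^ B ^ i) (p ^ n)
      rw [Finset.sum_range_succ, per _ (by rw [pow_right_comm, hξ, one_pow]), pow_zero, pow_one,
        add_left_inj] at e
      rw [← ih, e]
      exact Finset.sum_congr rfl fun i _ => by simp only [← pow_mul, ← pow_add]; ring_nf
  have h0 : ξ ≠ 0 := by rintro rfl; simp [zero_pow hN] at hξ
  have ex : ∃ k, ξ ^ B ^ p ^ k = ξ := ⟨n, per ξ hξ⟩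
  rcases e : Nat.find ex with _ | j
  · exact Or.inl (by simpa [e] using Nat.find_spec ex)
  have a1 := Nat.find_spec ex
  have a2 := Nat.find_min ex (j.lt_succ_self.trans_eq e.symm)
  obtain ⟨η, hη⟩ : ∃ η, η = ξ ^ (B ^ p ^ j - 1) := ⟨_, rfl⟩
  have b1 : ξ ^ B ^ p ^ j = η * ξ := by rw [hη, ← pow_succ, Nat.sub_add_cancel (hD _)]
  obtain ⟨t, ht⟩ := hS j
  have b2 : (η ^ p) ^ (1 + p * t) = 1 := by
    rw [hη, ← pow_mul, ← pow_mul, ← ht, ← fac, ← mul_left_inj' h0, ← pow_succ,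
      Nat.sub_add_cancel (hD _), ← e, a1, one_mul]
  have b3 : (η ^ p) ^ p ^ n = 1 := by
    obtain ⟨u, hu⟩ := (dvd_mul_right _ _).trans (dv j)
    rw [hη, hu, pow_right_comm, ← pow_mul ξ, mul_right_comm, pow_mul, hξ, one_pow, one_pow]
  have b4 : η ^ p = 1 := by
    have := pow_gcd_eq_one.2 ⟨b2, b3⟩
    rwa [Nat.Coprime.gcd_eq_one (Nat.Coprime.pow_right _ (by simp)), pow_one] at this
  have b5 : ∀ i, η ^ B ^ i = η := fun i => by
    obtain ⟨u, hu⟩ := (Nat.modEq_iff_dvd' (hD i)).1 (by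
      simpa using ((h2.of_dvd (dvd_pow_self p two_ne_zero)).pow i).symm : 1 ≡ B ^ i [MOD p])
    rw [← Nat.sub_add_cancel (hD i), hu, pow_succ, pow_mul, b4, one_pow, one_mul]
  have := tel (p ^ j)
  simp only [b1, mul_pow, b5, ← Finset.mul_sum] at this
  refine Or.inr (by_contra fun hs => a2 ?_)
  rw [b1, mul_left_eq_self₀.1 this |>.resolve_right hs, one_mul]

end AL

end Pool.Agent.Lib.MP_132c47_lc
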