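import Pool.Agent.Lib.MP_132c47_lc.AP2

/-! Almost purity: the trace of the valuation ring contains the maximal ideal. -/

namespace Pool.Agent.Lib.MP_132c47_lc

open KL Finset

variable {E : Type} [NormedField E] [IsUltrametricDist E] {p : ℕ} [Fact p.Prime]
variable {H : Type} [Group H] [Fintype H] [MulSemiringAction H E] [FaithfulSMul H E] [CharZero E]

namespace AP

omit [CharZero E] in
lemma exists_char (hE : Tgt p E H) [Nontrivial H] : ∃ χ : H →* Eˣ, χ ≠ 1 := by
  by_cases hA : ∃ (x : E) (h : H), x ≠ 0 ∧ 1 ≤ ‖h • x / x - 1‖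
  · obtain ⟨x, h, hx, h1⟩ := hA
    have hU : ∀ g : H, ‖g • x / x‖ = 1 := fun g => by
      rw [norm_div, hE.iso, div_self (norm_ne_zero_iff.2 hx)]
    obtain ⟨β, χ, -, -, -, hm, hχ⟩ := hE.eig (fun g => g • x / x) hU fun g k => by
      have hg : g • x ≠ 0 := norm_ne_zero_iff.1 (by rw [hE.iso]; exact norm_ne_zero_iff.2 hx)
      have : (g * k) • x / x - g • x / x * (k • x / x) =
          g • x / x * (g • (k • x / x) - k • x / x) := by
        rw [div_eq_mul_inv (k • x), smul_mul', smul_inv'', mul_smul]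
        field_simp
      rw [this]
      exact mul_lt_right (hU g).le (hE.res g _ (hU k).le)
    have hχ0 : ∀ g, χ g ≠ 0 := fun g h0 => by
      have := hχ g
      rw [h0, zero_sub, norm_neg, hU] at this
      exact lt_irrefl _ this
    refine ⟨MonoidHom.mk' (fun g => Units.mk0 (χ g) (hχ0 g)) fun a b => Units.ext (hm a b),
      fun e => ?_⟩
    have h2 : χ h = 1 := congrArg Units.val (DFunLike.congr_fun e h)
    have h3 := hχ h
    rw [h2, norm_sub_rev] at h3
    exact absurd h1 (not_le.2 h3)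
  · push Not at hA
    obtain ⟨k, e, he, hN⟩ := Nat.exists_eq_pow_mul_and_not_dvd (n := Fintype.card H)
      Fintype.card_ne_zero p (Fact.out : p.Prime).ne_one
    have hP : IsPGroup p H := by
      intro g
      refine ⟨k, ?_⟩
      set h := g ^ p ^ k with hh
      have h1 : h ^ e = 1 := by rw [hh, ← pow_mul, ← hN, pow_card_eq_one]
      refine FaithfulSMul.eq_of_smul_eq_smul (α := E) fun y => ?_
      rw [one_smul]
      by_contra hne
      have hx : y - h • y ≠ 0 := sub_ne_zero.2 (Ne.symm hne)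
      have h2 : ∑ j ∈ range e, h ^ j • (y - h • y) = 0 := by
        simp only [smul_sub, ← mul_smul, ← pow_succ]
        rw [sum_range_sub' (fun j => h ^ j • y), h1, pow_zero, sub_self]
      have h3 : ‖∑ j ∈ range e, (h ^ j • (y - h • y) / (y - h • y) - 1)‖ < 1 :=
        sum_lt _ _ one_pos fun j _ => hA _ _ hx
      rw [sum_sub_distrib, ← sum_div, h2] at h3
      simp [norm_nat_eq_one hE.vp he] at h3
    have := hP.isNilpotent
    have hlt := Group.IsSolvable.commutator_lt_top_of_nontrivial H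
    obtain ⟨a, -, ha⟩ := SetLike.exists_of_lt hlt
    have ha' : Abelianization.of a ≠ 1 := fun h0 => ha (by
      rw [← Abelianization.ker_of]; exact h0)
    have hfin : Finite (Abelianization H) :=
      Finite.of_surjective _ (QuotientGroup.mk_surjective (s := commutator H))
    have hz : NeZero (Monoid.exponent (Abelianization H)) :=
      ⟨Monoid.exponent_ne_zero_of_finite⟩
    have : HasEnoughRootsOfUnity E (Monoid.exponent (Abelianization H)) :=
      ⟨(hE.mu _ (NeZero.pos _)).imp fun _ h => h.1, inferInstance⟩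
    obtain ⟨φ, hφ⟩ := CommGroup.exists_apply_ne_one_of_hasEnoughRootsOfUnity
      (Abelianization H) E ha'
    exact ⟨φ.comp Abelianization.of, fun e => hφ (DFunLike.congr_fun e a)⟩

omit [CharZero E] in
lemma exists_char_prime (hE : Tgt p E H) [Nontrivial H] :
    ∃ (l : ℕ) (χ : H →* Eˣ), l.Prime ∧ χ ≠ 1 ∧ ∀ g, χ g ^ l = 1 := by
  obtain ⟨χ, h⟩ := exists_char hE
  have h0 : orderOf χ ≠ 0 := by
    refine (isOfFinOrder_iff_pow_eq_one.2 ⟨Fintype.card H, Fintype.card_pos, ?_⟩).orderOf_pos.ne'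
    refine MonoidHom.ext fun g => ?_
    rw [MonoidHom.pow_apply, ← map_pow, pow_card_eq_one, map_one, MonoidHom.one_apply]
  have h1 : orderOf χ ≠ 1 := fun e => h (orderOf_eq_one_iff.1 e)
  have hl := Nat.minFac_prime h1
  have h2 := orderOf_pow_orderOf_div h0 (Nat.minFac_dvd (orderOf χ))
  refine ⟨_, χ ^ (orderOf χ / (orderOf χ).minFac), hl, fun e => ?_, fun g => ?_⟩
  · rw [e, orderOf_one] at h2
    exact hl.ne_one h2.symm
  · have := pow_orderOf_eq_one (χ ^ (orderOf χ / (orderOf χ).minFac))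
    rw [h2] at this
    exact DFunLike.congr_fun this g

omit [IsUltrametricDist E] [CharZero E] in
lemma exists_eig (χ : H →* Eˣ) (hχf : ∀ g h : H, h • (χ g : E) = χ g) :
    ∃ θ : E, θ ≠ 0 ∧ ∀ g, g • θ = χ g * θ := by
  have hli : LinearIndependent E fun g : H => fun y : E => g • y := by
    refine (linearIndependent_monoidHom E E).comp (MulDistribMulAction.toMonoidHom E) ?_
    intro g h hgh
    exact FaithfulSMul.eq_of_smul_eq_smul (α := E) fun y => DFunLike.congr_fun hgh y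
  have hex : ∃ y : E, ∑ g : H, (χ g : E)⁻¹ * g • y ≠ 0 := by
    by_contra hno
    push Not at hno
    have := Fintype.linearIndependent_iff.1 hli (fun g => (χ g : E)⁻¹) (by
      funext y
      simpa [Finset.sum_apply] using hno y) 1
    exact (χ 1).ne_zero (inv_eq_zero.1 this)
  obtain ⟨y, hy⟩ := hex
  refine ⟨_, hy, fun h => ?_⟩
  rw [Finset.smul_sum, Finset.mul_sum, ← Equiv.sum_comp (Equiv.mulLeft h)
    (fun g => (χ h : E) * ((χ g : E)⁻¹ * g • y))]
  refine Finset.sum_congr rfl fun g _ => ?_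
  rw [smul_mul', smul_inv'', hχf, Equiv.coe_mulLeft, map_mul, Units.val_mul, mul_smul]
  have := (χ h).ne_zero
  have := (χ g).ne_zero
  field_simp

lemma trace_aux (n : ℕ) : ∀ (H : Type) [Group H] [Fintype H] [MulSemiringAction H E]
    [FaithfulSMul H E], Fintype.card H = n → Tgt p E H → ∀ c : E, (∀ g : H, g • c = c) →
      ‖c‖ < 1 → ∃ α : E, ‖α‖ ≤ 1 ∧ ∑ g : H, g • α = c := by
  induction n using Nat.strong_induction_on with
  | _ n ih =>
  intro H _ _ _ _ hn hE c hc h1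
  classical
  rcases subsingleton_or_nontrivial H with hs | hs
  · refine ⟨c, h1.le, ?_⟩
    rw [Fintype.sum_subsingleton _ 1, one_smul]
  obtain ⟨l, χ, hl, hχ1, hχl⟩ := exists_char_prime hE
  have := NeZero.of_pos hl.pos
  have := Fact.mk hl
  obtain ⟨s, hs1⟩ : ∃ s, χ s ≠ 1 := by
    by_contra hno
    push Not at hno
    exact hχ1 (MonoidHom.ext hno)
  have hζu : IsPrimitiveRoot (χ s) l := by
    have := IsPrimitiveRoot.orderOf (χ s)
    rwa [orderOf_eq_prime (hχl s) hs1] at this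
  have hζ : IsPrimitiveRoot (χ s : E) l := IsPrimitiveRoot.coe_units_iff.2 hζu
  have hχf : ∀ g h : H, h • (χ g : E) = χ g := by
    intro g h
    obtain ⟨ζ, h2, h3⟩ := hE.mu l hl.pos
    obtain ⟨i, -, hi⟩ := h2.eq_pow_of_pow_eq_one (ξ := (χ g : E)) (by
      rw [← Units.val_pow_eq_pow_val, hχl, Units.val_one])
    rw [← hi, smul_pow', h3]
  obtain ⟨θ, h0, hθ⟩ := exists_eig χ hχf
  have hdec : ∀ g : H, ∃ j < l, (s ^ j)⁻¹ * g ∈ χ.ker := by
    intro g
    obtain ⟨j, hj, e⟩ := hζ.eq_pow_of_pow_eq_one (ξ := (χ g : E)) (by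
      rw [← Units.val_pow_eq_pow_val, hχl, Units.val_one])
    refine ⟨j, hj, ?_⟩
    rw [MonoidHom.mem_ker, map_mul, map_inv, inv_mul_eq_one, map_pow]
    exact Units.ext (by simpa using e)
  have hC : Cyc s l (FixedPoints.subfield H E) (FixedPoints.subfield χ.ker E) := by
    refine ⟨fun x hx g => hx g, fun x hx g => ?_, fun x hx => ?_, fun x hx => hx s,
      fun x hx e g => ?_, hE.iso⟩
    · have := hx ⟨s⁻¹ * g * s, by
        have := χ.normal_ker.conj_mem _ g.2 s⁻¹
        rwa [inv_inv] at this⟩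
      change (s⁻¹ * g * s) • x = x at this
      change (g : H) • s • x = s • x
      conv_rhs => rw [← this]
      simp only [← mul_smul]
      congr 1
      group
    · exact hx ⟨s ^ l, by rw [MonoidHom.mem_ker, map_pow, hχl]⟩
    · obtain ⟨j, -, hj⟩ := hdec g
      have h2 : ((s ^ j)⁻¹ * g) • x = x := hx ⟨_, hj⟩
      have h3 : s ^ j • x = x := MulAction.mem_stabilizer_iff.1
        ((MulAction.stabilizer H x).pow_mem (MulAction.mem_stabilizer_iff.2 e) j)
      rw [mul_smul, inv_smul_eq_iff] at h2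
      rw [h2, h3]
  have hθF : θ ∈ FixedPoints.subfield χ.ker E := fun g => by
    change (g : H) • θ = θ
    rw [hθ, show χ g = 1 from g.2, Units.val_one, one_mul]
  obtain ⟨hG, hT⟩ := hC.step hl hE.vp hE.good hζ (fun g => hχf s g) hθF h0 (hθ s)
  obtain ⟨β, hβ, hβ1, hβc⟩ := hT c hc h1
  have hb : Function.Bijective fun x : Fin l × χ.ker => s ^ (x.1 : ℕ) * (x.2 : H) := by
    constructor
    · rintro ⟨i, a⟩ ⟨j, b⟩ e
      have e1 := congrArg χ e
      simp only [map_mul, map_pow, show χ a = 1 from a.2, show χ b = 1 from b.2, mul_one] at e1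
      obtain rfl : i = j := Fin.ext (hζu.pow_inj i.2 j.2 e1)
      exact Prod.ext rfl (Subtype.ext (mul_left_cancel e))
    · intro g
      obtain ⟨j, hj, h2⟩ := hdec g
      exact ⟨(⟨j, hj⟩, ⟨_, h2⟩), by simp⟩
  have hcard : Fintype.card χ.ker < n := by
    rw [← hn, ← Fintype.card_of_bijective hb, Fintype.card_prod, Fintype.card_fin]
    exact lt_mul_of_one_lt_left Fintype.card_pos hl.one_lt
  obtain ⟨α, hα, e⟩ := ih _ hcard χ.ker rfl ⟨hE.vp, fun g => hE.iso g, fun g => hE.res g,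
    fun m hm => (hE.mu m hm).imp fun ζ h => ⟨h.1, fun g => h.2 g⟩, hG⟩ β hβ hβ1
  refine ⟨α, hα, ?_⟩
  rw [← hβc, ← e, ← hb.sum_comp, Fintype.sum_prod_type, ← Fin.sum_univ_eq_sum_range
    (fun j => s ^ j • ∑ g : χ.ker, g • α)]
  refine sum_congr rfl fun j _ => ?_
  rw [smul_sum]
  exact sum_congr rfl fun g _ => mul_smul _ _ _

end AP

theorem Tgt.dense (hE : Tgt p E H) {r s : ℝ} (hr : 0 ≤ r) (hs : r < s) :
    ∃ c : E, (∀ g : H, g • c = c) ∧ r < ‖c‖ ∧ ‖c‖ < s := by
  have hpp := (Fact.out : p.Prime)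
  have hp0 : 0 < ‖(p : E)‖ := norm_pos_iff.2 (Nat.cast_ne_zero.2 hpp.ne_zero)
  have key : ∀ k : ℕ, ∃ c : E, (∀ g : H, g • c = c) ∧ ‖c‖ ^ p ^ k = ‖(p : E)‖ := by
    intro k
    induction k with
    | zero => exact ⟨p, fun g => map_natCast (MulSemiringAction.toRingHom H E g) p, by simp⟩
    | succ k ih =>
      obtain ⟨c, hc, e⟩ := ih
      obtain ⟨d, hd, e'⟩ := hE.good.val c hc
      exact ⟨d, hd, by rw [pow_succ', pow_mul, e', e]⟩
  have hs0 : 0 < s := hr.trans_lt hs
  obtain ⟨k, hk⟩ := exists_pow_lt_of_lt_one hp0 ((div_lt_one hs0).2 hs)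
  obtain ⟨c, hc, e⟩ := key k
  have hq : p ^ k ≠ 0 := pow_ne_zero _ hpp.ne_zero
  have hc1 : ‖c‖ < 1 := (pow_lt_one_iff_of_nonneg (norm_nonneg _) hq).1 (e ▸ hE.vp)
  have hc0 : 0 < ‖c‖ := by
    refine (norm_nonneg _).lt_of_ne fun h0 => ?_
    rw [← h0, zero_pow hq] at e
    exact hp0.ne e
  have h2 : r / s < ‖c‖ := by
    refine lt_of_pow_lt_pow_left₀ (p ^ k) hc0.le ?_
    rw [e]
    refine lt_of_le_of_lt ?_ hk
    exact pow_le_pow_of_le_one (by positivity) ((div_le_one hs0).2 hs.le)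
      (Nat.lt_pow_self hpp.one_lt).le
  obtain ⟨m, h3, h4⟩ := exists_mem_Ioc_zpow hs0 (one_lt_inv_iff₀.2 ⟨hc0, hc1⟩)
  refine ⟨c⁻¹ ^ m, fun g => ?_, ?_, by rwa [norm_zpow, norm_inv]⟩
  · simp [hc]
  · rw [norm_zpow, norm_inv]
    rw [zpow_add_one₀ (inv_ne_zero hc0.ne'), ← div_eq_mul_inv, le_div_iff₀ hc0] at h4
    rw [div_lt_iff₀ hs0, mul_comm] at h2
    exact h2.trans_le h4

theorem Tgt.trace (hE : Tgt p E H) {c : E} (hc : ∀ g : H, g • c = c) (h1 : ‖c‖ < 1) :
    ∃ α : E, ‖α‖ ≤ 1 ∧ ∑ g : H, g • α = c :=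
  AP.trace_aux _ H rfl hE c hc h1

end Pool.Agent.Lib.MP_132c47_lc
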