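import Pool.Agent.Lib.MP_132c47_lc.KL2

/-! Almost purity, one step of prime degree. -/

namespace Pool.Agent.Lib.MP_132c47_lc

open KL Finset

namespace AP

variable {E : Type} [NormedField E] [IsUltrametricDist E] {p : ℕ} [Fact p.Prime]

lemma add_pow_err {x y : E} {a : ℝ} (ha : 0 ≤ a)
    (h : ∀ k, 0 < k → k < p → ‖x ^ k * y ^ (p - k)‖ ≤ a) :
    ‖(x + y) ^ p - (x ^ p + y ^ p)‖ ≤ ‖(p : E)‖ * a := by
  rw [add_pow_prime_eq' (Fact.out : p.Prime) x y, add_sub_cancel_left, norm_mul]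
  refine mul_le_mul_of_nonneg_left (sum_le _ _ ha fun k hk => ?_) (norm_nonneg _)
  rw [mem_Ioo] at hk
  exact mul_le_left (h k hk.1 hk.2) (nat_le _)

lemma add_pow_err' {x y : E} {M : ℝ} (hx : ‖x‖ ≤ M) (hy : ‖y‖ ≤ M) :
    ‖(x + y) ^ p - (x ^ p + y ^ p)‖ ≤ ‖(p : E)‖ * M ^ p := by
  have hM : 0 ≤ M := (norm_nonneg _).trans hx
  refine add_pow_err (by positivity) fun k _ hk => ?_
  rw [norm_mul, norm_pow, norm_pow]
  calc ‖x‖ ^ k * ‖y‖ ^ (p - k) ≤ M ^ k * M ^ (p - k) := by gcongr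
    _ = M ^ p := by rw [← pow_add]; congr 1; omega

lemma one_add_pow_err {y : E} (hy : ‖y‖ ≤ 1) :
    ‖(1 + y) ^ p - (1 + y ^ p)‖ ≤ ‖(p : E)‖ * ‖y‖ := by
  have := add_pow_err (p := p) (x := 1) (y := y) (norm_nonneg y) fun k _ hk => by
    rw [one_pow, one_mul, norm_pow]
    exact pow_le_of_le_one (norm_nonneg _) hy (by omega)
  rwa [one_pow] at this

lemma sum_pow_err {ι : Type} (s : Finset ι) (u : ι → E) {M : ℝ} (hM : 0 ≤ M)
    (h : ∀ i ∈ s, ‖u i‖ ≤ M) :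
    ‖(∑ i ∈ s, u i) ^ p - ∑ i ∈ s, u i ^ p‖ ≤ ‖(p : E)‖ * M ^ p := by
  classical
  induction s using Finset.induction_on with
  | empty => simp [(Fact.out : p.Prime).ne_zero]; positivity
  | insert a s ha ih =>
    rw [sum_insert ha, sum_insert ha]
    have h1 := add_pow_err' (p := p) (h a (mem_insert_self _ _))
      (sum_le s u hM fun i hi => h i (mem_insert_of_mem hi))
    have h2 := ih fun i hi => h i (mem_insert_of_mem hi)
    have := add_le h1 h2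
    convert this using 2
    ring

omit [IsUltrametricDist E] in
/-- Multiplicative form of the surjectivity of Frobenius. -/
lemma good_mul {K : Subfield E} (hK : Good p (K : Set E)) {a : E} (ha : a ∈ K) :
    ∃ y ∈ K, ‖a - y ^ p‖ ≤ ‖(p : E)‖ * ‖a‖ := by
  by_cases h0 : a = 0
  · exact ⟨0, K.zero_mem, by simp [h0, (Fact.out : p.Prime).ne_zero]⟩
  obtain ⟨c, hc, e⟩ := hK.val a ha
  have hc0 : c ≠ 0 := by
    rintro rfl
    rw [norm_zero, zero_pow (Fact.out : p.Prime).ne_zero] at e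
    exact h0 (norm_eq_zero.1 e.symm)
  have hn : ‖a / c ^ p‖ ≤ 1 := by
    rw [norm_div, norm_pow, e, div_self (norm_ne_zero_iff.2 h0)]
  obtain ⟨y, hy, h⟩ := hK.frob (a / c ^ p) (K.div_mem ha (K.pow_mem hc p)) hn
  refine ⟨c * y, K.mul_mem hc hy, ?_⟩
  have : a - (c * y) ^ p = (a / c ^ p - y ^ p) * c ^ p := by rw [mul_pow]; field_simp
  rw [this, norm_mul, norm_pow, e]
  gcongr

omit [Fact p.Prime] in
lemma norm_pow_le_of_near (hp : ‖(p : E)‖ < 1) {a y : E}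
    (h : ‖a - y ^ p‖ ≤ ‖(p : E)‖ * ‖a‖) : ‖y‖ ^ p ≤ ‖a‖ := by
  have h1 : ‖a - y ^ p‖ ≤ ‖a‖ := h.trans (mul_le_of_le_one_left (norm_nonneg _) hp.le)
  have := sub_le (le_refl ‖a‖) h1
  rwa [sub_sub_cancel, norm_pow] at this

/-- A uniform weak approximation by `p`-th powers can be improved. -/
lemma good_of_weak (hp0 : (p : E) ≠ 0) {F : Subfield E}
    (hv : ∀ x ∈ F, ∃ c ∈ F, ‖c‖ ^ p = ‖x‖) {δ : ℝ} (h0 : 0 ≤ δ) (h1 : δ < 1)
    (hw : ∀ x ∈ F, ‖x‖ ≤ 1 → ∃ y ∈ F, ‖x - y ^ p‖ ≤ δ) : Good p (F : Set E) := by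
  have hpp := (Fact.out : p.Prime).ne_zero
  have le1 : ∀ {x y : E} {r : ℝ}, ‖x‖ ≤ 1 → r ≤ 1 → ‖x - y ^ p‖ ≤ r → ‖y‖ ≤ 1 := by
    intro x y r hx hr h
    have := sub_le hx (h.trans hr)
    rw [sub_sub_cancel, norm_pow] at this
    exact (pow_le_one_iff_of_nonneg (norm_nonneg _) hpp).1 this
  refine ⟨hv, fun x hx hx1 => ?_⟩
  have key : ∀ n : ℕ, ∃ y ∈ F, ‖x - y ^ p‖ ≤ max (δ ^ n) ‖(p : E)‖ := by
    intro n
    induction n with
    | zero => exact ⟨0, F.zero_mem, by simp [hpp, hx1]⟩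
    | succ n ih =>
      obtain ⟨y, hy, h⟩ := ih
      have hm : max (δ ^ n) ‖(p : E)‖ ≤ 1 := max_le (pow_le_one₀ h0 h1.le) (nat_le p)
      by_cases e0 : x - y ^ p = 0
      · exact ⟨y, hy, by rw [e0, norm_zero]; positivity⟩
      have hd : x - y ^ p ∈ F := F.sub_mem hx (F.pow_mem hy p)
      obtain ⟨c, hc, e⟩ := hv _ hd
      have hc0 : c ≠ 0 := by
        rintro rfl
        rw [norm_zero, zero_pow hpp] at e
        exact e0 (norm_eq_zero.1 e.symm)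
      have hn : ‖(x - y ^ p) / c ^ p‖ ≤ 1 := by
        rw [norm_div, norm_pow, e, div_self (norm_ne_zero_iff.2 e0)]
      obtain ⟨z, hz, h2⟩ := hw _ (F.div_mem hd (F.pow_mem hc p)) hn
      have hc1 : ‖c‖ ≤ 1 := (pow_le_one_iff_of_nonneg (norm_nonneg _) hpp).1 (e ▸ h.trans hm)
      have h3 := add_pow_err' (p := p) (le1 hx1 hm h) (mul_le_left hc1 (le1 hn h1.le h2))
      rw [one_pow, mul_one] at h3
      refine ⟨y + c * z, F.add_mem hy (F.mul_mem hc hz), ?_⟩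
      have e2 : x - (y + c * z) ^ p = ((x - y ^ p) / c ^ p - z ^ p) * c ^ p -
          ((y + c * z) ^ p - (y ^ p + (c * z) ^ p)) := by field_simp; ring
      rw [e2]
      refine sub_le ?_ (h3.trans (le_max_right _ _))
      rw [norm_mul, norm_pow, e]
      calc _ ≤ δ * max (δ ^ n) ‖(p : E)‖ := by gcongr
        _ ≤ _ := by
          rw [mul_max_of_nonneg _ _ h0, pow_succ']
          exact max_le_max le_rfl (mul_le_of_le_one_left (norm_nonneg _) h1.le)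
  obtain ⟨n, hn⟩ := exists_pow_lt_of_lt_one (norm_pos_iff.2 hp0) h1
  obtain ⟨y, hy, h⟩ := key n
  exact ⟨y, hy, h.trans (max_le hn.le le_rfl)⟩

omit [Fact p.Prime] in
lemma norm_pow_sub_one_le {ζ : E} (h : ‖ζ‖ ≤ 1) (k : ℕ) : ‖1 - ζ ^ k‖ ≤ ‖1 - ζ‖ := by
  rw [← mul_neg_geom_sum]
  exact mul_le_left le_rfl (sum_le _ _ zero_le_one fun i _ => pow_le h i)

omit [IsUltrametricDist E] [Fact p.Prime] in
lemma norm_root {ζ : E} {l : ℕ} (hl : l ≠ 0) (h : ζ ^ l = 1) : ‖ζ‖ = 1 := by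
  have := congrArg norm h
  rw [norm_pow, norm_one] at this
  exact (pow_eq_one_iff_of_nonneg (norm_nonneg _) hl).1 this

lemma norm_one_sub_pow {ζ : E} (hζ : IsPrimitiveRoot ζ p) {k : ℕ} (h0 : 0 < k) (hk : k < p) :
    ‖1 - ζ ^ k‖ = ‖1 - ζ‖ := by
  have hp := (Fact.out : p.Prime)
  have h1 := norm_root hp.ne_zero hζ.pow_eq_one
  refine le_antisymm (norm_pow_sub_one_le h1.le k) ?_
  have h2 : IsPrimitiveRoot (ζ ^ k) p :=
    hζ.pow_of_coprime k (Nat.coprime_of_lt_prime h0.ne' hk hp).symm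
  have := NeZero.of_pos hp.pos
  obtain ⟨i, -, hi⟩ := h2.eq_pow_of_pow_eq_one hζ.pow_eq_one
  conv_lhs => rw [← hi]
  exact norm_pow_sub_one_le (pow_le h1.le k) i

lemma norm_pi {ζ : E} (hζ : IsPrimitiveRoot ζ p) : ‖1 - ζ‖ ^ (p - 1) = ‖(p : E)‖ := by
  have hp := (Fact.out : p.Prime)
  obtain ⟨n, rfl⟩ : ∃ n, p = n + 1 := ⟨p - 1, by have := hp.pos; omega⟩
  have := congrArg norm hζ.prod_one_sub_pow_eq_order
  rw [norm_prod, prod_congr rfl fun k hk => norm_one_sub_pow hζ (Nat.succ_pos k)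
    (by simpa using hk), prod_const, card_range] at this
  simpa using this

/-- A unit of a good field is a `p`-th power times an element very close to one. -/
lemma kummer_norm (hp : ‖(p : E)‖ < 1) {ζ : E} (hζ : IsPrimitiveRoot ζ p) {K : Subfield E}
    (hK : Good p (K : Set E)) {a : E} (ha : a ∈ K) (ha0 : a ≠ 0) {t : ℝ} (ht : 1 < t) :
    ∃ y ∈ K, y ≠ 0 ∧ ‖a / y ^ p - 1‖ ≤ (‖1 - ζ‖ * t) ^ p ∧ ‖a / y ^ p - 1‖ < 1 := by
  have hpp := (Fact.out : p.Prime)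
  have hπ : 0 < ‖1 - ζ‖ := norm_pos_iff.2 (sub_ne_zero.2 (hζ.ne_one hpp.one_lt).symm)
  set π := ‖1 - ζ‖ with hπd
  have hπp : π ^ p = ‖(p : E)‖ * π := by
    rw [← norm_pi hζ, ← pow_succ, Nat.sub_add_cancel hpp.pos]
  have key : ∀ n : ℕ, ∃ y ∈ K, y ≠ 0 ∧ ‖a / y ^ p - 1‖ ≤ ‖(p : E)‖ ∧
      (‖a / y ^ p - 1‖ / π ^ p) ^ p ^ n ≤ ‖(p : E)‖ / π ^ p := by
    intro n
    induction n with
    | zero =>
      obtain ⟨y, hy, h⟩ := good_mul hK ha
      have h1 : ‖y ^ p‖ = ‖a‖ := norm_eq_of_sub_lt (by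
        rw [norm_sub_rev]
        exact h.trans_lt (mul_lt_of_lt_one_left (norm_pos_iff.2 ha0) hp))
      have hy0 : y ≠ 0 := by
        rintro rfl
        rw [zero_pow hpp.ne_zero, norm_zero] at h1
        exact ha0 (norm_eq_zero.1 h1.symm)
      have h2 : ‖a / y ^ p - 1‖ ≤ ‖(p : E)‖ := by
        have : a / y ^ p - 1 = (a - y ^ p) / y ^ p := by field_simp
        rw [this, norm_div, h1, div_le_iff₀ (norm_pos_iff.2 ha0)]
        exact h
      exact ⟨y, hy, hy0, h2, by rw [pow_zero, pow_one]; gcongr⟩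
    | succ n ih =>
      obtain ⟨y, hy, hy0, h1, h2⟩ := ih
      set c := a / y ^ p - 1 with hc
      have hcK : c ∈ K := K.sub_mem (K.div_mem ha (K.pow_mem hy p)) K.one_mem
      obtain ⟨z, hz, h3⟩ := good_mul hK hcK
      have h4 := norm_pow_le_of_near hp h3
      have hz1 : ‖z‖ < 1 :=
        (pow_lt_one_iff_of_nonneg (norm_nonneg _) hpp.ne_zero).1 (h4.trans_lt (h1.trans_lt hp))
      have h5 : ‖1 + z‖ = 1 := by
        have : ‖1 + z‖ = ‖(1 : E)‖ := norm_eq_of_sub_lt (by simpa using hz1)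
        rw [this, norm_one]
      have hz0 : 1 + z ≠ 0 := norm_ne_zero_iff.1 (by rw [h5]; exact one_ne_zero)
      have e : a / (y * (1 + z)) ^ p - 1 =
          ((c - z ^ p) - ((1 + z) ^ p - (1 + z ^ p))) / (1 + z) ^ p := by
        rw [hc, mul_pow]; field_simp; ring
      obtain ⟨r, hr0, hr⟩ : ∃ r : ℝ, 0 ≤ r ∧ r ^ p = ‖c‖ :=
        ⟨‖c‖ ^ ((p : ℝ)⁻¹), by positivity, Real.rpow_inv_natCast_pow (norm_nonneg _) hpp.ne_zero⟩
      have hr1 : r ≤ 1 :=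
        (pow_le_one_iff_of_nonneg hr0 hpp.ne_zero).1 (hr ▸ h1.trans hp.le)
      have h6 : ‖a / (y * (1 + z)) ^ p - 1‖ ≤ ‖(p : E)‖ * r := by
        rw [e, norm_div, norm_pow, h5, one_pow, div_one]
        refine sub_le (h3.trans ?_) ((one_add_pow_err hz1.le).trans ?_)
        · gcongr
          rw [← hr]
          exact pow_le_of_le_one hr0 hr1 hpp.ne_zero
        · gcongr
          exact le_of_pow_le_pow_left₀ hpp.ne_zero hr0 (hr ▸ h4)
      refine ⟨y * (1 + z), K.mul_mem hy (K.add_mem K.one_mem hz), mul_ne_zero hy0 hz0,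
        h6.trans (mul_le_of_le_one_right (norm_nonneg _) hr1), le_trans ?_ h2⟩
      rw [pow_succ', pow_mul]
      refine pow_le_pow_left₀ (by positivity) ?_ _
      rw [← hr, ← div_pow]
      refine pow_le_pow_left₀ (by positivity) ?_ _
      rw [div_le_div_iff₀ (by positivity) hπ, hπp]
      calc _ ≤ ‖(p : E)‖ * r * π := by gcongr
        _ = _ := by ring
  obtain ⟨n, hn⟩ := pow_unbounded_of_one_lt (‖(p : E)‖ / π ^ p) ht
  obtain ⟨y, hy, hy0, h1, h2⟩ := key n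
  refine ⟨y, hy, hy0, ?_, h1.trans_lt hp⟩
  have h3 : (‖a / y ^ p - 1‖ / π ^ p) ^ p ^ n < t ^ p ^ n :=
    h2.trans_lt (hn.trans_le (pow_le_pow_right₀ ht.le (Nat.lt_pow_self hpp.one_lt).le))
  have h4 := lt_of_pow_lt_pow_left₀ _ (by positivity) h3
  rw [div_lt_iff₀ (by positivity)] at h4
  rw [mul_pow, mul_comm]
  refine h4.le.trans ?_
  gcongr
  exact le_self_pow₀ ht.le hpp.ne_zero

lemma root_near {ζ θ : E} (hζ : IsPrimitiveRoot ζ p) {t : ℝ} (ht : 1 ≤ t)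
    (h : ‖θ ^ p - 1‖ ≤ (‖1 - ζ‖ * t) ^ p) (h1 : ‖θ ^ p - 1‖ < 1) :
    ‖θ‖ = 1 ∧ ‖θ - 1‖ ≤ ‖1 - ζ‖ * t := by
  have hpp := (Fact.out : p.Prime)
  have hθ : ‖θ‖ = 1 := by
    have : ‖θ ^ p‖ = ‖(1 : E)‖ := norm_eq_of_sub_lt (by simpa using h1)
    rw [norm_pow, norm_one] at this
    exact (pow_eq_one_iff_of_nonneg (norm_nonneg _) hpp.ne_zero).1 this
  refine ⟨hθ, ?_⟩
  have hu : ‖θ - 1‖ ≤ 1 := sub_le hθ.le (by simp)
  have h2 := one_add_pow_err (p := p) hu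
  rw [add_sub_cancel] at h2
  by_contra hc
  push Not at hc
  have hπ : ‖1 - ζ‖ < ‖θ - 1‖ :=
    (le_mul_of_one_le_right (norm_nonneg _) ht).trans_lt hc
  have h3 : ‖(θ - 1) ^ p‖ < ‖θ - 1‖ ^ p := by
    have e : (θ - 1) ^ p = (θ ^ p - 1) - (θ ^ p - (1 + (θ - 1) ^ p)) := by ring
    rw [e]
    refine sub_lt (h.trans_lt (pow_lt_pow_left₀ hc (by positivity) hpp.ne_zero)) (h2.trans_lt ?_)
    rw [← norm_pi hζ]
    have h4 : ‖θ - 1‖ ^ p = ‖θ - 1‖ ^ (p - 1) * ‖θ - 1‖ := by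
      rw [← pow_succ, Nat.sub_add_cancel hpp.pos]
    rw [h4]
    exact mul_lt_mul_of_pos_right
      (pow_lt_pow_left₀ hπ (norm_nonneg _) (by have := hpp.two_le; omega))
      ((norm_nonneg _).trans_lt hπ)
  rw [norm_pow] at h3
  exact lt_irrefl _ h3

end AP

end Pool.Agent.Lib.MP_132c47_lc
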