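import Pool.Agent.Lib.MP_132c47_lc.AP1

/-! Almost purity for a cyclic Kummer extension of prime degree. -/

namespace Pool.Agent.Lib.MP_132c47_lc

open KL Finset

namespace AP

variable {E : Type} [NormedField E] {H : Type} [Group H] [MulSemiringAction H E]

/-- Functions of `j` of the form `∑ a i * s ^ j • b i` with bounded terms. -/
def Sep (s : H) (F : Subfield E) (M : ℝ) (f : ℕ → E) : Prop :=
  ∃ (ι : Type) (_ : Fintype ι) (a b : ι → E), (∀ i, a i ∈ F ∧ b i ∈ F ∧ ‖a i‖ * ‖b i‖ ≤ M) ∧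
    ∀ j, f j = ∑ i, a i * s ^ j • b i

variable {s : H} {F : Subfield E}

lemma Sep.single {M : ℝ} {a b : E} (ha : a ∈ F) (hb : b ∈ F) (h : ‖a‖ * ‖b‖ ≤ M) :
    Sep s F M fun j => a * s ^ j • b :=
  ⟨Unit, inferInstance, fun _ => a, fun _ => b, fun _ => ⟨ha, hb, h⟩, fun j => by simp⟩

lemma Sep.add {M : ℝ} {f g : ℕ → E} (hf : Sep s F M f) (hg : Sep s F M g) :
    Sep s F M fun j => f j + g j := by
  obtain ⟨ι, _, a, b, h, e⟩ := hf
  obtain ⟨κ, _, a', b', h', e'⟩ := hg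
  refine ⟨ι ⊕ κ, inferInstance, Sum.elim a a', Sum.elim b b', ?_, fun j => ?_⟩
  · rintro (i | i)
    · exact h i
    · exact h' i
  · rw [Fintype.sum_sum_type]
    simp [e, e']

lemma Sep.mul {M N : ℝ} {f g : ℕ → E} (hM : 0 ≤ M) (hf : Sep s F M f) (hg : Sep s F N g) :
    Sep s F (M * N) fun j => f j * g j := by
  obtain ⟨ι, _, a, b, h, e⟩ := hf
  obtain ⟨κ, _, a', b', h', e'⟩ := hg
  refine ⟨ι × κ, inferInstance, fun x => a x.1 * a' x.2, fun x => b x.1 * b' x.2, ?_, fun j => ?_⟩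
  · rintro ⟨i, k⟩
    refine ⟨F.mul_mem (h i).1 (h' k).1, F.mul_mem (h i).2.1 (h' k).2.1, ?_⟩
    rw [norm_mul, norm_mul, mul_mul_mul_comm]
    exact mul_le_mul (h i).2.2 (h' k).2.2 (by positivity) hM
  · simp only [e, e']
    rw [Fintype.sum_prod_type, sum_mul_sum]
    refine sum_congr rfl fun i _ => sum_congr rfl fun k _ => ?_
    rw [smul_mul']
    ring

lemma Sep.prod {t : ℝ} (ht : 0 ≤ t) {f : ℕ → ℕ → E} (n : ℕ) (hf : ∀ k < n, Sep s F t (f k)) :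
    Sep s F (t ^ n) fun j => ∏ k ∈ range n, f k j := by
  induction n with
  | zero =>
    have := Sep.single (s := s) (M := 1) F.one_mem F.one_mem (by simp)
    simpa using this
  | succ n ih =>
    have := Sep.mul (pow_nonneg ht n) (ih fun k hk => hf k (by omega)) (hf n (by omega))
    simpa [prod_range_succ, pow_succ] using this

lemma Sep.mono {M N : ℝ} {f : ℕ → E} (hf : Sep s F M f) (h : M ≤ N) : Sep s F N f := by
  obtain ⟨ι, _, a, b, h1, e⟩ := hf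
  exact ⟨ι, inferInstance, a, b, fun i => ⟨(h1 i).1, (h1 i).2.1, (h1 i).2.2.trans h⟩, e⟩

lemma exists_gt_one {a : ℝ} (ha : a < 1) (n : ℕ) : ∃ M : ℝ, 1 < M ∧ a * M ^ n < 1 := by
  have h0 : ContinuousAt (fun M : ℝ => a * M ^ n) 1 := by fun_prop
  have h := h0.eventually_lt (g := fun _ => (1 : ℝ)) continuousAt_const (by simpa using ha)
  obtain ⟨M, h1, h2⟩ := ((h.filter_mono nhdsWithin_le_nhds).and
    (self_mem_nhdsWithin (s := Set.Ioi (1 : ℝ)))).exists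
  exact ⟨M, h2, h1⟩

/-- The data of a cyclic step. -/
structure Cyc (s : H) (l : ℕ) (K F : Subfield E) : Prop where
  le : K ≤ F
  cl : ∀ x ∈ F, s • x ∈ F
  ord : ∀ x ∈ F, s ^ l • x = x
  fix : ∀ x ∈ K, s • x = x
  mem : ∀ x ∈ F, s • x = x → x ∈ K
  iso : ∀ (g : H) (x : E), ‖g • x‖ = ‖x‖

variable {l : ℕ} {K : Subfield E}

lemma Cyc.pow_mem (h : Cyc s l K F) {x : E} (hx : x ∈ F) (j : ℕ) : s ^ j • x ∈ F := by
  induction j with
  | zero => simpa using hx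
  | succ j ih => rw [pow_succ', mul_smul]; exact h.cl _ ih

lemma Cyc.pow_fix (h : Cyc s l K F) {x : E} (hx : x ∈ K) (j : ℕ) : s ^ j • x = x := by
  induction j with
  | zero => simp
  | succ j ih => rw [pow_succ', mul_smul, ih, h.fix x hx]

lemma Cyc.tr_mem (h : Cyc s l K F) {x : E} (hx : x ∈ F) : ∑ j ∈ range l, s ^ j • x ∈ K := by
  refine h.mem _ (F.sum_mem fun j _ => h.pow_mem hx j) ?_
  rw [smul_sum]
  simp only [← mul_smul, ← pow_succ']
  have := (sum_range_succ (fun j => s ^ j • x) l).symm.trans (sum_range_succ' _ l)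
  rw [h.ord x hx, pow_zero, one_smul] at this
  exact (add_right_cancel this).symm

lemma Cyc.nm_mem (h : Cyc s l K F) {x : E} (hx : x ∈ F) (h0 : x ≠ 0) :
    ∏ j ∈ range l, s ^ j • x ∈ K := by
  refine h.mem _ (F.prod_mem fun j _ => h.pow_mem hx j) ?_
  rw [smul_prod']
  simp only [← mul_smul, ← pow_succ']
  have := (prod_range_succ (fun j => s ^ j • x) l).symm.trans (prod_range_succ' _ l)
  rw [h.ord x hx, pow_zero, one_smul] at this
  exact (mul_right_cancel₀ h0 this).symm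

variable {p : ℕ} [Fact p.Prime]

lemma Cyc.val (h : Cyc s l K F) (hl : l.Prime) (hK : Good p (K : Set E)) {x : E} (hx : x ∈ F) :
    ∃ c ∈ F, ‖c‖ ^ p = ‖x‖ := by
  have hp := (Fact.out : p.Prime)
  by_cases h0 : x = 0
  · exact ⟨0, F.zero_mem, by simp [h0, hp.ne_zero]⟩
  obtain ⟨c, hc, e⟩ := hK.val _ (h.nm_mem hx h0)
  rw [norm_prod, prod_congr rfl fun j _ => h.iso (s ^ j) x, prod_const, card_range] at e
  by_cases hlp : l = p
  · subst hlp
    obtain ⟨d, hd, e'⟩ := hK.val c hc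
    refine ⟨d, h.le hd, e'.trans ?_⟩
    exact (pow_left_inj₀ (norm_nonneg _) (norm_nonneg _) hp.ne_zero).1 e
  · obtain ⟨u, w, huw⟩ : IsCoprime (l : ℤ) (p : ℤ) :=
      Nat.isCoprime_iff_coprime.2 ((Nat.coprime_primes hl hp).2 hlp)
    refine ⟨c ^ u * x ^ w, F.mul_mem (F.zpow_mem (h.le hc) u) (F.zpow_mem hx w), ?_⟩
    have hx0 := norm_ne_zero_iff.2 h0
    rw [norm_mul, norm_zpow, norm_zpow, mul_pow, ← zpow_natCast, ← zpow_natCast, ← zpow_mul,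
      mul_comm u, zpow_mul, zpow_natCast, e, ← zpow_natCast, ← zpow_mul, ← zpow_mul,
      ← zpow_add₀ hx0, mul_comm (l : ℤ), huw, zpow_one]

variable [IsUltrametricDist E]

lemma Cyc.trace (h : Cyc s l K F) (hl : 0 < l) {M : ℝ} {f : ℕ → E} (hf : Sep s F M f)
    (hδ : ∀ j < l, f j = if j = 0 then 1 else 0) {c : E} (hc : c ∈ K) :
    ∃ β ∈ F, ‖β‖ ≤ ‖c‖ * M ∧ ∑ j ∈ range l, s ^ j • β = c := by
  obtain ⟨ι, _, a, b, h1, e⟩ := hf
  have h2 : ∑ i, a i * ∑ j ∈ range l, s ^ j • b i = 1 := by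
    simp only [mul_sum]
    rw [sum_comm, sum_congr rfl fun j hj => (e j).symm.trans (hδ j (mem_range.1 hj))]
    simp [hl]
  obtain ⟨i, hi⟩ : ∃ i, 1 ≤ ‖a i * ∑ j ∈ range l, s ^ j • b i‖ := by
    by_contra hno
    push Not at hno
    have := sum_lt univ _ one_pos fun i _ => hno i
    rw [h2, norm_one] at this
    exact lt_irrefl _ this
  set T := ∑ j ∈ range l, s ^ j • b i with hT
  have hTK : T ∈ K := h.tr_mem (h1 i).2.1
  have hT0 : T ≠ 0 := by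
    intro h0
    rw [h0, mul_zero, norm_zero] at hi
    exact absurd hi (by norm_num)
  refine ⟨c / T * b i, F.mul_mem (h.le (K.div_mem hc hTK)) (h1 i).2.1, ?_, ?_⟩
  · rw [norm_mul, norm_div, div_mul_eq_mul_div, div_le_iff₀ (norm_pos_iff.2 hT0), mul_assoc]
    refine mul_le_mul_of_nonneg_left ?_ (norm_nonneg _)
    rw [norm_mul] at hi
    calc ‖b i‖ ≤ ‖b i‖ * (‖a i‖ * ‖T‖) := le_mul_of_one_le_right (norm_nonneg _) hi
      _ = ‖a i‖ * ‖b i‖ * ‖T‖ := by ring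
      _ ≤ _ := mul_le_mul_of_nonneg_right (h1 i).2.2 (norm_nonneg _)
  · simp only [smul_mul', h.pow_fix (K.div_mem hc hTK)]
    rw [← mul_sum, ← hT, div_mul_cancel₀ _ hT0]

lemma Cyc.weak (h : Cyc s l K F) (hl : 0 < l) (hp : ‖(p : E)‖ < 1) (hK : Good p (K : Set E))
    {M : ℝ} (hM : 0 ≤ M) {f : ℕ → E} (hf : Sep s F M f)
    (hδ : ∀ j < l, f j = if j = 0 then 1 else 0) {x : E} (hx : x ∈ F) (hx1 : ‖x‖ ≤ 1) :
    ∃ y ∈ F, ‖x - y ^ p‖ ≤ ‖(p : E)‖ * M ^ p := by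
  have hpp := (Fact.out : p.Prime).ne_zero
  obtain ⟨ι, _, a, b, h1, e⟩ := hf
  set T : ι → E := fun i => ∑ j ∈ range l, s ^ j • (b i ^ p * x) with hT
  have hTK : ∀ i, T i ∈ K := fun i => h.tr_mem (F.mul_mem (F.pow_mem (h1 i).2.1 p) hx)
  have hTn : ∀ i, ‖T i‖ ≤ ‖b i‖ ^ p := fun i => sum_le _ _ (by positivity) fun j _ => by
    rw [h.iso]; exact mul_le_left (norm_pow _ _).le hx1
  have hab : ∀ i, ‖a i‖ ^ p * ‖T i‖ ≤ M ^ p := fun i => by
    calc _ ≤ ‖a i‖ ^ p * ‖b i‖ ^ p := mul_le_mul_of_nonneg_left (hTn i) (by positivity)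
      _ ≤ _ := by rw [← mul_pow]; exact pow_le_pow_left₀ (by positivity) (h1 i).2.2 p
  choose y hy hy' using fun i => good_mul hK (hTK i)
  refine ⟨∑ i, a i * y i, F.sum_mem fun i _ => F.mul_mem (h1 i).1 (h.le (hy i)), ?_⟩
  have h2 : ‖(∑ i, a i * y i) ^ p - ∑ i, (a i * y i) ^ p‖ ≤ ‖(p : E)‖ * M ^ p := by
    refine sum_pow_err _ _ hM fun i _ => le_of_pow_le_pow_left₀ hpp hM ?_
    rw [norm_mul, mul_pow]
    exact (mul_le_mul_of_nonneg_left (norm_pow_le_of_near hp (hy' i)) (by positivity)).trans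
      (hab i)
  have h3 : ‖∑ i, (a i ^ p * T i - (a i * y i) ^ p)‖ ≤ ‖(p : E)‖ * M ^ p := by
    refine sum_le _ _ (by positivity) fun i _ => ?_
    rw [mul_pow, ← mul_sub, norm_mul, norm_pow]
    calc _ ≤ ‖a i‖ ^ p * (‖(p : E)‖ * ‖T i‖) := mul_le_mul_of_nonneg_left (hy' i) (by positivity)
      _ = ‖(p : E)‖ * (‖a i‖ ^ p * ‖T i‖) := by ring
      _ ≤ _ := mul_le_mul_of_nonneg_left (hab i) (norm_nonneg _)
  have h4 : ‖∑ j ∈ range l, (f j ^ p - ∑ i, (a i * s ^ j • b i) ^ p) * s ^ j • x‖ ≤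
      ‖(p : E)‖ * M ^ p := by
    refine sum_le _ _ (by positivity) fun j _ => mul_le_left ?_ (by rwa [h.iso])
    rw [e j]
    refine sum_pow_err _ _ hM fun i _ => ?_
    rw [norm_mul, h.iso]
    exact (h1 i).2.2
  have h5 : ∑ j ∈ range l, f j ^ p * s ^ j • x = x := by
    rw [sum_congr rfl fun j hj => by rw [hδ j (mem_range.1 hj)]]
    simp [hl, hpp]
  have h6 : ∑ j ∈ range l, (∑ i, (a i * s ^ j • b i) ^ p) * s ^ j • x = ∑ i, a i ^ p * T i := by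
    simp only [hT, sum_mul, mul_sum]
    rw [sum_comm]
    refine sum_congr rfl fun i _ => sum_congr rfl fun j _ => ?_
    rw [smul_mul', smul_pow']
    ring
  simp only [sub_mul, sum_sub_distrib] at h3 h4
  rw [h5, h6] at h4
  have := sub_le (add_le h4 h3) h2
  convert this using 2
  ring

omit [IsUltrametricDist E] in
lemma pow_smul_eig {ζ θ : E} (hζ : s • ζ = ζ) (hθ : s • θ = ζ * θ) (j : ℕ) :
    s ^ j • θ = ζ ^ j * θ := by
  induction j with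
  | zero => simp
  | succ j ih => rw [pow_succ', mul_smul, ih, smul_mul', smul_pow', hζ, hθ]; ring

lemma Cyc.tame (h : Cyc s l K F) (hl : l.Prime) (hlp : l ≠ p) (hp : ‖(p : E)‖ < 1) {ζ θ : E}
    (hζ : IsPrimitiveRoot ζ l) (hζK : ζ ∈ K) (hθF : θ ∈ F) (h0 : θ ≠ 0) (hθ : s • θ = ζ * θ) :
    ∃ f, Sep s F 1 f ∧ ∀ j < l, f j = if j = 0 then 1 else 0 := by
  have hn : ‖(l : E)‖ = 1 := norm_nat_eq_one hp fun hd =>
    hlp ((Nat.prime_dvd_prime_iff_eq (Fact.out : p.Prime) hl).1 hd).symm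
  have hl0 : (l : E) ≠ 0 := norm_ne_zero_iff.1 (by rw [hn]; exact one_ne_zero)
  refine ⟨_, ⟨Fin l, inferInstance, fun i => (θ ^ (i : ℕ) * l)⁻¹, fun i => θ ^ (i : ℕ),
    fun i => ⟨F.inv_mem (F.mul_mem (F.pow_mem hθF _) (natCast_mem F l)), F.pow_mem hθF _, ?_⟩,
    fun j => rfl⟩, fun j hj => ?_⟩
  · rw [norm_inv, norm_mul, hn, mul_one, inv_mul_cancel₀ (norm_ne_zero_iff.2 (pow_ne_zero _ h0))]
  · have e : ∀ i : Fin l, (θ ^ (i : ℕ) * l)⁻¹ * s ^ j • θ ^ (i : ℕ) = (l : E)⁻¹ * (ζ ^ j) ^ (i : ℕ) := by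
      intro i
      rw [smul_pow', pow_smul_eig (h.fix ζ hζK) hθ, mul_pow]
      field_simp
    simp only [e]
    rw [← mul_sum, Fin.sum_univ_eq_sum_range (fun i => (ζ ^ j) ^ i) l]
    split_ifs with hj0
    · simp [hj0, hl0]
    · rw [(hζ.pow_of_coprime j (Nat.coprime_of_lt_prime hj0 hj hl).symm).geom_sum_eq_zero
        hl.one_lt, mul_zero]

lemma Cyc.wild (h : Cyc s p K F) (hp : ‖(p : E)‖ < 1) (hK : Good p (K : Set E)) {ζ θ : E}
    (hζ : IsPrimitiveRoot ζ p) (hζK : ζ ∈ K) (hθF : θ ∈ F) (h0 : θ ≠ 0) (hθ : s • θ = ζ * θ)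
    {t : ℝ} (ht : 1 < t) :
    ∃ f, Sep s F (t ^ (p - 1)) f ∧ ∀ j < p, f j = if j = 0 then 1 else 0 := by
  have hpp := (Fact.out : p.Prime)
  have ha : θ ^ p ∈ K := h.mem _ (F.pow_mem hθF p) (by
    rw [smul_pow', hθ, mul_pow, hζ.pow_eq_one, one_mul])
  obtain ⟨y, hy, hy0, h1, h2⟩ := kummer_norm hp hζ hK ha (pow_ne_zero p h0) ht
  rw [← div_pow] at h1 h2
  obtain ⟨h3, h4⟩ := root_near hζ ht.le h1 h2
  have hηF : θ / y ∈ F := F.div_mem hθF (h.le hy)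
  have hη : s • (θ / y) = ζ * (θ / y) := by
    rw [div_eq_mul_inv, smul_mul', smul_inv'', h.fix y hy, hθ, mul_assoc]
  have hη0 : θ / y ≠ 0 := div_ne_zero h0 hy0
  generalize θ / y = η at h3 h4 hηF hη hη0
  have hπ : 0 < ‖1 - ζ‖ := norm_pos_iff.2 (sub_ne_zero.2 (hζ.ne_one hpp.one_lt).symm)
  have hζ1 := norm_root hpp.ne_zero hζ.pow_eq_one
  have hζF := h.le hζK
  have hn : ∀ k < p - 1, ‖1 - ζ ^ (k + 1)‖ = ‖1 - ζ‖ := fun k hk =>
    norm_one_sub_pow hζ (Nat.succ_pos k) (by omega)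
  have hn0 : ∀ k < p - 1, 1 - ζ ^ (k + 1) ≠ 0 := fun k hk =>
    norm_pos_iff.1 (by rw [hn k hk]; exact hπ)
  refine ⟨_, Sep.prod (by positivity) (f := fun k j =>
    (η - ζ ^ (k + 1)) / ((1 - ζ ^ (k + 1)) * η) * s ^ j • (1 : E) +
      -ζ ^ (k + 1) / ((1 - ζ ^ (k + 1)) * η) * s ^ j • (η - 1)) (p - 1) fun k hk => ?_,
    fun j hj => ?_⟩
  · have hd : (1 - ζ ^ (k + 1)) * η ∈ F := F.mul_mem (F.sub_mem F.one_mem (F.pow_mem hζF _)) hηF
    have hdn : ‖(1 - ζ ^ (k + 1)) * η‖ = ‖1 - ζ‖ := by rw [norm_mul, hn k hk, h3, mul_one]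
    refine (Sep.single (F.div_mem (F.sub_mem hηF (F.pow_mem hζF _)) hd) F.one_mem ?_).add
      (Sep.single (F.div_mem (F.neg_mem (F.pow_mem hζF _)) hd) (F.sub_mem hηF F.one_mem) ?_)
    · rw [norm_one, mul_one, norm_div, hdn, div_le_iff₀ hπ, mul_comm]
      have : η - ζ ^ (k + 1) = (η - 1) + (1 - ζ ^ (k + 1)) := by ring
      rw [this]
      exact add_le h4 ((hn k hk).le.trans (le_mul_of_one_le_right hπ.le ht.le))
    · rw [norm_div, hdn, norm_neg, norm_pow, hζ1, one_pow, one_div, inv_mul_le_iff₀ hπ]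
      exact h4
  · have e : ∀ k ∈ range (p - 1), (η - ζ ^ (k + 1)) / ((1 - ζ ^ (k + 1)) * η) * s ^ j • (1 : E) +
        -ζ ^ (k + 1) / ((1 - ζ ^ (k + 1)) * η) * s ^ j • (η - 1) =
        (1 - ζ ^ (k + 1 + j)) / (1 - ζ ^ (k + 1)) := by
      intro k hk
      have := hn0 k (mem_range.1 hk)
      rw [smul_sub, smul_one, pow_smul_eig (h.fix ζ hζK) hη, pow_add ζ (k + 1)]
      field_simp
      ring
    rw [prod_congr rfl e]
    split_ifs with hj0
    · subst hj0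
      exact prod_eq_one fun k hk => div_self (hn0 k (mem_range.1 hk))
    · refine prod_eq_zero (i := p - 1 - j) (mem_range.2 (by omega)) ?_
      rw [show p - 1 - j + 1 + j = p by omega, hζ.pow_eq_one, sub_self, zero_div]

/-- One step of prime degree. -/
lemma Cyc.step [CharZero E] (h : Cyc s l K F) (hl : l.Prime) (hp : ‖(p : E)‖ < 1)
    (hK : Good p (K : Set E)) {ζ θ : E} (hζ : IsPrimitiveRoot ζ l) (hζK : ζ ∈ K) (hθF : θ ∈ F)
    (h0 : θ ≠ 0) (hθ : s • θ = ζ * θ) : Good p (F : Set E) ∧ ∀ c ∈ K, ‖c‖ < 1 →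
      ∃ β ∈ F, ‖β‖ < 1 ∧ ∑ j ∈ range l, s ^ j • β = c := by
  have hpp := (Fact.out : p.Prime)
  have key : ∀ M : ℝ, 1 < M → ∃ f, Sep s F M f ∧ ∀ j < l, f j = if j = 0 then 1 else 0 := by
    intro M hM
    by_cases hlp : l = p
    · subst hlp
      obtain ⟨t, ht, h1⟩ := exists_gt_one (inv_lt_one_of_one_lt₀ hM) (l - 1)
      obtain ⟨f, hf, e⟩ := h.wild hp hK hζ hζK hθF h0 hθ ht
      rw [inv_mul_lt_iff₀ (by positivity), mul_one] at h1
      exact ⟨f, hf.mono h1.le, e⟩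
    · obtain ⟨f, hf, e⟩ := h.tame hl hlp hp hζ hζK hθF h0 hθ
      exact ⟨f, hf.mono hM.le, e⟩
  constructor
  · obtain ⟨M, hM, h1⟩ := exists_gt_one hp p
    obtain ⟨f, hf, e⟩ := key M hM
    exact good_of_weak (Nat.cast_ne_zero.2 hpp.ne_zero) (fun x hx => h.val hl hK hx)
      (by positivity) h1 fun x hx hx1 => h.weak hl.pos hp hK (by positivity) hf e hx hx1
  · intro c hc h1
    obtain ⟨M, hM, h2⟩ := exists_gt_one h1 1
    obtain ⟨f, hf, e⟩ := key M hM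
    obtain ⟨β, hβ, h3, h4⟩ := h.trace hl.pos hf e hc
    exact ⟨β, hβ, h3.trans_lt (by simpa using h2), h4⟩

end AP

end Pool.Agent.Lib.MP_132c47_lc
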