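import Pool.Agent.Lib.MP_132c47_lc.Defs3

/-! Block BS: conjugacy of the places of a number field and the base case. -/

namespace Pool.Agent.Lib.MP_132c47_lc

open Polynomial NumberField

namespace BS

variable {N : Type} [Field N] {Γ₁ Γ₂ : Type} [LinearOrderedCommGroupWithZero Γ₁]
  [LinearOrderedCommGroupWithZero Γ₂]

theorem le_one (w : Valuation N Γ₁) (a : 𝓞 N) : w a ≤ 1 :=
  (Valuation.integer.integers w).mem_of_integral a.isIntegral_coe.tower_top

/-- The centre of a valuation on the ring of integers. -/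
def cent (w : Valuation N Γ₁) : Ideal (𝓞 N) where
  carrier := {a | w a < 1}
  add_mem' := fun ha hb => w.map_add_lt ha hb
  zero_mem' := by simp
  smul_mem' := fun c a ha => by
    change w ((c : N) * a) < 1
    rw [map_mul, mul_comm]
    exact mul_lt_one_of_lt_of_le ha (le_one w c)

theorem mem_cent {w : Valuation N Γ₁} {a : 𝓞 N} : a ∈ cent w ↔ w a < 1 := Iff.rfl

theorem not_mem_cent {w : Valuation N Γ₁} {a : 𝓞 N} : a ∉ cent w ↔ w a = 1 :=
  ⟨fun h => le_antisymm (le_one w a) (not_lt.1 h), fun h => not_lt.2 h.ge⟩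

instance (w : Valuation N Γ₁) : (cent w).IsPrime where
  ne_top' := (Ideal.ne_top_iff_one _).2 (not_mem_cent.2 (by simp))
  mem_or_mem' := fun {a b} h => by
    by_contra hn
    rw [not_or, not_mem_cent, not_mem_cent] at hn
    exact not_mem_cent.2 (by simp [hn.1, hn.2]) h

theorem liesOver {p : ℕ} (hp : p.Prime) {w : Valuation N Γ₁} (h : w p < 1) :
    (cent w).LiesOver (Ideal.span {(p : ℤ)}) := by
  have hm : (Ideal.span {(p : ℤ)}).IsMaximal :=
    PrincipalIdealRing.isMaximal_of_irreducible (Nat.prime_iff_prime_int.1 hp).irreducible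
  refine ⟨hm.eq_of_le (Ideal.IsPrime.ne_top inferInstance) ?_⟩
  rw [Ideal.span_singleton_le_iff_mem, Ideal.under_def, Ideal.mem_comap, mem_cent]
  simpa using h

theorem frac [NumberField N] (P : Ideal (𝓞 N)) [P.IsPrime] (hP : P ≠ ⊥) (x : N) :
    ∃ u s : 𝓞 N, s ∉ P ∧ (x * u = s ∨ x * s = u) := by
  have := IsLocalization.AtPrime.isDiscreteValuationRing_of_dedekind_domain (𝓞 N) hP
    (Localization.AtPrime P)
  obtain ⟨a, b, hb, rfl⟩ := IsFractionRing.div_surjective (A := 𝓞 N) x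
  have hb0 : algebraMap (𝓞 N) N b ≠ 0 := IsFractionRing.to_map_ne_zero_of_mem_nonZeroDivisors hb
  have hi := IsLocalization.injective (Localization.AtPrime P) P.primeCompl_le_nonZeroDivisors
  obtain ⟨c, hc⟩ := ValuationRing.cond (algebraMap _ (Localization.AtPrime P) a)
    (algebraMap _ (Localization.AtPrime P) b)
  obtain ⟨⟨u, s⟩, e⟩ := IsLocalization.surj P.primeCompl c
  refine ⟨u, s, s.2, hc.imp (fun h => ?_) fun h => ?_⟩
  · have h1 : a * u = b * s := hi (by rw [map_mul, map_mul, ← h, ← e, mul_assoc])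
    have h2 := congrArg (algebraMap (𝓞 N) N) h1
    rw [map_mul, map_mul] at h2
    rw [div_mul_eq_mul_div, div_eq_iff hb0]
    exact h2.trans (mul_comm _ _)
  · have h1 : a * s = b * u := hi (by rw [map_mul, map_mul, ← h, ← e, mul_assoc])
    have h2 := congrArg (algebraMap (𝓞 N) N) h1
    rw [map_mul, map_mul] at h2
    rw [div_mul_eq_mul_div, div_eq_iff hb0]
    exact h2.trans (mul_comm _ _)

/-- Two places of a Galois number field over the same prime are conjugate. -/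
theorem conj [NumberField N] [IsGalois ℚ N] {p : ℕ} (hp : p.Prime) {v : Valuation N Γ₁}
    {w : Valuation N Γ₂} (hv : v p < 1) (hw : w p < 1) : ∃ σ : N ≃ₐ[ℚ] N, ∀ x,
      (v x ≤ 1 → w (σ x) ≤ 1) ∧ (v x < 1 → w (σ x) < 1) := by
  have := liesOver hp hv
  have := liesOver hp hw
  obtain ⟨σ, hσ⟩ := Ideal.exists_smul_eq_of_isGaloisGroup (Ideal.span {(p : ℤ)}) (cent v) (cent w)
    (N ≃ₐ[ℚ] N)
  have key : ∀ a : 𝓞 N, σ • a ∈ cent w ↔ a ∈ cent v := fun a => by
    rw [← hσ, Ideal.smul_mem_pointwise_smul_iff]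
  have h0 : cent v ≠ ⊥ := fun h => by
    have h1 : (p : 𝓞 N) ∈ cent v := by simpa [mem_cent] using hv
    rw [h, Ideal.mem_bot, Nat.cast_eq_zero] at h1
    exact hp.ne_zero h1
  have main : ∀ x, v x ≤ 1 → ∃ u : 𝓞 N, v x = v u ∧ w (σ x) = w (σ • u : 𝓞 N) := fun x hx => by
    obtain ⟨u, s, hs, h⟩ : ∃ u s : 𝓞 N, s ∉ cent v ∧ x * s = u := by
      obtain ⟨u, s, hs, h | h⟩ := frac (cent v) h0 x
      · refine ⟨s, u, fun hu => hs ?_, h⟩
        rw [mem_cent, ← h, map_mul, mul_comm]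
        exact mul_lt_one_of_lt_of_le hu hx
      · exact ⟨u, s, hs, h⟩
    have h1 : w (σ s) = 1 := not_mem_cent.1 fun h1 => hs ((key s).1 h1)
    refine ⟨u, by rw [← h, map_mul, not_mem_cent.1 hs, mul_one], ?_⟩
    change _ = w (σ u)
    rw [← h, map_mul, map_mul, h1, mul_one]
  refine ⟨σ, fun x => ⟨fun hx => ?_, fun hx => ?_⟩⟩
  · obtain ⟨u, -, h⟩ := main x hx
    exact h ▸ le_one w _
  · obtain ⟨u, h1, h⟩ := main x hx.le
    exact h ▸ (key u).2 (h1.symm.trans_lt hx)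

end BS

variable {Ω : Type} [Field Ω] {Γ₀ : Type} [LinearOrderedCommGroupWithZero Γ₀]
  {v : Valuation Ω Γ₀} {G : Type} [Group G] [MulSemiringAction G Ω]
  {C : Type} [NormedField C] [IsUltrametricDist C] [CompleteSpace C] [IsAlgClosed C] [CharZero C]
  {p : ℕ} [Fact p.Prime]

theorem base [IsAlgClosed Ω] [CharZero Ω] (hS : Setting v p G) (hC : CRes p C) (Y : Finset Ω)
    (hY : ∀ y ∈ Y, (∀ g : G, g • y = y) ∧ IsAlgebraic ℤ y) : Spec v (Kz C) Y := by
  classical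
  have hp : p.Prime := Fact.out
  have h1 : ∀ y : Y, ∃ n : ℤ, n ≠ 0 ∧ ∃ M : ℕ, 0 < M ∧ ∀ k : ℕ,
      ∃ w ∈ Rmu Ω M, v (n • (y : Ω) - w) ≤ v p ^ k := fun y => by
    obtain ⟨n, hn, h⟩ := (hY y y.2).2.exists_integral_multiple
    exact ⟨n, hn, hS.alg _ (fun g => by rw [smul_comm, (hY y y.2).1 g]) h⟩
  choose n hn M hM hw using h1
  have h2 : ∀ y : Y, IsIntegral ℚ (y : Ω) := fun y =>
    ((hY y y.2).2.extendScalars (R := ℤ) (S := ℚ) Int.cast_injective).isIntegral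
  set f : ℚ[X] := ∏ y : Y, (minpoly ℚ (y : Ω) * (X ^ M y - 1)) with hf
  have hf0 : f ≠ 0 := Finset.prod_ne_zero_iff.2 fun y _ => mul_ne_zero (minpoly.ne_zero (h2 y))
    (by simpa using X_pow_sub_C_ne_zero (hM y) (1 : ℚ))
  set N := IntermediateField.adjoin ℚ (f.rootSet Ω) with hN
  have : IsSplittingField ℚ N f :=
    IntermediateField.adjoin_rootSet_isSplittingField (IsAlgClosed.splits _)
  have : FiniteDimensional ℚ N := IsSplittingField.finiteDimensional N f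
  have : Normal ℚ N := Normal.of_isSplittingField f
  have : IsGalois ℚ N := ⟨⟩
  have : NumberField N := ⟨⟩
  have hr : ∀ (y : Y) (x : Ω), aeval x (minpoly ℚ (y : Ω) * (X ^ M y - 1)) = 0 → x ∈ N :=
    fun y x h => IntermediateField.subset_adjoin _ _ (mem_rootSet.2 ⟨hf0, by
      rw [hf, map_prod]
      exact Finset.prod_eq_zero (Finset.mem_univ y) h⟩)
  have hYN : ∀ y : Y, (y : Ω) ∈ N := fun y => hr y y (by simp)
  let j₀ : N →ₐ[ℚ] C := IsAlgClosed.lift
  obtain ⟨σ, hσ⟩ := BS.conj hp (v := v.comap (algebraMap N Ω))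
    (w := (NormedField.valuation (K := C)).comap j₀.toRingHom) (by simpa using hS.vp)
    (by simpa [← NNReal.coe_lt_coe] using hC.vp)
  set j : N →+* C := j₀.toRingHom.comp σ.toRingEquiv.toRingHom with hj
  have hσ' : ∀ x : N, (v x ≤ 1 → ‖j x‖ ≤ 1) ∧ (v x < 1 → ‖j x‖ < 1) := hσ
  have h3 : ∀ y : Y, ∀ w ∈ Rmu Ω (M y), ∃ x : N, j x ∈ Kz C ∧ (x : Ω) = w := fun y => by
    have : Rmu Ω (M y) ≤ ((Kz C).toSubring.comap j).map (algebraMap N Ω) :=
      Subring.closure_le.2 fun ξ hξ => by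
        have h4 : ξ ^ M y = 1 := hξ
        refine ⟨⟨ξ, hr y ξ (by simp [h4])⟩, Subfield.le_topologicalClosure _
          (Subfield.subset_closure ⟨M y, hM y, ?_⟩), rfl⟩
        rw [← map_pow, ← map_one j]
        exact congrArg j (Subtype.ext h4)
    exact fun w hw => this hw
  have h4 : ∀ y : Y, j ⟨y, hYN y⟩ ∈ Kz C := fun y => by
    have hc : IsClosed (Kz C : Set C) := Subfield.isClosed_topologicalClosure _
    have h5 : (n y : C) * j ⟨y, hYN y⟩ ∈ Kz C := by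
      refine hc.closure_subset (Metric.mem_closure_iff.2 fun ε hε => ?_)
      obtain ⟨k, hk⟩ := exists_pow_lt_of_lt_one hε hC.vp
      obtain ⟨w, h6, h7⟩ := hw y k
      obtain ⟨x, h8, rfl⟩ := h3 y w h6
      refine ⟨j x, h8, lt_of_le_of_lt ?_ hk⟩
      have h9 : (p : Ω) ≠ 0 := Nat.cast_ne_zero.2 hp.ne_zero
      have h10 : (p : C) ≠ 0 := Nat.cast_ne_zero.2 hp.ne_zero
      have h11 := (hσ' (((n y : N) * ⟨y, hYN y⟩ - x) / (p : N) ^ k)).1 (by
        push_cast
        rw [map_div₀, map_pow, div_le_one₀ (pow_pos ((Valuation.pos_iff v).2 h9) k)]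
        simpa [zsmul_eq_mul] using h7)
      rw [map_div₀, map_pow, map_natCast, norm_div, norm_pow,
        div_le_one (pow_pos (norm_pos_iff.2 h10) k), map_sub, map_mul, map_intCast] at h11
      rwa [dist_eq_norm]
    have h6 : (n y : C) ≠ 0 := Int.cast_ne_zero.2 (hn y)
    simpa [h6] using mul_mem (inv_mem (intCast_mem (Kz C) (n y))) h5
  have h5 : Subring.closure (Y : Set Ω) ≤ N.toSubring :=
    Subring.closure_le.2 fun y hy => hYN ⟨y, hy⟩
  have h6 : ∀ x (hx : x ∈ N), (if h : x ∈ N then j ⟨x, h⟩ else 0) = j ⟨x, hx⟩ :=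
    fun x hx => dif_pos hx
  refine ⟨fun x => if h : x ∈ N then j ⟨x, h⟩ else 0, ⟨?_, fun x hx y hy => ?_,
    fun x hx y hy => ?_⟩, fun y hy => ?_, fun y hy => ?_⟩
  · rw [h6 1 (one_mem N)]
    exact map_one j
  · rw [h6 x (h5 hx), h6 y (h5 hy), h6 _ (h5 (add_mem hx hy)), ← map_add]
    rfl
  · rw [h6 x (h5 hx), h6 y (h5 hy), h6 _ (h5 (mul_mem hx hy)), ← map_mul]
    rfl
  · beta_reduce
    rw [h6 y (hYN ⟨y, hy⟩)]
    exact h4 ⟨y, hy⟩
  · beta_reduce
    rw [h6 y (hYN ⟨y, hy⟩)]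
    exact hσ' ⟨y, hYN ⟨y, hy⟩⟩

end Pool.Agent.Lib.MP_132c47_lc
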