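import Pool.Agent.Lib.MP_132c47_lc.CH1

/-! Block CH, part 2: existence of equivariant charts. -/

namespace Pool.Agent.Lib.MP_132c47_lc

open Polynomial Filter

variable {Ω : Type} [Field Ω] {Γ₀ : Type} [LinearOrderedCommGroupWithZero Γ₀]
  {v : Valuation Ω Γ₀} {G : Type} [Group G] [MulSemiringAction G Ω]

namespace CH

variable {M : Subfield Ω} {Y : Finset Ω}

/-- A henselian generator. -/
structure Pre (v : Valuation Ω Γ₀) (M : Subfield Ω) (Y : Finset Ω) (z b : Ω) : Prop where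
  hz : z ∈ Adj M Y
  hb : b ∈ Adj M Y
  gen : ∀ y ∈ Y, y ∈ Adj M {z, b}
  hens : Hens v (Adj M {z}) b

theorem smul_mem (hG : ∀ g : G, ∀ x ∈ M, g • x ∈ M) (hY : ∀ y ∈ Y, ∀ g : G, g • y = y) (g : G)
    {x : Ω} (hx : x ∈ Adj M Y) : g • x ∈ Adj M Y :=
  map_mem_Adj (MulSemiringAction.toRingHom G Ω g) (fun c hc => le_Adj _ _ (hG g c hc))
    (fun s hs => mem_Adj _ (show g • s ∈ (Y : Set Ω) by rwa [hY s hs g])) hx

theorem Pre.smul {z b : Ω} (h : Pre v M Y z b) (hA : Act v G) (hG : ∀ g : G, ∀ x ∈ M, g • x ∈ M)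
    (hY : ∀ y ∈ Y, ∀ g : G, g • y = y) (g : G) : Pre v M Y (g • z) (g • b) where
  hz := smul_mem hG hY g h.hz
  hb := smul_mem hG hY g h.hb
  gen y hy := by
    rw [← hY y hy g]
    refine map_mem_Adj (MulSemiringAction.toRingHom G Ω g) (fun c hc => le_Adj _ _ (hG g c hc))
      ?_ (h.gen y hy)
    rintro _ (rfl | rfl) <;> exact mem_Adj _ (by simp)
  hens := map_hens (MulSemiringAction.toRingHom G Ω g) (fun c hc =>
    map_mem_Adj (MulSemiringAction.toRingHom G Ω g) (fun c hc => le_Adj _ _ (hG g c hc))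
      (by rintro _ rfl; exact mem_Adj _ rfl) hc) (fun _ hx => hA.v_smul_le_one g hx) h.hens

theorem Pre.le {z b : Ω} (h : Pre v M Y z b) : Adj M Y ≤ Adj M {z, b} := Adj_le (le_Adj _ _) h.gen

theorem Pre.v_b {z b : Ω} (h : Pre v M Y z b) : v b ≤ 1 :=
  let ⟨_, hm, hc, h0, _⟩ := h.hens
  v_le_one_of_root hm (fun i => (hc i).2) h0

theorem Pre.not_mem {z b : Ω} (h : Pre v M Y z b) (hM : ACl M) {w : Ω} (hw : w ∉ M) (hwY : w ∈ Y) :
    z ∉ M := fun hz => by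
  obtain ⟨f, hm, hc, h0, -⟩ := h.hens
  have hle : Adj M {z} ≤ M := Adj_le le_rfl (by rintro _ rfl; exact hz)
  have hb := hM b (isAlgebraic_iff.2 ⟨f, hm, fun i => hle (hc i).1, h0⟩)
  exact hw (Adj_le le_rfl (by rintro _ (rfl | rfl); exacts [hz, hb]) (h.gen w hwY))

theorem v_div_eq_one {x y : Ω} (h : v x = v y) (hy : y ≠ 0) : v (x / y) = 1 := by
  rw [map_div₀, h, div_self (v.ne_zero_iff.2 hy)]

/-- The value-transcendental case. -/
theorem chart_two [IsAlgClosed Ω] [CharZero Ω] (hA : Act v G) (hM : ACl M)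
    (hc : (M : Set Ω).Countable) (hG : ∀ g : G, ∀ x ∈ M, g • x ∈ M) {w : Ω}
    (hY : ∀ y ∈ Y, ∀ g : G, g • y = y) (halg : ∀ y ∈ Y, IsAlgebraic (Adj M {w}) y) {T : Ω}
    (hT : T ∈ Adj M Y) (hv : ∀ c ∈ M, v T ≠ v c) : ∃ z b μ, Chart v G M Y z b μ := by
  classical
  obtain ⟨Ω', Γ₁, _, _, v', π, h⟩ := exists_ul v
  obtain ⟨K, hK, -⟩ := exists_env h hM hc 0 (fun _ => M.zero_mem) fun c hc hne =>
    ⟨-c, M.neg_mem hc, Eventually.of_forall fun n => by
      have : c ≠ 0 := by rintro rfl; simp at hne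
      simpa [zero_lt_iff] using this⟩
  have hw : w ∈ acl (Adj M {T}) := exchange
    (Adj_le ((le_Adj _ _).trans (le_acl _)) (fun y hy => mem_acl.2 (halg y hy)) hT)
    (by rw [hM.acl_eq]; exact fun e => hv T e rfl)
  obtain ⟨z, hz, b, hb, h1, h2, h3⟩ := hK.pre Y (insert T Y) (T := cst π T)
    (fun y hy => (Finset.mem_insert.1 hy).elim (fun e => e ▸ hT) fun e => mem_Adj _ e)
    (map_mem_Adj _ (fun c hc => le_Adj _ _ (hK.cst_mem c hc))
      (fun s hs => mem_Adj _ (Set.mem_image_of_mem _ hs)) hT)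
    (fun c hc e => by
      obtain ⟨c', hc', e'⟩ := hK.val c hc
      rw [e', cst_eq, cst_eq, h.veq_iff] at e
      exact hv c' hc' e.exists.choose_spec)
    fun y hy => map_mem_acl (M := Adj M {T}) _ (fun c hc => map_mem_Adj _
      (fun c hc => le_Adj _ _ (hK.cst_mem c hc)) (by rintro _ rfl; exact mem_Adj _ rfl) hc)
      (acl_le_acl (Adj_le ((le_Adj _ _).trans (le_acl _)) (by rintro _ rfl; exact hw))
        (mem_acl.2 (halg y hy)))
  have hp : Pre v M Y z b := ⟨hz, hb, h1, h2⟩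
  have hzv : ∀ c ∈ M, v z ≠ v c := fun c hc e => by
    obtain ⟨c', hc', j, e'⟩ := h3 T (Finset.mem_insert_self _ _)
    refine hv _ (M.mul_mem hc' (M.zpow_mem hc j)) ?_
    simp only [e', map_mul, map_zpow₀, e]
  have hz0 : z ≠ 0 := fun e => hzv 0 M.zero_mem (by rw [e])
  have ho := opt_of_ne hzv
  obtain ⟨μ, hm, hμ, h0, h4, h5⟩ := h2.exists_min
  refine ⟨z, b, μ, fun e => hzv z e rfl, hz, hm, fun i => ho.mem_loc hM (hμ i).1 (hμ i).2, h0, h4,
    h5, fun g => lr hM ho h2 (hp.le (div_mem (smul_mem hG hY g hz) hz))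
      (v_div_eq_one (hA.v_smul g z) hz0).le,
    fun g => lr hM ho h2 (hp.le (smul_mem hG hY g hb)) (hA.v_smul_le_one g hp.v_b),
    fun y hy hy0 => ?_, Or.inr hzv⟩
  obtain ⟨c, hc, j, e⟩ := h3 y (Finset.mem_insert_of_mem hy)
  refine ⟨c, hc, j, e, lr hM ho h2 (hp.le (div_mem (mem_Adj _ hy)
    (mul_mem (le_Adj _ _ hc) (zpow_mem hz j)))) (v_div_eq_one e fun e' => ?_).le⟩
  rw [e', map_zero] at e
  exact hy0 (v.zero_iff.1 e)

theorem exists_approx [IsAlgClosed Ω] (hR : ResAlg v) (hM : ACl M) {x c : Ω} (hx : x ≠ 0)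
    (hc : c ∈ M) (e : v x = v c) : ∃ d ∈ M, d ≠ 0 ∧ v (x - d) < v x := by
  have hc0 : c ≠ 0 := by
    rintro rfl
    exact hx (by simpa using e)
  obtain ⟨ω, hω, e'⟩ := hR.exists_root (v_div_eq_one e hc0).le
  have hlt : v (x - c * ω) < v x := by
    rw [show x - c * ω = c * (x / c - ω) by field_simp, map_mul, e]
    exact mul_lt_of_lt_one_right (zero_lt_iff.2 (v.ne_zero_iff.2 hc0)) e'
  refine ⟨c * ω, M.mul_mem hc ?_, fun e0 => by simp [e0] at hlt, hlt⟩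
  rcases hω with rfl | ⟨m, hm, e1⟩
  exacts [M.zero_mem, hM.mem_of_pow hm (e1 ▸ M.one_mem)]

/-- A cofinal sequence of approximations. -/
theorem exists_seq (hc : (M : Set Ω).Countable) {w : Ω}
    (h : ∀ c ∈ M, ∃ d ∈ M, v (w - d) < v (w - c)) :
    ∃ a : ℕ → Ω, (∀ n, a n ∈ M) ∧ ∀ c ∈ M, ∀ᶠ n in UU, v (w - a n) < v (w - c) := by
  obtain ⟨e, he⟩ := hc.exists_eq_range ⟨0, M.zero_mem⟩
  have key : ∀ n : ℕ, ∃ d ∈ M, ∀ i ≤ n, v (w - d) < v (w - e i) := fun n => by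
    obtain ⟨k, -, hk⟩ := Finset.exists_min_image (Finset.range (n + 1)) (fun i => v (w - e i))
      ⟨0, by simp⟩
    obtain ⟨d, hd, e'⟩ := h (e k) (show e k ∈ (M : Set Ω) from he ▸ ⟨k, rfl⟩)
    exact ⟨d, hd, fun i hi => e'.trans_le (hk i (Finset.mem_range.2 (by omega)))⟩
  choose a ha hb using key
  refine ⟨a, ha, fun c hc => ?_⟩
  obtain ⟨i, rfl⟩ : c ∈ Set.range e := he ▸ hc
  refine Eventually.filter_mono (Nat.hyperfilter_le_atTop) ?_
  exact eventually_atTop.2 ⟨i, fun n hn => hb n i hn⟩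

theorem Mon_div {T d : Ω} (hd : d ∈ M) (h0 : d ≠ 0) : Mon v M (T / d) = Mon v M T := by
  ext x
  refine and_congr_right fun _ => ⟨?_, ?_⟩ <;> rintro ⟨c, hc, i, rfl⟩
  · exact ⟨c / d ^ i, M.div_mem hc (M.zpow_mem hd i), i, by rw [div_zpow]; ring⟩
  · refine ⟨c * d ^ i, M.mul_mem hc (M.zpow_mem hd i), i, ?_⟩
    have := zpow_ne_zero i h0
    rw [div_zpow]; field_simp

theorem Adj_affine {z a d : Ω} (ha : a ∈ M) (hd : d ∈ M) (h0 : d ≠ 0) :
    Adj M {(z - a) / d} = Adj M {z} := by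
  have : (z - a) / d * d + a ∈ Adj M {(z - a) / d} :=
    add_mem (mul_mem (mem_Adj _ rfl) (le_Adj _ _ hd)) (le_Adj _ _ ha)
  rw [div_mul_cancel₀ _ h0, sub_add_cancel] at this
  refine le_antisymm (Adj_le (le_Adj _ _) ?_) (Adj_le (le_Adj _ _) ?_) <;> rintro _ rfl
  · exact div_mem (sub_mem (mem_Adj _ rfl) (le_Adj _ _ ha)) (le_Adj _ _ hd)
  · exact this

/-- The immediate case. -/
theorem chart_one [IsAlgClosed Ω] [CharZero Ω] (hA : Act v G) (hM : ACl M)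
    (hc : (M : Set Ω).Countable) (hG : ∀ g : G, ∀ x ∈ M, g • x ∈ M) {w : Ω} (hw : w ∉ M)
    (hwY : w ∈ Y) (hY : ∀ y ∈ Y, ∀ g : G, g • y = y)
    (halg : ∀ y ∈ Y, IsAlgebraic (Adj M {w}) y) (hv : ∀ x ∈ Adj M Y, ∃ c ∈ M, v x = v c) :
    ∃ z b μ, Chart v G M Y z b μ := by
  classical
  have happ : ∀ x ∈ Adj M Y, x ≠ 0 → ∃ d ∈ M, d ≠ 0 ∧ v (x - d) < v x := fun x hx h0 =>
    let ⟨_, hc, e⟩ := hv x hx
    exists_approx hA.res hM h0 hc e
  obtain ⟨a, haM, ha⟩ := exists_seq (v := v) hc (w := w) fun c hc => by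
    obtain ⟨d, hd, -, e⟩ := happ (w - c) (sub_mem (mem_Adj _ hwY) (le_Adj _ _ hc))
      fun e => hw (sub_eq_zero.1 e ▸ hc)
    exact ⟨c + d, M.add_mem hc hd, by rwa [← sub_sub]⟩
  obtain ⟨Ω', Γ₁, _, _, v', π, h⟩ := exists_ul v
  have := h.isAlgClosed
  have := h.charZero
  obtain ⟨K, hK, haK⟩ := exists_env h hM hc a haM fun c hc _ => by
    obtain ⟨k, hk⟩ := (ha c hc).exists
    refine ⟨a k - c, M.sub_mem (haM k) hc, (ha c hc).mono fun n hn => ?_⟩
    have e : v (a k - c) = v (w - c) := by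
      rw [show a k - c = w - c - (w - a k) by ring]
      exact v.map_sub_eq_of_lt_left hk
    rw [e, show a n - c - (a k - c) = w - a k - (w - a n) by ring]
    exact v.map_sub_lt hk hn
  have hcF : ∀ {E : Subfield Ω'}, K ≤ E → ∀ c ∈ M, cst π c ∈ E := fun hE c hc =>
    hE (hK.cst_mem c hc)
  obtain ⟨z₀, hz₀, b₀, hb₀, h1, h2, -⟩ := hK.pre Y ∅ (by simp) (T := cst π w - π a)
    (sub_mem (mem_Adj _ (Set.mem_image_of_mem _ hwY)) (le_Adj _ _ haK))
    (fun c hc e => by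
      obtain ⟨c', hc', e'⟩ := hK.val c hc
      rw [e', cst_eq, cst_eq, ← map_sub, h.veq_iff] at e
      obtain ⟨k, hk⟩ := e.exists
      obtain ⟨n, hn, hn'⟩ := (e.and (ha _ (haM k))).exists
      exact hn'.ne (hn.trans hk.symm))
    fun y hy => map_mem_acl (M := Adj M {w}) _ (fun c hc => map_mem_Adj _ (hcF (le_Adj _ _))
      (by
        have : cst π w - π a + π a ∈ Adj K {cst π w - π a} :=
          add_mem (mem_Adj _ rfl) (le_Adj _ _ haK)
        rw [sub_add_cancel] at this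
        rintro _ rfl
        exact this) hc) (mem_acl.2 (halg y hy))
  have hp₀ : Pre v M Y z₀ b₀ := ⟨hz₀, hb₀, h1, h2⟩
  choose β hβK hβ using fun x : Ω => hK.best (cst π x)
  choose A hAβ using fun x : Ω => h.surj (β x)
  obtain ⟨_, ⟨g₀, rfl⟩, hmax⟩ := Set.exists_max_image _ (fun x => v' (cst π x - β x)) (hA.fin z₀)
    ⟨_, 1, rfl⟩
  have hp := hp₀.smul hA hG hY g₀
  simp only at hmax
  set z := g₀ • z₀ with hzdef
  set b := g₀ • b₀
  replace hmax : ∀ g : G, v' (cst π (g • z) - β (g • z)) ≤ v' (cst π z - β z) := fun g =>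
    hmax _ ⟨g * g₀, mul_smul _ _ _⟩
  clear_value z b
  have hzM := hp.not_mem hM hw hwY
  have hT : ∀ x, π (fun n => x - A x n) = cst π x - β x := fun x => by
    rw [← hAβ, cst_eq, ← map_sub]; rfl
  have ho : Opt v' K (cst π z - β z) := ⟨fun e => hzM (hK.down (fun _ => z)
      (by rw [← cst_eq, sub_eq_zero.1 e]; exact hβK z)).exists.choose_spec, fun c hc => by
    rw [sub_sub]; exact hβ z _ (K.add_mem (hβK z) hc)⟩
  have hzT : ∀ {S : Set Ω'}, cst π z - β z ∈ S → cst π z ∈ Adj K S := fun hS => by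
    have := add_mem (mem_Adj K hS) (le_Adj _ _ (hβK z))
    rwa [sub_add_cancel] at this
  have hE : ∀ x ∈ Adj M {z}, cst π x ∈ Adj K {cst π z - β z} := fun x hx =>
    map_mem_Adj _ (hcF (le_Adj _ _)) (by rintro _ rfl; exact hzT rfl) hx
  have hF : ∀ x ∈ Adj M Y, cst π x ∈ Adj K {cst π z - β z, cst π b} := fun x hx =>
    map_mem_Adj _ (hcF (le_Adj _ _)) (by
      rintro _ (rfl | rfl)
      exacts [hzT (by simp), mem_Adj _ (by simp)]) (hp.le hx)
  have hH : Hens v' (Adj K {cst π z - β z}) (cst π b) :=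
    map_hens _ hE (fun _ => cst_le_one h) hp.hens
  obtain ⟨μ, hm, hμ, h0, h4, h5⟩ := hp.hens.exists_min
  have d1 : ∀ x : ℕ → Ω, π x ∈ Adj K {cst π z - β z, cst π b} → v' (π x) ≤ 1 → ∀ᶠ n in UU,
      x n ∈ loc v (Subring.closure (insert b (Mon v M (z - A z n)))) := fun x hx h1 =>
    hK.down_loc (fun n => z - A z n) (fun _ => b) (by rw [hT]; exact lr hK.closed ho hH hx h1)
  have d2 : ∀ x ∈ Adj M Y, v x ≤ 1 → ∀ᶠ n in UU,
      x ∈ loc v (Subring.closure (insert b (Mon v M (z - A z n)))) := fun x hx h1 =>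
    d1 (fun _ => x) (hF x hx) (cst_le_one h h1)
  choose c hcM hcv using hv
  have e1 : ∀ᶠ n in UU, ∀ i ∈ Finset.range (μ.natDegree + 1),
      μ.coeff i ∈ loc v (Subring.closure (Mon v M (z - A z n))) :=
    (eventually_all_finset _).2 fun i _ => hK.down_loc0 (fun n => z - A z n) (x := fun _ => _)
      (by rw [hT]; exact ho.mem_loc hK.closed (hE _ (hμ i).1) (cst_le_one h (hμ i).2))
  have e2 : ∀ᶠ n in UU, ∀ x ∈ Set.range fun g : G => g • z, A x n ∈ M ∧ (x - A x n) / (z - A z n) ∈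
      loc v (Subring.closure (insert b (Mon v M (z - A z n)))) := by
    refine (eventually_all_finite (hA.fin z)).2 ?_
    rintro _ ⟨g, rfl⟩
    refine (hK.down _ (hAβ _ ▸ hβK _)).and (d1 _ ?_ ?_) <;> rw [map_div h, hT, hT]
    · exact div_mem (sub_mem (hF _ (smul_mem hG hY g hp.hz)) (le_Adj _ _ (hβK _)))
        (mem_Adj _ (by simp))
    · rw [map_div₀]
      exact div_le_one_of_le₀ (hmax g) zero_le
  have e3 : ∀ᶠ n in UU, ∀ x ∈ Set.range fun g : G => g • b,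
      x ∈ loc v (Subring.closure (insert b (Mon v M (z - A z n)))) := by
    refine (eventually_all_finite (hA.fin b)).2 ?_
    rintro _ ⟨g, rfl⟩
    exact d2 _ (smul_mem hG hY g hp.hb) (hA.v_smul_le_one g hp.v_b)
  have e4 : ∀ᶠ n in UU, ∀ y ∈ Y.attach, y.1 / c y.1 (mem_Adj _ y.2) ∈
      loc v (Subring.closure (insert b (Mon v M (z - A z n)))) :=
    (eventually_all_finset _).2 fun y _ => d2 _
      (div_mem (mem_Adj _ y.2) (le_Adj _ _ (hcM _ _)))
      (by rw [map_div₀, ← hcv]; exact div_self_le_one _)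
  obtain ⟨n, a1, a2, a3, a4⟩ := (e1.and (e2.and (e3.and e4))).exists
  have hα : A z n ∈ M := (a2 z ⟨1, one_smul _ _⟩).1
  have hT0 : z - A z n ≠ 0 := fun e => hzM (sub_eq_zero.1 e ▸ hα)
  have hTF : z - A z n ∈ Adj M Y := sub_mem hp.hz (le_Adj _ _ hα)
  obtain ⟨d, hd, hd0, hdv⟩ := happ _ hTF hT0
  have hvd : v d = v (z - A z n) := by
    have := v.map_sub_eq_of_lt_left hdv
    rwa [sub_sub_cancel] at this
  refine ⟨(z - A z n) / d, b, μ, fun e => hzM ?_, div_mem hTF (le_Adj _ _ hd), hm, fun i => ?_, h0,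
    h4, ?_, fun g => ?_, fun g => ?_, fun y hy _ => ?_, Or.inl ?_⟩
  · have := add_mem (mul_mem e hd) hα
    rwa [div_mul_cancel₀ _ hd0, sub_add_cancel] at this
  · rw [Mon_div hd hd0]
    by_cases hi : i < μ.natDegree + 1
    · exact a1 i (Finset.mem_range.2 hi)
    · rw [coeff_eq_zero_of_natDegree_lt (by omega)]; exact Subring.zero_mem _
  · rwa [Adj_affine hα hd hd0]
  · rw [Mon_div hd hd0]
    obtain ⟨b1, b2⟩ := a2 _ ⟨g, rfl⟩
    have hgd : g • d ≠ 0 := (smul_ne_zero_iff_ne g).2 hd0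
    have hmon : ∀ x ∈ Mon v M (z - A z n),
        x ∈ loc v (Subring.closure (insert b (Mon v M (z - A z n)))) := fun x hx =>
      le_loc _ (Subring.subset_closure (Or.inr hx))
    have hu : v (d / g • d) = 1 := v_div_eq_one (hA.v_smul g d).symm hgd
    have key : g • ((z - A z n) / d) / ((z - A z n) / d) =
        (g • z - A (g • z) n) / (z - A z n) * (d / g • d * (z - A z n) ^ (0 : ℤ)) +
          (A (g • z) n - g • A z n) * (d / g • d) * (z - A z n) ^ (-1 : ℤ) := by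
      rw [smul_div₀', smul_sub, zpow_neg_one, zpow_zero]
      field_simp
      ring
    have hM1 : d / g • d ∈ M := M.div_mem hd (hG g d hd)
    have m1 := Subring.mul_mem _ b2
      (hmon (d / g • d * (z - A z n) ^ (0 : ℤ)) ⟨by simp [-map_div₀, hu], _, hM1, 0, rfl⟩)
    have hS : ∀ s ∈ insert b (Mon v M (z - A z n)), v s ≤ 1 := by
      rintro s (rfl | hs)
      exacts [hp.v_b, hs.1]
    rw [key]
    refine Subring.add_mem _ m1 (hmon _ ⟨?_, _, M.mul_mem (M.sub_mem b1 (hG g _ hα)) hM1, -1, rfl⟩)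
    rw [eq_sub_of_add_eq' key.symm]
    exact v.map_sub_le (v_div_eq_one (hA.v_smul g _) (div_ne_zero hT0 hd0)).le
      (v_le_one_of_mem_loc hS m1)
  · rw [Mon_div hd hd0]; exact a3 _ ⟨g, rfl⟩
  · rw [Mon_div hd hd0]
    exact ⟨c y (mem_Adj _ hy), hcM _ _, 0, by simpa using hcv y _,
      by simpa using a4 ⟨y, hy⟩ (Finset.mem_attach _ _)⟩
  · rw [div_sub_one hd0, map_div₀, hvd, div_lt_one₀ (zero_lt_iff.2 (v.ne_zero_iff.2 hT0))]
    exact hdv

end CH

theorem exists_chart [IsAlgClosed Ω] [CharZero Ω] (hA : Act v G) {M : Subfield Ω} (hM : ACl M)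
    (hc : (M : Set Ω).Countable) (hG : ∀ g : G, ∀ x ∈ M, g • x ∈ M) (Y : Finset Ω) {w : Ω}
    (hw : w ∉ M) (hwY : w ∈ Y) (hY : ∀ y ∈ Y, ∀ g : G, g • y = y)
    (halg : ∀ y ∈ Y, IsAlgebraic (Adj M {w}) y) : ∃ z b μ, Chart v G M Y z b μ := by
  by_cases h : ∀ x ∈ Adj M Y, ∃ c ∈ M, v x = v c
  · exact CH.chart_one hA hM hc hG hw hwY hY halg h
  · push Not at h
    obtain ⟨T, hT, hv⟩ := h
    exact CH.chart_two hA hM hc hG hY halg hT hv

end Pool.Agent.Lib.MP_132c47_lc
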