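import Pool.Agent.Lib.MP_132c47_lc.VB

/-! Local representation lemmas. -/

namespace Pool.Agent.Lib.MP_132c47_lc

open Polynomial

section Val
variable {Ω : Type} [Field Ω] {Γ₀ : Type} [LinearOrderedCommGroupWithZero Γ₀]
  {v : Valuation Ω Γ₀}

theorem opt_of_ne {K : Subfield Ω} {T : Ω} (h : ∀ c ∈ K, v T ≠ v c) : Opt v K T := by
  refine ⟨fun h0 => h 0 K.zero_mem (by rw [h0]), fun c hc => ?_⟩
  have e : v (T - c) = max (v T) (v c) := by
    rw [sub_eq_add_neg, v.map_add_of_distinct_val (by rw [v.map_neg]; exact h c hc), v.map_neg]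
  rw [e]
  exact le_max_left _ _

namespace LR

/-- The shape of a value of a polynomial. -/
def Shape (v : Valuation Ω Γ₀) (K : Subfield Ω) (T x : Ω) : Prop :=
  ∃ c ∈ K, c ≠ 0 ∧ ∃ j : ℤ, ∃ u ∈ Subring.closure (Mon v K T), v u = 1 ∧
    ((∀ c ∈ K, v T ≠ v c) → v (u - 1) < 1) ∧ x = c * T ^ j * u

theorem Shape.const {K : Subfield Ω} {T c : Ω} (hc : c ∈ K) (h0 : c ≠ 0) : Shape v K T c :=
  ⟨c, hc, h0, 0, 1, Subring.one_mem _, v.map_one, fun _ => by simp, by simp⟩

theorem Shape.mul {K : Subfield Ω} {T x y : Ω} (hT : T ≠ 0) (hx : Shape v K T x)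
    (hy : Shape v K T y) : Shape v K T (x * y) := by
  obtain ⟨c, hc, c0, j, u, hu, e, h, rfl⟩ := hx
  obtain ⟨c', hc', c0', j', u', hu', e', h', rfl⟩ := hy
  refine ⟨c * c', K.mul_mem hc hc', mul_ne_zero c0 c0', j + j', u * u', Subring.mul_mem _ hu hu',
    by simp [e, e'], fun hh => ?_, by rw [zpow_add₀ hT]; ring⟩
  have : u * u' - 1 = (u - 1) * u' + (u' - 1) := by ring
  rw [this]
  refine v.map_add_lt ?_ (h' hh)
  rw [v.map_mul, e', mul_one]
  exact h hh

theorem Shape.lin {K : Subfield Ω} {T r : Ω} (h : Opt v K T) (hr : r ∈ K) :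
    Shape v K T (T - r) := by
  have hT := h.1
  have vT : 0 < v T := by
    rw [pos_iff_ne_zero]
    simpa using hT
  rcases le_or_gt (v r) (v T) with hle | hlt
  · have h1 : v (r * T ^ (-1 : ℤ)) ≤ 1 := by
      rw [zpow_neg_one, v.map_mul, map_inv₀, mul_inv_le_iff₀ vT, one_mul]
      exact hle
    have e : T - r = 1 * T ^ (1 : ℤ) * (1 - r * T ^ (-1 : ℤ)) := by
      rw [zpow_neg_one, zpow_one]
      field_simp
    refine ⟨1, K.one_mem, one_ne_zero, 1, 1 - r * T ^ (-1 : ℤ),
      Subring.sub_mem _ (Subring.one_mem _) (Subring.subset_closure ⟨h1, r, hr, -1, rfl⟩),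
      ?_, fun hh => ?_, e⟩
    · refine le_antisymm (v.map_sub_le (by simp) h1) ?_
      have h2 := h.2 r hr
      rw [e, one_mul, zpow_one, v.map_mul] at h2
      exact (le_mul_iff_one_le_right vT).1 h2
    · have : (1 - r * T ^ (-1 : ℤ)) - 1 = -(r * T ^ (-1 : ℤ)) := by ring
      rw [this, v.map_neg, zpow_neg_one, v.map_mul, map_inv₀, mul_inv_lt_iff₀ vT, one_mul]
      exact lt_of_le_of_ne hle (hh r hr).symm
  · have vr : 0 < v r := vT.trans hlt
    have r0 : r ≠ 0 := by
      rintro rfl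
      simp at vr
    have h1 : v (r⁻¹ * T ^ (1 : ℤ)) < 1 := by
      rw [zpow_one, v.map_mul, map_inv₀, inv_mul_lt_iff₀ vr, mul_one]
      exact hlt
    have e : T - r = -r * T ^ (0 : ℤ) * (1 - r⁻¹ * T ^ (1 : ℤ)) := by
      rw [zpow_zero, zpow_one]
      field_simp
      ring
    refine ⟨-r, K.neg_mem hr, neg_ne_zero.2 r0, 0, 1 - r⁻¹ * T ^ (1 : ℤ),
      Subring.sub_mem _ (Subring.one_mem _)
        (Subring.subset_closure ⟨h1.le, r⁻¹, K.inv_mem hr, 1, rfl⟩),
      v.map_one_sub_of_lt h1, fun _ => ?_, e⟩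
    have : (1 - r⁻¹ * T ^ (1 : ℤ)) - 1 = -(r⁻¹ * T ^ (1 : ℤ)) := by ring
    rw [this, v.map_neg]
    exact h1

theorem Shape.eval [IsAlgClosed Ω] {K : Subfield Ω} (hK : ACl K) {T : Ω} (h : Opt v K T)
    {f : Polynomial Ω} (hf : ∀ i, f.coeff i ∈ K) (h0 : f ≠ 0) : Shape v K T (f.eval T) := by
  obtain ⟨s, hs, e⟩ := hK.splits hf
  have key : ∀ s : Multiset Ω, (∀ r ∈ s, r ∈ K) →
      Shape v K T (((s.map fun r => X - C r).prod).eval T) := by
    intro s
    induction s using Multiset.induction_on with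
    | empty => exact fun _ => by simpa using Shape.const K.one_mem one_ne_zero
    | cons a s ih =>
      intro hs
      rw [Multiset.map_cons, Multiset.prod_cons, eval_mul, eval_sub, eval_X, eval_C]
      exact Shape.mul h.1 (Shape.lin h (hs a (Multiset.mem_cons_self _ _)))
        (ih fun r hr => hs r (Multiset.mem_cons_of_mem hr))
  rw [e, eval_mul, eval_C]
  exact Shape.mul h.1 (Shape.const (hf _) (leadingCoeff_ne_zero.2 h0)) (key s hs)

theorem exists_shape [IsAlgClosed Ω] {K : Subfield Ω} (hK : ACl K) {T : Ω} (h : Opt v K T) {x : Ω}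
    (hx : x ∈ Adj K {T}) (h0 : x ≠ 0) :
    ∃ c ∈ K, c ≠ 0 ∧ ∃ j : ℤ, ∃ u ∈ Subring.closure (Mon v K T),
      ∃ u' ∈ Subring.closure (Mon v K T), v u = 1 ∧ v u' = 1 ∧
      ((∀ c ∈ K, v T ≠ v c) → v (u - u') < 1) ∧ x * u' = c * T ^ j * u := by
  obtain ⟨f, g, hf, hg, rfl⟩ := mem_Adj_single.1 hx
  have f0 : f ≠ 0 := by
    rintro rfl
    simp at h0
  have g0 : g ≠ 0 := by
    rintro rfl
    simp at h0
  obtain ⟨c, hc, c0, j, u, hu, e, hh, ef⟩ := Shape.eval hK h hf f0
  obtain ⟨c', hc', c0', j', u', hu', e', hh', eg⟩ := Shape.eval hK h hg g0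
  have u0 : u' ≠ 0 := by
    rintro rfl
    simp at e'
  refine ⟨c / c', K.div_mem hc hc', div_ne_zero c0 c0', j - j', u, hu, u', hu', e, e',
    fun H => ?_, ?_⟩
  · have : u - u' = (u - 1) - (u' - 1) := by ring
    rw [this]
    exact v.map_sub_lt (hh H) (hh' H)
  · have hT := h.1
    have t0 : T ^ j' ≠ 0 := zpow_ne_zero _ hT
    rw [ef, eg, zpow_sub₀ hT]
    field_simp

theorem coeff_mul_le {f g : Polynomial Ω} (hf : ∀ i, v (f.coeff i) ≤ 1)
    (hg : ∀ i, v (g.coeff i) ≤ 1) (i : ℕ) : v ((f * g).coeff i) ≤ 1 := by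
  rw [coeff_mul]
  refine v.map_sum_le fun p _ => ?_
  rw [v.map_mul]
  exact mul_le_one' (hf _) (hg _)

theorem coeff_le_of_dvd [IsAlgClosed Ω] {f g : Polynomial Ω} (hf : f.Monic)
    (hc : ∀ i, v (f.coeff i) ≤ 1) (hg : g.Monic) (hd : g ∣ f) (i : ℕ) : v (g.coeff i) ≤ 1 := by
  have key : ∀ s : Multiset Ω, (∀ r ∈ s, v r ≤ 1) →
      ∀ i, v (((s.map fun r => X - C r).prod).coeff i) ≤ 1 := by
    intro s
    induction s using Multiset.induction_on with
    | empty =>
      intro _ i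
      rw [Multiset.map_zero, Multiset.prod_zero, coeff_one]
      split_ifs <;> simp
    | cons a s ih =>
      intro hs
      rw [Multiset.map_cons, Multiset.prod_cons]
      refine coeff_mul_le (fun i => ?_) (ih fun r hr => hs r (Multiset.mem_cons_of_mem hr))
      rw [coeff_sub]
      refine v.map_sub_le ?_ ?_
      · rw [coeff_X]
        split_ifs <;> simp
      · rw [coeff_C]
        split_ifs
        · exact hs a (Multiset.mem_cons_self _ _)
        · simp
  rw [(IsAlgClosed.splits g).eq_prod_roots_of_monic hg]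
  refine key _ (fun r hr => ?_) i
  have h0 : f.eval r = 0 := eval_eq_zero_of_dvd_of_eval_eq_zero hd (isRoot_of_mem_roots hr)
  exact v_le_one_of_root hf hc h0

theorem hens_int {E : Subfield Ω} {b : Ω} (h : Hens v E b) : IsIntegral E b := by
  obtain ⟨f, hf, hc, h0, -⟩ := h
  obtain ⟨g, rfl⟩ := exists_lift fun i => (hc i).1
  refine ⟨g, monic_of_injective (algebraMap E Ω).injective hf, ?_⟩
  rwa [← eval_map]

theorem hens_min [IsAlgClosed Ω] {E : Subfield Ω} {b : Ω} (h : Hens v E b) :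
    (∀ i, v (((minpoly E b).map (algebraMap E Ω)).coeff i) ≤ 1) ∧
      v (((minpoly E b).map (algebraMap E Ω)).derivative.eval b) = 1 := by
  have hi := hens_int h
  obtain ⟨f, hf, hc, h0, h1⟩ := h
  obtain ⟨g, rfl⟩ := exists_lift fun i => (hc i).1
  have hd : minpoly E b ∣ g := minpoly.dvd E b (by rwa [aeval_def, ← eval_map])
  have hm : ((minpoly E b).map (algebraMap E Ω)).Monic := (minpoly.monic hi).map _
  obtain ⟨ν, hν⟩ := Polynomial.map_dvd (algebraMap E Ω) hd
  set μ := (minpoly E b).map (algebraMap E Ω) with hμ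
  have hνm : ν.Monic := by
    rw [hν] at hf
    exact hm.of_mul_monic_left hf
  have hb : v b ≤ 1 := v_le_one_of_root hf (fun i => (hc i).2) h0
  have c1 := coeff_le_of_dvd hf (fun i => (hc i).2) hm ⟨ν, hν⟩
  have c2 := coeff_le_of_dvd hf (fun i => (hc i).2) hνm ⟨μ, by rw [hν, mul_comm]⟩
  refine ⟨c1, ?_⟩
  have m0 : μ.eval b = 0 := by
    rw [hμ, eval_map, ← aeval_def]
    exact minpoly.aeval E b
  rw [hν, derivative_mul, eval_add, eval_mul, eval_mul, m0, zero_mul, add_zero, v.map_mul] at h1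
  have a1 : v (μ.derivative.eval b) ≤ 1 := by
    refine v_eval_le (fun i => ?_) hb
    rw [coeff_derivative, v.map_mul]
    refine mul_le_one' (c1 _) ?_
    have : v ((i + 1 : ℕ) : Ω) ≤ 1 := natCast_mem v.integer (i + 1)
    simpa using this
  have a2 : v (ν.eval b) ≤ 1 := v_eval_le c2 hb
  refine le_antisymm a1 ?_
  calc 1 = v (μ.derivative.eval b) * v (ν.eval b) := h1.symm
    _ ≤ v (μ.derivative.eval b) * 1 := mul_le_mul_right a2 _
    _ = _ := mul_one _

theorem mem_adjoin {E : Subfield Ω} {b x : Ω} (hx : x ∈ Adj E {b}) :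
    x ∈ IntermediateField.adjoin E {b} := by
  have : Adj E {b} ≤ (IntermediateField.adjoin E {b}).toSubfield := by
    refine Subfield.closure_le.2 ?_
    rintro y (hy | hy)
    · exact (IntermediateField.adjoin E {b}).algebraMap_mem ⟨y, hy⟩
    · exact IntermediateField.subset_adjoin E {b} hy
  exact this hx

theorem eval_mem_closure {S : Set Ω} {b : Ω} {P : Polynomial Ω} (hP : ∀ i, P.coeff i ∈ S) :
    P.eval b ∈ Subring.closure (insert b S) := by
  rw [eval_eq_sum_range]
  refine Subring.sum_mem _ fun i _ => Subring.mul_mem _ ?_ (Subring.pow_mem _ ?_ _)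
  · exact Subring.subset_closure (Set.mem_insert_of_mem _ (hP i))
  · exact Subring.subset_closure (Set.mem_insert _ _)

/-- The different kills the index of the order generated by `b`. -/
theorem mul_deriv_mem [IsAlgClosed Ω] [CharZero Ω] {E : Subfield Ω} {b : Ω} (hi : IsIntegral E b)
    (hc : ∀ i, v (((minpoly E b).map (algebraMap E Ω)).coeff i) ≤ 1)
    (y : IntermediateField.adjoin E {b})
    (hy : ∀ σ : IntermediateField.adjoin E {b} →ₐ[E] Ω, v (σ y) ≤ 1) :
    (y : Ω) * ((minpoly E b).map (algebraMap E Ω)).derivative.eval b ∈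
      Subring.closure (insert b {c | c ∈ E ∧ v c ≤ 1}) := by
  classical
  have hm : ((minpoly E b).map (algebraMap E Ω)).Monic := (minpoly.monic hi).map _
  set pb := IntermediateField.adjoin.powerBasis hi with hpb
  have hgen : (pb.gen : Ω) = b := by simp [hpb]
  have hmin : minpoly E pb.gen = minpoly E b := by
    rw [hpb, IntermediateField.adjoin.powerBasis_gen, IntermediateField.minpoly_gen]
  obtain ⟨P, hP, e⟩ := pb.exists_eq_aeval (y * aeval pb.gen (minpoly E b).derivative)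
  have hdim : pb.dim = (minpoly E b).natDegree := by simp [hpb]
  set μ := (minpoly E b).map (algebraMap E Ω) with hμ
  have hdeg : μ.natDegree = (minpoly E b).natDegree := natDegree_map _
  have hsep : μ.Separable := by
    have : CharZero E := (algebraMap E Ω).charZero
    exact ((minpoly.irreducible hi).separable).map
  have hcard : μ.roots.toFinset.card = μ.natDegree := by
    rw [Multiset.toFinset_card_of_nodup (nodup_roots hsep)]
    exact (IsAlgClosed.splits μ).natDegree_eq_card_roots.symm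
  have hex : ∀ r ∈ μ.roots.toFinset, ∃ σ : IntermediateField.adjoin E {b} →ₐ[E] Ω,
      σ pb.gen = r := by
    intro r hr
    have hr' : aeval r (minpoly E pb.gen) = 0 := by
      rw [hmin, aeval_def, ← eval_map]
      exact isRoot_of_mem_roots (Multiset.mem_toFinset.1 hr)
    exact ⟨pb.lift r hr', pb.lift_gen r hr'⟩
  choose! σ hσ using hex
  set Q : Polynomial Ω := ∑ r ∈ μ.roots.toFinset, C (σ r y) * (μ /ₘ (X - C r)) with hQ
  have hfac : ∀ r ∈ μ.roots.toFinset, (X - C r) * (μ /ₘ (X - C r)) = μ := fun r hr =>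
    mul_divByMonic_eq_iff_isRoot.2 (isRoot_of_mem_roots (Multiset.mem_toFinset.1 hr))
  have hqm : ∀ r ∈ μ.roots.toFinset, (μ /ₘ (X - C r)).Monic := fun r hr => by
    have := hm
    rw [← hfac r hr] at this
    exact (monic_X_sub_C r).of_mul_monic_left this
  have hQc : ∀ i, v (Q.coeff i) ≤ 1 := by
    intro i
    rw [hQ, finsetSum_coeff]
    refine v.map_sum_le fun r hr => ?_
    rw [coeff_C_mul, v.map_mul]
    exact mul_le_one' (hy _) (coeff_le_of_dvd hm hc (hqm r hr) ⟨X - C r, by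
      rw [mul_comm, hfac r hr]⟩ i)
  have hQd : Q.degree < μ.roots.toFinset.card := by
    rw [hcard, hQ]
    refine (degree_sum_le _ _).trans_lt ((Finset.sup_lt_iff (WithBot.bot_lt_coe _)).2 fun r hr => ?_)
    rw [← smul_eq_C_mul]
    refine (degree_smul_le _ _).trans_lt ?_
    rw [← degree_eq_natDegree hm.ne_zero]
    exact degree_divByMonic_lt _ _ hm.ne_zero (by simp)
  have hPd : (P.map (algebraMap E Ω)).degree < μ.roots.toFinset.card := by
    rw [hcard, hdeg, ← hdim]
    refine degree_map_le.trans_lt (degree_le_natDegree.trans_lt ?_)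
    exact_mod_cast hP
  have hPQ : P.map (algebraMap E Ω) = Q := by
    refine eq_of_degrees_lt_of_eval_finset_eq _ hPd hQd fun r hr => ?_
    have e1 := congrArg (σ r) e
    rw [map_mul, ← aeval_algHom_apply, ← aeval_algHom_apply, hσ r hr] at e1
    rw [eval_map, ← aeval_def, ← e1, hQ, eval_finsetSum, Finset.sum_eq_single_of_mem r hr]
    · rw [eval_mul, eval_C, aeval_def, ← eval_map, ← derivative_map, ← hμ]
      congr 1
      conv_lhs => rw [← hfac r hr]
      simp [derivative_mul]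
    · intro r' hr' hne
      have h0 : μ.eval r = 0 := isRoot_of_mem_roots (Multiset.mem_toFinset.1 hr)
      rw [← hfac r' hr', eval_mul, eval_sub, eval_X, eval_C] at h0
      rw [eval_mul, (mul_eq_zero.1 h0).resolve_left (sub_ne_zero.2 hne.symm), mul_zero]
  have e2 := congrArg (IntermediateField.adjoin E {b}).val e
  rw [map_mul, ← aeval_algHom_apply, ← aeval_algHom_apply] at e2
  have e3 : (y : Ω) * μ.derivative.eval b = (P.map (algebraMap E Ω)).eval b := by
    rw [hμ, derivative_map, eval_map, eval_map, ← aeval_def, ← aeval_def]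
    have hg : (IntermediateField.adjoin E {b}).val pb.gen = b := hgen
    rw [hg] at e2
    exact e2
  rw [e3]
  exact eval_mem_closure fun i => ⟨coeff_map_mem P i, by rw [hPQ]; exact hQc i⟩

end LR

open LR

theorem Opt.mem_loc [IsAlgClosed Ω] {K : Subfield Ω} (hK : ACl K) {T : Ω} (h : Opt v K T) {x : Ω}
    (hx : x ∈ Adj K {T}) (h1 : v x ≤ 1) : x ∈ loc v (Subring.closure (Mon v K T)) := by
  by_cases h0 : x = 0
  · rw [h0]
    exact Subring.zero_mem _
  obtain ⟨c, hc, -, j, u, hu, u', hu', e, e', -, ex⟩ := exists_shape hK h hx h0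
  have hv : v (c * T ^ j) ≤ 1 := by
    have := congrArg v ex
    rw [v.map_mul, v.map_mul (c * T ^ j), e, e', mul_one, mul_one] at this
    rwa [← this]
  exact ⟨c * T ^ j * u, Subring.mul_mem _ (Subring.subset_closure ⟨hv, c, hc, j, rfl⟩) hu, u', hu',
    e', ex⟩

/-- For a value-transcendental element. -/
theorem val_Adj [IsAlgClosed Ω] {K : Subfield Ω} (hK : ACl K) {T : Ω} (h : ∀ c ∈ K, v T ≠ v c)
    {x : Ω} (hx : x ∈ Adj K {T}) (h0 : x ≠ 0) :
    ∃ c ∈ K, ∃ j : ℤ, v (x - c * T ^ j) < v (c * T ^ j) := by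
  have hO := opt_of_ne h
  obtain ⟨c, hc, c0, j, u, -, u', -, e, e', hh, ex⟩ := exists_shape hK hO hx h0
  refine ⟨c, hc, j, ?_⟩
  have e1 : (x - c * T ^ j) * u' = c * T ^ j * (u - u') := by rw [sub_mul, ex]; ring
  have e2 := congrArg v e1
  rw [v.map_mul, v.map_mul (c * T ^ j), e', mul_one] at e2
  have p0 : 0 < v (c * T ^ j) := by
    rw [pos_iff_ne_zero, v.ne_zero_iff]
    exact mul_ne_zero c0 (zpow_ne_zero _ hO.1)
  rw [e2]
  exact mul_lt_of_lt_one_right p0 (hh h)

theorem Hens.exists_min [IsAlgClosed Ω] {E : Subfield Ω} {b : Ω} (h : Hens v E b) :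
    ∃ μ : Polynomial Ω, μ.Monic ∧ (∀ i, μ.coeff i ∈ E ∧ v (μ.coeff i) ≤ 1) ∧ μ.eval b = 0 ∧
      v (μ.derivative.eval b) = 1 ∧ ∀ f : Polynomial Ω, (∀ i, f.coeff i ∈ E) → f.eval b = 0 →
        f ≠ 0 → μ.natDegree ≤ f.natDegree := by
  have hi := hens_int h
  obtain ⟨c1, c2⟩ := hens_min h
  refine ⟨(minpoly E b).map (algebraMap E Ω), (minpoly.monic hi).map _,
    fun i => ⟨coeff_map_mem _ i, c1 i⟩, ?_, c2, fun f hf h0 hne => ?_⟩
  · rw [eval_map, ← aeval_def]
    exact minpoly.aeval E b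
  · obtain ⟨g, rfl⟩ := exists_lift hf
    have hd : minpoly E b ∣ g := minpoly.dvd E b (by rwa [aeval_def, ← eval_map])
    exact natDegree_le_of_dvd (Polynomial.map_dvd _ hd) hne

theorem Hens.mem_loc [IsAlgClosed Ω] [CharZero Ω] {E : Subfield Ω} {b : Ω} (h : Hens v E b) {x : Ω}
    (hx : x ∈ Adj E {b}) (h1 : v x ≤ 1) :
    x ∈ loc v (Subring.closure (insert b {c | c ∈ E ∧ v c ≤ 1})) := by
  classical
  have hi := hens_int h
  obtain ⟨c1, c2⟩ := hens_min h
  have hxF := mem_adjoin hx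
  have hle : ∀ y ∈ Adj E {x}, y ∈ IntermediateField.adjoin E {b} := by
    have : Adj E {x} ≤ (IntermediateField.adjoin E {b}).toSubfield := by
      refine Subfield.closure_le.2 ?_
      rintro y (hy | rfl)
      · exact (IntermediateField.adjoin E {b}).algebraMap_mem ⟨y, hy⟩
      · exact hxF
    exact fun y hy => this hy
  have ha : IsAlgebraic E x := by
    have := IntermediateField.adjoin.finiteDimensional hi
    have : IsAlgebraic E (⟨x, hxF⟩ : IntermediateField.adjoin E {b}) :=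
      Algebra.IsAlgebraic.isAlgebraic _
    exact this.algHom (IntermediateField.adjoin E {b}).val
  obtain ⟨s, hs, vs, H⟩ := st_trick ha h1
  have hsF := hle s hs
  have hxs : x * s ∈ IntermediateField.adjoin E {b} := mul_mem hxF hsF
  have key : ∀ σ : IntermediateField.adjoin E {b} →ₐ[E] Ω,
      v (σ ⟨s, hsF⟩) ≤ 1 ∧ v (σ ⟨x * s, hxs⟩) ≤ 1 := by
    intro σ
    let φ : Ω → Ω := fun y => if hy : y ∈ IntermediateField.adjoin E {b} then σ ⟨y, hy⟩ else 0
    have hφ : ∀ y (hy : y ∈ IntermediateField.adjoin E {b}), φ y = σ ⟨y, hy⟩ := fun y hy =>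
      dif_pos hy
    have hPH : IsPH (Adj E {x}).toSubring φ := by
      refine ⟨?_, fun y hy z hz => ?_, fun y hy z hz => ?_⟩
      · rw [hφ 1 (one_mem _)]
        exact map_one σ
      · rw [hφ y (hle y hy), hφ z (hle z hz), hφ _ (add_mem (hle y hy) (hle z hz)), ← map_add]
        rfl
      · rw [hφ y (hle y hy), hφ z (hle z hz), hφ _ (mul_mem (hle y hy) (hle z hz)), ← map_mul]
        rfl
    have := H Ω Γ₀ v φ hPH fun c hc vc => by
      have hcF : c ∈ IntermediateField.adjoin E {b} :=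
        (IntermediateField.adjoin E {b}).algebraMap_mem ⟨c, hc⟩
      have e : σ ⟨c, hcF⟩ = c := σ.commutes ⟨c, hc⟩
      rw [hφ c hcF, e]
      exact vc
    rwa [hφ s hsF, hφ _ hxs] at this
  refine ⟨_, mul_deriv_mem hi c1 ⟨x * s, hxs⟩ fun σ => (key σ).2, _,
    mul_deriv_mem hi c1 ⟨s, hsF⟩ fun σ => (key σ).1, ?_, ?_⟩
  · rw [v.map_mul, c2, mul_one]
    exact vs
  · exact (mul_assoc _ _ _).symm

theorem lr [IsAlgClosed Ω] [CharZero Ω] {K : Subfield Ω} (hK : ACl K) {T b : Ω} (h : Opt v K T)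
    (hb : Hens v (Adj K {T}) b) {x : Ω} (hx : x ∈ Adj K {T, b}) (h1 : v x ≤ 1) :
    x ∈ loc v (Subring.closure (insert b (Mon v K T))) := by
  have hx' : x ∈ Adj (Adj K {T}) {b} := by
    have : Adj K {T, b} ≤ Adj (Adj K {T}) {b} := by
      refine Subfield.closure_le.2 ?_
      rintro y (hy | rfl | rfl)
      · exact Subfield.subset_closure (Or.inl (Subfield.subset_closure (Or.inl hy)))
      · exact Subfield.subset_closure (Or.inl (Subfield.subset_closure (Or.inr rfl)))
      · exact Subfield.subset_closure (Or.inr rfl)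
    exact this hx
  have h2 := hb.mem_loc hx' h1
  have hle : Subring.closure (insert b {c | c ∈ Adj K {T} ∧ v c ≤ 1}) ≤
      loc v (Subring.closure (insert b (Mon v K T))) := by
    refine Subring.closure_le.2 ?_
    rintro y (rfl | ⟨hy, vy⟩)
    · exact le_loc _ (Subring.subset_closure (Set.mem_insert _ _))
    · exact loc_mono (Subring.closure_mono (Set.subset_insert _ _)) (h.mem_loc hK hy vy)
  have h3 := loc_mono (v := v) hle h2
  rwa [loc_loc] at h3

end Val

end Pool.Agent.Lib.MP_132c47_lc
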