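import Pool.Agent.Lib.MP_132c47_lc.VB1

/-! Best approximations and orthogonal bases. -/

namespace Pool.Agent.Lib.MP_132c47_lc

variable {Ω : Type} [Field Ω] {Γ₀ : Type} [LinearOrderedCommGroupWithZero Γ₀]
  {v : Valuation Ω Γ₀}

namespace MI

variable {ι : Type} [Fintype ι]

theorem nrm_le_iff {x : ι → Ω} {γ : Γ₀} : nrm v x ≤ γ ↔ ∀ j, v (x j) ≤ γ := by
  unfold nrm
  simp [Finset.sup_le_iff]

theorem le_nrm (x : ι → Ω) (j : ι) : v (x j) ≤ nrm v x := nrm_le_iff.1 le_rfl j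

theorem exists_nrm (x : ι → Ω) : nrm v x = 0 ∨ ∃ j, nrm v x = v (x j) := by
  rcases (Finset.univ : Finset ι).eq_empty_or_nonempty with h | h
  · left
    unfold nrm
    rw [h, Finset.sup_empty]; exact le_zero_iff.1 bot_le
  · obtain ⟨j, -, hj⟩ := Finset.exists_mem_eq_sup _ h fun j => v (x j)
    exact Or.inr ⟨j, hj⟩

theorem exists_v_eq (x : ι → Ω) : ∃ t : Ω, v t = nrm v x := by
  rcases exists_nrm (v := v) x with h | ⟨j, h⟩
  · exact ⟨0, by rw [h, map_zero]⟩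
  · exact ⟨x j, h.symm⟩

theorem nrm_ne_zero {x : ι → Ω} (hx : x ≠ 0) : nrm v x ≠ 0 := fun h =>
  hx (funext fun j => (Valuation.zero_iff v).1 (le_zero_iff.1 (h ▸ le_nrm x j)))

theorem nrm_add_le {x y : ι → Ω} {γ : Γ₀} (hx : nrm v x ≤ γ) (hy : nrm v y ≤ γ) :
    nrm v (x + y) ≤ γ :=
  nrm_le_iff.2 fun j => v.map_add_le (nrm_le_iff.1 hx j) (nrm_le_iff.1 hy j)

theorem nrm_sub_le {x y : ι → Ω} {γ : Γ₀} (hx : nrm v x ≤ γ) (hy : nrm v y ≤ γ) :
    nrm v (x - y) ≤ γ :=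
  nrm_le_iff.2 fun j => v.map_sub_le (nrm_le_iff.1 hx j) (nrm_le_iff.1 hy j)

theorem nrm_smul (c : Ω) (x : ι → Ω) : nrm v (c • x) = v c * nrm v x := by
  refine le_antisymm (nrm_le_iff.2 fun j => ?_) ?_
  · rw [Pi.smul_apply, smul_eq_mul, map_mul]
    exact mul_le_mul_right (le_nrm x j) _
  · rcases exists_nrm (v := v) x with h | ⟨j, h⟩
    · rw [h, mul_zero]; exact zero_le
    · rw [h, ← map_mul]; exact le_nrm (c • x) j

theorem nrm_sum_le {κ : Type} [Fintype κ] {f : κ → ι → Ω} {γ : Γ₀} (h : ∀ k, nrm v (f k) ≤ γ) :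
    nrm v (∑ k, f k) ≤ γ :=
  nrm_le_iff.2 fun j => by
    rw [Finset.sum_apply]
    exact v.map_sum_le fun k _ => nrm_le_iff.1 (h k) j

theorem best {K : Subfield Ω} (hS : SC v K) (hc : (v '' (K : Set Ω)).Countable) {κ : Type}
    [Fintype κ] {ψ : κ → ι → Ω} (hψ : Orth v K ψ) (x : ι → Ω) :
    ∃ a : κ → Ω, (∀ i, a i ∈ K) ∧ ∀ b : κ → Ω, (∀ i, b i ∈ K) →
      nrm v (x - ∑ k, a k • ψ k) ≤ nrm v (x - ∑ k, b k • ψ k) := by
  by_contra hcon
  push Not at hcon
  set d : (κ → Ω) → Γ₀ := fun a => nrm v (x - ∑ k, a k • ψ k) with hd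
  have hsub : ∀ a b : κ → Ω, ∑ k, (b - a) k • ψ k =
      (x - ∑ k, a k • ψ k) - (x - ∑ k, b k • ψ k) := fun a b => by
    simp only [Pi.sub_apply, sub_smul, Finset.sum_sub_distrib]; abel
  have hD : (d '' {a | ∀ i, a i ∈ K}).Countable := by
    have h1 : (insert 0 (⋃ i, (fun γ => γ * nrm v (ψ i)) '' (v '' (K : Set Ω)))).Countable :=
      (Set.countable_iUnion fun i => hc.image _).insert _
    refine h1.mono ?_
    rintro _ ⟨a, ha, rfl⟩
    obtain ⟨b, hb, hlt⟩ := hcon a ha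
    rcases (Finset.univ : Finset κ).eq_empty_or_nonempty with h | h
    · simp [h] at hlt
    obtain ⟨i, -, hi⟩ := Finset.exists_max_image _ (fun i => v ((b - a) i) * nrm v (ψ i)) h
    refine Or.inr (Set.mem_iUnion.2 ⟨i, _, ⟨(b - a) i, K.sub_mem (hb i) (ha i), rfl⟩, ?_⟩)
    refine le_antisymm ((hψ.2 (b - a) (fun i => K.sub_mem (hb i) (ha i)) i).trans ?_) ?_
    · rw [hsub]; exact nrm_sub_le le_rfl hlt.le
    · by_contra hlt'
      have h2 : nrm v (∑ k, (b - a) k • ψ k) ≤ v ((b - a) i) * nrm v (ψ i) :=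
        nrm_sum_le fun k => (nrm_smul _ _).le.trans (hi k (Finset.mem_univ _))
      have h3 := nrm_add_le (h2.trans (le_max_left _ (d b))) (le_max_right _ (d b))
      rw [hsub, sub_add_cancel] at h3
      exact absurd (max_lt (not_le.1 hlt') hlt) (not_lt.2 h3)
  obtain ⟨e, he⟩ := hD.exists_eq_range ⟨_, 0, fun _ => K.zero_mem, rfl⟩
  have he' : ∀ n, ∃ a, (∀ i, a i ∈ K) ∧ d a = e n := fun n => by
    have : e n ∈ d '' {a | ∀ i, a i ∈ K} := he ▸ Set.mem_range_self n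
    exact this
  choose s hs hse using he'
  have hk : ∀ n, ∃ k ≤ n, ∀ j ≤ n, e k ≤ e j := fun n => by
    obtain ⟨k, hk, h⟩ := Finset.exists_min_image (Finset.range (n + 1)) e (by simp)
    exact ⟨k, Nat.lt_succ_iff.1 (Finset.mem_range.1 hk),
      fun j hj => h j (Finset.mem_range.2 (Nat.lt_succ_iff.2 hj))⟩
  choose k hkn hk using hk
  choose t ht using fun n => exists_v_eq (v := v) (x - ∑ i, s (k n) i • ψ i)
  have ht' : ∀ n, v (t n) = e (k n) := fun n => (ht n).trans (hse _)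
  have hanti : ∀ n, v (t (n + 1)) ≤ v (t n) := fun n => by
    rw [ht', ht']; exact hk _ _ ((hkn n).trans (Nat.le_succ n))
  choose u hu using fun i => exists_v_eq (v := v) (ψ i)
  have hu0 : ∀ i, 0 < v (u i) := fun i => zero_lt_iff.2 (hu i ▸ nrm_ne_zero (hψ.1 i))
  have hlim : ∀ i, ∃ c ∈ K, ∀ n, v (c - s (k n) i) ≤ v (t n / u i) := fun i => by
    refine hS (fun n => s (k n) i) (fun n => t n / u i) (fun n => hs _ i) (fun n => ?_) fun n => ?_
    · rw [map_div₀, map_div₀]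
      exact div_le_div_of_nonneg_right (hanti n) zero_le
    · rw [map_div₀, le_div_iff₀ (hu0 i), hu]
      refine (hψ.2 (s (k (n + 1)) - s (k n)) (fun i => K.sub_mem (hs _ i) (hs _ i)) i).trans ?_
      rw [hsub]
      exact nrm_sub_le (ht n).ge ((ht (n + 1)).ge.trans (hanti n))
  choose c hcK hcl using hlim
  obtain ⟨b, hb, hlt⟩ := hcon c hcK
  obtain ⟨n, hn⟩ : d b ∈ Set.range e := he ▸ Set.mem_image_of_mem d hb
  have h1 : nrm v (∑ i, (c - s (k n)) i • ψ i) ≤ v (t n) := nrm_sum_le fun i => by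
    rw [nrm_smul, ← hu, ← le_div_iff₀ (hu0 i), ← map_div₀]
    exact hcl i n
  have h2 := nrm_sub_le (ht n).ge h1
  rw [hsub, sub_sub_cancel, ht'] at h2
  exact absurd hlt (not_lt.2 (h2.trans ((hk n n le_rfl).trans hn.le)))

omit [Fintype ι] in
theorem sum_mem {K : Subfield Ω} {κ : Type} [Fintype κ] {W : Submodule K (ι → Ω)}
    {ψ : κ → ι → Ω} (h : ∀ i, ψ i ∈ W) {a : κ → Ω} (ha : ∀ i, a i ∈ K) : ∑ k, a k • ψ k ∈ W :=
  W.sum_mem fun k _ => W.smul_mem (⟨a k, ha k⟩ : K) (h k)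

end MI

open MI

theorem SC.best {K : Subfield Ω} (hS : SC v K) (hc : (v '' (K : Set Ω)).Countable) (x : Ω) :
    ∃ a ∈ K, ∀ c ∈ K, v (x - a) ≤ v (x - c) := by
  have e : ∀ y : Unit → Ω, nrm v y = v (y ()) := fun y =>
    le_antisymm (nrm_le_iff.2 fun _ => le_rfl) (le_nrm y ())
  obtain ⟨a, ha, h⟩ := MI.best hS hc (κ := Unit) (ι := Unit) (ψ := fun _ _ => 1)
    ⟨fun _ h => one_ne_zero (congrFun h ()), fun a _ i => by simp [e]⟩ fun _ => x
  refine ⟨a (), ha (), fun c hc => ?_⟩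
  simpa [e] using h (fun _ => c) fun _ => hc

theorem SC.ob {K : Subfield Ω} (hS : SC v K) (hc : (v '' (K : Set Ω)).Countable) : OB v K := by
  intro ι _ n
  induction n with
  | zero => exact fun ψ _ => ⟨ψ, fun i => i.elim0, fun i => i.elim0, fun _ _ i => i.elim0⟩
  | succ n ih =>
    intro ψ hψ
    obtain ⟨h1, h2⟩ := linearIndependent_finSucc.1 hψ
    obtain ⟨φ, hφ, hO⟩ := ih _ h1
    obtain ⟨a, ha, hbest⟩ := MI.best hS hc hO (ψ 0)
    set y := ψ 0 - ∑ k, a k • φ k with hy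
    have hle : Submodule.span K (Set.range (Fin.tail ψ)) ≤ Submodule.span K (Set.range ψ) :=
      Submodule.span_mono (by rintro _ ⟨i, rfl⟩; exact ⟨i.succ, rfl⟩)
    refine ⟨Fin.cons y φ, fun i => ?_, fun i => ?_, fun b hb => ?_⟩
    · refine Fin.cases ?_ (fun i => hle (hφ i)) i
      exact Submodule.sub_mem _ (Submodule.subset_span ⟨0, rfl⟩) (hle (sum_mem hφ ha))
    · refine Fin.cases ?_ (fun i => hO.1 i) i
      intro h0
      exact h2 ((sub_eq_zero.1 h0).symm ▸ sum_mem hφ ha)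
    · rw [Fin.sum_univ_succ]
      simp only [Fin.cons_zero, Fin.cons_succ]
      have h0 : v (b 0) * nrm v y ≤ nrm v (b 0 • y + ∑ k, b k.succ • φ k) := by
        by_cases hb0 : b 0 = 0
        · rw [hb0, map_zero, zero_mul]; exact zero_le
        have h3 := hbest (fun k => a k - b k.succ / b 0)
          fun k => K.sub_mem (ha k) (K.div_mem (hb _) (hb _))
        have h4 : b 0 • y + ∑ k, b k.succ • φ k =
            b 0 • (ψ 0 - ∑ k, (a k - b k.succ / b 0) • φ k) := by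
          simp only [hy, sub_smul, Finset.sum_sub_distrib, smul_sub, Finset.smul_sum, smul_smul,
            mul_div_cancel₀ _ hb0]
          abel
        rw [h4, nrm_smul]
        exact mul_le_mul_right h3 _
      intro i
      refine Fin.cases h0 (fun i => ?_) i
      refine (hO.2 (fun k => b k.succ) (fun k => hb _) i).trans ?_
      have h5 := nrm_sub_le le_rfl ((nrm_smul _ _).le.trans h0)
      rwa [add_sub_cancel_left] at h5

end Pool.Agent.Lib.MP_132c47_lc
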