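import Pool.Agent.Lib.MP_132c47_lc.VB
import Pool.Agent.Lib.MP_132c47_lc.MI1

/-! Maximal immediate extensions. -/

namespace Pool.Agent.Lib.MP_132c47_lc

open Polynomial

variable {Ω : Type} [Field Ω] {Γ₀ : Type} [LinearOrderedCommGroupWithZero Γ₀]
  {v : Valuation Ω Γ₀}

namespace MI

/-- The element has a leading term in `M`. -/
def Ap (v : Valuation Ω Γ₀) (M : Subfield Ω) (x : Ω) : Prop := ∃ c ∈ M, v (x - c) < v c

theorem v_eq {x c : Ω} (h : v (x - c) < v c) : v x = v c := v.map_eq_of_sub_lt h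

theorem Ap.mul {M : Subfield Ω} {x y : Ω} (hx : Ap v M x) (hy : Ap v M y) : Ap v M (x * y) := by
  obtain ⟨c, hc, h1⟩ := hx
  obtain ⟨d, hd, h2⟩ := hy
  have c0 : 0 < v c := zero_le.trans_lt h1
  have d0 : 0 < v d := zero_le.trans_lt h2
  refine ⟨c * d, M.mul_mem hc hd, ?_⟩
  rw [show x * y - c * d = x * (y - d) + (x - c) * d by ring]
  refine v.map_add_lt ?_ ?_
  · rw [map_mul, map_mul, v_eq h1]; exact mul_lt_mul_of_pos_left h2 c0
  · rw [map_mul, map_mul]; exact mul_lt_mul_of_pos_right h1 d0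

theorem Ap.inv {M : Subfield Ω} {x : Ω} (hx : Ap v M x) : Ap v M x⁻¹ := by
  obtain ⟨c, hc, h1⟩ := hx
  have c0 : 0 < v c := zero_le.trans_lt h1
  have e := v_eq h1
  have hc0 : c ≠ 0 := (Valuation.ne_zero_iff v).1 c0.ne'
  have hx0 : x ≠ 0 := (Valuation.ne_zero_iff v).1 (e ▸ c0.ne')
  refine ⟨c⁻¹, M.inv_mem hc, ?_⟩
  rw [show x⁻¹ - c⁻¹ = -(x - c) / (x * c) by field_simp; ring, map_div₀, v.map_neg, map_mul, e,
    map_inv₀, div_lt_iff₀ (mul_pos c0 c0), inv_mul_cancel_left₀ c0.ne']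
  exact h1

theorem Ap.trans {M : Subfield Ω} {x y : Ω} (h : v (x - y) < v y) (hy : Ap v M y) : Ap v M x := by
  obtain ⟨c, hc, h1⟩ := hy
  refine ⟨c, hc, ?_⟩
  rw [show x - c = (x - y) + (y - c) by ring]
  exact v.map_add_lt (v_eq h1 ▸ h) h1

theorem imm_self (M : Subfield Ω) : Imm v M M := fun x hx h0 =>
  ⟨x, hx, by rw [sub_self, map_zero]; exact zero_lt_iff.2 ((Valuation.ne_zero_iff v).2 h0)⟩

theorem imm_adj [IsAlgClosed Ω] {M K : Subfield Ω} (hK : ACl K) (hI : Imm v M K) {a : Ω}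
    (ha : ∀ c ∈ K, a ≠ c → ∃ c' ∈ K, v (a - c - c') < v c') : Imm v M (Adj K {a}) := by
  have hs : ∀ s : Multiset Ω, (∀ r ∈ s, r ∈ K) → (s.map fun r => a - r).prod ≠ 0 →
      Ap v M (s.map fun r => a - r).prod := by
    intro s
    induction s using Multiset.induction_on with
    | empty => exact fun _ _ => imm_self M _ (by simp) (by simp)
    | cons r s ih =>
      intro h h0
      rw [Multiset.map_cons, Multiset.prod_cons] at h0 ⊢
      obtain ⟨c', hc', h1⟩ := ha r (h r (Multiset.mem_cons_self _ _))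
        (sub_ne_zero.1 (left_ne_zero_of_mul h0))
      exact (Ap.trans h1 (hI c' hc' ((Valuation.ne_zero_iff v).1 (zero_le.trans_lt h1).ne'))).mul
        (ih (fun r hr => h r (Multiset.mem_cons_of_mem hr)) (right_ne_zero_of_mul h0))
  have hp : ∀ f : Polynomial Ω, (∀ i, f.coeff i ∈ K) → f.eval a ≠ 0 → Ap v M (f.eval a) := by
    intro f hf h0
    obtain ⟨s, h1, h2⟩ := hK.splits hf
    have h3 : f.eval a = f.leadingCoeff * (s.map fun r => a - r).prod := by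
      conv_lhs => rw [h2]
      simp [eval_multiset_prod]
    rw [h3] at h0 ⊢
    exact Ap.mul (hI _ (hf _) (left_ne_zero_of_mul h0)) (hs s h1 (right_ne_zero_of_mul h0))
  intro x hx h0
  obtain ⟨f, g, hf, hg, rfl⟩ := mem_Adj_single.1 hx
  rw [div_eq_mul_inv] at h0 ⊢
  exact (hp f hf (left_ne_zero_of_mul h0)).mul
    (hp g hg (fun h => right_ne_zero_of_mul h0 (inv_eq_zero.2 h))).inv

theorem imm_acl [IsAlgClosed Ω] {M K : Subfield Ω} (hM : ACl M) (hMK : M ≤ K) (hI : Imm v M K) :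
    Imm v M (acl K) := by
  intro x hx h0
  obtain ⟨n, hn, c, hc, h1⟩ := val_pow_mem (v := v) (mem_acl.1 hx)
  have hx0 : v x ≠ 0 := (Valuation.ne_zero_iff v).2 h0
  obtain ⟨c', hc', h2⟩ := hI c hc ((Valuation.ne_zero_iff v).1 (h1 ▸ pow_ne_zero n hx0))
  obtain ⟨d, hd, rfl⟩ := hM.exists_pow hc' hn
  have h3 : v x = v d := by
    rw [v_eq h2, map_pow] at h1
    exact (pow_left_inj₀ zero_le zero_le hn.ne').1 h1
  have hd0 : d ≠ 0 := (Valuation.ne_zero_iff v).1 (h3 ▸ hx0)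
  have h4 : v (x / d) = 1 := by rw [map_div₀, ← h3, div_self hx0]
  have hE : ∀ c ∈ K, v c ≤ 1 → ∃ a ∈ M, v (c - a) < 1 := fun c hc h => by
    by_cases hc0 : c = 0
    · exact ⟨0, M.zero_mem, by simp [hc0]⟩
    · obtain ⟨a, ha, h7⟩ := hI c hc hc0
      exact ⟨a, ha, h7.trans_le (v_eq h7 ▸ h)⟩
  obtain ⟨a, ha, h5⟩ := res_mem hM hE (mem_acl.1 ((acl K).div_mem hx (le_acl K (hMK hd)))) h4.le
  have h6 : v a = 1 := by
    have h7 : v (a - x / d) < v (x / d) := by rw [v.map_sub_swap, h4]; exact h5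
    rw [v_eq h7, h4]
  have := Ap.mul (v := v) (M := M) ⟨a, ha, h6 ▸ h5⟩ (imm_self M d hd hd0)
  rwa [div_mul_cancel₀ _ hd0] at this

end MI

open MI

theorem exists_maxImm [IsAlgClosed Ω] {M N : Subfield Ω} (hM : ACl M) (hN : ACl N) (hMN : M ≤ N)
    (hS : SC v N) {a : Ω} (haN : a ∈ N)
    (ha : ∀ c ∈ M, a ≠ c → ∃ c' ∈ M, v (a - c - c') < v c') :
    ∃ K : Subfield Ω, M ≤ K ∧ a ∈ K ∧ K ≤ N ∧ ACl K ∧ Imm v M K ∧ SC v K := by
  obtain ⟨K, hK, hmax⟩ := zorn_le_nonempty₀ {K : Subfield Ω | K ≤ N ∧ Imm v M K}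
    (fun c hc hch y hy => ⟨sSup c, ⟨sSup_le fun K hK => (hc hK).1, fun x hx => by
      obtain ⟨K, hK, hx⟩ := (Subfield.mem_sSup_of_directedOn ⟨y, hy⟩ hch.directedOn).1 hx
      exact (hc hK).2 x hx⟩, fun z hz => le_sSup hz⟩)
    (Adj M {a}) ⟨Adj_le hMN (by simpa using haN), imm_adj hM (imm_self M) ha⟩
  obtain ⟨hKN, hI⟩ := hmax.prop
  have hMK : M ≤ K := (le_Adj _ _).trans hK
  have hA : ACl K := fun x hx => hmax.le_of_ge
    (show acl K ∈ {K : Subfield Ω | K ≤ N ∧ Imm v M K} from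
      ⟨hN.acl_eq ▸ acl_mono hKN, imm_acl hM hMK hI⟩) (le_acl K) (mem_acl.2 hx)
  refine ⟨K, hMK, hK (mem_Adj _ rfl), hKN, hA, hI, fun s t hs ht hst => ?_⟩
  obtain ⟨b, hb, hbs⟩ := hS s t (fun n => hKN (hs n)) ht hst
  by_contra hcon
  push Not at hcon
  have h1 : Imm v M (Adj K {b}) := imm_adj hA hI fun c hc _ => by
    obtain ⟨n, hn⟩ := hcon c hc
    refine ⟨s n - c, K.sub_mem (hs n) hc, ?_⟩
    rw [sub_sub_sub_cancel_right, v.map_sub_swap (s n)]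
    exact (hbs n).trans_lt hn
  have h2 : b ∈ K := hmax.le_of_ge
    (show Adj K {b} ∈ {K : Subfield Ω | K ≤ N ∧ Imm v M K} from
      ⟨Adj_le hKN (by simpa using hb), h1⟩) (le_Adj _ _) (mem_Adj _ rfl)
  obtain ⟨n, hn⟩ := hcon b h2
  exact absurd (hbs n) (not_le.2 hn)

end Pool.Agent.Lib.MP_132c47_lc
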