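import Pool.Agent.Lib.MP_132c47_lc.TA3

/-! Block TA: the stability theorem and henselian generation. -/

namespace Pool.Agent.Lib.MP_132c47_lc

open Polynomial

variable {Ω : Type} [Field Ω] {Γ₀ : Type} [LinearOrderedCommGroupWithZero Γ₀]
  {v : Valuation Ω Γ₀}

namespace TA

theorem mem_adjoin_iff {K : Subfield Ω} {S : Set Ω} {w : Ω} (hw : w ∈ Adj K S) {x : Ω} :
    x ∈ IntermediateField.adjoin (Adj K {w}) S ↔ x ∈ Adj K S := by
  have : Adj (Adj K {w}) S = Adj K S := le_antisymm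
    (Adj_le (Adj_le (le_Adj K S) (by rintro _ rfl; exact hw)) fun x hx => mem_Adj K hx)
    (Adj_le ((le_Adj K _).trans (le_Adj _ S)) fun x hx => mem_Adj _ hx)
  rw [← this, Adj_eq (Adj K {w}) S]
  rfl

variable [IsAlgClosed Ω] [CharZero Ω] {K : Subfield Ω}

/-- The value group is cyclic modulo the value group of the constants. -/
theorem exists_gen (hK : ACl K) (S : Finset Ω) {T : Ω} (hT : T ∈ Adj K S)
    (hv : ∀ c ∈ K, v T ≠ v c) (halg : ∀ x ∈ S, IsAlgebraic (Adj K {T}) x) :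
    ∃ z ∈ Adj K S, (∀ c ∈ K, v z ≠ v c) ∧
      ∀ x ∈ Adj K S, ∃ c ∈ K, ∃ j : ℤ, v x = v (c * z ^ j) := by
  have := IntermediateField.finiteDimensional_adjoin (K := Adj K {T}) (S := (S : Set Ω))
    fun x hx => (halg x hx).isIntegral
  set L := IntermediateField.adjoin (Adj K {T}) (S : Set Ω)
  set D := (Fintype.card (L →ₐ[Adj K {T}] Ω)).factorial
  have hD : 0 < D := Nat.factorial_pos _
  have T0 : v T ≠ 0 := (Valuation.ne_zero_iff v).2 (vt_ne_zero hv)
  have h1 : ∀ x ∈ Adj K S, x ≠ 0 → ∃ r : ℤ, ∃ c ∈ K, c ≠ 0 ∧ v x ^ D = v c * v T ^ r := by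
    intro x hx h0
    set y : L := ⟨x, (mem_adjoin_iff hT).2 hx⟩
    obtain ⟨i, j, hij, hj, -, e⟩ := exists_val_eq (v := v) (cp_monic (E := Adj K {T}) y).ne_zero h0
      (cp_eval y L.val)
    rw [cp_natDegree] at hj
    obtain ⟨c, hc, c0, r, e', -⟩ := val_Adj' hK hv (div_mem (cp_memE y i) (cp_memE y j))
      fun e0 => by
        rw [e0, v.map_zero] at e
        exact pow_ne_zero _ ((Valuation.ne_zero_iff v).2 h0) e
    obtain ⟨k, hk⟩ : j - i ∣ D := Nat.dvd_factorial (by omega) (by omega)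
    exact ⟨r * k, c ^ k, pow_mem hc k, pow_ne_zero _ c0, by
      rw [hk, pow_mul, e, e', mul_pow, v.map_pow, zpow_mul, zpow_natCast]⟩
  let H : AddSubgroup ℤ :=
    { carrier := {r | ∃ x ∈ Adj K S, x ≠ 0 ∧ ∃ c ∈ K, c ≠ 0 ∧ v x ^ D = v c * v T ^ r}
      zero_mem' := ⟨1, one_mem _, one_ne_zero, 1, one_mem _, one_ne_zero, by simp⟩
      add_mem' := by
        rintro r r' ⟨x, hx, x0, c, hc, c0, e⟩ ⟨x', hx', x0', c', hc', c0', e'⟩
        exact ⟨x * x', mul_mem hx hx', mul_ne_zero x0 x0', c * c', mul_mem hc hc',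
          mul_ne_zero c0 c0', by
            rw [v.map_mul, v.map_mul, mul_pow, e, e', zpow_add₀ T0, mul_mul_mul_comm]⟩
      neg_mem' := by
        rintro r ⟨x, hx, x0, c, hc, c0, e⟩
        exact ⟨x⁻¹, inv_mem hx, inv_ne_zero x0, c⁻¹, inv_mem hc, inv_ne_zero c0, by
          rw [map_inv₀, map_inv₀, inv_pow, e, zpow_neg, mul_inv]⟩ }
  obtain ⟨a, ha⟩ := Int.subgroup_cyclic H
  obtain ⟨z, hz, z0, c, hc, c0, e⟩ : a ∈ H := ha ▸ AddSubgroup.subset_closure rfl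
  have vc : v c ≠ 0 := (Valuation.ne_zero_iff v).2 c0
  refine ⟨z, hz, fun c' hc' e' => ?_, fun x hx => ?_⟩
  · have h2 : (D : ℤ) ∈ H := ⟨T, hT, vt_ne_zero hv, 1, one_mem _, one_ne_zero, by simp⟩
    rw [ha, AddSubgroup.mem_closure_singleton] at h2
    obtain ⟨n, hn⟩ := h2
    have h3 : a = 0 := vt_zpow hK hv (div_mem (pow_mem hc' D) hc) (by
      rw [map_div₀, v.map_pow, ← e', e, mul_div_cancel_left₀ _ vc])
    rw [h3, smul_zero] at hn
    omega
  · rcases eq_or_ne x 0 with rfl | x0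
    · exact ⟨0, zero_mem _, 0, by simp⟩
    obtain ⟨r, c', hc', c0', e'⟩ := h1 x hx x0
    have h2 : r ∈ H := ⟨x, hx, x0, c', hc', c0', e'⟩
    rw [ha, AddSubgroup.mem_closure_singleton] at h2
    obtain ⟨n, rfl⟩ := h2
    obtain ⟨d, hd, e2⟩ := hK.exists_pow (div_mem hc' (zpow_mem hc n)) hD
    refine ⟨d, hd, n, (pow_left_inj₀ zero_le zero_le hD.ne').1 ?_⟩
    rw [e', v.map_mul, mul_pow, ← v.map_pow, e2, map_zpow₀, ← zpow_natCast, ← zpow_mul, mul_comm n,
      zpow_mul, zpow_natCast, e, mul_zpow, map_div₀, map_zpow₀, ← mul_assoc,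
      div_mul_cancel₀ _ (zpow_ne_zero _ vc), ← zpow_mul, smul_eq_mul, mul_comm n]

omit [CharZero Ω] in
theorem exists_lam (hK : ACl K) {s : ℕ} (hs : 0 < s) : ∃ l ∈ K, l * (l ^ s - 1) = 1 := by
  have hm : (X ^ (s + 1) - (X + C 1) : Polynomial Ω).Monic := monic_X_pow_sub (by
    rw [degree_X_add_C]; exact_mod_cast Nat.succ_lt_succ hs)
  obtain ⟨l, hl⟩ := IsAlgClosed.exists_root (X ^ (s + 1) - (X + C 1) : Polynomial Ω) (by
    rw [degree_sub_eq_left_of_degree_lt] <;> rw [degree_X_pow]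
    · exact_mod_cast Nat.succ_ne_zero s
    · rw [degree_X_add_C]; exact_mod_cast Nat.succ_lt_succ hs)
  refine ⟨l, hK l (isAlgebraic_iff.2 ⟨_, hm, fun i => ?_, hl⟩), ?_⟩
  · simp only [coeff_sub, coeff_add, coeff_X_pow, coeff_X, coeff_C]
    refine sub_mem ?_ (add_mem ?_ ?_) <;> split_ifs <;> simp
  · have : l ^ (s + 1) - (l + 1) = 0 := by simpa using hl
    linear_combination this

end TA

open TA in
theorem thmA [IsAlgClosed Ω] [CharZero Ω] {K : Subfield Ω} (hK : ACl K) (hO : OB v K)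
    (S : Finset Ω) {T : Ω} (hT : T ∈ Adj K S) (hv : ∀ c ∈ K, v T ≠ v c)
    (halg : ∀ x ∈ S, IsAlgebraic (Adj K {T}) x) :
    ∃ z ∈ Adj K S, ∃ b ∈ Adj K S, (∀ c ∈ K, v z ≠ v c) ∧
      (∀ x ∈ Adj K S, ∃ c ∈ K, ∃ j : ℤ, v x = v (c * z ^ j)) ∧
      (∀ x ∈ S, x ∈ Adj K {z, b}) ∧ Hens v (Adj K {z}) b := by
  classical
  obtain ⟨z, hz, hvz, hgen⟩ := exists_gen hK S hT hv halg
  have hzE : z ∈ Adj K {z} := mem_Adj K rfl
  have h1 : Adj K S ≤ acl (Adj K {T}) :=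
    Adj_le ((le_Adj K _).trans (le_acl _)) fun x hx => mem_acl.2 (halg x hx)
  have h2 : T ∈ acl (Adj K {z}) := exchange (h1 hz) (by
    rw [hK.acl_eq]; exact fun h => hvz z h rfl)
  have h3 : acl (Adj K {T}) ≤ acl (Adj K {z}) :=
    acl_le_acl (Adj_le ((le_Adj K _).trans (le_acl _)) (by rintro _ rfl; exact h2))
  have := IntermediateField.finiteDimensional_adjoin (K := Adj K {z}) (S := (S : Set Ω))
    fun x hx => (mem_acl.1 (h3 (h1 (mem_Adj K hx)))).isIntegral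
  set L := IntermediateField.adjoin (Adj K {z}) (S : Set Ω)
  have hE : ∀ c ∈ Adj K {z}, v c ≤ 1 → ∃ a ∈ K, v (c - a) < 1 := fun c hc h => by
    rcases h.lt_or_eq with h | h
    · exact ⟨0, zero_mem _, by rwa [sub_zero]⟩
    · obtain ⟨a, ha, a0, j, e, e'⟩ := val_Adj' hK hvz hc fun e => by simp [e] at h
      have hj : j = 0 := vt_eq hK hvz ha (one_mem _) a0 (by rw [← e, h]; simp)
      exact ⟨a, ha, by simpa [hj, h] using e'⟩
  have hres : ∀ (x : L) (σ : L →ₐ[Adj K {z}] Ω), v (σ x) ≤ 1 →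
      ∃ c ∈ Adj K {z}, v (σ x - c) < 1 := fun x σ h => by
    obtain ⟨c, hc, e⟩ := res_mem hK hE
      (isAlgebraic_iff.2 ⟨_, cp_monic x, cp_memE x, cp_eval x σ⟩) h
    exact ⟨c, le_Adj K _ hc, e⟩
  obtain ⟨b, hb⟩ := exists_orth_basis (v := v) (E := Adj K {z}) (L := L)
    fun m φ hφ happ => count hK hvz hO hφ happ
  obtain ⟨ε, e1, e2⟩ := exists_sep hb L.val hres (fun x x0 => by
    obtain ⟨c, hc, j, e⟩ := hgen x ((mem_adjoin_iff hz).1 x.2)
    have hm : c * z ^ j ∈ Adj K {z} := mul_mem (le_Adj K _ hc) (zpow_mem hzE j)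
    have hp : 0 < v (x : Ω) := (Valuation.pos_iff v).2 (by simpa using x0)
    have m0 : c * z ^ j ≠ 0 := (Valuation.pos_iff v).1 (e ▸ hp)
    have e3 : L.val ((⟨(c * z ^ j)⁻¹, inv_mem hm⟩ : Adj K {z}) • x) = (c * z ^ j)⁻¹ * x :=
      emb_smul _ _ _
    obtain ⟨a, ha, h⟩ := hres ((⟨(c * z ^ j)⁻¹, inv_mem hm⟩ : Adj K {z}) • x) L.val (by
      rw [e3, v.map_mul, map_inv₀, ← e, inv_mul_cancel₀ hp.ne'])
    refine ⟨c * z ^ j * a, mul_mem hm ha, ?_⟩
    change v ((x : Ω) - _) < v (x : Ω)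
    rw [show (x : Ω) - c * z ^ j * a = c * z ^ j * ((c * z ^ j)⁻¹ * x - a) by
      rw [mul_sub, mul_inv_cancel_left₀ m0], v.map_mul, ← e, ← e3]
    exact mul_lt_of_lt_one_right hp h) fun s hs => by
      obtain ⟨l, hl, e⟩ := exists_lam hK hs
      exact ⟨l, le_Adj K _ hl, e⟩
  have v1 : v (L.val ε) = 1 := by
    have := v.map_eq_of_sub_lt (x := 1) (y := L.val ε) (by rwa [v.map_one])
    rwa [v.map_one] at this
  have v2 : ∀ σ : L →ₐ[Adj K {z}] Ω, σ ≠ L.val → v (L.val ε - σ ε) = 1 := fun σ hσ => by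
    rw [v.map_sub_eq_of_lt_left (v1 ▸ e2 σ hσ), v1]
  refine ⟨z, hz, ε, (mem_adjoin_iff hz).1 ε.2, hvz, hgen, fun x hx => ?_,
    cp (Adj K {z}) ε, cp_monic ε, fun i => ⟨cp_memE ε i, ?_⟩, cp_eval ε L.val, ?_⟩
  · have h4 := (Field.primitive_element_iff_algHom_eq_of_eval (Adj K {z}) Ω
      (fun _ => IsAlgClosed.splits _) ε L.val).2 fun σ h => by
        by_contra hσ
        simpa [← h] using v2 σ (Ne.symm hσ)
    have h5 := congrArg (IntermediateField.map L.val) h4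
    rw [IntermediateField.adjoin_map, Set.image_singleton, ← AlgHom.fieldRange_eq_map,
      IntermediateField.fieldRange_val] at h5
    have h6 : x ∈ Adj (Adj K {z}) {(ε : Ω)} := by
      rw [Adj_eq]
      change x ∈ IntermediateField.adjoin (Adj K {z}) {L.val ε}
      rw [h5]
      exact IntermediateField.subset_adjoin _ _ hx
    refine Adj_le (Adj_le (le_Adj K _) ?_) ?_ h6 <;> rintro _ rfl <;> exact mem_Adj K (by simp)
  · have := coeff_prod_mem' v.integer (Finset.univ.val.map fun σ : L →ₐ[Adj K {z}] Ω => σ ε)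
      (fun r hr => by
        obtain ⟨σ, -, rfl⟩ := Multiset.mem_map.1 hr
        rcases eq_or_ne σ L.val with rfl | h
        · exact v1.le
        · exact (e2 σ h).le) i
    rw [Multiset.map_map] at this
    exact this
  · rw [cp, ← Finset.mul_prod_erase _ _ (Finset.mem_univ L.val), derivative_mul]
    change v (eval (L.val ε) _) = 1
    simp only [derivative_sub, derivative_X, derivative_C, sub_zero, one_mul, eval_add, eval_mul,
      eval_sub, eval_X, eval_C, sub_self, zero_mul, add_zero, eval_prod, map_prod]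
    exact Finset.prod_eq_one fun σ hσ => v2 σ (Finset.ne_of_mem_erase hσ)

end Pool.Agent.Lib.MP_132c47_lc
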