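import Pool.Agent.Lib.MP_132c47_lc.UL84
import Pool.Agent.Lib.MP_132c47_lc.MI
import Pool.Agent.Lib.MP_132c47_lc.LR
import Pool.Agent.Lib.MP_132c47_lc.TA

/-! Block CH, part 1: descent from an ultrapower. -/

namespace Pool.Agent.Lib.MP_132c47_lc.CH

open Polynomial Filter

variable {Ω : Type} [Field Ω] {Γ₀ : Type} [LinearOrderedCommGroupWithZero Γ₀]
  {v : Valuation Ω Γ₀} {Ω' Γ₁ : Type} [Field Ω'] [LinearOrderedCommGroupWithZero Γ₁]
  {v' : Valuation Ω' Γ₁} {π : (ℕ → Ω) →+* Ω'}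

/-- The diagonal embedding. -/
def cst (π : (ℕ → Ω) →+* Ω') : Ω →+* Ω' := π.comp (Pi.constRingHom ℕ Ω)

theorem cst_eq (c : Ω) : cst π c = π fun _ => c := rfl

theorem map_inv (h : IsUl v v' π) (x : ℕ → Ω) : π (fun n => (x n)⁻¹) = (π x)⁻¹ := by
  by_cases h0 : π x = 0
  · rw [h0, inv_zero, ← map_zero π, h.eq_iff]
    rw [← map_zero π, h.eq_iff] at h0
    exact h0.mono fun n e => by simp [show x n = 0 from e]
  · refine eq_inv_of_mul_eq_one_left ?_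
    rw [← map_mul, ← map_one π, h.eq_iff]
    rw [← map_zero π, h.eq_iff, ← Ultrafilter.eventually_not] at h0
    exact h0.mono fun n e => inv_mul_cancel₀ e

theorem map_zpow (h : IsUl v v' π) (x : ℕ → Ω) (i : ℤ) : π (fun n => x n ^ i) = π x ^ i := by
  cases i with
  | ofNat k => simp only [Int.ofNat_eq_natCast, zpow_natCast]; exact map_pow π x k
  | negSucc k =>
    simp only [zpow_negSucc]
    rw [map_inv h fun n => x n ^ (k + 1), ← map_pow]; rfl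

theorem map_div (h : IsUl v v' π) (x y : ℕ → Ω) : π (fun n => x n / y n) = π x / π y := by
  simp only [div_eq_mul_inv]
  rw [← map_inv h, ← map_mul]; rfl

theorem le_one_iff (h : IsUl v v' π) (x : ℕ → Ω) : v' (π x) ≤ 1 ↔ ∀ᶠ n in UU, v (x n) ≤ 1 := by
  simpa using h.le_iff x 1

theorem eq_one_iff (h : IsUl v v' π) (x : ℕ → Ω) : v' (π x) = 1 ↔ ∀ᶠ n in UU, v (x n) = 1 := by
  simpa using h.veq_iff x 1

theorem cst_le_one (h : IsUl v v' π) {c : Ω} (hc : v c ≤ 1) : v' (cst π c) ≤ 1 :=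
  (le_one_iff h _).2 (Eventually.of_forall fun _ => hc)

theorem acl_map [IsAlgClosed Ω] {M : Subfield Ω} (hM : ACl M) (f : Ω →+* Ω') : ACl (M.map f) := by
  intro x hx
  obtain ⟨g, hm, hc, h0⟩ := isAlgebraic_iff.1 hx
  obtain ⟨g', rfl⟩ := (mem_lifts (f := f) g).1
    ((lifts_iff_coeff_lifts _).2 fun i => let ⟨y, _, e⟩ := hc i; ⟨y, e⟩)
  obtain ⟨s, hs, e⟩ := hM.splits (f := g') fun i => by
    obtain ⟨y, hy, e⟩ := hc i
    rw [coeff_map] at e
    exact f.injective e ▸ hy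
  rw [(monic_of_injective f.injective hm).leadingCoeff, C_1, one_mul] at e
  rw [e, Polynomial.map_multiset_prod, eval_multiset_prod, Multiset.prod_eq_zero_iff] at h0
  simp only [Multiset.map_map, Multiset.mem_map, Function.comp, Polynomial.map_sub, map_X, map_C,
    eval_sub, eval_X, eval_C] at h0
  obtain ⟨r, hr, e⟩ := h0
  exact ⟨r, hs r hr, (sub_eq_zero.1 e).symm⟩

/-- The intermediate field inside the ultrapower. -/
structure Env (v : Valuation Ω Γ₀) (v' : Valuation Ω' Γ₁) (π : (ℕ → Ω) →+* Ω') (M : Subfield Ω)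
    (K : Subfield Ω') : Prop where
  ul : IsUl v v' π
  cst_mem : ∀ c ∈ M, cst π c ∈ K
  down : ∀ x, π x ∈ K → ∀ᶠ n in UU, x n ∈ M
  closed : ACl K
  val : ∀ x ∈ K, ∃ c ∈ M, v' x = v' (cst π c)
  ob : OB v' K
  best : ∀ x, ∃ a ∈ K, ∀ c ∈ K, v' (x - a) ≤ v' (x - c)

theorem exists_env [IsAlgClosed Ω] (h : IsUl v v' π) {M : Subfield Ω} (hM : ACl M)
    (hc : (M : Set Ω).Countable) (a : ℕ → Ω) (haM : ∀ n, a n ∈ M)
    (ha : ∀ c ∈ M, π a ≠ cst π c → ∃ c' ∈ M, ∀ᶠ n in UU, v (a n - c - c') < v c') :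
    ∃ K : Subfield Ω', Env v v' π M K ∧ π a ∈ K := by
  have := h.isAlgClosed
  obtain ⟨N, hN⟩ := h.exists_subfield fun _ => M
  obtain ⟨K, h1, h2, h3, h4, h5, h6⟩ := exists_maxImm (v := v') (acl_map hM (cst π)) (h.acl hM hN)
    (by rintro _ ⟨c, hc, rfl⟩; exact (hN _).2 (Eventually.of_forall fun _ => hc)) (h.sc hN)
    ((hN a).2 (Eventually.of_forall haM)) (by
      rintro _ ⟨c, hc, rfl⟩ hne
      obtain ⟨c', hc', e⟩ := ha c hc hne
      refine ⟨_, ⟨c', hc', rfl⟩, ?_⟩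
      rw [cst_eq, cst_eq, ← map_sub, ← map_sub, h.lt_iff]
      exact e)
  have hval : ∀ x ∈ K, ∃ c ∈ M, v' x = v' (cst π c) := fun x hx => by
    by_cases h0 : x = 0
    · exact ⟨0, M.zero_mem, by simp [h0]⟩
    obtain ⟨_, ⟨c, hc, rfl⟩, e⟩ := h5 x hx h0
    refine ⟨c, hc, ?_⟩
    have := v'.map_add_eq_of_lt_right e
    rwa [sub_add_cancel] at this
  have hcount : (v' '' (K : Set Ω')).Countable := by
    refine (hc.image fun c => v' (cst π c)).mono ?_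
    rintro _ ⟨x, hx, rfl⟩
    obtain ⟨c, hc, e⟩ := hval x hx
    exact ⟨c, hc, e.symm⟩
  exact ⟨K, ⟨h, fun c hc => h1 ⟨c, hc, rfl⟩, fun x hx => (hN x).1 (h3 hx), h4, hval,
    h6.ob hcount, h6.best hcount⟩, h2⟩

variable {M : Subfield Ω} {K : Subfield Ω'}

theorem Env.down_Adj (h : Env v v' π M K) {S : Set Ω'} (F : ℕ → Subfield Ω) (hF : ∀ n, M ≤ F n)
    (hS : ∀ s ∈ S, ∃ x, π x = s ∧ ∀ᶠ n in UU, x n ∈ F n) {x : ℕ → Ω} (hx : π x ∈ Adj K S) :
    ∀ᶠ n in UU, x n ∈ F n := by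
  obtain ⟨B, hB⟩ := h.ul.exists_subfield F
  refine (hB x).1 (Adj_le (fun c hc => ?_) (fun s hs => ?_) hx)
  · obtain ⟨c, rfl⟩ := h.ul.surj c
    exact (hB c).2 ((h.down c hc).mono fun n e => hF n e)
  · obtain ⟨y, rfl, e⟩ := hS s hs
    exact (hB y).2 e

theorem Env.down_loc (h : Env v v' π M K) (T b : ℕ → Ω) {x : ℕ → Ω}
    (hx : π x ∈ loc v' (Subring.closure (insert (π b) (Mon v' K (π T))))) :
    ∀ᶠ n in UU, x n ∈ loc v (Subring.closure (insert (b n) (Mon v M (T n)))) := by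
  obtain ⟨B, hB⟩ := h.ul.exists_subring fun n => Subring.closure (insert (b n) (Mon v M (T n)))
  have hle : Subring.closure (insert (π b) (Mon v' K (π T))) ≤ B := by
    refine Subring.closure_le.2 ?_
    rintro y (rfl | ⟨h1, c, hc, i, rfl⟩)
    · exact (hB b).2 (Eventually.of_forall fun n => Subring.subset_closure (Or.inl rfl))
    · obtain ⟨c, rfl⟩ := h.ul.surj c
      rw [← map_zpow h.ul, ← map_mul] at h1 ⊢
      refine (hB _).2 (((le_one_iff h.ul _).1 h1).mp ((h.down c hc).mono fun n e e' => ?_))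
      exact Subring.subset_closure (Or.inr ⟨e', c n, e, i, rfl⟩)
  obtain ⟨y, hy, s, hs, e, e'⟩ := hx
  obtain ⟨y, rfl⟩ := h.ul.surj y
  obtain ⟨s, rfl⟩ := h.ul.surj s
  rw [← map_mul, h.ul.eq_iff] at e'
  filter_upwards [(hB y).1 (hle hy), (hB s).1 (hle hs), (eq_one_iff h.ul s).1 e, e'] with n a b c d
  exact ⟨y n, a, s n, b, c, d⟩

theorem closure_insert_zero (S : Set Ω) : Subring.closure (insert 0 S) = Subring.closure S :=
  le_antisymm (Subring.closure_le.2 (Set.insert_subset (Subring.zero_mem _) Subring.subset_closure))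
    (Subring.closure_mono (Set.subset_insert _ _))

theorem Env.down_loc0 (h : Env v v' π M K) (T : ℕ → Ω) {x : ℕ → Ω}
    (hx : π x ∈ loc v' (Subring.closure (Mon v' K (π T)))) :
    ∀ᶠ n in UU, x n ∈ loc v (Subring.closure (Mon v M (T n))) := by
  have := h.down_loc T 0 (x := x) (by rwa [map_zero, closure_insert_zero])
  simpa only [Pi.zero_apply, closure_insert_zero] using this

theorem Env.down_hens (h : Env v v' π M K) (z b : ℕ → Ω) (hb : Hens v' (Adj K {π z}) (π b)) :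
    ∀ᶠ n in UU, Hens v (Adj M {z n}) (b n) := by
  obtain ⟨f, hm, hc, h0, h1⟩ := hb
  obtain ⟨F, hF, e1, e2, e3⟩ := h.ul.exists_poly hm
  rw [← e2, ← map_zero π, h.ul.eq_iff] at h0
  rw [← e3, eq_one_iff h.ul] at h1
  have h2 : ∀ᶠ n in UU, ∀ i ∈ Finset.range (f.natDegree + 1),
      (F n).coeff i ∈ Adj M {z n} ∧ v ((F n).coeff i) ≤ 1 := by
    refine (eventually_all_finset _).2 fun i _ => Eventually.and ?_ ?_
    · refine h.down_Adj (S := {π z}) (fun n => Adj M {z n}) (fun n => le_Adj _ _) ?_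
        (e1 i ▸ (hc i).1)
      rintro _ rfl
      exact ⟨z, rfl, Eventually.of_forall fun n => mem_Adj _ rfl⟩
    · exact (le_one_iff h.ul _).1 (e1 i ▸ (hc i).2)
  filter_upwards [h0, h1, h2] with n a b c
  refine ⟨F n, (hF n).1, fun i => ?_, a, b⟩
  by_cases hi : i < f.natDegree + 1
  · exact c i (Finset.mem_range.2 hi)
  · rw [coeff_eq_zero_of_natDegree_lt (by rw [(hF n).2]; omega)]
    exact ⟨Subfield.zero_mem _, by simp⟩

theorem map_mem_Adj (f : Ω →+* Ω') {E : Subfield Ω'} {S : Set Ω} (h : ∀ c ∈ M, f c ∈ E)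
    (hS : ∀ s ∈ S, f s ∈ E) {x : Ω} (hx : x ∈ Adj M S) : f x ∈ E :=
  Adj_le (E := E.comap f) h hS hx

theorem map_mem_acl (f : Ω →+* Ω') {E : Subfield Ω'} (h : ∀ c ∈ M, f c ∈ E) {x : Ω}
    (hx : x ∈ acl M) : f x ∈ acl E := by
  obtain ⟨g, hm, hc, h0⟩ := isAlgebraic_iff.1 (mem_acl.1 hx)
  refine mem_acl.2 (isAlgebraic_iff.2 ⟨g.map f, hm.map f, fun i => ?_, ?_⟩)
  · rw [coeff_map]; exact h _ (hc i)
  · rw [eval_map_apply, h0, map_zero]

theorem map_hens (f : Ω →+* Ω') {E : Subfield Ω'} (h : ∀ c ∈ M, f c ∈ E)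
    (hv : ∀ x, v x ≤ 1 → v' (f x) ≤ 1) {b : Ω} (hb : Hens v M b) : Hens v' E (f b) := by
  obtain ⟨g, hm, hc, h0, h1⟩ := hb
  refine ⟨g.map f, hm.map f, fun i => ?_, ?_, ?_⟩
  · rw [coeff_map]; exact ⟨h _ (hc i).1, hv _ (hc i).2⟩
  · rw [eval_map_apply, h0, map_zero]
  · rw [derivative_map, eval_map_apply]
    have h2 := hv _ (show v (g.derivative.eval b)⁻¹ ≤ 1 by simp [h1])
    have h3 : g.derivative.eval b ≠ 0 := fun e => by simp [e] at h1
    rw [map_inv₀, map_inv₀, inv_le_one₀ (zero_lt_iff.2 (by simpa using h3))] at h2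
    exact le_antisymm (hv _ h1.le) h2

/-- The chart found in the ultrapower descends. -/
theorem Env.pre [IsAlgClosed Ω] [CharZero Ω] (h : Env v v' π M K) (Y Y' : Finset Ω)
    (hY' : ∀ y ∈ Y', y ∈ Adj M Y) {T : Ω'} (hT : T ∈ Adj K (cst π '' Y))
    (hv : ∀ c ∈ K, v' T ≠ v' c) (halg : ∀ y ∈ Y, cst π y ∈ acl (Adj K {T})) :
    ∃ z ∈ Adj M Y, ∃ b ∈ Adj M Y, (∀ y ∈ Y, y ∈ Adj M {z, b}) ∧ Hens v (Adj M {z}) b ∧
      ∀ y ∈ Y', ∃ c ∈ M, ∃ j : ℤ, v y = v (c * z ^ j) := by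
  classical
  have := h.ul.isAlgClosed
  have := h.ul.charZero
  obtain ⟨z, hz, b, hb, -, h1, h2, h3⟩ := thmA h.closed h.ob (Y.image (cst π)) (T := T)
    (by simpa using hT) hv fun x hx => by
      obtain ⟨y, hy, rfl⟩ := Finset.mem_image.1 hx
      exact mem_acl.1 (halg y hy)
  obtain ⟨z, rfl⟩ := h.ul.surj z
  obtain ⟨b, rfl⟩ := h.ul.surj b
  have hd : ∀ x, π x ∈ Adj K (Y.image (cst π)) → ∀ᶠ n in UU, x n ∈ Adj M Y := fun x hx => by
    refine h.down_Adj (fun _ => Adj M Y) (fun _ => le_Adj _ _) (fun s hs => ?_) hx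
    obtain ⟨y, hy, rfl⟩ := Finset.mem_image.1 hs
    exact ⟨_, rfl, Eventually.of_forall fun _ => mem_Adj _ hy⟩
  have e1 : ∀ᶠ n in UU, ∀ y ∈ Y, y ∈ Adj M {z n, b n} := by
    refine (eventually_all_finset _).2 fun y hy => ?_
    refine h.down_Adj (S := {π z, π b}) (fun n => Adj M {z n, b n}) (fun n => le_Adj _ _) ?_
      (x := fun _ => y) (h2 _ (Finset.mem_image_of_mem _ hy))
    rintro _ (rfl | rfl)
    · exact ⟨z, rfl, Eventually.of_forall fun n => mem_Adj _ (by simp)⟩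
    · exact ⟨b, rfl, Eventually.of_forall fun n => mem_Adj _ (by simp)⟩
  have e2 : ∀ᶠ n in UU, ∀ y ∈ Y', ∃ c ∈ M, ∃ j : ℤ, v y = v (c * z n ^ j) := by
    refine (eventually_all_finset _).2 fun y hy => ?_
    obtain ⟨c, hc, j, e⟩ := h1 (cst π y) (map_mem_Adj (cst π)
      (fun c hc => le_Adj _ _ (h.cst_mem c hc))
      (fun s hs => mem_Adj _ (by simpa using ⟨s, hs, rfl⟩)) (hY' y hy))
    obtain ⟨c, rfl⟩ := h.ul.surj c
    rw [← map_zpow h.ul, ← map_mul, cst_eq, h.ul.veq_iff] at e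
    filter_upwards [e, h.down c hc] with n a b
    exact ⟨c n, b, j, a⟩
  obtain ⟨n, a1, a2, a3, a4, a5⟩ :=
    ((hd z hz).and ((hd b hb).and (e1.and ((h.down_hens z b h3).and e2)))).exists
  exact ⟨z n, a1, b n, a2, a3, a4, a5⟩

end Pool.Agent.Lib.MP_132c47_lc.CH
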