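import Pool.Agent.Lib.MP_132c47_lc.CY1

/-! Block CY, second part: the closure of the cyclotomic field. -/

set_option linter.unusedSectionVars false

namespace Pool.Agent.Lib.MP_132c47_lc

open Polynomial

section Main
variable {C : Type} [NormedField C] [IsUltrametricDist C] [CompleteSpace C] [IsAlgClosed C]
  [CharZero C] {p : ℕ} [Fact p.Prime]

namespace CY

theorem nsum_lt {E ι : Type} [NormedField E] [IsUltrametricDist E] (s : Finset ι) (f : ι → E)
    (h : ∀ i ∈ s, ‖f i‖ < 1) : ‖∑ i ∈ s, f i‖ < 1 := by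
  classical
  induction s using Finset.induction_on with
  | empty => simp
  | insert a s ha ih =>
    rw [Finset.sum_insert ha]
    exact (IsUltrametricDist.norm_add_le_max _ _).trans_lt
      (max_lt (h a (Finset.mem_insert_self a s)) (ih fun i hi => h i (Finset.mem_insert_of_mem hi)))

theorem pow_close {E : Type} [NormedField E] [IsUltrametricDist E] {x y : E} (hx : ‖x‖ ≤ 1)
    (hy : ‖y‖ ≤ 1) (n : ℕ) : ‖x ^ n - y ^ n‖ ≤ ‖x - y‖ := by
  induction n with
  | zero => simp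
  | succ n ih =>
    have e : x ^ (n + 1) - y ^ (n + 1) = x * (x ^ n - y ^ n) + y ^ n * (x - y) := by ring
    rw [e]
    refine (IsUltrametricDist.norm_add_le_max _ _).trans (max_le ?_ ?_)
    · rw [norm_mul]
      exact (mul_le_of_le_one_left (norm_nonneg _) hx).trans ih
    · rw [norm_mul, norm_pow]
      exact mul_le_of_le_one_left (norm_nonneg _) (pow_le_one₀ (norm_nonneg _) hy)

theorem res_of_pows {E : Type} [NormedField E] [IsUltrametricDist E] {y : E} (hy : ‖y‖ ≤ 1)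
    {a b : ℕ} (hab : a < b) (h : ‖y ^ a - y ^ b‖ < 1) :
    ∃ N : ℕ, 0 < N ∧ ‖y ^ (N + 1) - y‖ < 1 := by
  rcases hy.eq_or_lt with h1 | h1
  · obtain ⟨c, rfl⟩ := Nat.exists_eq_add_of_lt hab
    refine ⟨c + 1, Nat.succ_pos c, ?_⟩
    have e : y ^ a - y ^ (a + c + 1) = y ^ a * (1 - y ^ (c + 1)) := by ring
    have e' : y ^ (c + 1 + 1) - y = -(y * (1 - y ^ (c + 1))) := by ring
    rw [e, norm_mul, norm_pow, h1, one_pow, one_mul] at h
    rwa [e', norm_neg, norm_mul, h1, one_mul]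
  · refine ⟨1, one_pos, (nsub _ _).trans_lt (max_lt ?_ h1)⟩
    rw [norm_pow]
    exact pow_lt_one₀ (norm_nonneg _) h1 (by norm_num)

theorem res_of_poly {E R k : Type} [NormedField E] [IsUltrametricDist E] [CommRing R]
    [CommRing k] [Finite k] (φ : R →+* k) (hφ : Function.Surjective φ) (ψ : R →+* E)
    (hψ : ∀ r, φ r = 0 → ‖ψ r‖ < 1) {f : R[X]} (hf : f.Monic) {y : E} (hy : ‖y‖ ≤ 1)
    (h0 : f.eval₂ ψ y = 0) : ∃ N : ℕ, 0 < N ∧ ‖y ^ (N + 1) - y‖ < 1 := by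
  have hg : (f.map φ).Monic := hf.map φ
  have hfin : Module.Finite k (AdjoinRoot (f.map φ)) := (AdjoinRoot.powerBasis' hg).finite
  have hfin' : Finite (AdjoinRoot (f.map φ)) := Module.finite_of_finite k
  have key : ∀ a b : ℕ, AdjoinRoot.root (f.map φ) ^ a = AdjoinRoot.root (f.map φ) ^ b →
      ‖y ^ a - y ^ b‖ < 1 := by
    intro a b hab
    have h1 : AdjoinRoot.mk (f.map φ) (X ^ a) = AdjoinRoot.mk (f.map φ) (X ^ b) := by
      simpa using hab
    obtain ⟨h', hh'⟩ := AdjoinRoot.mk_eq_mk.1 h1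
    obtain ⟨h, rfl⟩ := Polynomial.map_surjective φ hφ h'
    have h2 : (X ^ a - X ^ b - f * h).map φ = 0 := by
      simp only [Polynomial.map_sub, Polynomial.map_pow, Polynomial.map_mul, map_X, hh', sub_self]
    have h3 : (X ^ a - X ^ b - f * h).eval₂ ψ y = y ^ a - y ^ b := by
      simp [eval₂_sub, eval₂_mul, h0]
    rw [← h3, eval₂_eq_sum_range]
    refine nsum_lt _ _ fun i _ => ?_
    rw [norm_mul, norm_pow]
    refine mul_lt_one_of_nonneg_of_lt_one_left (norm_nonneg _) (hψ _ ?_)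
      (pow_le_one₀ (norm_nonneg _) hy)
    rw [← coeff_map, h2, coeff_zero]
  obtain ⟨a, b, hne, hab⟩ :=
    Finite.exists_ne_map_eq_of_infinite fun n : ℕ => AdjoinRoot.root (f.map φ) ^ n
  rcases lt_or_gt_of_ne hne with h | h
  · exact res_of_pows hy h (key a b hab)
  · exact res_of_pows hy h (key b a hab.symm)

theorem res_algCl {y : PadicAlgCl p} (hy : ‖y‖ ≤ 1) : ∃ N : ℕ, 0 < N ∧ ‖y ^ (N + 1) - y‖ < 1 := by
  have hi : IsIntegral ℚ_[p] y := Algebra.IsIntegral.isIntegral y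
  have hm := minpoly.monic hi
  have hc := (spectralValue_le_one_iff hm).1 hy
  have hl : minpoly ℚ_[p] y ∈ lifts (algebraMap ℤ_[p] ℚ_[p]) :=
    (lifts_iff_coeff_lifts _).2 fun n => ⟨⟨_, hc n⟩, rfl⟩
  obtain ⟨f, hf, -, hfm⟩ := lifts_and_natDegree_eq_and_monic hl hm
  refine res_of_poly (PadicInt.toZMod (p := p)) (ZMod.ringHom_surjective _)
    ((algebraMap ℚ_[p] (PadicAlgCl p)).comp (algebraMap ℤ_[p] ℚ_[p])) ?_ hfm hy ?_
  · intro r hr
    have h1 : r ∈ IsLocalRing.maximalIdeal ℤ_[p] := by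
      rw [← PadicInt.ker_toZMod]
      exact hr
    have h2 : ‖r‖ < 1 := PadicInt.mem_nonunits.1 h1
    rw [RingHom.comp_apply, norm_algebraMap']
    exact h2
  · rw [← eval₂_map, hf]
    exact minpoly.aeval ℚ_[p] y

theorem Rall_le_Kz : ∀ x ∈ Rall C, x ∈ Kz C := fun _ hx =>
  Subfield.le_topologicalClosure _ (Subfield.subring_closure_le _ hx)

theorem root_mem_Kz {ξ : C} {m : ℕ} (hm : 0 < m) (h : ξ ^ m = 1) : ξ ∈ Kz C :=
  Rall_le_Kz _ (Subring.subset_closure ⟨m, hm, h⟩)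

theorem closed_Kz : IsClosed (Kz C : Set C) := Subfield.isClosed_topologicalClosure _

theorem val_pi (hp : ‖(p : C)‖ < 1) {n : ℕ} (hn : 0 < n) {ζ : C}
    (hζ : IsPrimitiveRoot ζ (p ^ n)) : ∃ c ∈ Kz C, ‖c‖ ^ p = ‖ζ - 1‖ := by
  have hp' : p.Prime := Fact.out
  obtain ⟨η, hη⟩ := IsAlgClosed.exists_pow_nat_eq ζ hp'.pos
  have hη1 : η ^ p ^ (n + 1) = 1 := by rw [pow_succ', pow_mul, hη, hζ.pow_eq_one]
  have hηm : η ∈ Rall C := Subring.subset_closure ⟨_, pow_pos hp'.pos _, hη1⟩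
  have hζm : ζ ∈ Rall C := Subring.subset_closure ⟨_, pow_pos hp'.pos _, hζ.pow_eq_one⟩
  have h1 : η - 1 ∈ Rall C := sub_mem hηm (one_mem _)
  refine ⟨η - 1, Rall_le_Kz _ h1, ?_⟩
  obtain ⟨r, hr, e⟩ := add_pow_sub (p := p) _ h1 (one_mem _) 1
  obtain ⟨w, hw, hpw⟩ := p_eq hn hζ _ hζm
  simp only [pow_one, sub_add_cancel, one_pow, hη, mul_one] at e
  rw [← norm_pow]
  refine neq ?_
  have e' : (η - 1) ^ p - (ζ - 1) = -((ζ - 1) * (w * (η - 1) * r)) := by
    rw [hpw] at e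
    linear_combination -e
  rw [e', norm_neg, norm_mul, norm_mul, norm_mul]
  refine mul_lt_of_lt_one_right (pi_pos hn hζ) ?_
  exact mul_lt_one_of_nonneg_of_lt_one_left (by positivity)
    (mul_lt_one_of_nonneg_of_lt_one_right (norm_le_one_of_mem_Rall hw) (norm_nonneg _)
      (pi_lt hp hη1)) (norm_le_one_of_mem_Rall hr)

theorem val_Rall (hp : ‖(p : C)‖ < 1) {a : C} (ha : a ∈ Rall C) :
    ∃ c ∈ Kz C, ‖c‖ ^ p = ‖a‖ := by
  have hp' : p.Prime := Fact.out
  by_cases h0 : a = 0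
  · exact ⟨0, zero_mem _, by simp [h0, hp'.ne_zero]⟩
  obtain ⟨M, hM, hpM, hS⟩ := exists_level ({a} : Finset C) (by simpa using ha) hp'.pos
  obtain ⟨M', n, ζ, hM', hn, rfl, hζ⟩ := split_level (C := C) hM hpM
  obtain ⟨k, s, y, -, -, hs, hy, e⟩ := exists_pi_pow hp hM' hn hζ (hS a (by simp)) h0
  obtain ⟨c, hc, ec⟩ := val_pi hp hn hζ
  have n1 := congrArg norm e
  rw [norm_mul, norm_mul, hs, hy, one_mul, mul_one, norm_pow] at n1
  exact ⟨c ^ k, pow_mem hc k, by rw [norm_pow, ← pow_mul, mul_comm, pow_mul, ec, n1]⟩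

theorem frob_Rall {a : C} (ha : a ∈ Rall C) : ∃ y ∈ Rall C, ∃ r ∈ Rall C, a = y ^ p + p * r := by
  have hp' : p.Prime := Fact.out
  obtain ⟨M, hM, ha⟩ := level_one ha
  refine add_ind (P := fun a => ∃ y ∈ Rall C, ∃ r ∈ Rall C, a = y ^ p + p * r)
    ⟨0, zero_mem _, 0, zero_mem _, by simp [hp'.ne_zero]⟩ ?_ ?_ ?_ ha
  · intro ξ hξ
    obtain ⟨η, hη⟩ := IsAlgClosed.exists_pow_nat_eq ξ hp'.pos
    exact ⟨η, Subring.subset_closure ⟨p * M, Nat.mul_pos hp'.pos hM, by rw [pow_mul, hη, hξ]⟩,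
      0, zero_mem _, by simp [hη]⟩
  · rintro _ _ - - ⟨y, hy, r, hr, rfl⟩ ⟨y', hy', r', hr', rfl⟩
    obtain ⟨t, ht, e⟩ := add_pow_sub (p := p) _ hy hy' 1
    rw [pow_one] at e
    refine ⟨y + y', add_mem hy hy', r + r' - y * y' * t,
      sub_mem (add_mem hr hr') (mul_mem (mul_mem hy hy') ht), ?_⟩
    linear_combination -e
  · rintro _ - ⟨y, hy, r, hr, rfl⟩
    obtain ⟨t, ht, e⟩ := add_pow_sub (p := p) _ hy (neg_mem hy) 1
    rw [pow_one, add_neg_cancel, zero_pow hp'.ne_zero] at e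
    refine ⟨-y, neg_mem hy, -r - y * y * t, sub_mem (neg_mem hr) (mul_mem (mul_mem hy hy) ht), ?_⟩
    linear_combination e

/-- A subfield is nontrivially normed. -/
@[reducible] noncomputable def nnf (hp : ‖(p : C)‖ < 1) (K : Subfield C) :
    NontriviallyNormedField K :=
  { (inferInstance : NormedField K) with
    non_trivial := ⟨(p : K)⁻¹, by
      have h0 : (0 : ℝ) < ‖(p : C)‖ :=
        norm_pos_iff.2 (Nat.cast_ne_zero.2 (Fact.out : p.Prime).ne_zero)
      change 1 < ‖(((p : K)⁻¹ : K) : C)‖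
      rw [Subfield.coe_inv, norm_inv, SubringClass.coe_natCast]
      exact (one_lt_inv₀ h0).2 hp⟩ }

theorem exists_root {x : C} {N : ℕ} (hN : 0 < N) (h : ‖x ^ (N + 1) - x‖ < 1) :
    ∃ ω ∈ Kz C, ‖x - ω‖ < 1 := by
  by_contra hc
  push Not at hc
  have : NeZero ((N : ℕ) : C) := ⟨Nat.cast_ne_zero.2 hN.ne'⟩
  obtain ⟨ζ, hζ⟩ := HasEnoughRootsOfUnity.exists_primitiveRoot C N
  have e := congrArg (eval x) (X_pow_sub_one_eq_prod hN hζ)
  simp only [eval_sub, eval_pow, eval_X, eval_one, eval_prod, eval_C] at e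
  have e' : x ^ (N + 1) - x = x * (x ^ N - 1) := by ring
  rw [e', e, norm_mul, norm_prod] at h
  have h1 : 1 ≤ ‖x‖ := by simpa using hc 0 (zero_mem _)
  have h2 : 1 ≤ ∏ ω ∈ nthRootsFinset N (1 : C), ‖x - ω‖ := by
    refine Finset.prod_induction _ (fun t : ℝ => 1 ≤ t)
      (fun a b ha hb => one_le_mul_of_one_le_of_one_le ha hb) le_rfl
      fun ω hω => hc ω (root_mem_Kz hN ?_)
    exact (mem_nthRootsFinset hN 1).1 hω
  exact absurd (one_le_mul_of_one_le_of_one_le h1 h2) (not_le.2 h)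

end CY

theorem cres_padic : CRes p (PadicComplex p) := by
  constructor
  · rw [← PadicComplex.coe_natCast, PadicComplex.norm_extends,
      ← map_natCast (algebraMap ℚ_[p] (PadicAlgCl p)), norm_algebraMap']
    exact Padic.norm_p_lt_one
  · intro x hx
    obtain ⟨y, hy⟩ := (UniformSpace.Completion.denseRange_coe (α := PadicAlgCl p)).exists_dist_lt
      x one_pos
    rw [dist_eq_norm] at hy
    have hy1 := CY.le_one_of_close hx hy
    obtain ⟨N, hN, h⟩ := CY.res_algCl (y := y) (by rwa [PadicComplex.norm_extends] at hy1)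
    refine ⟨N, hN, ?_⟩
    rw [← PadicComplex.norm_extends, PadicComplex.coe_eq, map_sub, map_pow,
      ← PadicComplex.coe_eq] at h
    exact CY.tri ((CY.pow_close hx hy1 _).trans_lt hy) (CY.tri h (by rwa [norm_sub_rev]))

theorem good_Kz (hp : ‖(p : C)‖ < 1) : Good p (Kz C : Set C) := by
  have hp' : p.Prime := Fact.out
  constructor
  · intro x hx
    by_cases h0 : x = 0
    · exact ⟨0, zero_mem (Kz C), by simp [h0, hp'.ne_zero]⟩
    obtain ⟨a, ha, b, hb, h⟩ := CY.approx hx (norm_pos_iff.2 h0)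
    obtain ⟨c, hc, ec⟩ := CY.val_Rall hp ha
    obtain ⟨d, hd, ed⟩ := CY.val_Rall hp hb
    refine ⟨c / d, div_mem hc hd, ?_⟩
    rw [norm_sub_rev] at h
    rw [norm_div, div_pow, ec, ed, ← norm_div, CY.neq h]
  · intro x hx h1
    have h0 : (0 : ℝ) < ‖(p : C)‖ := norm_pos_iff.2 (Nat.cast_ne_zero.2 hp'.ne_zero)
    obtain ⟨a, ha, h⟩ := Kz_dense hp hx h1 h0
    obtain ⟨y, hy, r, hr, rfl⟩ := CY.frob_Rall (p := p) ha
    refine ⟨y, CY.Rall_le_Kz _ hy, ?_⟩
    have e : x - y ^ p = (x - (y ^ p + p * r)) + p * r := by ring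
    rw [e]
    refine (IsUltrametricDist.norm_add_le_max _ _).trans (max_le h.le ?_)
    rw [norm_mul]
    exact mul_le_of_le_one_right h0.le (norm_le_one_of_mem_Rall hr)

theorem norm_conj (hp : ‖(p : C)‖ < 1) {K : Subfield C} (hK : IsClosed (K : Set C)) {x x' : C}
    (hx : IsIntegral K x) (h : aeval x' (minpoly K x) = 0) : ‖x'‖ = ‖x‖ := by
  let _ := CY.nnf hp K
  have : CompleteSpace K := hK.completeSpace_coe
  have : IsUltrametricDist K :=
    IsUltrametricDist.isUltrametricDist_of_forall_norm_add_le_max_norm fun a b =>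
      IsUltrametricDist.norm_add_le_max (a : C) b
  have hx' : IsIntegral K x' := ⟨_, minpoly.monic hx, h⟩
  have e : minpoly K x = minpoly K x' :=
    minpoly.eq_of_irreducible_of_monic (minpoly.irreducible hx) h (minpoly.monic hx)
  let f : AbsoluteValue (algebraicClosure K C) ℝ :=
    (NormedField.toAbsoluteValue C).comp (algebraicClosure K C).val.toRingHom.injective
  have key : ∀ {y : C}, IsIntegral K y → ‖y‖ = spectralValue (minpoly K y) := by
    intro y hy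
    have h1 := spectralNorm_unique_field_norm_ext (K := K) (f := f) (fun _ => rfl)
      ⟨y, mem_algebraicClosure_iff'.2 hy⟩
    rw [spectralNorm, IntermediateField.minpoly_eq] at h1
    exact h1
  rw [key hx, key hx', e]

theorem complete_of_finite (hp : ‖(p : C)‖ < 1) (K₁ : IntermediateField (Kz C) C)
    [FiniteDimensional (Kz C) K₁] : CompleteSpace K₁ := by
  let _ := CY.nnf hp (Kz C)
  have : CompleteSpace (Kz C) := CY.closed_Kz.completeSpace_coe
  have : FiniteDimensional (Kz C) K₁.toSubalgebra.toSubmodule := ‹FiniteDimensional (Kz C) K₁›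
  have h : IsClosed (K₁ : Set C) :=
    Submodule.closed_of_finiteDimensional K₁.toSubalgebra.toSubmodule
  exact h.completeSpace_coe

theorem tgt_of_galois (hC : CRes p C) (K₁ : IntermediateField (Kz C) C)
    [FiniteDimensional (Kz C) K₁] [IsGalois (Kz C) K₁] : Tgt p K₁ (K₁ ≃ₐ[Kz C] K₁) := by
  have iso : ∀ (g : K₁ ≃ₐ[Kz C] K₁) (x : K₁), ‖g • x‖ = ‖x‖ := by
    intro g x
    have hi : IsIntegral (Kz C) x := Algebra.IsIntegral.isIntegral x
    have hi' : IsIntegral (Kz C) (x : C) := hi.map K₁.val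
    refine norm_conj hC.vp CY.closed_Kz (x := (x : C)) (x' := ((g x : K₁) : C)) hi' ?_
    rw [← IntermediateField.minpoly_eq]
    have h1 : aeval (g x) (minpoly (Kz C) x) = 0 := by
      rw [aeval_algHom_apply, minpoly.aeval, map_zero]
    have h2 := aeval_algHom_apply K₁.val (g x) (minpoly (Kz C) x)
    rw [h1, map_zero] at h2
    exact h2
  have fix : ∀ (c : Kz C) (g : K₁ ≃ₐ[Kz C] K₁),
      g • algebraMap (Kz C) K₁ c = algebraMap (Kz C) K₁ c := fun c g => g.commutes c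
  have fix' : ∀ x : K₁, (∀ g : K₁ ≃ₐ[Kz C] K₁, g • x = x) → (x : C) ∈ Kz C := by
    intro x hx
    obtain ⟨c, rfl⟩ := (IsGalois.mem_range_algebraMap_iff_fixed x).2 hx
    exact c.2
  have np : ‖(p : K₁)‖ = ‖(p : C)‖ := by
    change ‖((p : K₁) : C)‖ = _
    rw [SubringClass.coe_natCast]
  refine ⟨np ▸ hC.vp, iso, ?_, ?_, ?_, ?_⟩
  · intro g x hx
    obtain ⟨N, hN, h⟩ := hC.res x hx
    obtain ⟨ω, hω, h'⟩ := CY.exists_root hN h
    have h1 : ‖x - algebraMap (Kz C) K₁ ⟨ω, hω⟩‖ < 1 := h'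
    have e : g • x - x = g • (x - algebraMap (Kz C) K₁ ⟨ω, hω⟩)
        - (x - algebraMap (Kz C) K₁ ⟨ω, hω⟩) := by
      rw [smul_sub, fix]
      ring
    rw [e]
    exact (CY.nsub (E := C) _ _).trans_lt (max_lt ((iso g _).trans_lt h1) h1)
  · intro n hn
    have : NeZero ((n : ℕ) : C) := ⟨Nat.cast_ne_zero.2 hn.ne'⟩
    obtain ⟨ζ, hζ⟩ := HasEnoughRootsOfUnity.exists_primitiveRoot C n
    refine ⟨algebraMap (Kz C) K₁ ⟨ζ, CY.root_mem_Kz hn hζ.pow_eq_one⟩, ?_, fix _⟩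
    exact IsPrimitiveRoot.of_map_of_injective (f := K₁.val) hζ Subtype.val_injective
  · intro x hx
    obtain ⟨c, hc, e⟩ := (good_Kz hC.vp).val _ (fix' x hx)
    exact ⟨algebraMap (Kz C) K₁ ⟨c, hc⟩, fix _, e⟩
  · intro x hx h1
    obtain ⟨c, hc, e⟩ := (good_Kz hC.vp).frob _ (fix' x hx) h1
    exact ⟨algebraMap (Kz C) K₁ ⟨c, hc⟩, fix _, np ▸ e⟩

end Main

end Pool.Agent.Lib.MP_132c47_lc
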