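import Pool.Agent.Lib.MP_132c47_lc.Defs3

/-! Block CY, first part: cyclotomic integers in an ultrametric field. -/

set_option linter.unusedSectionVars false

namespace Pool.Agent.Lib.MP_132c47_lc

open Polynomial

section Main
variable {C : Type} [NormedField C] [IsUltrametricDist C] [CompleteSpace C] [IsAlgClosed C]
  [CharZero C] {p : ℕ} [Fact p.Prime]

namespace CY

theorem norm_root {E : Type} [NormedField E] {ξ : E} {m : ℕ} (hm : 0 < m) (h : ξ ^ m = 1) :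
    ‖ξ‖ = 1 := by
  have h1 : ‖ξ‖ ^ m = 1 := by rw [← norm_pow, h, norm_one]
  exact (pow_eq_one_iff_of_nonneg (norm_nonneg _) hm.ne').1 h1

theorem nsub {E : Type} [NormedField E] [IsUltrametricDist E] (a b : E) :
    ‖a - b‖ ≤ max ‖a‖ ‖b‖ := by
  have := IsUltrametricDist.norm_add_le_max a (-b)
  rwa [norm_neg, ← sub_eq_add_neg] at this

theorem neq {E : Type} [NormedField E] [IsUltrametricDist E] {a b : E} (h : ‖a - b‖ < ‖b‖) :
    ‖a‖ = ‖b‖ := by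
  have h1 : a = (a - b) + b := by ring
  rw [h1, IsUltrametricDist.norm_add_eq_max_of_norm_ne_norm h.ne, max_eq_right h.le]

theorem add_pow_sub {F : Type} [Field F] (A : Subring F) {a b : F} (ha : a ∈ A) (hb : b ∈ A)
    (k : ℕ) : ∃ r ∈ A, (a + b) ^ p ^ k = a ^ p ^ k + b ^ p ^ k + p * a * b * r := by
  obtain ⟨r, hr⟩ := exists_add_pow_prime_pow_eq (R := A) (Fact.out : p.Prime) ⟨a, ha⟩ ⟨b, hb⟩ k
  refine ⟨r, r.2, ?_⟩
  have := congrArg (fun z : A => (z : F)) hr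
  simpa using this

theorem p_eq {F : Type} [Field F] {n : ℕ} (hn : 0 < n) {ζ : F}
    (hζ : IsPrimitiveRoot ζ (p ^ n)) (A : Subring F) (hA : ζ ∈ A) :
    ∃ y ∈ A, (p : F) = (ζ - 1) * y := by
  obtain ⟨m, rfl⟩ : ∃ m, n = m + 1 := ⟨n - 1, by omega⟩
  have hp : p.Prime := Fact.out
  have hη : IsPrimitiveRoot (ζ ^ p ^ m) p :=
    hζ.pow (pow_pos hp.pos _) (by rw [pow_succ])
  have h0 : ∑ i ∈ Finset.range p, (ζ ^ p ^ m) ^ i = 0 := hη.geom_sum_eq_zero hp.one_lt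
  refine ⟨-∑ i ∈ Finset.range p, ∑ j ∈ Finset.range (p ^ m * i), ζ ^ j, ?_, ?_⟩
  · exact A.neg_mem (A.sum_mem fun i _ => A.sum_mem fun j _ => A.pow_mem hA j)
  · have h1 : ∀ i ∈ Finset.range p, (ζ - 1) * ∑ j ∈ Finset.range (p ^ m * i), ζ ^ j
        = (ζ ^ p ^ m) ^ i - 1 := by
      intro i _
      rw [mul_comm, geom_sum_mul, ← pow_mul]
    rw [mul_neg, Finset.mul_sum, Finset.sum_congr rfl h1, Finset.sum_sub_distrib, h0]
    simp

end CY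

theorem norm_le_one_of_mem_Rall {x : C} (hx : x ∈ Rall C) : ‖x‖ ≤ 1 := by
  induction hx using Subring.closure_induction with
  | mem x hx =>
    obtain ⟨m, hm, h⟩ := hx
    exact (CY.norm_root hm h).le
  | zero => simp
  | one => simp
  | add x y _ _ hx hy => exact (IsUltrametricDist.norm_add_le_max x y).trans (max_le hx hy)
  | neg x _ hx => simpa using hx
  | mul x y _ _ hx hy =>
    rw [norm_mul]
    exact mul_le_one₀ hx (norm_nonneg _) hy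

theorem Rmu_le_Rall {F : Type} [Field F] {M : ℕ} (hM : 0 < M) : Rmu F M ≤ Rall F :=
  Subring.closure_mono fun _ h => ⟨M, hM, h⟩

theorem Rmu_mono {F : Type} [Field F] {M N : ℕ} (h : M ∣ N) : Rmu F M ≤ Rmu F N := by
  refine Subring.closure_mono fun ξ hξ => ?_
  obtain ⟨k, rfl⟩ := h
  change ξ ^ (M * k) = 1
  have hξ' : ξ ^ M = 1 := hξ
  rw [pow_mul, hξ', one_pow]

theorem CY.level_one {F : Type} [Field F] {x : F} (hx : x ∈ Rall F) :
    ∃ M, 0 < M ∧ x ∈ Rmu F M := by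
  induction hx using Subring.closure_induction with
  | mem x hx =>
    obtain ⟨m, hm, h⟩ := hx
    exact ⟨m, hm, Subring.subset_closure h⟩
  | zero => exact ⟨1, one_pos, zero_mem _⟩
  | one => exact ⟨1, one_pos, one_mem _⟩
  | add x y _ _ hx hy =>
    obtain ⟨M, hM, hx⟩ := hx
    obtain ⟨N, hN, hy⟩ := hy
    exact ⟨M * N, Nat.mul_pos hM hN, add_mem (Rmu_mono (dvd_mul_right M N) hx)
      (Rmu_mono (dvd_mul_left N M) hy)⟩
  | neg x _ hx =>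
    obtain ⟨M, hM, hx⟩ := hx
    exact ⟨M, hM, neg_mem hx⟩
  | mul x y _ _ hx hy =>
    obtain ⟨M, hM, hx⟩ := hx
    obtain ⟨N, hN, hy⟩ := hy
    exact ⟨M * N, Nat.mul_pos hM hN, mul_mem (Rmu_mono (dvd_mul_right M N) hx)
      (Rmu_mono (dvd_mul_left N M) hy)⟩

theorem exists_level {F : Type} [Field F] (S : Finset F) (hS : ∀ x ∈ S, x ∈ Rall F) {d : ℕ}
    (hd : 0 < d) : ∃ M, 0 < M ∧ d ∣ M ∧ ∀ x ∈ S, x ∈ Rmu F M := by
  classical
  induction S using Finset.induction_on with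
  | empty => exact ⟨d, hd, dvd_rfl, by simp⟩
  | insert a S _ ih =>
    obtain ⟨M, hM, hdM, h⟩ := ih fun x hx => hS x (Finset.mem_insert_of_mem hx)
    obtain ⟨N, hN, ha⟩ := CY.level_one (hS a (Finset.mem_insert_self a S))
    refine ⟨M * N, Nat.mul_pos hM hN, hdM.mul_right N, fun x hx => ?_⟩
    rcases Finset.mem_insert.1 hx with rfl | hx
    · exact Rmu_mono (dvd_mul_left N M) ha
    · exact Rmu_mono (dvd_mul_right M N) (h x hx)

theorem CY.add_ind {F : Type} [Field F] {M : ℕ} {P : F → Prop} (h0 : P 0)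
    (h1 : ∀ ξ, ξ ^ M = 1 → P ξ) (ha : ∀ x y, x ∈ Rmu F M → y ∈ Rmu F M → P x → P y → P (x + y))
    (hn : ∀ x, x ∈ Rmu F M → P x → P (-x)) {x : F} (hx : x ∈ Rmu F M) : P x := by
  have hsub : ∀ ξ ∈ Submonoid.closure {ξ : F | ξ ^ M = 1}, ξ ^ M = 1 := by
    intro ξ hξ
    induction hξ using Submonoid.closure_induction with
    | mem x hx => exact hx
    | one => exact one_pow M
    | mul x y _ _ hx hy => rw [mul_pow, hx, hy, one_mul]
  have hx' := Subring.mem_closure_iff.1 hx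
  clear hx
  induction hx' using AddSubgroup.closure_induction with
  | mem x hx => exact h1 x (hsub x hx)
  | zero => exact h0
  | add x y hx hy px py =>
    exact ha x y (Subring.mem_closure_iff.2 hx) (Subring.mem_closure_iff.2 hy) px py
  | neg x hx px => exact hn x (Subring.mem_closure_iff.2 hx) px

theorem mem_Rmu_iff {F : Type} [Field F] {M : ℕ} {ζ : F} (hζ : IsPrimitiveRoot ζ M) (hM : 0 < M)
    {x : F} : x ∈ Rmu F M ↔ ∃ a : ℕ → ℤ, x = ∑ i ∈ Finset.range M, (a i : F) * ζ ^ i := by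
  constructor
  · intro hx
    have : NeZero M := ⟨hM.ne'⟩
    refine CY.add_ind (P := fun x => ∃ a : ℕ → ℤ, x = ∑ i ∈ Finset.range M, (a i : F) * ζ ^ i)
      ⟨0, by simp⟩ ?_ ?_ ?_ hx
    · intro ξ hξ
      obtain ⟨i, hi, rfl⟩ := hζ.eq_pow_of_pow_eq_one hξ
      refine ⟨fun j => if j = i then 1 else 0, ?_⟩
      rw [Finset.sum_eq_single i]
      · simp
      · intro j _ hj
        simp [hj]
      · intro h
        exact absurd (Finset.mem_range.2 hi) h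
    · rintro x y - - ⟨a, rfl⟩ ⟨b, rfl⟩
      exact ⟨fun i => a i + b i, by simp [add_mul, Finset.sum_add_distrib]⟩
    · rintro x - ⟨a, rfl⟩
      exact ⟨fun i => -a i, by simp⟩
  · rintro ⟨a, rfl⟩
    have hm : ζ ∈ Rmu F M := Subring.subset_closure hζ.pow_eq_one
    exact Subring.sum_mem _ fun i _ => Subring.mul_mem _ (intCast_mem _ _)
      (Subring.pow_mem _ hm i)

theorem CY.zeta_mem {F : Type} [Field F] {M n : ℕ} {ζ : F} (hζ : IsPrimitiveRoot ζ (p ^ n)) :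
    ζ ∈ Rmu F (M * p ^ n) := by
  refine Subring.subset_closure ?_
  change ζ ^ (M * p ^ n) = 1
  rw [mul_comm, pow_mul, hζ.pow_eq_one, one_pow]

/-- Frobenius congruence modulo `ζ - 1`. -/
theorem frob_congr {F : Type} [Field F] [CharZero F] {M n k : ℕ} (hM : ¬ p ∣ M) (hn : 0 < n) {ζ : F}
    (hζ : IsPrimitiveRoot ζ (p ^ n)) (hk : p ^ k ≡ 1 [MOD M]) {x : F}
    (hx : x ∈ Rmu F (M * p ^ n)) : ∃ y ∈ Rmu F (M * p ^ n), x ^ p ^ k - x = (ζ - 1) * y := by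
  have hp : p.Prime := Fact.out
  have hζm : ζ ∈ Rmu F (M * p ^ n) := CY.zeta_mem hζ
  obtain ⟨w, hw, hpw⟩ := CY.p_eq hn hζ _ hζm
  have hq : p ^ k ≠ 0 := (pow_pos hp.pos k).ne'
  refine CY.add_ind (P := fun x => ∃ y ∈ Rmu F (M * p ^ n), x ^ p ^ k - x = (ζ - 1) * y)
    ⟨0, zero_mem _, by rw [zero_pow hq]; simp⟩ ?_ ?_ ?_ hx
  · intro ξ hξ
    have hξm : ξ ∈ Rmu F (M * p ^ n) := Subring.subset_closure hξ
    have : NeZero (p ^ n) := ⟨(pow_pos hp.pos n).ne'⟩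
    have h1 : (ξ ^ M) ^ p ^ n = 1 := by rw [← pow_mul, hξ]
    obtain ⟨i, -, hi⟩ := hζ.eq_pow_of_pow_eq_one h1
    obtain ⟨t, ht⟩ := (Nat.modEq_iff_dvd' (Nat.pos_of_ne_zero hq)).1 hk.symm
    have h2 : p ^ k = M * t + 1 := by omega
    refine ⟨ξ * ∑ j ∈ Finset.range (i * t), ζ ^ j, mul_mem hξm
      (Subring.sum_mem _ fun j _ => pow_mem hζm j), ?_⟩
    have h3 := geom_sum_mul ζ (i * t)
    rw [h2, pow_succ, pow_mul, ← hi, ← pow_mul]
    linear_combination (-ξ) * h3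
  · rintro x y hx hy ⟨a, ha, ea⟩ ⟨b, hb, eb⟩
    obtain ⟨r, hr, e⟩ := CY.add_pow_sub (p := p) _ hx hy k
    refine ⟨a + b + w * x * y * r, add_mem (add_mem ha hb)
      (mul_mem (mul_mem (mul_mem hw hx) hy) hr), ?_⟩
    rw [e, hpw]
    linear_combination ea + eb
  · rintro x hx ⟨a, ha, ea⟩
    obtain ⟨r, hr, e⟩ := CY.add_pow_sub (p := p) _ hx (neg_mem hx) k
    refine ⟨-a + w * x * x * r, add_mem (neg_mem ha)
      (mul_mem (mul_mem (mul_mem hw hx) hx) hr), ?_⟩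
    rw [add_neg_cancel, zero_pow hq, hpw] at e
    linear_combination -e - ea

theorem CY.pi_lt (hp : ‖(p : C)‖ < 1) {n : ℕ} {ζ : C} (hζ : ζ ^ p ^ n = 1) : ‖ζ - 1‖ < 1 := by
  have hp' : p.Prime := Fact.out
  have hζm : ζ ∈ Rall C := Subring.subset_closure ⟨_, pow_pos hp'.pos n, hζ⟩
  have h1 : ζ - 1 ∈ Rall C := sub_mem hζm (one_mem _)
  obtain ⟨r, hr, e⟩ := CY.add_pow_sub (p := p) _ h1 (one_mem _) n
  rw [sub_add_cancel, hζ, one_pow] at e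
  have e' : (ζ - 1) ^ p ^ n = -(p * (ζ - 1) * r) := by linear_combination -e
  have h2 : ‖ζ - 1‖ ^ p ^ n < 1 := by
    rw [← norm_pow, e', norm_neg, norm_mul, norm_mul]
    have a1 := norm_le_one_of_mem_Rall h1
    have a2 := norm_le_one_of_mem_Rall hr
    calc ‖(p : C)‖ * ‖ζ - 1‖ * ‖r‖ ≤ ‖(p : C)‖ * 1 * 1 := by gcongr
      _ < 1 := by simpa using hp
  exact lt_of_pow_lt_pow_left₀ (p ^ n) zero_le_one (by simpa using h2)

theorem CY.exists_q {M : ℕ} (hM : ¬ p ∣ M) : ∃ k m : ℕ, p ^ k ≡ 1 [MOD M] ∧ p ^ k = m + 2 := by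
  have hp : p.Prime := Fact.out
  have hM0 : 0 < M := Nat.pos_of_ne_zero (by rintro rfl; exact hM (dvd_zero p))
  refine ⟨M.totient, p ^ M.totient - 2,
    Nat.ModEq.pow_totient ((Nat.Prime.coprime_iff_not_dvd hp).2 hM), ?_⟩
  have h1 : 1 < p ^ M.totient := Nat.one_lt_pow (Nat.totient_pos.2 hM0).ne' hp.one_lt
  omega

theorem CY.level_pos {M n : ℕ} (hM : ¬ p ∣ M) : 0 < M * p ^ n :=
  Nat.mul_pos (Nat.pos_of_ne_zero (by rintro rfl; exact hM (dvd_zero p)))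
    (pow_pos (Fact.out : p.Prime).pos n)

/-- One step of the division by the uniformizer. -/
theorem CY.div_step {M n : ℕ} (hM : ¬ p ∣ M) (hn : 0 < n) {ζ : C}
    (hζ : IsPrimitiveRoot ζ (p ^ n)) {x : C} (hx : x ∈ Rmu C (M * p ^ n)) (h1 : ‖x‖ < 1) :
    ∃ s ∈ Rmu C (M * p ^ n), ∃ y ∈ Rmu C (M * p ^ n), ‖s‖ = 1 ∧ s * x = (ζ - 1) * y := by
  obtain ⟨k, m, hk, hm⟩ := CY.exists_q hM
  obtain ⟨y, hy, e⟩ := frob_congr hM hn hζ hk hx
  refine ⟨x ^ (m + 1) - 1, sub_mem (pow_mem hx _) (one_mem _), y, hy, ?_, ?_⟩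
  · have h2 : ‖x ^ (m + 1) - 1 - (-1)‖ < ‖(-1 : C)‖ := by
      rw [norm_neg, norm_one, sub_neg_eq_add, sub_add_cancel, norm_pow]
      exact pow_lt_one₀ (norm_nonneg _) h1 (Nat.succ_ne_zero m)
    rw [CY.neq h2, norm_neg, norm_one]
  · rw [← e, hm]
    ring

theorem norm_le_pi (hp : ‖(p : C)‖ < 1) {M n : ℕ} (hM : ¬ p ∣ M) (hn : 0 < n) {ζ : C}
    (hζ : IsPrimitiveRoot ζ (p ^ n)) {x : C} (hx : x ∈ Rmu C (M * p ^ n)) (h1 : ‖x‖ < 1) :
    ‖ζ - 1‖ < 1 ∧ ‖x‖ ≤ ‖ζ - 1‖ := by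
  refine ⟨CY.pi_lt hp hζ.pow_eq_one, ?_⟩
  obtain ⟨s, -, y, hy, hs, e⟩ := CY.div_step hM hn hζ hx h1
  have h2 := congrArg norm e
  rw [norm_mul, norm_mul, hs, one_mul] at h2
  rw [h2]
  exact mul_le_of_le_one_right (norm_nonneg _)
    (norm_le_one_of_mem_Rall (Rmu_le_Rall (CY.level_pos hM) hy))

theorem CY.pi_pos {n : ℕ} (hn : 0 < n) {ζ : C} (hζ : IsPrimitiveRoot ζ (p ^ n)) :
    0 < ‖ζ - 1‖ :=
  norm_pos_iff.2 (sub_ne_zero.2 (hζ.ne_one (Nat.one_lt_pow hn.ne' (Fact.out : p.Prime).one_lt)))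

/-- Every nonzero element is a power of the uniformizer up to units. -/
theorem exists_pi_pow (hp : ‖(p : C)‖ < 1) {M n : ℕ} (hM : ¬ p ∣ M) (hn : 0 < n) {ζ : C}
    (hζ : IsPrimitiveRoot ζ (p ^ n)) {x : C} (hx : x ∈ Rmu C (M * p ^ n)) (h0 : x ≠ 0) :
    ∃ (k : ℕ) (s y : C), s ∈ Rmu C (M * p ^ n) ∧ y ∈ Rmu C (M * p ^ n) ∧ ‖s‖ = 1 ∧ ‖y‖ = 1 ∧
      s * x = (ζ - 1) ^ k * y := by
  have hπ := CY.pi_lt hp hζ.pow_eq_one
  have hπ0 := CY.pi_pos hn hζ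
  obtain ⟨N, hN⟩ := exists_pow_lt_of_lt_one (norm_pos_iff.2 h0) hπ
  clear h0
  induction N generalizing x with
  | zero =>
    exact absurd (norm_le_one_of_mem_Rall (Rmu_le_Rall (CY.level_pos hM) hx))
      (not_le.2 (by simpa using hN))
  | succ N ih =>
    rcases (norm_le_one_of_mem_Rall (Rmu_le_Rall (CY.level_pos hM) hx)).eq_or_lt with h | h
    · exact ⟨0, 1, x, one_mem _, hx, norm_one, h, by simp⟩
    · obtain ⟨s, hs, y, hy, hs1, e⟩ := CY.div_step hM hn hζ hx h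
      have h2 := congrArg norm e
      rw [norm_mul, norm_mul, hs1, one_mul] at h2
      rw [h2, pow_succ'] at hN
      obtain ⟨k, s', y', hs', hy', hs1', hy1', e'⟩ := ih hy (lt_of_mul_lt_mul_left hN hπ0.le)
      refine ⟨k + 1, s' * s, y', mul_mem hs' hs, hy', by rw [norm_mul, hs1, hs1', one_mul],
        hy1', ?_⟩
      rw [mul_assoc, e, pow_succ']
      linear_combination (ζ - 1) * e'

theorem CY.split_level {M : ℕ} (hM : 0 < M) (hpM : p ∣ M) :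
    ∃ (M' n : ℕ) (ζ : C), ¬ p ∣ M' ∧ 0 < n ∧ M = M' * p ^ n ∧ IsPrimitiveRoot ζ (p ^ n) := by
  have hp : p.Prime := Fact.out
  obtain ⟨n, M', h1, h2⟩ := Nat.exists_eq_pow_mul_and_not_dvd hM.ne' p hp.ne_one
  have : NeZero ((p ^ n : ℕ) : C) := ⟨Nat.cast_ne_zero.2 (pow_pos hp.pos n).ne'⟩
  obtain ⟨ζ, hζ⟩ := HasEnoughRootsOfUnity.exists_primitiveRoot C (p ^ n)
  refine ⟨M', n, ζ, h1, Nat.pos_of_ne_zero ?_, by rw [h2, mul_comm], hζ⟩
  rintro rfl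
  rw [pow_zero, one_mul] at h2
  exact h1 (h2 ▸ hpM)

theorem div_level (hp : ‖(p : C)‖ < 1) {M : ℕ} (hM : 0 < M) (hpM : p ∣ M) {x y : C}
    (hx : x ∈ Rmu C M) (hy : y ∈ Rmu C M) (h : ‖x‖ ≤ ‖y‖) :
    ∃ s ∈ Rmu C M, ∃ w ∈ Rmu C M, ‖s‖ = 1 ∧ s * x = y * w := by
  obtain ⟨M', n, ζ, hM', hn, rfl, hζ⟩ := CY.split_level (C := C) hM hpM
  by_cases h0 : x = 0
  · exact ⟨1, one_mem _, 0, zero_mem _, norm_one, by simp [h0]⟩
  have h0' : y ≠ 0 := by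
    rintro rfl
    exact h0 (by simpa using h)
  obtain ⟨a, s, u, hs, hu, hs1, hu1, e⟩ := exists_pi_pow hp hM' hn hζ hx h0
  obtain ⟨b, s', u', hs', hu', hs1', hu1', e'⟩ := exists_pi_pow hp hM' hn hζ hy h0'
  have n1 := congrArg norm e
  have n2 := congrArg norm e'
  rw [norm_mul, norm_mul, hs1, hu1, one_mul, mul_one, norm_pow] at n1
  rw [norm_mul, norm_mul, hs1', hu1', one_mul, mul_one, norm_pow] at n2
  rw [n1, n2] at h
  have hab : b ≤ a :=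
    (pow_le_pow_iff_right_of_lt_one₀ (CY.pi_pos hn hζ) (CY.pi_lt hp hζ.pow_eq_one)).1 h
  obtain ⟨c, rfl⟩ := Nat.exists_eq_add_of_le hab
  refine ⟨s * u', mul_mem hs hu', (ζ - 1) ^ c * u * s',
    mul_mem (mul_mem (pow_mem (sub_mem (CY.zeta_mem hζ) (one_mem _)) c) hu) hs',
    by rw [norm_mul, hs1, hu1', one_mul], ?_⟩
  rw [pow_add] at e
  linear_combination u' * e - (ζ - 1) ^ c * u * e'

theorem CY.unit_pow (hp : ‖(p : C)‖ < 1) {M : ℕ} (hM : 0 < M) (hpM : p ∣ M) {s : C}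
    (hs : s ∈ Rmu C M) (h1 : ‖s‖ = 1) : ∃ m : ℕ, ‖1 - s ^ (m + 1)‖ < 1 := by
  obtain ⟨M', n, ζ, hM', hn, rfl, hζ⟩ := CY.split_level (C := C) hM hpM
  obtain ⟨k, m, hk, hm⟩ := CY.exists_q hM'
  obtain ⟨y, hy, e⟩ := frob_congr hM' hn hζ hk hs
  refine ⟨m, ?_⟩
  have e' : s * (1 - s ^ (m + 1)) = -((ζ - 1) * y) := by
    rw [← e, hm]
    ring
  have n1 := congrArg norm e'
  rw [norm_mul, norm_neg, norm_mul, h1, one_mul] at n1
  rw [n1]
  exact mul_lt_one_of_nonneg_of_lt_one_left (norm_nonneg _) (CY.pi_lt hp hζ.pow_eq_one)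
    (norm_le_one_of_mem_Rall (Rmu_le_Rall hM hy))

theorem CY.dense_frac (hp : ‖(p : C)‖ < 1) {M : ℕ} (hM : 0 < M) (hpM : p ∣ M) {a b : C}
    (ha : a ∈ Rmu C M) (hb : b ∈ Rmu C M) (h1 : ‖a / b‖ ≤ 1) {ε : ℝ} (hε : 0 < ε) :
    ∃ r ∈ Rmu C M, ‖a / b - r‖ < ε := by
  by_cases hb0 : b = 0
  · exact ⟨0, zero_mem _, by simpa [hb0] using hε⟩
  rw [norm_div, div_le_one (norm_pos_iff.2 hb0)] at h1
  obtain ⟨s, hs, w, hw, hs1, e⟩ := div_level hp hM hpM ha hb h1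
  obtain ⟨m, hm⟩ := CY.unit_pow hp hM hpM hs hs1
  obtain ⟨N, hN⟩ := exists_pow_lt_of_lt_one hε hm
  have hs0 : s ≠ 0 := by
    rintro rfl
    simp at hs1
  refine ⟨w * s ^ m * ∑ i ∈ Finset.range N, (1 - s ^ (m + 1)) ^ i,
    mul_mem (mul_mem hw (pow_mem hs m))
      (Subring.sum_mem _ fun i _ => pow_mem (sub_mem (one_mem _) (pow_mem hs _)) i), ?_⟩
  have g := geom_sum_mul (1 - s ^ (m + 1)) N
  have e1 : a / b = w / s := by
    field_simp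
    linear_combination e
  have e2 : s * (a / b - w * s ^ m * ∑ i ∈ Finset.range N, (1 - s ^ (m + 1)) ^ i)
      = w * (1 - s ^ (m + 1)) ^ N := by
    rw [e1, mul_sub, mul_div_cancel₀ _ hs0]
    linear_combination w * g
  have n1 := congrArg norm e2
  rw [norm_mul, norm_mul, hs1, one_mul, norm_pow] at n1
  rw [n1]
  exact lt_of_le_of_lt (mul_le_of_le_one_left (by positivity)
    (norm_le_one_of_mem_Rall (Rmu_le_Rall hM hw))) hN

theorem CY.approx {S : Set C} {x : C} (hx : x ∈ (Subfield.closure S).topologicalClosure) {ε : ℝ}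
    (hε : 0 < ε) : ∃ a ∈ Subring.closure S, ∃ b ∈ Subring.closure S, ‖x - a / b‖ < ε := by
  have hx' : x ∈ closure (Subfield.closure S : Set C) := hx
  obtain ⟨y, hy, h⟩ := Metric.mem_closure_iff.1 hx' ε hε
  obtain ⟨a, ha, b, hb, rfl⟩ := Subfield.mem_closure_iff.1 hy
  exact ⟨a, ha, b, hb, by rwa [dist_eq_norm] at h⟩

theorem CY.le_one_of_close {x y : C} (hx : ‖x‖ ≤ 1) (h : ‖x - y‖ < 1) : ‖y‖ ≤ 1 := by
  have h1 := CY.nsub x (x - y)
  rw [sub_sub_cancel] at h1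
  exact h1.trans (max_le hx h.le)

theorem CY.tri {x y z : C} {ε : ℝ} (h : ‖x - y‖ < ε) (h' : ‖y - z‖ < ε) : ‖x - z‖ < ε := by
  have h1 := IsUltrametricDist.norm_add_le_max (x - y) (y - z)
  rw [sub_add_sub_cancel] at h1
  exact h1.trans_lt (max_lt h h')

theorem dense_level (hp : ‖(p : C)‖ < 1) {M : ℕ} (hM : 0 < M) (hpM : p ∣ M) {x : C}
    (hx : x ∈ (Subfield.closure {ξ : C | ξ ^ M = 1}).topologicalClosure) (h1 : ‖x‖ ≤ 1) {ε : ℝ}
    (hε : 0 < ε) : ∃ r ∈ Rmu C M, ‖x - r‖ < ε := by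
  obtain ⟨a, ha, b, hb, h⟩ := CY.approx hx (lt_min hε one_pos)
  obtain ⟨r, hr, h'⟩ := CY.dense_frac hp hM hpM ha hb
    (CY.le_one_of_close h1 (h.trans_le (min_le_right _ _))) hε
  exact ⟨r, hr, CY.tri (h.trans_le (min_le_left _ _)) h'⟩

theorem Kz_dense (hp : ‖(p : C)‖ < 1) {x : C} (hx : x ∈ Kz C) (h1 : ‖x‖ ≤ 1) {ε : ℝ}
    (hε : 0 < ε) : ∃ r ∈ Rall C, ‖x - r‖ < ε := by
  classical
  obtain ⟨a, ha, b, hb, h⟩ := CY.approx hx (lt_min hε one_pos)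
  obtain ⟨M, hM, hpM, hS⟩ := exists_level ({a, b} : Finset C) (by
    intro y hy
    rcases Finset.mem_insert.1 hy with rfl | hy
    · exact ha
    · rw [Finset.mem_singleton.1 hy]
      exact hb) (Fact.out : p.Prime).pos
  obtain ⟨r, hr, h'⟩ := CY.dense_frac hp hM hpM (hS a (by simp)) (hS b (by simp))
    (CY.le_one_of_close h1 (h.trans_le (min_le_right _ _))) hε
  exact ⟨r, Rmu_le_Rall hM hr, CY.tri (h.trans_le (min_le_left _ _)) h'⟩

end Main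

end Pool.Agent.Lib.MP_132c47_lc
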