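import Mathlib

/-!
The ring of abelian integers, terms and quantifier-free formulas of the language of rings.
-/

namespace Pool.Agent.Lib.MP_132c47_lc

/-- Terms of the language of rings. -/
inductive Tm : Type
  | var : ℕ → Tm
  | zero : Tm
  | one : Tm
  | neg : Tm → Tm
  | add : Tm → Tm → Tm
  | mul : Tm → Tm → Tm

/-- Quantifier-free formulas of the language of rings. -/
inductive QF : Type
  | eq : Tm → Tm → QF
  | not : QF → QF
  | and : QF → QF → QF
  | or : QF → QF → QF

/-- The value of a term in a ring under an assignment of the variables. -/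
def Tm.val {R : Type} [CommRing R] (v : ℕ → R) : Tm → R
  | var i => v i
  | zero => 0
  | one => 1
  | neg t => -t.val v
  | add s t => s.val v + t.val v
  | mul s t => s.val v * t.val v

/-- Truth of a quantifier-free formula in a ring under an assignment of the variables. -/
def QF.Sat {R : Type} [CommRing R] (v : ℕ → R) : QF → Prop
  | eq s t => s.val v = t.val v
  | not φ => ¬ φ.Sat v
  | and φ ψ => φ.Sat v ∧ ψ.Sat v
  | or φ ψ => φ.Sat v ∨ ψ.Sat v

/-- The number of a term. -/
def Tm.code : Tm → ℕ
  | var i => Nat.pair 0 i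
  | zero => Nat.pair 1 0
  | one => Nat.pair 2 0
  | neg t => Nat.pair 3 t.code
  | add s t => Nat.pair 4 (Nat.pair s.code t.code)
  | mul s t => Nat.pair 5 (Nat.pair s.code t.code)

/-- The number of a formula. -/
def QF.code : QF → ℕ
  | eq s t => Nat.pair 0 (Nat.pair s.code t.code)
  | not φ => Nat.pair 1 φ.code
  | and φ ψ => Nat.pair 2 (Nat.pair φ.code ψ.code)
  | or φ ψ => Nat.pair 3 (Nat.pair φ.code ψ.code)

/-- `ℤ^ab`, the union of the rings `ℤ[ζ_m]`: the subring generated by all roots of unity. -/
noncomputable def Zab : Subring (AlgebraicClosure ℚ) :=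
  Subring.closure {ζ | ∃ m : ℕ, 0 < m ∧ ζ ^ m = 1}

end Pool.Agent.Lib.MP_132c47_lc

theorem Pool.Agent.Lib.MP_132c47_lc.Defs.rlz0 : True := by
  have := @Pool.Agent.Lib.MP_132c47_lc.Tm.code.eq_def
  trivial

theorem Pool.Agent.Lib.MP_132c47_lc.Defs.rlz1 : True := by
  have := @Pool.Agent.Lib.MP_132c47_lc.Tm.val.eq_def
  trivial
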