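import Pool.Agent.Lib.MP_132c47_lc.Defs

/-! Auxiliary notions used in the proof. -/

namespace Pool.Agent.Lib.MP_132c47_lc

open Polynomial

section Val
variable {Ω : Type} [Field Ω] {Γ₀ : Type} [LinearOrderedCommGroupWithZero Γ₀]

/-- The subfield is relatively algebraically closed. -/
def ACl (K : Subfield Ω) : Prop := ∀ x : Ω, IsAlgebraic K x → x ∈ K

/-- The subfield generated by `K` and `S`. -/
abbrev Adj (K : Subfield Ω) (S : Set Ω) : Subfield Ω := Subfield.closure ((K : Set Ω) ∪ S)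

variable (v : Valuation Ω Γ₀)

/-- `K` is an immediate extension of `M`. -/
def Imm (M K : Subfield Ω) : Prop := ∀ x ∈ K, x ≠ 0 → ∃ c ∈ M, v (x - c) < v c

/-- Countable nests of balls with centres in `K` have a point in `K`. -/
def SC (K : Subfield Ω) : Prop := ∀ a t : ℕ → Ω, (∀ n, a n ∈ K) → (∀ n, v (t (n + 1)) ≤ v (t n)) →
  (∀ n, v (a (n + 1) - a n) ≤ v (t n)) → ∃ c ∈ K, ∀ n, v (c - a n) ≤ v (t n)

/-- The sup norm. -/
noncomputable def nrm {ι : Type} [Fintype ι] (x : ι → Ω) : Γ₀ := Finset.univ.sup fun j => v (x j)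

/-- An orthogonal family of nonzero vectors. -/
def Orth (K : Subfield Ω) {ι κ : Type} [Fintype ι] [Fintype κ] (ψ : κ → ι → Ω) : Prop :=
  (∀ i, ψ i ≠ 0) ∧ ∀ a : κ → Ω, (∀ i, a i ∈ K) → ∀ i,
    v (a i) * nrm v (ψ i) ≤ nrm v (∑ k, a k • ψ k)

/-- Finite-dimensional `K`-spaces of vectors have orthogonal bases. -/
def OB (K : Subfield Ω) : Prop := ∀ (ι : Type) [Fintype ι] (n : ℕ) (ψ : Fin n → ι → Ω),
  LinearIndependent K ψ → ∃ ψ' : Fin n → ι → Ω,
    (∀ i, ψ' i ∈ Submodule.span K (Set.range ψ)) ∧ Orth v K ψ'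

/-- Zero is a best approximation of `T` in `K`. -/
def Opt (K : Subfield Ω) (T : Ω) : Prop := T ≠ 0 ∧ ∀ c ∈ K, v T ≤ v (T - c)

/-- Integral monomials in `T`. -/
def Mon (K : Subfield Ω) (T : Ω) : Set Ω := {x | v x ≤ 1 ∧ ∃ c ∈ K, ∃ i : ℤ, x = c * T ^ i}

/-- Fractions whose denominators have value one. -/
def loc (A : Subring Ω) : Subring Ω where
  carrier := {x | ∃ y ∈ A, ∃ s ∈ A, v s = 1 ∧ x * s = y}
  zero_mem' := ⟨0, A.zero_mem, 1, A.one_mem, v.map_one, by simp⟩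
  one_mem' := ⟨1, A.one_mem, 1, A.one_mem, v.map_one, by simp⟩
  add_mem' := by
    rintro a b ⟨y, hy, s, hs, e, h⟩ ⟨y', hy', s', hs', e', h'⟩
    exact ⟨y * s' + y' * s, A.add_mem (A.mul_mem hy hs') (A.mul_mem hy' hs), s * s',
      A.mul_mem hs hs', by simp [e, e'], by rw [← h, ← h']; ring⟩
  mul_mem' := by
    rintro a b ⟨y, hy, s, hs, e, h⟩ ⟨y', hy', s', hs', e', h'⟩
    exact ⟨y * y', A.mul_mem hy hy', s * s', A.mul_mem hs hs', by simp [e, e'],
      by rw [← h, ← h']; ring⟩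
  neg_mem' := by
    rintro a ⟨y, hy, s, hs, e, h⟩
    exact ⟨-y, A.neg_mem hy, s, hs, e, by rw [← h]; ring⟩

/-- `b` is a simple root (after reduction) of a monic integral polynomial over `E`. -/
def Hens (E : Subfield Ω) (b : Ω) : Prop := ∃ f : Polynomial Ω, f.Monic ∧
  (∀ i, f.coeff i ∈ E ∧ v (f.coeff i) ≤ 1) ∧ f.eval b = 0 ∧ v (f.derivative.eval b) = 1

/-- The residue field is algebraic over the prime field. -/
def ResAlg : Prop := ∀ x : Ω, v x ≤ 1 → ∃ N : ℕ, 0 < N ∧ v (x ^ (N + 1) - x) < 1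

/-- The ring generated by the `M`-th roots of unity. -/
abbrev Rmu (Ω : Type) [Field Ω] (M : ℕ) : Subring Ω := Subring.closure {ξ : Ω | ξ ^ M = 1}

/-- The ring generated by all roots of unity. -/
abbrev Rall (Ω : Type) [Field Ω] : Subring Ω :=
  Subring.closure {ξ : Ω | ∃ m : ℕ, 0 < m ∧ ξ ^ m = 1}

/-- A valued field with a group acting with finite orbits and trivially on the residue field. -/
structure Act (G : Type) [Group G] [MulSemiringAction G Ω] : Prop where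
  res : ResAlg v
  inv : ∀ (g : G) (x : Ω), v x ≤ 1 → v (g • x - x) < 1
  fin : ∀ x : Ω, (Set.range fun g : G => g • x).Finite

/-- The setting of the main theorem. -/
structure Setting (p : ℕ) (G : Type) [Group G] [MulSemiringAction G Ω] : Prop extends Act v G where
  vp : v p < 1
  alg : ∀ y : Ω, (∀ g : G, g • y = y) → IsIntegral ℤ y → ∃ M : ℕ, 0 < M ∧ ∀ N : ℕ,
    ∃ w ∈ Rmu Ω M, v (y - w) ≤ v p ^ N

/-- A chart of the function field generated by `Y` over `M`. -/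
structure Chart (G : Type) [Group G] [MulSemiringAction G Ω] (M : Subfield Ω) (Y : Set Ω)
    (z b : Ω) (μ : Polynomial Ω) : Prop where
  z_not : z ∉ M
  z_mem : z ∈ Adj M Y
  monic : μ.Monic
  coeff : ∀ i, μ.coeff i ∈ loc v (Subring.closure (Mon v M z))
  root : μ.eval b = 0
  simple : v (μ.derivative.eval b) = 1
  min : ∀ f : Polynomial Ω, (∀ i, f.coeff i ∈ Adj M {z}) → f.eval b = 0 → f ≠ 0 →
    μ.natDegree ≤ f.natDegree
  gz : ∀ g : G, g • z / z ∈ loc v (Subring.closure (insert b (Mon v M z)))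
  gb : ∀ g : G, g • b ∈ loc v (Subring.closure (insert b (Mon v M z)))
  ys : ∀ y ∈ Y, y ≠ 0 → ∃ c ∈ M, ∃ j : ℤ, v y = v (c * z ^ j) ∧
    y / (c * z ^ j) ∈ loc v (Subring.closure (insert b (Mon v M z)))
  kind : v (z - 1) < 1 ∨ ∀ c ∈ M, v z ≠ v c

end Val

/-- A map which is a ring homomorphism on the subring `A`. -/
structure IsPH {Ω E : Type} [Field Ω] [Field E] (A : Subring Ω) (φ : Ω → E) : Prop where
  one : φ 1 = 1
  add : ∀ x ∈ A, ∀ y ∈ A, φ (x + y) = φ x + φ y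
  mul : ∀ x ∈ A, ∀ y ∈ A, φ (x * y) = φ x * φ y

section Nrm
variable {Ω : Type} [Field Ω] {Γ₀ : Type} [LinearOrderedCommGroupWithZero Γ₀]
variable {E : Type} [NormedField E]

/-- The map respects the valuation ring and its maximal ideal on the set `Y`. -/
def Resp (v : Valuation Ω Γ₀) (Y : Set Ω) (φ : Ω → E) : Prop :=
  ∀ y ∈ Y, (v y ≤ 1 → ‖φ y‖ ≤ 1) ∧ (v y < 1 → ‖φ y‖ < 1)

/-- The set `Y` specializes into `K₀`. -/
def Spec (v : Valuation Ω Γ₀) (K₀ : Subfield E) (Y : Set Ω) : Prop :=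
  ∃ φ : Ω → E, IsPH (Subring.closure Y) φ ∧ (∀ y ∈ Y, φ y ∈ K₀) ∧ Resp v Y φ

/-- Functions on the open unit disc which behave like integral power series. -/
def HH (h : E → E) : Prop := ∃ u : E, ‖u‖ ≤ 1 ∧ (∀ x, ‖x‖ < 1 → ‖h x‖ ≤ 1) ∧
  ∀ x y, ‖x‖ < 1 → ‖y‖ < 1 → ‖h x - h y - u * (x - y)‖ ≤ ‖x - y‖ * max ‖x‖ ‖y‖

/-- The value group is `p`-divisible and Frobenius is surjective modulo `p`. -/
structure Good (p : ℕ) (K : Set E) : Prop where
  val : ∀ x ∈ K, ∃ c ∈ K, ‖c‖ ^ p = ‖x‖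
  frob : ∀ x ∈ K, ‖x‖ ≤ 1 → ∃ y ∈ K, ‖x - y ^ p‖ ≤ ‖(p : E)‖

/-- A finite group acting isometrically, trivially on residues and on the roots of unity, with a
deeply ramified fixed field. -/
structure Tgt (p : ℕ) (E : Type) [NormedField E] (H : Type) [Group H] [MulSemiringAction H E] :
    Prop where
  vp : ‖(p : E)‖ < 1
  iso : ∀ (g : H) (x : E), ‖g • x‖ = ‖x‖
  res : ∀ (g : H) (x : E), ‖x‖ ≤ 1 → ‖g • x - x‖ < 1
  mu : ∀ n : ℕ, 0 < n → ∃ ζ : E, IsPrimitiveRoot ζ n ∧ ∀ g : H, g • ζ = ζ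
  good : Good p {x : E | ∀ g : H, g • x = x}

/-- The closure of the field generated by the roots of unity. -/
noncomputable def Kz (C : Type) [NormedField C] : Subfield C :=
  (Subfield.closure {ξ : C | ∃ m : ℕ, 0 < m ∧ ξ ^ m = 1}).topologicalClosure

/-- The residue field is algebraic over the prime field of characteristic `p`. -/
structure CRes (p : ℕ) (C : Type) [NormedField C] : Prop where
  vp : ‖(p : C)‖ < 1
  res : ∀ x : C, ‖x‖ ≤ 1 → ∃ N : ℕ, 0 < N ∧ ‖x ^ (N + 1) - x‖ < 1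

end Nrm

/-- The modulus for elements of degree `d`. -/
def Md (p d : ℕ) : ℕ := (p ^ d.factorial - 1) * ((1 + p ^ 2) ^ d.factorial - 1)

/-- The first-order theory of valued fields which decides the existential statements. -/
structure Model (p : ℕ) {L : Type} [Field L] (O : ValuationSubring L) : Prop where
  char : ∀ n : ℕ, 0 < n → (n : L) ≠ 0
  vp : (p : L)⁻¹ ∉ O
  hens : ∀ f : L[X], f.Monic → Irreducible f → f.coeff 0 ∈ O → ∀ i, f.coeff i ∈ O
  res : ∀ f : L[X], f.Monic → 0 < f.natDegree → (∀ i, f.coeff i ∈ O) →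
    ∃ c ∈ O, O.valuation (f.eval c) < 1
  mu : ∀ n : ℕ, 0 < n → ∃ ζ : L, IsPrimitiveRoot ζ n
  alg : ∀ (f : ℤ[X]) (y : L), f.Monic → aeval y f = 0 → ∀ N : ℕ,
    ∃ w ∈ Rmu L (Md p f.natDegree), (y - w) / p ^ N ∈ O

/-- Local solvability of a system of congruences and one incongruence modulo `n`. -/
def Loc (C : Type) [NormedField C] (n : ℕ) (eqs : List (Tm × Tm)) (ne : Tm × Tm) : Prop :=
  ∃ x : ℕ → C, (∀ i, x i ∈ Rall C) ∧ (∀ e ∈ eqs, ‖e.1.val x - e.2.val x‖ ≤ ‖(n : C)‖) ∧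
    ‖(n : C)‖ < ‖ne.1.val x - ne.2.val x‖

/-- The same statement in a valued field. -/
def LocV {L : Type} [Field L] (O : ValuationSubring L) (n : ℕ) (eqs : List (Tm × Tm))
    (ne : Tm × Tm) : Prop :=
  ∃ x : ℕ → L, (∀ i, x i ∈ O) ∧ (∀ e ∈ eqs, (e.1.val x - e.2.val x) / n ∈ O) ∧
    (ne.1.val x - ne.2.val x) / n ∉ O

end Pool.Agent.Lib.MP_132c47_lc
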