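import Pool.Agent.Lib.MP_132c47_lc.Defs2

/-! Auxiliary notions: coefficientwise images, the unit ball, decoders, ultrapowers. -/

namespace Pool.Agent.Lib.MP_132c47_lc

open Polynomial

/-- The coefficientwise image of a polynomial under an arbitrary map. -/
noncomputable def pm {Ω E : Type} [Field Ω] [Field E] (φ : Ω → E) (f : Polynomial Ω) :
    Polynomial E :=
  ∑ i ∈ Finset.range (f.natDegree + 1), monomial i (φ (f.coeff i))

/-- The relative algebraic closure of a subfield. -/
def acl {Ω : Type} [Field Ω] (E : Subfield Ω) : Subfield Ω := (algebraicClosure E Ω).toSubfield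

/-- The unit ball of a subfield of an ultrametric field. -/
def Oz {C : Type} [NormedField C] [IsUltrametricDist C] (K : Subfield C) : ValuationSubring K where
  carrier := {x | ‖(x : C)‖ ≤ 1}
  zero_mem' := by simp
  one_mem' := by simp
  add_mem' := fun {a b} ha hb => (IsUltrametricDist.norm_add_le_max (a : C) b).trans (max_le ha hb)
  mul_mem' := fun {a b} ha hb => by
    change ‖(a : C) * b‖ ≤ 1
    rw [norm_mul]
    exact mul_le_one₀ ha (norm_nonneg _) hb
  neg_mem' := fun {a} ha => by simpa using ha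
  mem_or_inv_mem' := fun a => by
    rcases le_total ‖(a : C)‖ 1 with h | h
    · exact Or.inl h
    · refine Or.inr ?_
      change ‖((a⁻¹ : K) : C)‖ ≤ 1
      rw [Subfield.coe_inv, norm_inv]
      exact inv_le_one_of_one_le₀ h

/-- A total decoder of terms. -/
def decT (n : ℕ) : Tm :=
  if _h : n.unpair.1 = 0 then .var n.unpair.2
  else if n.unpair.1 = 1 then .zero
  else if n.unpair.1 = 2 then .one
  else if n.unpair.1 = 3 then .neg (decT n.unpair.2)
  else if n.unpair.1 = 4 then .add (decT n.unpair.2.unpair.1) (decT n.unpair.2.unpair.2)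
  else .mul (decT n.unpair.2.unpair.1) (decT n.unpair.2.unpair.2)
termination_by n
decreasing_by
  all_goals
    have h1 : n.unpair.2 < n := by
      conv_rhs => rw [← Nat.pair_unpair n]
      have := Nat.add_le_pair n.unpair.1 n.unpair.2
      omega
    have h2 := Nat.unpair_left_le n.unpair.2
    have h3 := Nat.unpair_right_le n.unpair.2
    omega

/-- A total decoder of equations. -/
def decE (e : ℕ × ℕ) : Tm × Tm := (decT e.1, decT e.2)

/-- Local solvability at the prime `p`. -/
def LocP (p n : ℕ) (eqs : List (Tm × Tm)) (ne : Tm × Tm) : Prop :=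
  ∃ hp : p.Prime, haveI := Fact.mk hp; Loc (PadicComplex p) n eqs ne

/-- The ultrafilter. -/
noncomputable abbrev UU : Filter ℕ := (Filter.hyperfilter ℕ : Filter ℕ)

/-- `Ω'` is an ultrapower of the valued field `Ω`. -/
structure IsUl {Ω Ω' Γ₀ Γ₁ : Type} [Field Ω] [Field Ω'] [LinearOrderedCommGroupWithZero Γ₀]
    [LinearOrderedCommGroupWithZero Γ₁] (v : Valuation Ω Γ₀) (v' : Valuation Ω' Γ₁)
    (π : (ℕ → Ω) →+* Ω') : Prop where
  surj : Function.Surjective π
  eq_iff : ∀ x y, π x = π y ↔ ∀ᶠ n in UU, x n = y n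
  le_iff : ∀ x y, v' (π x) ≤ v' (π y) ↔ ∀ᶠ n in UU, v (x n) ≤ v (y n)

end Pool.Agent.Lib.MP_132c47_lc
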