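import Pool.Agent.Lib.MP_132c47_lc.Defs3

/-! The local-global principle in the ring of abelian integers modulo `n`. -/

namespace Pool.Agent.Lib.MP_132c47_lc

open Polynomial
open scoped NNReal IntermediateField

namespace Glob

set_option linter.unusedSectionVars false

theorem mul_one_iff {a b : ℝ≥0} (ha : a ≤ 1) (hb : b ≤ 1) (h : a * b = 1) : a = 1 ∧ b = 1 :=
  ⟨le_antisymm ha (h ▸ mul_le_of_le_one_right' hb), le_antisymm hb (h ▸ mul_le_of_le_one_left' ha)⟩

theorem val_map {R S : Type} [CommRing R] [CommRing S] (φ : R →+* S) (x : ℕ → R) (t : Tm) :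
    φ (t.val x) = t.val fun i => φ (x i) := by
  induction t with
  | var i => rfl
  | zero => exact φ.map_zero
  | one => exact φ.map_one
  | neg t h => simp [Tm.val, h]
  | add s t h h' => simp [Tm.val, h, h']
  | mul s t h h' => simp [Tm.val, h, h']

theorem val_mem {R : Type} [CommRing R] (A : Subring R) {x : ℕ → R} (hx : ∀ i, x i ∈ A) (t : Tm) :
    t.val x ∈ A := by
  induction t with
  | var i => exact hx i
  | zero => exact A.zero_mem
  | one => exact A.one_mem
  | neg t h => exact A.neg_mem h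
  | add s t h h' => exact A.add_mem h h'
  | mul s t h h' => exact A.mul_mem h h'

section General

variable {F : Type} [Field F]

theorem le_one (w : Valuation F ℝ≥0) {x : F} (hx : x ∈ Rall F) : w x ≤ 1 := by
  have : Rall F ≤ w.integer := by
    refine Subring.closure_le.2 ?_
    rintro ξ ⟨m, hm, h⟩
    have h1 : w ξ ^ m = 1 := by rw [← map_pow, h, map_one]
    exact (pow_le_one_iff_of_nonneg zero_le hm.ne').1 h1.le
  exact this hx

theorem val_congr (w : Valuation F ℝ≥0) {x y : ℕ → F} (hx : ∀ i, x i ∈ Rall F)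
    (hy : ∀ i, y i ∈ Rall F) {γ : ℝ≥0} (h : ∀ i, w (x i - y i) ≤ γ) (t : Tm) :
    w (t.val x - t.val y) ≤ γ := by
  induction t with
  | var i => exact h i
  | zero => simp [Tm.val]
  | one => simp [Tm.val]
  | neg t h =>
    have : (Tm.neg t).val x - (Tm.neg t).val y = -(t.val x - t.val y) := by simp [Tm.val]; ring
    rwa [this, Valuation.map_neg]
  | add s t h h' =>
    have : (Tm.add s t).val x - (Tm.add s t).val y = (s.val x - s.val y) + (t.val x - t.val y) := by
      simp [Tm.val]; ring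
    rw [this]
    exact w.map_add_le h h'
  | mul s t h h' =>
    have : (Tm.mul s t).val x - (Tm.mul s t).val y =
        (s.val x - s.val y) * t.val x + s.val y * (t.val x - t.val y) := by
      simp [Tm.val]; ring
    rw [this]
    refine w.map_add_le ?_ ?_
    · rw [map_mul]
      exact (mul_le_of_le_one_right' (le_one w (val_mem _ hx t))).trans h
    · rw [map_mul]
      exact (mul_le_of_le_one_left' (le_one w (val_mem _ hy s))).trans h'

theorem map_mem {E : Type} [Field E] (φ : F →+* E) {x : F} (hx : x ∈ Rall F) : φ x ∈ Rall E := by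
  have : Rall F ≤ (Rall E).comap φ := by
    refine Subring.closure_le.2 ?_
    rintro ξ ⟨m, hm, h⟩
    exact Subring.subset_closure ⟨m, hm, by rw [← map_pow, h, map_one]⟩
  exact this hx

theorem level {x : F} (hx : x ∈ Rall F) : ∃ M, 0 < M ∧ x ∈ Rmu F M := by
  have mono : ∀ {M N : ℕ}, M ∣ N → Rmu F M ≤ Rmu F N := by
    rintro M N ⟨k, rfl⟩
    refine Subring.closure_mono fun ξ h => ?_
    change ξ ^ (M * k) = 1
    rw [pow_mul, show ξ ^ M = 1 from h, one_pow]
  induction hx using Subring.closure_induction with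
  | mem ξ h =>
    obtain ⟨m, hm, h⟩ := h
    exact ⟨m, hm, Subring.subset_closure h⟩
  | zero => exact ⟨1, one_pos, Subring.zero_mem _⟩
  | one => exact ⟨1, one_pos, Subring.one_mem _⟩
  | add a b _ _ ha hb =>
    obtain ⟨M, hM, ha⟩ := ha
    obtain ⟨N, hN, hb⟩ := hb
    exact ⟨M * N, mul_pos hM hN,
      Subring.add_mem _ (mono (dvd_mul_right _ _) ha) (mono (dvd_mul_left _ _) hb)⟩
  | neg a _ ha =>
    obtain ⟨M, hM, ha⟩ := ha
    exact ⟨M, hM, Subring.neg_mem _ ha⟩
  | mul a b _ _ ha hb =>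
    obtain ⟨M, hM, ha⟩ := ha
    obtain ⟨N, hN, hb⟩ := hb
    exact ⟨M * N, mul_pos hM hN,
      Subring.mul_mem _ (mono (dvd_mul_right _ _) ha) (mono (dvd_mul_left _ _) hb)⟩

theorem integral {x : F} (hx : x ∈ Rall F) : IsIntegral ℤ x := by
  have : Rall F ≤ (integralClosure ℤ F).toSubring := by
    refine Subring.closure_le.2 ?_
    rintro ξ ⟨m, hm, h⟩
    exact IsIntegral.of_pow hm (by rw [h]; exact isIntegral_one)
  exact this hx

theorem w_int (w : Valuation F ℝ≥0) (c : ℤ) : w c ≤ 1 := le_one w (intCast_mem _ c)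

theorem w_unit (w : Valuation F ℝ≥0) {p : ℕ} (hp : p.Prime) (hw : w p < 1) {c : ℤ}
    (hc : ¬(p : ℤ) ∣ c) : w c = 1 := by
  have h1 : IsCoprime (p : ℤ) c :=
    (Prime.coprime_iff_not_dvd (Nat.prime_iff_prime_int.1 hp)).2 hc
  obtain ⟨a, b, hab⟩ := h1
  have h2 : (b : F) * c = 1 - a * p := by
    have := congrArg (Int.cast : ℤ → F) hab
    push_cast at this
    linear_combination this
  have h3 : w (a * p) < 1 := by
    rw [map_mul]
    exact (mul_le_of_le_one_left' (w_int w a)).trans_lt hw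
  have h4 : w b * w c = 1 := by rw [← map_mul, h2, w.map_one_sub_of_lt h3]
  refine le_antisymm (w_int w c) ?_
  rw [← h4]
  exact mul_le_of_le_one_left' (w_int w b)

theorem w_aeval (w : Valuation F ℝ≥0) {z : F} (hz : w z ≤ 1) (g : ℤ[X]) : w (aeval z g) ≤ 1 := by
  change aeval z g ∈ w.integer
  rw [aeval_eq_sum_range]
  exact Subring.sum_mem _ fun i _ => Subring.zsmul_mem _ (Subring.pow_mem _ hz i) _

theorem integral_of_val {y : F} (h : ∀ V : ValuationSubring F, y ∈ V) : IsIntegral ℤ y := by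
  have h1 : y ∈ (integralClosure (Subring.closure (∅ : Set F)) F).toSubring := by
    rw [← iInf_valuationSubring_superset]
    exact Subring.mem_iInf.2 fun V => h V.1
  have h2 : IsIntegral (Subring.closure (∅ : Set F)) y := h1
  have : Algebra.IsIntegral ℤ (Subring.closure (∅ : Set F)) := ⟨fun a => by
    have h3 : IsIntegral ℤ (a : F) :=
      integral (Subring.closure_mono (Set.empty_subset _) a.2)
    exact (isIntegral_algHom_iff (Subring.closure (∅ : Set F)).subtype.toIntAlgHom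
      Subtype.val_injective).1 h3⟩
  exact isIntegral_trans y h2

/-- Truncations of a primitive equation. -/
theorem trunc (w : Valuation F ℝ≥0) {p : ℕ} (hp : p.Prime) (hw : w p < 1) {z : F} (hz : w z ≤ 1) :
    ∀ (k : ℕ) (g : ℤ[X]), g.natDegree < k → ¬C (p : ℤ) ∣ g →
      (∀ V : ValuationSubring F, aeval z g ∈ V) → w (aeval z g) < 1 →
      ∃ g' : ℤ[X], w (aeval z g') = 1 ∧ IsIntegral ℤ (aeval z g') ∧ IsIntegral ℤ (aeval z g' * z) := by
  intro k
  induction k with
  | zero => intro g h; omega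
  | succ k ih =>
    intro g hk hg hV hlt
    have e : aeval z g = aeval z g.divX * z + (g.coeff 0 : F) := by
      conv_lhs => rw [← divX_mul_X_add g]
      simp
    have h1 : ¬C (p : ℤ) ∣ g.divX := by
      rintro ⟨h, hh⟩
      have h2 : ¬(p : ℤ) ∣ g.coeff 0 := by
        rintro ⟨c, hc⟩
        apply hg
        rw [← divX_mul_X_add g, hh, hc]
        exact ⟨h * X + C c, by rw [C_mul]; ring⟩
      have h3 : w (aeval z g.divX * z) < w (g.coeff 0 : F) := by
        rw [w_unit w hp hw h2, hh, map_mul, map_mul, map_mul]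
        refine (mul_le_of_le_one_right' hz).trans_lt
          ((mul_le_of_le_one_right' (w_aeval w hz h)).trans_lt ?_)
        simpa using hw
      rw [e, add_comm, w.map_add_eq_of_lt_left h3, w_unit w hp hw h2] at hlt
      exact lt_irrefl _ hlt
    have h2 : ∀ V : ValuationSubring F, aeval z g.divX * z ∈ V := by
      intro V
      have : aeval z g.divX * z = aeval z g - (g.coeff 0 : F) := by rw [e]; ring
      rw [this]
      exact sub_mem (hV V) (intCast_mem V _)
    have h3 : ∀ V : ValuationSubring F, aeval z g.divX ∈ V := by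
      intro V
      by_cases h : z ∈ V
      · rw [aeval_eq_sum_range]
        exact sum_mem fun i _ => zsmul_mem (pow_mem h i) _
      · have h0 : z ≠ 0 := fun e => h (e ▸ zero_mem V)
        have : aeval z g.divX = aeval z g.divX * z * z⁻¹ := by field_simp
        rw [this]
        exact mul_mem (h2 V) ((V.mem_or_inv_mem z).resolve_left h)
    rcases (w_aeval w hz g.divX).eq_or_lt with h | h
    · exact ⟨g.divX, h, integral_of_val h3, integral_of_val h2⟩
    · refine ih g.divX ?_ h1 h3 h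
      have h4 : g.divX ≠ 0 := fun e => h1 (e ▸ dvd_zero _)
      have h5 : g ≠ 0 := fun e => hg (e ▸ dvd_zero _)
      have := natDegree_lt_natDegree h4 (degree_divX_lt h5)
      omega

/-- Some power of an element is idempotent modulo `n`. -/
theorem idem {n : ℕ} (hn : 0 < n) {s : F} (hs : s ∈ Rall F) : ∃ k : ℕ, ∀ w : Valuation F ℝ≥0,
    (w s = 1 → w (1 - s ^ k) ≤ w n) ∧ (w s < 1 → w (s ^ k) ≤ w n) := by
  obtain ⟨a, c, hc, t, ht, e⟩ : ∃ a c : ℕ, 0 < c ∧ ∃ t ∈ Rall F, s ^ a * (1 - s ^ c) = n * t := by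
    obtain ⟨f, hf, hfs⟩ := integral hs
    have : NeZero n := ⟨hn.ne'⟩
    have h1 : Module.Finite (ZMod n) (AdjoinRoot (f.map (Int.castRingHom (ZMod n)))) :=
      (hf.map _).finite_adjoinRoot
    have h2 : Finite (AdjoinRoot (f.map (Int.castRingHom (ZMod n)))) :=
      Module.finite_of_finite (ZMod n)
    have key : ∀ a c : ℕ, AdjoinRoot.root (f.map (Int.castRingHom (ZMod n))) ^ a =
        AdjoinRoot.root (f.map (Int.castRingHom (ZMod n))) ^ (a + c) →
        ∃ t ∈ Rall F, s ^ a * (1 - s ^ c) = n * t := by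
      intro a c h
      rw [← AdjoinRoot.mk_X, ← map_pow, ← map_pow, AdjoinRoot.mk_eq_mk] at h
      obtain ⟨q, hq⟩ := h
      obtain ⟨q', rfl⟩ := Polynomial.map_surjective (Int.castRingHom (ZMod n))
        (ZMod.ringHom_surjective _) q
      have h3 : C (n : ℤ) ∣ X ^ a - X ^ (a + c) - f * q' := by
        rw [C_dvd_iff_dvd_coeff]
        intro i
        rw [← ZMod.intCast_zmod_eq_zero_iff_dvd]
        have : (X ^ a - X ^ (a + c) - f * q').map (Int.castRingHom (ZMod n)) = 0 := by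
          simp only [Polynomial.map_sub, Polynomial.map_mul, Polynomial.map_pow, map_X]
          rw [hq, sub_self]
        have h4 := congrArg (fun g => coeff g i) this
        simpa only [coeff_map, coeff_zero, eq_intCast] using h4
      obtain ⟨u, hu⟩ := h3
      refine ⟨aeval s u, ?_, ?_⟩
      · rw [aeval_eq_sum_range]
        exact Subring.sum_mem _ fun i _ => Subring.zsmul_mem _ (Subring.pow_mem _ hs i) _
      · have h4 := congrArg (aeval s) hu
        have h5 : aeval s f = 0 := hfs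
        simp only [map_sub, map_mul, map_pow, aeval_X, h5, zero_mul, sub_zero, aeval_C] at h4
        simp only [eq_intCast, Int.cast_natCast] at h4
        rw [← h4]
        ring
    obtain ⟨a, b, hab, h⟩ := Finite.exists_ne_map_eq_of_infinite
      fun a : ℕ => AdjoinRoot.root (f.map (Int.castRingHom (ZMod n))) ^ a
    rcases lt_or_gt_of_ne hab with h' | h'
    · obtain ⟨c, rfl⟩ := Nat.exists_eq_add_of_le h'.le
      exact ⟨a, c, by omega, key a c h⟩
    · obtain ⟨c, rfl⟩ := Nat.exists_eq_add_of_le h'.le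
      exact ⟨b, c, by omega, key b c h.symm⟩
  refine ⟨c * a, fun w => ?_⟩
  have h1 : w s ^ a * w (1 - s ^ c) ≤ w n := by
    rw [← map_pow, ← map_mul, e, map_mul]
    exact mul_le_of_le_one_right' (le_one w ht)
  constructor
  · intro h
    rw [h, one_pow, one_mul] at h1
    rw [pow_mul, ← mul_neg_geom_sum, map_mul]
    refine (mul_le_of_le_one_right' (le_one w ?_)).trans h1
    exact Subring.sum_mem _ fun i _ => Subring.pow_mem _ (Subring.pow_mem _ hs _) _
  · intro h
    have h2 : w (s ^ c) < 1 := by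
      rw [map_pow]
      exact pow_lt_one₀ zero_le h hc.ne'
    rw [w.map_one_sub_of_lt h2, mul_one] at h1
    rw [map_pow]
    exact (pow_le_pow_of_le_one zero_le h.le (Nat.le_mul_of_pos_left a hc)).trans h1

theorem patch {n : ℕ} (hn : 0 < n) {s : F} (hs : s ∈ Rall F) {x y : ℕ → F}
    (hx : ∀ i, x i ∈ Rall F) (hy : ∀ i, y i ∈ Rall F) : ∃ u : ℕ → F, (∀ i, u i ∈ Rall F) ∧
      ∀ w : Valuation F ℝ≥0, (w s = 1 → ∀ i, w (u i - y i) ≤ w n) ∧
        (w s < 1 → ∀ i, w (u i - x i) ≤ w n) := by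
  obtain ⟨k, hk⟩ := idem hn hs
  refine ⟨fun i => s ^ k * y i + (1 - s ^ k) * x i, fun i => ?_, fun w => ⟨fun h i => ?_, fun h i => ?_⟩⟩
  · have := Subring.pow_mem _ hs k
    exact add_mem (mul_mem this (hy i)) (mul_mem (sub_mem (one_mem _) this) (hx i))
  · have : s ^ k * y i + (1 - s ^ k) * x i - y i = (1 - s ^ k) * (x i - y i) := by ring
    rw [this, map_mul]
    exact (mul_le_of_le_one_right' (le_one w (sub_mem (hx i) (hy i)))).trans ((hk w).1 h)
  · have : s ^ k * y i + (1 - s ^ k) * x i - x i = s ^ k * (y i - x i) := by ring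
    rw [this, map_mul]
    exact (mul_le_of_le_one_right' (le_one w (sub_mem (hy i) (hx i)))).trans ((hk w).2 h)

/-- The defect of an equation. -/
def df (e : Tm × Tm) (x : ℕ → F) : F := e.1.val x - e.2.val x

theorem df_mem (e : Tm × Tm) {x : ℕ → F} (hx : ∀ i, x i ∈ Rall F) : df e x ∈ Rall F :=
  sub_mem (val_mem _ hx _) (val_mem _ hx _)

theorem df_map {E : Type} [Field E] (φ : F →+* E) (e : Tm × Tm) (x : ℕ → F) :
    φ (df e x) = df e fun i => φ (x i) := by
  simp [df, val_map]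

theorem df_congr (w : Valuation F ℝ≥0) {x y : ℕ → F} (hx : ∀ i, x i ∈ Rall F)
    (hy : ∀ i, y i ∈ Rall F) {γ : ℝ≥0} (h : ∀ i, w (x i - y i) ≤ γ) (e : Tm × Tm) :
    w (df e x) ≤ γ ↔ w (df e y) ≤ γ := by
  have h1 : w (df e x - df e y) ≤ γ := by
    have : df e x - df e y = (e.1.val x - e.1.val y) - (e.2.val x - e.2.val y) := by
      unfold df; ring
    rw [this]
    exact w.map_sub_le (val_congr w hx hy h _) (val_congr w hx hy h _)
  constructor
  · intro h2
    have := w.map_sub_le h2 h1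
    rwa [sub_sub_cancel] at this
  · intro h2
    have := w.map_add_le h1 h2
    rwa [sub_add_cancel] at this

theorem surj [IsAlgClosed F] [CharZero F] {E : Type} [Field E] (φ : F →+* E) {y : E}
    (hy : y ∈ Rall E) : ∃ x ∈ Rall F, φ x = y := by
  have : Rall E ≤ (Rall F).map φ := by
    refine Subring.closure_le.2 ?_
    rintro ξ ⟨m, hm, h⟩
    have : NeZero m := ⟨hm.ne'⟩
    obtain ⟨ζ, hζ⟩ := HasEnoughRootsOfUnity.exists_primitiveRoot F m
    obtain ⟨i, -, rfl⟩ := (hζ.map_of_injective φ.injective).eq_pow_of_pow_eq_one h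
    have h1 : ζ ∈ Rall F := Subring.subset_closure ⟨m, hm, hζ.pow_eq_one⟩
    exact ⟨ζ ^ i, Subring.pow_mem _ h1 _, map_pow _ _ _⟩
  exact this hy

variable [IsAlgClosed F] [CharZero F] [Algebra.IsAlgebraic ℚ F]

theorem normal : Normal ℚ F := by
  have : IsAlgClosure ℚ F := ⟨inferInstance, inferInstance⟩
  infer_instance

/-- The ring of abelian integers is integrally closed. -/
theorem ic {d y : F} (hd : d ∈ Rall F) (hy : y ∈ ℚ⟮d⟯)
    (hi : IsIntegral ℤ y) : y ∈ Rall F := by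
  obtain ⟨M, hM, hd⟩ := level hd
  have : NeZero M := ⟨hM.ne'⟩
  obtain ⟨ζ, hζ⟩ := HasEnoughRootsOfUnity.exists_primitiveRoot F M
  have h1 : Rmu F M ≤ ℚ⟮ζ⟯.toSubfield.toSubring := by
    refine Subring.closure_le.2 fun ξ h => ?_
    obtain ⟨i, -, rfl⟩ := hζ.eq_pow_of_pow_eq_one h
    exact pow_mem (IntermediateField.mem_adjoin_simple_self ℚ ζ) i
  have h2 : y ∈ ℚ⟮ζ⟯ := IntermediateField.adjoin_simple_le_iff.2 (h1 hd) hy
  have hc : @IsCyclotomicExtension {M} ℚ ℚ⟮ζ⟯ _ _ DivisionRing.toRatAlgebra := by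
    have := hζ.intermediateField_adjoin_isCyclotomicExtension ℚ
    rwa [Subsingleton.elim DivisionRing.toRatAlgebra (IntermediateField.algebra' _)]
  have hζ' : IsPrimitiveRoot (IntermediateField.AdjoinSimple.gen ℚ ζ) M :=
    IsPrimitiveRoot.coe_submonoidClass_iff.mp hζ
  have h3 : IsIntegral ℤ (⟨y, h2⟩ : ℚ⟮ζ⟯) :=
    (isIntegral_algHom_iff (algebraMap ℚ⟮ζ⟯ F).toIntAlgHom Subtype.val_injective).1 hi
  obtain ⟨⟨u, hu⟩, hu'⟩ :=
    (IsCyclotomicExtension.Rat.isIntegralClosure_adjoin_singleton hζ').isIntegral_iff.1 h3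
  have h4 : (u : F) = y := congrArg Subtype.val hu'
  rw [← h4]
  clear hu' h4
  induction hu using Algebra.adjoin_induction with
  | mem a ha =>
    rw [Set.mem_singleton_iff.1 ha]
    exact Subring.subset_closure ⟨M, hM, hζ.pow_eq_one⟩
  | algebraMap r => simp
  | add a b _ _ ha hb => exact add_mem ha hb
  | mul a b _ _ ha hb => exact mul_mem ha hb

theorem aeval_mem (d : F) (n : ℕ) (g : ℤ[X]) : aeval (d / n) g ∈ ℚ⟮d⟯ := by
  rw [aeval_eq_sum_range]
  exact sum_mem fun i _ => zsmul_mem (pow_mem (div_mem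
    (IntermediateField.mem_adjoin_simple_self ℚ d) (natCast_mem _ n)) i) _

/-- Local divisibility by `n` is divisibility up to a denominator. -/
theorem denom (w : Valuation F ℝ≥0) {p : ℕ} (hp : p.Prime) (hw : w p < 1) {n : ℕ} (hn : 0 < n)
    {d : F} (hd : d ∈ Rall F) (h : w d ≤ w n) : ∃ s ∈ Rall F, w s = 1 ∧
      ∀ w' : Valuation F ℝ≥0, w' s = 1 → w' d ≤ w' n := by
  have hn0 : (n : F) ≠ 0 := by exact_mod_cast hn.ne'
  have hz : w (d / n) ≤ 1 := by
    rw [map_div₀]
    exact div_le_one_of_le₀ h zero_le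
  have ha : IsAlgebraic ℤ (d / n) :=
    (IsFractionRing.isAlgebraic_iff ℤ ℚ F).2 (Algebra.IsAlgebraic.isAlgebraic _)
  obtain ⟨f, hf0, hf⟩ := ha
  have h1 : aeval (d / n) f.primPart = 0 := by
    rw [eq_C_content_mul_primPart f, map_mul, aeval_C, mul_eq_zero] at hf
    refine hf.resolve_left ?_
    simpa [content_eq_zero_iff] using hf0
  obtain ⟨g, hg1, hg2, hg3⟩ := trunc w hp hw hz _ f.primPart (Nat.lt_succ_self _)
    (fun e => (Nat.prime_iff_prime_int.1 hp).not_isUnit (isPrimitive_primPart f _ e))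
    (fun V => h1 ▸ zero_mem V) (by rw [h1]; simp)
  refine ⟨_, ic hd (aeval_mem d n g) hg2, hg1, fun w' hw' => ?_⟩
  have h2 : aeval (d / n) g * (d / n) ∈ Rall F := by
    refine ic hd ?_ hg3
    exact mul_mem (aeval_mem d n g)
      (div_mem (IntermediateField.mem_adjoin_simple_self ℚ d) (natCast_mem _ n))
  have h3 := le_one w' h2
  rw [map_mul, hw', one_mul, map_div₀] at h3
  have h4 : 0 < w' n := (Valuation.pos_iff _).2 hn0
  exact (div_le_one₀ h4).1 h3

/-- The pull back of a valuation along an automorphism. -/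
noncomputable abbrev pb (w : Valuation F ℝ≥0) (σ : F ≃ₐ[ℚ] F) : Valuation F ℝ≥0 :=
  w.comap (σ : F →+* F)

/-- Global divisibility. -/
theorem glob (W : ℕ → Valuation F ℝ≥0) (hW : ∀ p : ℕ, p.Prime → W p p < 1) {n : ℕ} (hn : 0 < n)
    {d : F} (hd : d ∈ Rall F) (h : ∀ p ∈ n.primeFactors, ∀ σ, pb (W p) σ d ≤ pb (W p) σ n) :
    ∃ t ∈ Rall F, d = n * t := by
  have hn0 : (n : F) ≠ 0 := by exact_mod_cast hn.ne'
  have hz : IsIntegral ℚ (d / n) := Algebra.IsIntegral.isIntegral _
  have := normal (F := F)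
  have h1 : ∀ p : ℕ, p.Prime → ∀ i, W p (algebraMap ℚ F ((minpoly ℚ (d / n)).coeff i)) ≤ 1 := by
    intro p hp i
    have h2 : (minpoly ℚ (d / n)).map (algebraMap ℚ F) ∈ liftsRing (W p).integer.subtype := by
      rw [(IsAlgClosed.splits _).eq_prod_roots_of_monic ((minpoly.monic hz).map _)]
      refine Subring.multiset_prod_mem _ _ fun a ha => ?_
      obtain ⟨r, hr, rfl⟩ := Multiset.mem_map.1 ha
      refine sub_mem ((lifts_iff_liftsRing _ _).1 (X_mem_lifts _))
        ((lifts_iff_liftsRing _ _).1 (C'_mem_lifts ⟨⟨r, ?_⟩, rfl⟩))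
      have h3 : aeval r (minpoly ℚ (d / n)) = 0 := by
        have := isRoot_of_mem_roots hr
        rwa [IsRoot, eval_map_algebraMap] at this
      obtain ⟨σ, rfl⟩ := minpoly.exists_algEquiv_of_root' hz.isAlgebraic h3
      change W p (σ (d / n)) ≤ 1
      rw [map_div₀, map_div₀]
      refine div_le_one_of_le₀ ?_ zero_le
      by_cases hpn : p ∣ n
      · exact h p (Nat.mem_primeFactors.2 ⟨hp, hpn, hn.ne'⟩) σ
      · have h4 : W p (n : ℤ) = 1 := w_unit _ hp (hW p hp) (by exact_mod_cast hpn)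
        rw [map_natCast, ← Int.cast_natCast, h4]
        exact le_one (pb (W p) σ) hd
    obtain ⟨a, ha⟩ := (lifts_iff_coeff_lifts _).1 ((lifts_iff_liftsRing _ _).2 h2) i
    rw [coeff_map] at ha
    rw [← ha]
    exact a.2
  have h2 : minpoly ℚ (d / n) ∈ lifts (algebraMap ℤ ℚ) := by
    refine (lifts_iff_coeff_lifts _).2 fun i => ?_
    set q := (minpoly ℚ (d / n)).coeff i with hq
    by_cases h3 : q.den = 1
    · exact ⟨q.num, by simpa using Rat.coe_int_num_of_den_eq_one h3⟩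
    · exfalso
      obtain ⟨p, hp, k, hk⟩ := Nat.exists_prime_and_dvd h3
      have h4 : ¬(p : ℤ) ∣ q.num := by
        intro h5
        have h6 : p ∣ q.num.natAbs := Int.natCast_dvd.1 h5
        have := Nat.dvd_gcd h6 (⟨k, hk⟩ : p ∣ q.den)
        rw [q.reduced.gcd_eq_one] at this
        exact hp.one_lt.ne' (Nat.dvd_one.1 this)
      have h5 : (q.num : F) = algebraMap ℚ F q * (k : ℤ) * p := by
        have h6 : (q.num : ℚ) = q * (k : ℤ) * p := by
          rw [← Rat.mul_den_eq_num, hk]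
          push_cast
          ring
        have := congrArg (algebraMap ℚ F) h6
        simpa using this
      have h6 := w_unit _ hp (hW p hp) h4
      rw [h5, map_mul, map_mul] at h6
      have h7 : W p (algebraMap ℚ F q) * W p (k : ℤ) * W p p < 1 :=
        (mul_le_of_le_one_left' (mul_le_one' (h1 p hp i) (w_int _ _))).trans_lt (hW p hp)
      exact h7.ne h6
  obtain ⟨g, hg, -, hg'⟩ := lifts_and_natDegree_eq_and_monic h2 (minpoly.monic hz)
  have h3 : IsIntegral ℤ (d / n) := by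
    refine ⟨g, hg', ?_⟩
    have := minpoly.aeval ℚ (d / n)
    rw [← hg, aeval_map_algebraMap] at this
    exact this
  refine ⟨d / n, ic hd ?_ h3, by field_simp⟩
  simpa using aeval_mem d n X

/-- An element which splits the places. -/
theorem split {M n : ℕ} (hM : 0 < M) (hn : 0 < n) : ∃ x ∈ Rall F, ∃ τ : F ≃ₐ[ℚ] F,
    (∀ y ∈ Rmu F M, τ y = y) ∧ τ x = 1 - x ∧ ∃ k : ℕ, x * (1 - x) = -(n * k) := by
  obtain ⟨l, hl, hMl, hl1⟩ := Nat.exists_prime_gt_modEq_one M (show 4 * n ≠ 0 by omega)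
  have : Fact l.Prime := ⟨hl⟩
  have := normal (F := F)
  obtain ⟨k, hk⟩ : ∃ k, l = 4 * n * k + 1 := by
    obtain ⟨k, hk⟩ := (Nat.modEq_iff_dvd' hl.one_le).1 hl1.symm
    exact ⟨k, by have := hl.one_le; omega⟩
  have hl4 : l % 4 = 1 := by rw [hk, mul_assoc]; omega
  have hc : ringChar (ZMod l) ≠ 2 := by rw [ZMod.ringChar_zmod_n]; omega
  have hcop : M.Coprime l := ((Nat.Prime.coprime_iff_not_dvd hl).2
    fun h => absurd (Nat.le_of_dvd hM h) (by omega)).symm
  have hMl0 : 0 < M * l := mul_pos hM hl.pos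
  have : NeZero (M * l) := ⟨hMl0.ne'⟩
  obtain ⟨ζ, hζ⟩ := HasEnoughRootsOfUnity.exists_primitiveRoot F (M * l)
  have hω : IsPrimitiveRoot (ζ ^ M) l := hζ.pow hMl0 rfl
  obtain ⟨a, ha⟩ := quadraticChar_exists_neg_one' hc
  obtain ⟨c, hc1, hc2⟩ := Nat.chineseRemainder hcop 1 (a : ZMod l).val
  have hc3 : c.Coprime (M * l) := by
    refine Nat.Coprime.mul_right ?_ ?_
    · rw [Nat.Coprime, hc1.gcd_eq]; simp
    · rw [Nat.Coprime, hc2.gcd_eq]; exact ZMod.val_coe_unit_coprime a
  obtain ⟨τ, hτ⟩ : ∃ τ : F ≃ₐ[ℚ] F, τ ζ = ζ ^ c := by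
    refine minpoly.exists_algEquiv_of_root' (Algebra.IsAlgebraic.isAlgebraic ζ) ?_
    rw [← cyclotomic_eq_minpoly_rat hζ hMl0, cyclotomic_eq_minpoly_rat (hζ.pow_of_coprime c hc3) hMl0]
    exact minpoly.aeval ℚ _
  have hτ' : ∀ ξ : F, ξ ^ (M * l) = 1 → τ ξ = ξ ^ c := by
    intro ξ h
    obtain ⟨i, -, rfl⟩ := hζ.eq_pow_of_pow_eq_one h
    rw [map_pow, hτ, ← pow_mul, ← pow_mul, mul_comm]
  set χ : MulChar (ZMod l) F := (quadraticChar (ZMod l)).ringHomComp (Int.castRingHom F) with hχ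
  set ψ : AddChar (ZMod l) F := AddChar.zmodChar l hω.pow_eq_one with hψ
  have hg : gaussSum χ ψ ^ 2 = l := by
    rw [gaussSum_sq ((MulChar.ringHomComp_ne_one_iff (RingHom.injective_int _)).2
      (quadraticChar_ne_one hc)) ((quadraticChar_isQuadratic _).comp _)
      (AddChar.zmodChar_primitive_of_primitive_root l hω), ZMod.card, MulChar.ringHomComp_apply,
      (quadraticChar_one_iff_isSquare (by simp)).2 (ZMod.exists_sq_eq_neg_one_iff.2 (by omega))]
    simp
  have hgm : gaussSum χ ψ ∈ Rall F := by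
    refine Subring.sum_mem _ fun b _ => mul_mem (intCast_mem _ _) (Subring.pow_mem _ ?_ _)
    exact Subring.subset_closure ⟨l, hl.pos, hω.pow_eq_one⟩
  have hgτ : τ (gaussSum χ ψ) = -gaussSum χ ψ := by
    have h1 : τ (gaussSum χ ψ) = gaussSum χ (ψ.mulShift a) := by
      unfold gaussSum
      rw [map_sum]
      refine Finset.sum_congr rfl fun b _ => ?_
      rw [map_mul, hχ, MulChar.ringHomComp_apply, eq_intCast, map_intCast, AddChar.mulShift_apply,
        hψ, AddChar.zmodChar_apply, map_pow, hτ' _ (by rw [← pow_mul, mul_comm M (M * l), pow_mul,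
          hζ.pow_eq_one, one_pow]), ← pow_mul, ← AddChar.zmodChar_apply' hω.pow_eq_one]
      congr 2
      rw [Nat.cast_mul, (ZMod.natCast_eq_natCast_iff _ _ _).2 hc2, ZMod.natCast_zmod_val,
        ZMod.natCast_zmod_val]
    have h2 := gaussSum_mulShift χ ψ a
    rw [hχ, MulChar.ringHomComp_apply, ha, ← hχ, ← h1] at h2
    simp only [eq_intCast, Int.cast_neg, Int.cast_one] at h2
    linear_combination -h2
  have hx : (1 + gaussSum χ ψ) / 2 * (1 - (1 + gaussSum χ ψ) / 2) = -(n * k) := by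
    have : (l : F) = 4 * n * k + 1 := by exact_mod_cast hk
    rw [this] at hg
    linear_combination (-1 / 4 : F) * hg
  refine ⟨(1 + gaussSum χ ψ) / 2, ?_, τ, ?_, ?_, k, hx⟩
  · refine ic (add_mem (one_mem _) hgm) (by simpa using aeval_mem (1 + gaussSum χ ψ) 2 X) ?_
    refine ⟨X ^ 2 - (X + C (n * k : ℤ)), monic_X_pow_sub ?_, ?_⟩
    · exact (degree_X_add_C _).trans_lt (by norm_num)
    · simp only [eval₂_sub, eval₂_add, eval₂_pow, eval₂_X, eval₂_C]
      simp only [eq_intCast, Int.cast_mul, Int.cast_natCast]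
      linear_combination -hx
  · intro y hy
    have : Rmu F M ≤ (τ : F →+* F).eqLocus (RingHom.id F) := by
      refine Subring.closure_le.2 fun ξ h => ?_
      have h' : ξ ^ M = 1 := h
      change τ ξ = ξ
      rw [hτ' ξ (by rw [pow_mul, h', one_pow]), pow_eq_pow_of_modEq hc1 h', pow_one]
    exact this hy
  · rw [map_div₀, map_add, map_one, hgτ, map_ofNat]
    ring

/-- There are infinitely many places. -/
theorem inf {n : ℕ} (hn : 0 < n) (w₀ : Valuation F ℝ≥0) (L : List (Valuation F ℝ≥0))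
    (hL : ∀ w ∈ L, w n < 1) :
    ∃ σ, ∃ s ∈ Rall F, pb w₀ σ s = 1 ∧ ∀ w ∈ L, w s < 1 := by
  induction L with
  | nil => exact ⟨1, 1, one_mem _, map_one _, by simp⟩
  | cons w L ih =>
    obtain ⟨σ, s, hs, h1, h2⟩ := ih fun w hw => hL w (List.mem_cons_of_mem _ hw)
    obtain ⟨M, hM, hsM⟩ := level hs
    obtain ⟨x, hx, τ, hτ, hτx, k, hk⟩ := split (F := F) hM hn
    obtain ⟨y, hy, hτy, hwy⟩ : ∃ y ∈ Rall F, τ y = 1 - y ∧ w y < 1 := by
      rcases (le_one w hx).eq_or_lt with h | h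
      · refine ⟨1 - x, sub_mem (one_mem _) hx, by rw [map_sub, map_one, hτx], ?_⟩
        have h3 := congrArg w hk
        rw [map_mul, h, one_mul, Valuation.map_neg, map_mul] at h3
        rw [h3]
        exact (mul_le_of_le_one_right' (le_one w (natCast_mem _ k))).trans_lt
          (hL w List.mem_cons_self)
      · exact ⟨x, hx, hτx, h⟩
    have h3 : ∀ w' ∈ w :: L, w' (s * y) < 1 := by
      intro w' hw'
      rw [map_mul]
      rcases List.mem_cons.1 hw' with rfl | h
      · exact (mul_le_of_le_one_left' (le_one _ hs)).trans_lt hwy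
      · exact (mul_le_of_le_one_right' (le_one _ hy)).trans_lt (h2 _ h)
    rcases (le_one (pb w₀ σ) hy).eq_or_lt with h | h
    · exact ⟨σ, s * y, mul_mem hs hy, by rw [map_mul, h1, h, one_mul], h3⟩
    · refine ⟨σ * τ, s * y, mul_mem hs hy, ?_, h3⟩
      change pb w₀ σ (τ (s * y)) = 1
      rw [map_mul, hτ s hsM, hτy, map_mul, h1, (pb w₀ σ).map_one_sub_of_lt h, one_mul]

/-- Local solutions. -/
def Sol (w : Valuation F ℝ≥0) (n : ℕ) (eqs : List (Tm × Tm)) (y : ℕ → F) : Prop :=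
  ∀ e ∈ eqs, w (df e y) ≤ w n

theorem nbhd (w : Valuation F ℝ≥0) {p : ℕ} (hp : p.Prime) (hw : w p < 1) {n : ℕ} (hn : 0 < n)
    {y : ℕ → F} (hy : ∀ i, y i ∈ Rall F) (eqs : List (Tm × Tm)) (h : Sol w n eqs y) :
    ∃ s ∈ Rall F, w s = 1 ∧ ∀ w' : Valuation F ℝ≥0, w' s = 1 → Sol w' n eqs y := by
  induction eqs with
  | nil => exact ⟨1, one_mem _, map_one _, fun _ _ _ h => by simp at h⟩
  | cons e eqs ih =>
    obtain ⟨s, hs, h1, h2⟩ := ih fun e he => h e (List.mem_cons_of_mem _ he)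
    obtain ⟨t, ht, h3, h4⟩ := denom w hp hw hn (df_mem e hy) (h e List.mem_cons_self)
    refine ⟨s * t, mul_mem hs ht, by rw [map_mul, h1, h3, one_mul], fun w' hw' e' he' => ?_⟩
    rw [map_mul] at hw'
    have h5 := mul_one_iff (le_one w' hs) (le_one w' ht) hw'
    rcases List.mem_cons.1 he' with rfl | h6
    · exact h4 w' h5.2
    · exact h2 w' h5.1 e' h6

theorem sol_pb {w : Valuation F ℝ≥0} {n : ℕ} {eqs : List (Tm × Tm)} {y : ℕ → F} {σ : F ≃ₐ[ℚ] F}
    (h : Sol (pb w σ) n eqs y) : Sol w n eqs fun i => σ (y i) := by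
  intro e he
  have h1 : w ((σ : F →+* F) (df e y)) ≤ w ((σ : F →+* F) n) := h e he
  rwa [df_map, map_natCast] at h1

theorem glue {n : ℕ} (hn : 0 < n) (eqs : List (Tm × Tm)) {S : Set F} (hS : S.Finite)
    (h : ∀ s ∈ S, s ∈ Rall F ∧ ∃ y : ℕ → F, (∀ i, y i ∈ Rall F) ∧
      ∀ w : Valuation F ℝ≥0, w s = 1 → Sol w n eqs y) :
    ∃ x : ℕ → F, (∀ i, x i ∈ Rall F) ∧
      ∀ w : Valuation F ℝ≥0, (∃ s ∈ S, w s = 1) → Sol w n eqs x := by
  induction S, hS using Set.Finite.induction_on with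
  | empty => exact ⟨fun _ => 0, fun _ => zero_mem _, fun _ h => by simp at h⟩
  | @insert s S _ _ ih =>
    obtain ⟨x, hx, hx'⟩ := ih fun t ht => h t (Set.mem_insert_of_mem _ ht)
    obtain ⟨hs, y, hy, hy'⟩ := h s (Set.mem_insert _ _)
    obtain ⟨u, hu, hu'⟩ := patch hn hs hx hy
    refine ⟨u, hu, fun w ⟨t, ht, hwt⟩ e he => ?_⟩
    rcases (le_one w hs).eq_or_lt with h1 | h1
    · exact (df_congr w hu hy ((hu' w).1 h1) e).2 (hy' w h1 e he)
    · refine (df_congr w hu hx ((hu' w).2 h1) e).2 (hx' w ⟨t, ?_, hwt⟩ e he)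
      refine (Set.mem_insert_iff.1 ht).resolve_left ?_
      rintro rfl
      exact h1.ne hwt

/-- Local solvability with one incongruence. -/
def LocW (w : Valuation F ℝ≥0) (n : ℕ) (eqs : List (Tm × Tm)) (ne : Tm × Tm) : Prop :=
  ∃ y : ℕ → F, (∀ i, y i ∈ Rall F) ∧ Sol w n eqs y ∧ w n < w (df ne y)

theorem w_lt {w : Valuation F ℝ≥0} {p n : ℕ} (hw : w p < 1) (h : p ∣ n) : w n < 1 := by
  obtain ⟨k, rfl⟩ := h
  rw [Nat.cast_mul, map_mul]
  exact (mul_le_of_le_one_right' (le_one w (natCast_mem _ k))).trans_lt hw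

theorem stage (W : ℕ → Valuation F ℝ≥0) (hW : ∀ p : ℕ, p.Prime → W p p < 1) {n : ℕ} (hn : 0 < n)
    (eqs nes : List (Tm × Tm)) (h : ∀ p ∈ n.primeFactors, LocW (W p) n eqs (Tm.one, Tm.zero))
    (h' : ∀ e ∈ nes, ∃ p ∈ n.primeFactors, LocW (W p) n eqs e) :
    ∃ x : ℕ → F, (∀ i, x i ∈ Rall F) ∧ (∀ p ∈ n.primeFactors, ∀ σ, Sol (pb (W p) σ) n eqs x) ∧
      ∃ L : List (Valuation F ℝ≥0), (∀ w ∈ L, w n < 1) ∧ ∀ e ∈ nes, ∃ w ∈ L, w n < w (df e x) := by
  induction nes with
  | nil =>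
    have h1 : ∀ p, ∃ s ∈ Rall F, ∃ y : ℕ → F, (∀ i, y i ∈ Rall F) ∧ (p ∈ n.primeFactors → W p s = 1) ∧
        (p ∈ n.primeFactors → ∀ w : Valuation F ℝ≥0, w s = 1 → Sol w n eqs y) := by
      intro p
      by_cases hp : p ∈ n.primeFactors
      · obtain ⟨y, hy, hy', -⟩ := h p hp
        have hp' := Nat.prime_of_mem_primeFactors hp
        obtain ⟨s, hs, h1, h2⟩ := nbhd _ hp' (hW p hp') hn hy eqs hy'
        exact ⟨s, hs, y, hy, fun _ => h1, fun _ => h2⟩
      · exact ⟨0, zero_mem _, fun _ => 0, fun _ => zero_mem _, fun h => absurd h hp,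
          fun h => absurd h hp⟩
    choose s hs y hy h2 h3 using h1
    obtain ⟨x, hx, hx'⟩ := glue hn eqs
      (S := ⋃ p ∈ n.primeFactors, Set.range fun σ : F ≃ₐ[ℚ] F => σ (s p))
      (n.primeFactors.finite_toSet.biUnion fun p _ =>
        ((minpoly ℚ (s p)).rootSet_finite F).subset (by
          rintro _ ⟨σ, rfl⟩
          rw [mem_rootSet_of_ne (minpoly.ne_zero (Algebra.IsIntegral.isIntegral _)),
            aeval_algHom_apply, minpoly.aeval, map_zero])) (by
      intro t ht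
      simp only [Set.mem_iUnion] at ht
      obtain ⟨p, hp, σ, rfl⟩ := ht
      exact ⟨map_mem (σ : F →+* F) (hs p), fun i => σ (y p i),
        fun i => map_mem (σ : F →+* F) (hy p i), fun w hw => sol_pb (h3 p hp (pb w σ) hw)⟩)
    refine ⟨x, hx, fun p hp σ => hx' _ ⟨σ.symm (s p), ?_, ?_⟩, [], by simp, by simp⟩
    · simp only [Set.mem_iUnion]
      exact ⟨p, hp, σ.symm, rfl⟩
    · change W p (σ (σ.symm (s p))) = 1
      rw [σ.apply_symm_apply, h2 p hp]
  | cons e nes ih =>
    obtain ⟨x, hx, hx', L, hL, hL'⟩ := ih fun e he => h' e (List.mem_cons_of_mem _ he)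
    obtain ⟨p, hp, y, hy, hy1, hy2⟩ := h' e List.mem_cons_self
    have hp' := Nat.prime_of_mem_primeFactors hp
    obtain ⟨s, hs, h1, h2⟩ := nbhd _ hp' (hW p hp') hn hy eqs hy1
    obtain ⟨σ, t, ht, h3, h4⟩ := inf hn (W p) L hL
    have hs' : σ.symm s ∈ Rall F := map_mem (σ.symm : F →+* F) hs
    have hy' : ∀ i, σ.symm (y i) ∈ Rall F := fun i => map_mem (σ.symm : F →+* F) (hy i)
    obtain ⟨u, hu, hu'⟩ := patch hn (mul_mem hs' ht) hx hy'
    refine ⟨u, hu, fun q hq τ e' he' => ?_, pb (W p) σ :: L, ?_, ?_⟩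
    · rcases (le_one (pb (W q) τ) (mul_mem hs' ht)).eq_or_lt with h5 | h5
      · refine (df_congr _ hu hy' ((hu' _).1 h5) e').2 ?_
        rw [map_mul] at h5
        have h6 := mul_one_iff (le_one _ hs') (le_one _ ht) h5
        exact sol_pb (h2 (pb (pb (W q) τ) σ.symm) h6.1) e' he'
      · exact (df_congr _ hu hx ((hu' _).2 h5) e').2 (hx' q hq τ e' he')
    · intro w hw
      rcases List.mem_cons.1 hw with rfl | h5
      · refine w_lt (p := p) ?_ (Nat.dvd_of_mem_primeFactors hp)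
        change W p (σ p) < 1
        rw [map_natCast]
        exact hW p hp'
      · exact hL w h5
    · intro e' he'
      rcases List.mem_cons.1 he' with rfl | h5
      · refine ⟨_, List.mem_cons_self, ?_⟩
        have h6 : pb (W p) σ (σ.symm s * t) = 1 := by
          rw [map_mul, h3, mul_one]
          change W p (σ (σ.symm s)) = 1
          rw [σ.apply_symm_apply, h1]
        rw [← not_le, df_congr _ hu hy' ((hu' _).1 h6), not_le]
        change W p ((σ : F →+* F) n) < W p ((σ : F →+* F) _)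
        rw [df_map, map_natCast]
        simpa using hy2
      · obtain ⟨w, hw, hw'⟩ := hL' e' h5
        refine ⟨w, List.mem_cons_of_mem _ hw, ?_⟩
        have h6 : w (σ.symm s * t) < 1 := by
          rw [map_mul]
          exact (mul_le_of_le_one_left' (le_one _ hs')).trans_lt (h4 w hw)
        rwa [← not_le, df_congr _ hu hx ((hu' _).2 h6), not_le]

theorem quot_iff {n : ℕ} (x : ℕ → Rall F) (e : Tm × Tm) :
    (e.1.val fun i => Ideal.Quotient.mk (Ideal.span {(n : Rall F)}) (x i)) =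
      (e.2.val fun i => Ideal.Quotient.mk (Ideal.span {(n : Rall F)}) (x i)) ↔
    ∃ t ∈ Rall F, df e (fun i => (x i : F)) = n * t := by
  rw [← val_map, ← val_map, Ideal.Quotient.eq, Ideal.mem_span_singleton]
  have h1 : ((e.1.val x - e.2.val x : Rall F) : F) = df e fun i => (x i : F) := by
    have : (Rall F).subtype (e.1.val x - e.2.val x) = df e fun i => (x i : F) := by
      rw [map_sub, val_map, val_map]
      rfl
    exact this
  rw [← h1]
  constructor
  · rintro ⟨t, ht⟩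
    exact ⟨t, t.2, by rw [ht]; simp⟩
  · rintro ⟨t, ht, h⟩
    exact ⟨⟨t, ht⟩, Subtype.ext (by rw [h]; simp)⟩

theorem main (W : ℕ → Valuation F ℝ≥0) (hW : ∀ p : ℕ, p.Prime → W p p < 1) {n : ℕ} (hn : 0 < n)
    (eqs nes : List (Tm × Tm)) :
    (∃ x : ℕ → Rall F ⧸ Ideal.span {(n : Rall F)}, (∀ e ∈ eqs, e.1.val x = e.2.val x) ∧
      ∀ e ∈ nes, e.1.val x ≠ e.2.val x) ↔
    (∀ p ∈ n.primeFactors, LocW (W p) n eqs (Tm.one, Tm.zero)) ∧
      ∀ e ∈ nes, ∃ p ∈ n.primeFactors, LocW (W p) n eqs e := by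
  have hle : ∀ (w : Valuation F ℝ≥0) (d : F), (∃ t ∈ Rall F, d = n * t) → w d ≤ w n := by
    rintro w _ ⟨t, ht, rfl⟩
    rw [map_mul]
    exact mul_le_of_le_one_right' (le_one w ht)
  constructor
  · rintro ⟨x, h1, h2⟩
    choose y hy using fun i => Ideal.Quotient.mk_surjective (x i)
    obtain rfl : x = fun i => Ideal.Quotient.mk _ (y i) := funext fun i => (hy i).symm
    have h3 : ∀ w, Sol w n eqs fun i => (y i : F) :=
      fun w e he => hle w _ ((quot_iff y e).1 (h1 e he))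
    refine ⟨fun p hp => ⟨_, fun i => (y i).2, h3 _, ?_⟩, fun e he => ?_⟩
    · have : df (Tm.one, Tm.zero) (fun i => (y i : F)) = 1 := by simp [df, Tm.val]
      rw [this, map_one]
      exact w_lt (hW p (Nat.prime_of_mem_primeFactors hp)) (Nat.dvd_of_mem_primeFactors hp)
    · by_contra hc
      refine h2 e he ((quot_iff y e).2 (glob W hW hn (df_mem e fun i => (y i).2) fun p hp σ => ?_))
      by_contra hlt
      refine hc ⟨p, hp, fun i => σ (y i), fun i => map_mem (σ : F →+* F) (y i).2, sol_pb (h3 _), ?_⟩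
      have h4 : W p ((σ : F →+* F) n) < W p ((σ : F →+* F) _) := not_le.1 hlt
      rwa [df_map, map_natCast] at h4
  · rintro ⟨h1, h2⟩
    obtain ⟨x, hx, h3, L, -, h4⟩ := stage W hW hn eqs nes h1 h2
    refine ⟨fun i => Ideal.Quotient.mk _ ⟨x i, hx i⟩, fun e he => ?_, fun e he hc => ?_⟩
    · exact (quot_iff (fun i => ⟨x i, hx i⟩) e).2
        (glob W hW hn (df_mem e hx) fun p hp σ => h3 p hp σ e he)
    · obtain ⟨w, -, hw⟩ := h4 e he
      exact hw.not_ge (hle w _ ((quot_iff (fun i => ⟨x i, hx i⟩) e).1 hc))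

theorem exists_w (n : ℕ) (eqs : List (Tm × Tm)) (p : ℕ) : ∃ w : Valuation F ℝ≥0, p.Prime →
    w p < 1 ∧ ∀ e, LocP p n eqs e ↔ LocW w n eqs e := by
  by_cases hp : p.Prime
  swap
  · classical
    exact ⟨1, fun h => absurd h hp⟩
  have : Fact p.Prime := ⟨hp⟩
  let φ : F →+* PadicComplex p := (IsAlgClosed.lift (R := ℚ) (S := F) (M := PadicComplex p) :)
  refine ⟨NormedField.valuation.comap φ, fun _ => ⟨?_, fun e => ?_⟩⟩
  · change ‖φ p‖₊ < 1
    rw [map_natCast, ← NNReal.coe_lt_coe, coe_nnnorm,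
      ← map_natCast (algebraMap ℚ_[p] (PadicComplex p)), norm_algebraMap']
    exact Padic.norm_p_lt_one
  · have key : ∀ y : ℕ → F, ((∀ e ∈ eqs, ‖e.1.val (fun i => φ (y i)) - e.2.val fun i => φ (y i)‖ ≤
        ‖(n : PadicComplex p)‖) ∧ ‖(n : PadicComplex p)‖ <
        ‖e.1.val (fun i => φ (y i)) - e.2.val fun i => φ (y i)‖) ↔
        (Sol (NormedField.valuation.comap φ) n eqs y ∧
          NormedField.valuation.comap φ n < NormedField.valuation.comap φ (df e y)) := by
      intro y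
      simp only [Sol, Valuation.comap_apply, df_map, map_natCast, NormedField.valuation_apply]
      rfl
    constructor
    · rintro ⟨_, x, hx, h⟩
      choose y hy hy' using fun i => surj φ (hx i)
      obtain rfl : x = fun i => φ (y i) := funext fun i => (hy' i).symm
      exact ⟨y, hy, (key y).1 h⟩
    · rintro ⟨y, hy, h⟩
      exact ⟨hp, fun i => φ (y i), fun i => map_mem φ (hy i), (key y).2 h⟩

end General

end Glob

theorem global_iff {n : ℕ} (hn : 0 < n) (eqs nes : List (Tm × Tm)) :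
    (∃ x : ℕ → Zab ⧸ Ideal.span {(n : Zab)}, (∀ e ∈ eqs, e.1.val x = e.2.val x) ∧
      ∀ e ∈ nes, e.1.val x ≠ e.2.val x) ↔
    (∀ p ∈ n.primeFactors, LocP p n eqs (Tm.one, Tm.zero)) ∧
      ∀ e ∈ nes, ∃ p ∈ n.primeFactors, LocP p n eqs e := by
  have : @Algebra.IsAlgebraic ℚ (AlgebraicClosure ℚ) _ _ DivisionRing.toRatAlgebra := by
    rw [Subsingleton.elim DivisionRing.toRatAlgebra (AlgebraicClosure.instAlgebra ℚ)]
    exact AlgebraicClosure.isAlgebraic ℚ
  choose W hW using Glob.exists_w (F := AlgebraicClosure ℚ) n eqs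
  refine (Glob.main W (fun p hp => (hW p hp).1) hn eqs nes).trans (and_congr ?_ ?_)
  · exact forall₂_congr fun p hp => ((hW p (Nat.prime_of_mem_primeFactors hp)).2 _).symm
  · exact forall₂_congr fun e _ => exists_congr fun p => and_congr_right fun hp =>
      ((hW p (Nat.prime_of_mem_primeFactors hp)).2 _).symm

end Pool.Agent.Lib.MP_132c47_lc
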