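import Pool.Agent.Lib.MP_132c47_lc.LG1
import Pool.Agent.Lib.MP_c13fce_lc.NREc1

/-! Block LG: the consequences of the theory `Model p` are recursively enumerable. -/

namespace Pool.Agent.Lib.MP_132c47_lc

open Polynomial Pool.Agent.Lib.MP_a1ec0a_al
open Pool.Agent.Lib.MP_c13fce_lc.LogA (pr_pair pr_unpair)
open Pool.Agent.Lib.MP_c13fce_lc.NRE.BC (tup mem_tup ofFn_mem_tup getD_ofFn pr_tup)

namespace LG

def fAnd (a b : ℕ) : ℕ := fNot (fImp a (fNot b))
def fOr (a b : ℕ) : ℕ := fImp (fNot a) b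
def fEx (i a : ℕ) : ℕ := fNot (fAll i (fNot a))
def fTrue : ℕ := fEq tZero tZero
def bigAnd (l : List ℕ) : ℕ := l.foldr fAnd fTrue
def bigOr (l : List ℕ) : ℕ := l.foldr fOr (fNot fTrue)
def exs (l : List ℕ) (a : ℕ) : ℕ := l.foldr fEx a
def fO (s : ℕ) : ℕ := fMem s tOne
def tSub (s t : ℕ) : ℕ := tAdd s (tNeg t)
def tNat (n : ℕ) : ℕ := (List.range n).foldl (fun s _ => tAdd s tOne) tZero
def tPow (t n : ℕ) : ℕ := (List.range n).foldl (fun s _ => tMul s t) tOne
def tP (c : ℕ → ℕ) (d t : ℕ) : ℕ :=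
  (List.range d).foldl (fun s i => tAdd s (tMul (c i) (tPow t i))) tZero
def tMon (c : ℕ → ℕ) (d t : ℕ) : ℕ := tAdd (tPow t d) (tP c d t)
def fPrim (t n : ℕ) : ℕ := fAnd (fEq (tPow t n) tOne)
  (bigAnd ((List.range (n - 1)).map fun i => fNot (fEq (tPow t (i + 1)) tOne)))

def axHens (d : ℕ) : ℕ := fImp (fO (tVar 1))
  (fOr (bigAnd ((List.range d).map fun i => fO (tVar (i + 1))))
    (exs ((List.range (2 * d)).map fun i => d + i + 1) (fAll 0
      (fEq (tMon (fun i => tVar (i + 1)) d (tVar 0))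
        (tMul (tP (fun i => tVar (d + i + 1)) d (tVar 0))
          (tP (fun i => tVar (2 * d + i + 1)) d (tVar 0)))))))

def axRes (d : ℕ) : ℕ := fImp (bigAnd ((List.range (d + 1)).map fun i => fO (tVar (i + 1))))
  (fEx 0 (fAnd (fO (tVar 0)) (fOr (fEq (tMon (fun i => tVar (i + 1)) (d + 1) (tVar 0)) tZero)
    (fNot (fMem tOne (tMon (fun i => tVar (i + 1)) (d + 1) (tVar 0)))))))

def axAlg (p N : ℕ) (cs : List (ℕ × ℕ)) : ℕ := fImp (fPrim (tVar 1) (Md p cs.length))
  (fImp (fEq (tMon (fun i => tSub (tNat (cs.getD i (0, 0)).1) (tNat (cs.getD i (0, 0)).2))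
      cs.length (tVar 0)) tZero)
    (bigOr ((tup (List.range (p ^ N)) (Md p cs.length)).map fun a =>
      fMem (tSub (tVar 0) (tP (fun i => tNat (a.getD i 0)) (Md p cs.length) (tVar 1)))
        (tPow (tNat p) N))))

/-- The axioms. -/
def ax (p : ℕ) (j : ℕ × List (ℕ × ℕ)) : List ℕ :=
  [fNot (fEq (tNat (j.1 + 1)) tZero), fNot (fMem tOne (tNat p)), axHens j.1, axRes j.1,
    fEx 0 (fPrim (tVar 0) (j.1 + 1)), axAlg p j.1 j.2]

/-- A bound for the variables. -/
def bnd (x : List (ℕ × ℕ) × ℕ × ℕ) : ℕ := x.1.foldr (fun e s => e.1 + e.2 + s) (x.2.1 + x.2.2 + 1)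

/-- The sentence expressing local solvability. -/
def locC (n : ℕ) (x : List (ℕ × ℕ) × ℕ × ℕ) : ℕ :=
  exs (List.range (bnd x)) (fAnd (bigAnd ((List.range (bnd x)).map fun i => fO (tVar i)))
    (fAnd (bigAnd (x.1.map fun e => fMem (tSub e.1 e.2) (tNat n)))
      (fNot (fMem (tSub x.2.1 x.2.2) (tNat n)))))

section PRs
variable {α : Type} [Primcodable α] {f g : α → ℕ} {l : α → List ℕ} {c : α → ℕ → ℕ}

@[fun_prop] theorem pr_tVar (hf : PR f) : PR fun a => tVar (f a) := by unfold tVar; fun_prop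
@[fun_prop] theorem pr_tNeg (hf : PR f) : PR fun a => tNeg (f a) := by unfold tNeg; fun_prop
@[fun_prop] theorem pr_tAdd (hf : PR f) (hg : PR g) : PR fun a => tAdd (f a) (g a) := by
  unfold tAdd; fun_prop
@[fun_prop] theorem pr_tMul (hf : PR f) (hg : PR g) : PR fun a => tMul (f a) (g a) := by
  unfold tMul; fun_prop
@[fun_prop] theorem pr_tSub (hf : PR f) (hg : PR g) : PR fun a => tSub (f a) (g a) := by
  unfold tSub; fun_prop
@[fun_prop] theorem pr_fEq (hf : PR f) (hg : PR g) : PR fun a => fEq (f a) (g a) := by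
  unfold fEq; fun_prop
@[fun_prop] theorem pr_fMem (hf : PR f) (hg : PR g) : PR fun a => fMem (f a) (g a) := by
  unfold fMem; fun_prop
@[fun_prop] theorem pr_fNot (hf : PR f) : PR fun a => fNot (f a) := by unfold fNot; fun_prop
@[fun_prop] theorem pr_fImp (hf : PR f) (hg : PR g) : PR fun a => fImp (f a) (g a) := by
  unfold fImp; fun_prop
@[fun_prop] theorem pr_fAll (hf : PR f) (hg : PR g) : PR fun a => fAll (f a) (g a) := by
  unfold fAll; fun_prop
@[fun_prop] theorem pr_fAnd (hf : PR f) (hg : PR g) : PR fun a => fAnd (f a) (g a) := by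
  unfold fAnd; fun_prop
@[fun_prop] theorem pr_fOr (hf : PR f) (hg : PR g) : PR fun a => fOr (f a) (g a) := by
  unfold fOr; fun_prop
@[fun_prop] theorem pr_fEx (hf : PR f) (hg : PR g) : PR fun a => fEx (f a) (g a) := by
  unfold fEx; fun_prop
@[fun_prop] theorem pr_fO (hf : PR f) : PR fun a => fO (f a) := by unfold fO; fun_prop
@[fun_prop] theorem pr_bigAnd (hl : PR l) : PR fun a => bigAnd (l a) :=
  PR.foldr (f := fun _ => fAnd) (by fun_prop) hl (PR.const _)
@[fun_prop] theorem pr_bigOr (hl : PR l) : PR fun a => bigOr (l a) :=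
  PR.foldr (f := fun _ => fOr) (by fun_prop) hl (PR.const _)
@[fun_prop] theorem pr_exs (hl : PR l) (hg : PR g) : PR fun a => exs (l a) (g a) :=
  PR.foldr (f := fun _ => fEx) (by fun_prop) hl hg
@[fun_prop] theorem pr_tNat (hf : PR f) : PR fun a => tNat (f a) := by unfold tNat; fun_prop
@[fun_prop] theorem pr_tPow (hf : PR f) (hg : PR g) : PR fun a => tPow (f a) (g a) := by
  unfold tPow; fun_prop
@[fun_prop] theorem pr_tP (hc : PR fun p : α × ℕ => c p.1 p.2) (hf : PR f) (hg : PR g) :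
    PR fun a => tP (c a) (f a) (g a) :=
  PR.foldl (f := fun a s i => tAdd s (tMul (c a i) (tPow (g a) i)))
    (pr_tAdd (by fun_prop) (pr_tMul (hc.comp (g := fun p : α × ℕ × ℕ => (p.1, p.2.2))
      (by fun_prop)) (by fun_prop))) (by fun_prop) (PR.const _)
@[fun_prop] theorem pr_tMon (hc : PR fun p : α × ℕ => c p.1 p.2) (hf : PR f) (hg : PR g) :
    PR fun a => tMon (c a) (f a) (g a) := pr_tAdd (pr_tPow hg hf) (pr_tP hc hf hg)
@[fun_prop] theorem pr_fPrim (hf : PR f) (hg : PR g) : PR fun a => fPrim (f a) (g a) := by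
  unfold fPrim; fun_prop
@[fun_prop] theorem pr_fact (hf : PR f) : PR fun a => (f a).factorial := by
  refine (PR.foldl (f := fun _ (s i : ℕ) => (i + 1) * s) (l := fun a => List.range (f a))
    (i := fun _ => 1) (by fun_prop) (by fun_prop) (PR.const _)).congr fun a => ?_
  induction f a with
  | zero => rfl
  | succ k ih => rw [List.range_succ, List.foldl_append, ih]; rfl
@[fun_prop] theorem pr_Md (p : ℕ) (hf : PR f) : PR fun a => Md p (f a) := by unfold Md; fun_prop

theorem pr_ax (p : ℕ) : PR (ax p) := by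
  have h1 : PR axHens := by unfold axHens; fun_prop
  have h2 : PR axRes := by unfold axRes; fun_prop
  have h3 : PR fun j : ℕ × List (ℕ × ℕ) => axAlg p j.1 j.2 := by unfold axAlg; fun_prop
  unfold ax
  fun_prop

theorem pr_locC (n : ℕ) : PR (locC n) := by
  have h : PR bnd := by unfold bnd; fun_prop
  unfold locC
  fun_prop

end PRs

section Mon
variable {R : Type} [CommRing R]

/-- The monic polynomial with given lower coefficients. -/
noncomputable def mon (d : ℕ) (a : ℕ → R) : R[X] :=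
  X ^ d + ∑ i ∈ Finset.range d, C (a i) * X ^ i

theorem degree_low (d : ℕ) (a : ℕ → R) :
    (∑ i ∈ Finset.range d, C (a i) * X ^ i : R[X]).degree < (d : WithBot ℕ) := by
  rw [Finset.sum_range]; exact degree_sum_fin_lt _

theorem monic_mon (d : ℕ) (a : ℕ → R) : (mon d a).Monic := monic_X_pow_add (degree_low d a)

theorem natDegree_mon [Nontrivial R] (d : ℕ) (a : ℕ → R) : (mon d a).natDegree = d := by
  rw [mon, natDegree_add_eq_left_of_degree_lt (by rw [degree_X_pow]; exact degree_low d a),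
    natDegree_X_pow]

theorem coeff_mon {d i : ℕ} (a : ℕ → R) (h : i < d) : (mon d a).coeff i = a i := by
  simp [mon, coeff_X_pow, h.ne, h]

theorem aeval_mon {L : Type} [CommRing L] [Algebra R L] (d : ℕ) (a : ℕ → R) (y : L) :
    aeval y (mon d a) = y ^ d + ∑ i ∈ Finset.range d, algebraMap R L (a i) * y ^ i := by
  simp [mon]

theorem eval_mon (d : ℕ) (a : ℕ → R) (y : R) :
    (mon d a).eval y = y ^ d + ∑ i ∈ Finset.range d, a i * y ^ i := by
  simp [mon, eval_finsetSum]

theorem exists_mon {f : R[X]} (hf : f.Monic) : f = mon f.natDegree f.coeff := hf.as_sum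

end Mon

section Sem
variable {L : Type} [Field L] {O : ValuationSubring L}

@[simp] theorem sat_and (a b : ℕ) (ρ : ℕ → L) : sat O (fAnd a b) ρ ↔ sat O a ρ ∧ sat O b ρ := by
  simp [fAnd]
@[simp] theorem sat_or (a b : ℕ) (ρ : ℕ → L) : sat O (fOr a b) ρ ↔ sat O a ρ ∨ sat O b ρ := by
  simp only [fOr, sat_imp, sat_not, or_iff_not_imp_left]
@[simp] theorem sat_ex (i a : ℕ) (ρ : ℕ → L) :
    sat O (fEx i a) ρ ↔ ∃ y, sat O a (Function.update ρ i y) := by
  simp [fEx]
@[simp] theorem sat_O (s : ℕ) (ρ : ℕ → L) : sat O (fO s) ρ ↔ tv ρ s ∈ O := by simp [fO]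

@[simp] theorem sat_bigAnd (l : List ℕ) (ρ : ℕ → L) :
    sat O (bigAnd l) ρ ↔ ∀ a ∈ l, sat O a ρ := by
  induction l with
  | nil => simp [bigAnd, fTrue]
  | cons a l ih => rw [List.forall_mem_cons, ← ih]; exact sat_and _ _ ρ

@[simp] theorem sat_bigOr (l : List ℕ) (ρ : ℕ → L) :
    sat O (bigOr l) ρ ↔ ∃ a ∈ l, sat O a ρ := by
  induction l with
  | nil => simp [bigOr, fTrue]
  | cons a l ih => rw [List.exists_mem_cons_iff, ← ih]; exact sat_or _ _ ρ

theorem sat_exs (l : List ℕ) (a : ℕ) (v : ℕ → L) : sat O (exs l a) v ↔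
    ∃ w : ℕ → L, (∀ i, i ∉ l → w i = v i) ∧ sat O a w := by
  induction l generalizing v with
  | nil =>
    refine ⟨fun h => ⟨v, fun _ _ => rfl, h⟩, fun ⟨w, h1, h2⟩ => ?_⟩
    rwa [show w = v from funext fun i => h1 i (by simp)] at h2
  | cons i l ih =>
    change sat O (fEx i (exs l a)) v ↔ _
    simp only [sat_ex, ih]
    constructor
    · rintro ⟨x, w, h1, h2⟩
      refine ⟨w, fun j hj => ?_, h2⟩
      rw [List.mem_cons, not_or] at hj
      rw [h1 j hj.2, Function.update_of_ne hj.1]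
    · rintro ⟨w, h1, h2⟩
      refine ⟨w i, w, fun j hj => ?_, h2⟩
      by_cases e : j = i
      · subst e; simp
      · rw [Function.update_of_ne e]; exact h1 j (by simp [e, hj])

@[simp] theorem tv_sub (ρ : ℕ → L) (s t : ℕ) : tv ρ (tSub s t) = tv ρ s - tv ρ t := by
  simp [tSub, sub_eq_add_neg]
@[simp] theorem tv_nat (ρ : ℕ → L) (n : ℕ) : tv ρ (tNat n) = n := by
  unfold tNat
  induction n with
  | zero => simp
  | succ n ih => simp [List.range_succ, ih]
@[simp] theorem tv_pow (ρ : ℕ → L) (t n : ℕ) : tv ρ (tPow t n) = tv ρ t ^ n := by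
  unfold tPow
  induction n with
  | zero => simp
  | succ n ih => simp [List.range_succ, ih, pow_succ]
@[simp] theorem tv_P (ρ : ℕ → L) (c : ℕ → ℕ) (d t : ℕ) :
    tv ρ (tP c d t) = ∑ i ∈ Finset.range d, tv ρ (c i) * tv ρ t ^ i := by
  unfold tP
  induction d with
  | zero => simp
  | succ n ih => simp [List.range_succ, ih, Finset.sum_range_succ]
@[simp] theorem tv_mon (ρ : ℕ → L) (c : ℕ → ℕ) (d t : ℕ) :
    tv ρ (tMon c d t) = tv ρ t ^ d + ∑ i ∈ Finset.range d, tv ρ (c i) * tv ρ t ^ i := by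
  simp [tMon]

theorem sat_prim {n : ℕ} (hn : 0 < n) (t : ℕ) (ρ : ℕ → L) :
    sat O (fPrim t n) ρ ↔ IsPrimitiveRoot (tv ρ t) n := by
  rw [IsPrimitiveRoot.iff hn]
  simp only [fPrim, sat_and, sat_eq, tv_pow, tv_one, sat_bigAnd, List.forall_mem_map,
    List.mem_range, sat_not]
  refine and_congr_right fun _ => ⟨fun h l h0 h1 => ?_, fun h i hi => h _ i.succ_pos (by omega)⟩
  obtain ⟨i, rfl⟩ := Nat.exists_eq_succ_of_ne_zero h0.ne'
  exact h i (by omega)

theorem sat_hens (d : ℕ) (ρ : ℕ → L) : sat O (axHens d) ρ ↔ (ρ 1 ∈ O →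
    (∀ i < d, ρ (i + 1) ∈ O) ∨ ∃ b c : ℕ → L, ∀ y : L,
      y ^ d + ∑ i ∈ Finset.range d, ρ (i + 1) * y ^ i =
        (∑ i ∈ Finset.range d, b i * y ^ i) * ∑ i ∈ Finset.range d, c i * y ^ i) := by
  simp only [axHens, sat_imp, sat_O, tv_var, sat_or, sat_bigAnd, List.forall_mem_map,
    List.mem_range, sat_exs, sat_all, sat_eq, tv_mon, tv_mul, tv_P, Function.update_self,
    Function.update_of_ne (Nat.succ_ne_zero _)]
  simp only [List.mem_map, not_exists, not_and, List.mem_range, Nat.succ_eq_add_one]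
  refine imp_congr_right fun _ => or_congr_right ⟨fun ⟨w, h1, h2⟩ =>
    ⟨fun i => w (d + i + 1), fun i => w (2 * d + i + 1), fun y => ?_⟩, ?_⟩
  · rw [← h2 y]
    congr 1
    exact Finset.sum_congr rfl fun i hi => by
      rw [h1 _ fun j _ => by have := Finset.mem_range.1 hi; omega]
  · rintro ⟨b, c, h⟩
    refine ⟨fun i => if i ≤ d then ρ i else if i ≤ 2 * d then b (i - d - 1)
      else if i ≤ 3 * d then c (i - 2 * d - 1) else ρ i, fun i hi => ?_, fun y => ?_⟩
    · have := hi (i - d - 1)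
      beta_reduce
      split_ifs <;> first | rfl | omega
    · refine (congrArg _ (Finset.sum_congr rfl fun i hi => ?_)).trans ((h y).trans
        (congrArg₂ _ (Finset.sum_congr rfl fun i hi => ?_) (Finset.sum_congr rfl fun i hi => ?_)))
      all_goals
        have := Finset.mem_range.1 hi
        beta_reduce
      · rw [if_pos (by omega)]
      · rw [if_neg (by omega), if_pos (by omega), show d + i + 1 - d - 1 = i by omega]
      · rw [if_neg (by omega), if_neg (by omega), if_pos (by omega),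
          show 2 * d + i + 1 - 2 * d - 1 = i by omega]

theorem coeff_mem {f : L[X]} (hf : f.Monic) (h : ∀ i < f.natDegree, f.coeff i ∈ O) (i : ℕ) :
    f.coeff i ∈ O := by
  rcases lt_trichotomy i f.natDegree with hi | rfl | hi
  · exact h i hi
  · rw [hf.coeff_natDegree]; exact one_mem _
  · rw [coeff_eq_zero_of_natDegree_lt hi]; exact zero_mem _

theorem hens_iff [CharZero L] : (∀ d ρ, sat O (axHens d) ρ) ↔
    ∀ f : L[X], f.Monic → Irreducible f → f.coeff 0 ∈ O → ∀ i, f.coeff i ∈ O := by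
  simp only [sat_hens]
  constructor
  · intro h f hf hi h0
    rcases h f.natDegree (fun i => f.coeff (i - 1)) h0 with h | ⟨b, c, h⟩
    · exact coeff_mem hf h
    · have e : f = (∑ i ∈ Finset.range f.natDegree, C (b i) * X ^ i) *
          ∑ i ∈ Finset.range f.natDegree, C (c i) * X ^ i := Polynomial.funext fun y => by
        conv_lhs => rw [exists_mon hf, eval_mon]
        simpa [eval_finsetSum] using h y
      have hd := congrArg degree e
      rw [degree_mul, degree_eq_natDegree hf.ne_zero] at hd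
      rcases hi.isUnit_or_isUnit e with u | u
      · rw [degree_eq_zero_of_isUnit u, zero_add] at hd
        exact absurd hd (degree_low _ c).ne'
      · rw [degree_eq_zero_of_isUnit u, add_zero] at hd
        exact absurd hd (degree_low _ b).ne'
  · intro h d ρ h1
    rcases Nat.eq_zero_or_pos d with rfl | hd
    · exact Or.inl fun i hi => absurd hi (Nat.not_lt_zero _)
    have hm := monic_mon d fun i => ρ (i + 1)
    have hn := natDegree_mon d fun i => ρ (i + 1)
    by_cases hi : Irreducible (mon d fun i => ρ (i + 1))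
    · refine Or.inl fun i hi' => ?_
      have := h _ hm hi (by rwa [coeff_mon _ hd]) i
      rwa [coeff_mon _ hi'] at this
    · have hu : ¬ IsUnit (mon d fun i => ρ (i + 1)) := fun u => by
        have := natDegree_eq_zero_of_isUnit u
        omega
      obtain ⟨g, k, hg, hk, e⟩ := (irreducible_or_factor hu).resolve_left hi
      have g0 : g ≠ 0 := fun z => hm.ne_zero (by rw [e, z, zero_mul])
      have k0 : k ≠ 0 := fun z => hm.ne_zero (by rw [e, z, mul_zero])
      have hs := natDegree_mul g0 k0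
      rw [← e, hn] at hs
      have g1 := natDegree_pos_of_not_isUnit_of_dvd_monic hm hg ⟨k, e⟩
      have k1 := natDegree_pos_of_not_isUnit_of_dvd_monic hm hk ⟨g, e.trans (mul_comm _ _)⟩
      refine Or.inr ⟨g.coeff, k.coeff, fun y => ?_⟩
      rw [← eval_mon, e, eval_mul, eval_eq_sum_range' (n := d) (by omega),
        eval_eq_sum_range' (p := k) (n := d) (by omega)]

theorem res_iff : (∀ d ρ, sat O (axRes d) ρ) ↔ ∀ f : L[X], f.Monic → 0 < f.natDegree →
    (∀ i, f.coeff i ∈ O) → ∃ c ∈ O, O.valuation (f.eval c) < 1 := by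
  simp only [axRes, sat_imp, sat_O, tv_var, sat_or, sat_bigAnd, List.forall_mem_map,
    List.mem_range, sat_ex, sat_and, sat_eq, sat_not, sat_mem, tv_mon, tv_zero, tv_one, one_mul,
    Function.update_self, Function.update_of_ne (Nat.succ_ne_zero _), ← eval_mon,
    ← ValuationSubring.mem_nonunits_iff, ValuationSubring.mem_nonunits_iff_or]
  constructor
  · intro h f hf h0 hc
    obtain ⟨d, hd⟩ := Nat.exists_eq_succ_of_ne_zero h0.ne'
    have := h d (fun i => f.coeff (i - 1)) fun i _ => hc _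
    rwa [exists_mon hf, hd]
  · intro h d ρ hc
    refine h _ (monic_mon _ _) (by rw [natDegree_mon]; omega) (coeff_mem (monic_mon _ _) ?_)
    rw [natDegree_mon]
    exact fun i hi => by rw [coeff_mon _ hi]; exact hc i hi

theorem mem_Rmu {M : ℕ} {ζ : L} (hζ : IsPrimitiveRoot ζ M) (hM : 0 < M) {x : L}
    (hx : x ∈ Rmu L M) : ∃ a : Fin M → ℤ, ∑ i, a i • ζ ^ (i : ℕ) = x := by
  have : NeZero M := ⟨hM.ne'⟩
  rw [← Submodule.mem_span_range_iff_exists_fun]
  have h1 : ∀ ξ : L, ξ ^ M = 1 → ξ ∈ Submodule.span ℤ (Set.range fun i : Fin M => ζ ^ (i : ℕ)) :=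
    fun ξ h => by
      obtain ⟨i, hi, rfl⟩ := hζ.eq_pow_of_pow_eq_one h
      exact Submodule.subset_span ⟨⟨i, hi⟩, rfl⟩
  induction hx using Subring.closure_induction with
  | mem x h => exact h1 x h
  | zero => exact zero_mem _
  | one => exact h1 1 (one_pow _)
  | add _ _ _ _ h h' => exact add_mem h h'
  | neg _ _ h => exact neg_mem h
  | mul x y _ _ h h' =>
    have := Submodule.mul_mem_mul h h'
    rw [Submodule.span_mul_span] at this
    refine Submodule.span_le.2 ?_ this
    rintro _ ⟨_, ⟨i, rfl⟩, _, ⟨j, rfl⟩, rfl⟩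
    exact h1 _ (by simp only [← pow_add, ← pow_mul, mul_comm _ M]; rw [pow_mul, hζ.1, one_pow])

theorem md_pos {p : ℕ} (hp : (p : L)⁻¹ ∉ O) (d : ℕ) : 0 < Md p d := by
  have h2 : 2 ≤ p := by
    rcases p with _ | _ | p
    · simp at hp
    · simp at hp
    · omega
  have h := d.factorial_ne_zero
  exact Nat.mul_pos (Nat.sub_pos_of_lt (Nat.one_lt_pow h h2))
    (Nat.sub_pos_of_lt (Nat.one_lt_pow h (by nlinarith)))

theorem alg_iff {p : ℕ} (hp : (p : L)⁻¹ ∉ O) (hμ : ∀ n : ℕ, 0 < n → ∃ ζ : L, IsPrimitiveRoot ζ n) :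
    (∀ N cs ρ, sat O (axAlg p N cs) ρ) ↔ ∀ (f : ℤ[X]) (y : L), f.Monic → aeval y f = 0 → ∀ N : ℕ,
      ∃ w ∈ Rmu L (Md p f.natDegree), (y - w) / p ^ N ∈ O := by
  simp only [axAlg, sat_imp, sat_prim (md_pos hp _), tv_var, sat_eq, tv_mon, tv_sub, tv_nat,
    tv_zero, sat_bigOr, List.mem_map, exists_exists_and_eq_and, sat_mem, tv_P, tv_pow,
    ← div_eq_mul_inv]
  constructor
  · intro h f y hf h0 N
    obtain ⟨ζ, hζ⟩ := hμ _ (md_pos hp f.natDegree)
    have := h N (List.ofFn fun i : Fin f.natDegree => ((f.coeff i).toNat, (-f.coeff i).toNat))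
      fun i => if i = 0 then y else ζ
    simp only [List.length_ofFn, if_true, one_ne_zero, if_false] at this
    obtain ⟨a, -, ha⟩ := this hζ (by
      rw [exists_mon hf, aeval_mon] at h0
      rw [← h0, Finset.sum_range, Finset.sum_range]
      congr 1
      refine Finset.sum_congr rfl fun i _ => ?_
      rw [getD_ofFn, eq_intCast, ← Int.cast_natCast, ← Int.cast_natCast (R := L) (-_ : ℤ).toNat,
        ← Int.cast_sub, Int.toNat_sub_toNat_neg])
    exact ⟨_, sum_mem fun i _ => mul_mem (natCast_mem _ _)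
      (pow_mem (Subring.subset_closure (s := {ξ : L | ξ ^ Md p f.natDegree = 1}) hζ.1) _), ha⟩
  · intro h N cs ρ hζ h0
    have hM := md_pos hp cs.length
    have hp0 : (p : L) ≠ 0 := fun e => hp (by rw [e, inv_zero]; exact zero_mem _)
    have hq : 0 < p ^ N := Nat.pos_of_ne_zero (pow_ne_zero _ fun e => hp0 (by rw [e, Nat.cast_zero]))
    obtain ⟨w, hw, hy⟩ := h (mon cs.length fun i => ((cs.getD i (0, 0)).1 : ℤ) - (cs.getD i (0, 0)).2)
      (ρ 0) (monic_mon _ _) (by rw [aeval_mon]; simpa using h0) N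
    rw [natDegree_mon] at hw
    obtain ⟨a, rfl⟩ := mem_Rmu hζ hM hw
    have hO : ρ 1 ∈ O := (O.mem_or_inv_mem _).elim id fun h' => by
      obtain ⟨m, hm⟩ := Nat.exists_eq_succ_of_ne_zero hM.ne'
      have e := hζ.1
      rw [hm, pow_succ] at e
      rw [eq_inv_of_mul_eq_one_right e, ← inv_pow]
      exact pow_mem h' _
    have hq' : (0 : ℤ) < ((p ^ N : ℕ) : ℤ) := by exact_mod_cast hq
    refine ⟨List.ofFn fun i => (a i % ((p ^ N : ℕ) : ℤ)).toNat, ofFn_mem_tup fun i => ?_, ?_⟩
    · have := Int.emod_lt_of_pos (a i) hq'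
      have := Int.emod_nonneg (a i) hq'.ne'
      rw [List.mem_range]
      omega
    · have h2 : ∑ i, ((a i / ((p ^ N : ℕ) : ℤ) : ℤ) : L) * ρ 1 ^ (i : ℕ) ∈ O :=
        sum_mem fun i _ => mul_mem (intCast_mem _ _) (pow_mem hO _)
      convert add_mem hy h2 using 1
      rw [Finset.sum_range, div_add' _ _ _ (pow_ne_zero N hp0), sub_add, Finset.sum_mul,
        ← Finset.sum_sub_distrib]
      congr 2
      refine Finset.sum_congr rfl fun i _ => ?_
      rw [getD_ofFn, ← Int.cast_natCast, Int.toNat_of_nonneg (Int.emod_nonneg _ hq'.ne'),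
        Int.emod_def, zsmul_eq_mul]
      push_cast
      ring

theorem model_iff {p : ℕ} : (∀ j, ∀ a ∈ ax p j, ∀ ρ, sat O a ρ) ↔ Model p O := by
  simp only [ax, List.forall_mem_cons, List.not_mem_nil, false_imp_iff, implies_true, and_true,
    forall_and, Prod.forall, sat_not, sat_eq, sat_mem, tv_nat, tv_zero, tv_one, one_mul, sat_ex,
    sat_prim (Nat.succ_pos _), tv_var, Function.update_self, forall_const]
  constructor
  · rintro ⟨h1, h2, h3, h4, h5, h6⟩
    have hc : ∀ n : ℕ, 0 < n → (n : L) ≠ 0 := fun n hn => by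
      obtain ⟨m, rfl⟩ := Nat.exists_eq_succ_of_ne_zero hn.ne'
      exact h1 m
    have hμ : ∀ n : ℕ, 0 < n → ∃ ζ : L, IsPrimitiveRoot ζ n := fun n hn => by
      obtain ⟨m, rfl⟩ := Nat.exists_eq_succ_of_ne_zero hn.ne'
      exact h5 m
    have : CharZero L := charZero_of_inj_zero fun n hn => by
      by_contra e; exact hc n (Nat.pos_of_ne_zero e) hn
    exact ⟨hc, h2, hens_iff.1 h3, res_iff.1 h4, hμ, (alg_iff h2 hμ).1 h6⟩
  · intro h
    have : CharZero L := charZero_of_inj_zero fun n hn => by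
      by_contra e; exact h.char n (Nat.pos_of_ne_zero e) hn
    exact ⟨fun n => h.char _ n.succ_pos, h.vp, hens_iff.2 h.hens, res_iff.2 h.res,
      fun n => h.mu _ n.succ_pos, (alg_iff h.vp h.mu).2 h.alg⟩

theorem lt_bnd (x : List (ℕ × ℕ) × ℕ × ℕ) :
    x.2.1 + x.2.2 < bnd x ∧ ∀ e ∈ x.1, e.1 + e.2 < bnd x := by
  obtain ⟨l, s, t⟩ := x
  unfold bnd
  induction l with
  | nil => simp
  | cons a l ih =>
    simp only [List.foldr_cons, List.forall_mem_cons] at ih ⊢
    exact ⟨by omega, by omega, fun e he => by have := ih.2 e he; omega⟩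

theorem sat_locC (n : ℕ) (x : List (ℕ × ℕ) × ℕ × ℕ) (ρ : ℕ → L) :
    sat O (locC n x) ρ ↔ LocV O n (x.1.map decE) (decE x.2) := by
  have key : ∀ w w' : ℕ → L, (∀ i < bnd x, w i = w' i) → ∀ s t, s + t < bnd x →
      tv w s - tv w t = tv w' s - tv w' t := fun w w' h s t hs => by
    rw [tv_congr s fun i hi => h i (by omega), tv_congr t fun i hi => h i (by omega)]
  simp only [locC, sat_exs, sat_and, sat_bigAnd, List.forall_mem_map, List.mem_range, sat_O, tv_var,
    sat_mem, sat_not, tv_sub, tv_nat, ← div_eq_mul_inv, LocV]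
  change _ ↔ ∃ y : ℕ → L, (∀ i, y i ∈ O) ∧ (∀ e ∈ x.1, (tv y e.1 - tv y e.2) / n ∈ O) ∧
    (tv y x.2.1 - tv y x.2.2) / n ∉ O
  constructor
  · rintro ⟨w, -, h1, h2, h3⟩
    have e := key (fun i => if i < bnd x then w i else 0) w fun i hi => if_pos hi
    refine ⟨fun i => if i < bnd x then w i else 0, fun i => ?_, fun a ha => ?_, ?_⟩
    · beta_reduce
      split_ifs with hi
      exacts [h1 i hi, zero_mem _]
    · rw [e _ _ ((lt_bnd x).2 a ha)]; exact h2 a ha
    · rwa [e _ _ (lt_bnd x).1]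
  · rintro ⟨w, h1, h2, h3⟩
    have e := key (fun i => if i < bnd x then w i else ρ i) w fun i hi => if_pos hi
    refine ⟨fun i => if i < bnd x then w i else ρ i, fun i hi => if_neg hi, fun i hi => ?_,
      fun a ha => ?_, ?_⟩
    · beta_reduce
      rw [if_pos hi]; exact h1 i
    · rw [e _ _ ((lt_bnd x).2 a ha)]; exact h2 a ha
    · rwa [e _ _ (lt_bnd x).1]

end Sem

end LG

open LG

theorem decT_code (t : Tm) : decT t.code = t := by
  induction t with
  | var i => rw [decT]; simp [Tm.code]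
  | zero => rw [decT]; simp [Tm.code]
  | one => rw [decT]; simp [Tm.code]
  | neg t ih => rw [decT]; simp [Tm.code, ih]
  | add s t ihs iht => rw [decT]; simp [Tm.code, ihs, iht]
  | mul s t ihs iht => rw [decT]; simp [Tm.code, ihs, iht]

set_option linter.unusedVariables false in
theorem s1_locV (p n : ℕ) (hp : 0 < p) (hn : 0 < n) : S1 fun x : List (ℕ × ℕ) × ℕ × ℕ =>
    ∀ (L : Type) [Field L] (O : ValuationSubring L), Model p O →
      LocV O n (x.1.map decE) (decE x.2) :=
  ((s1_conseq (pr_ax p)).comp (pr_locC n)).congr fun x => by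
    simp only [model_iff, sat_locC, forall_const]

set_option linter.unusedVariables false in
theorem s1_not_locV (p n : ℕ) (hp : 0 < p) (hn : 0 < n) : S1 fun x : List (ℕ × ℕ) × ℕ × ℕ =>
    ∀ (L : Type) [Field L] (O : ValuationSubring L), Model p O →
      ¬ LocV O n (x.1.map decE) (decE x.2) :=
  ((s1_conseq (pr_ax p)).comp (pr_fNot (pr_locC n))).congr fun x => by
    simp only [model_iff, sat_not, sat_locC, forall_const]

end Pool.Agent.Lib.MP_132c47_lc
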