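import Pool.Agent.Lib.MP_132c47_lc.Defs3

/-! From a model to the Galois setting. -/

namespace Pool.Agent.Lib.MP_132c47_lc

open Polynomial

namespace MD
set_option linter.overlappingInstances false

section Min
variable {Ω : Type} [Field Ω]

theorem exists_min (V : ValuationSubring Ω) (T : Set Ω) (hT : T ⊆ V) :
    ∃ W : ValuationSubring Ω, W ≤ V ∧ T ⊆ W ∧
      ∀ W' : ValuationSubring Ω, W' ≤ W → T ⊆ W' → W ≤ W' := by
  obtain ⟨W, h1, h2⟩ := zorn_le_nonempty₀ (α := (ValuationSubring Ω)ᵒᵈ)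
    {W | T ⊆ (OrderDual.ofDual W : ValuationSubring Ω)} (fun c hc hch y hy => by
      let U : ValuationSubring Ω :=
        { toSubring := ⨅ W : c, (OrderDual.ofDual W.1 : ValuationSubring Ω).toSubring
          mem_or_inv_mem' := fun x => by
            by_cases hx : x ∈ ⨅ W : c, (OrderDual.ofDual W.1 : ValuationSubring Ω).toSubring
            · exact Or.inl hx
            obtain ⟨W₁, h₁⟩ := not_forall.1 (mt Subring.mem_iInf.2 hx)
            refine Or.inr (Subring.mem_iInf.2 fun W₂ => ?_)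
            rcases hch.total W₁.2 W₂.2 with h | h
            · exact ((OrderDual.ofDual W₂.1).mem_or_inv_mem x).resolve_left fun h' =>
                h₁ ((show OrderDual.ofDual W₂.1 ≤ OrderDual.ofDual W₁.1 from h) h')
            · exact (show OrderDual.ofDual W₁.1 ≤ OrderDual.ofDual W₂.1 from h)
                (((OrderDual.ofDual W₁.1).mem_or_inv_mem x).resolve_left h₁) }
      refine ⟨OrderDual.toDual U, fun x hx => Subring.mem_iInf.2 fun W => hc W.2 hx, fun z hz => ?_⟩
      exact show U ≤ OrderDual.ofDual z from fun x hx => Subring.mem_iInf.1 hx ⟨z, hz⟩)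
    (OrderDual.toDual V) hT
  exact ⟨OrderDual.ofDual W, h1, h2.1, fun W' h h' => h2.2 (y := OrderDual.toDual W') h' h⟩

theorem resAlg {W : ValuationSubring Ω} {T : Set Ω} (hT : T.Finite) (hTW : T ⊆ W)
    (hmin : ∀ W' : ValuationSubring Ω, W' ≤ W → T ⊆ W' → W ≤ W') {p : ℕ} (hp : p.Prime)
    (hpW : W.valuation p < 1) : ResAlg W.valuation := by
  intro x hx
  let B : Subalgebra ℤ Ω := Algebra.adjoin ℤ (insert x T)
  have hB : ∀ b ∈ B, W.valuation b ≤ 1 := fun b hb => by
    rw [W.valuation_le_one_iff]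
    have : B ≤ subalgebraOfSubring W.toSubring :=
      Algebra.adjoin_le (Set.insert_subset ((W.valuation_le_one_iff x).1 hx) hTW)
    exact this hb
  let A : Subring Ω :=
    { carrier := {a | ∃ b ∈ B, W.valuation (a - b) < 1}
      zero_mem' := ⟨0, zero_mem _, by simp⟩
      one_mem' := ⟨1, one_mem _, by simp⟩
      add_mem' := by
        rintro a a' ⟨b, hb, h⟩ ⟨b', hb', h'⟩
        refine ⟨b + b', add_mem hb hb', ?_⟩
        rw [show a + a' - (b + b') = (a - b) + (a' - b') by ring]
        exact W.valuation.map_add_lt h h'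
      neg_mem' := by
        rintro a ⟨b, hb, h⟩
        refine ⟨-b, neg_mem hb, ?_⟩
        rwa [show -a - -b = -(a - b) by ring, Valuation.map_neg]
      mul_mem' := by
        rintro a a' ⟨b, hb, h⟩ ⟨b', hb', h'⟩
        refine ⟨b * b', mul_mem hb hb', ?_⟩
        rw [show a * a' - b * b' = (a - b) * (a' - b') + ((a - b) * b' + (a' - b') * b) by ring]
        refine W.valuation.map_add_lt ?_ (W.valuation.map_add_lt ?_ ?_) <;> rw [map_mul]
        · exact mul_lt_one_of_lt_of_le h h'.le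
        · exact mul_lt_one_of_lt_of_le h (hB _ hb')
        · exact mul_lt_one_of_lt_of_le h' (hB _ hb) }
  have hBA : ∀ b ∈ B, b ∈ A := fun b hb => ⟨b, hb, by simp⟩
  have hA : ∀ a ∈ A, W.valuation a ≤ 1 := by
    rintro a ⟨b, hb, h⟩
    rw [← sub_add_cancel a b]
    exact W.valuation.map_add_le h.le (hB b hb)
  let I : Ideal A :=
    { carrier := {a | W.valuation a < 1}
      zero_mem' := by simp
      add_mem' := fun h h' => W.valuation.map_add_lt h h'
      smul_mem' := fun c a h => by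
        change W.valuation (c * a) < 1
        rw [map_mul, mul_comm]
        exact mul_lt_one_of_lt_of_le h (hA _ c.2) }
  have hI : I ≠ ⊤ := fun h => by
    have : (1 : A) ∈ I := h ▸ trivial
    exact lt_irrefl _ (show W.valuation 1 < W.valuation 1 from lt_of_lt_of_eq this (map_one _).symm)
  obtain ⟨n, hn, hIn⟩ := I.exists_le_maximal hI
  obtain ⟨W', h1, h2⟩ := Ideal.image_subset_nonunits_valuationSubring n hn.ne_top
  have h3 : W' ≤ W := ValuationSubring.nonunits_le_nonunits.1 fun a ha => by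
    have ha' := W.mem_nonunits_iff.1 ha
    exact h2 ⟨⟨a, 0, zero_mem _, by simpa using ha'⟩, hIn ha', rfl⟩
  have h4 := ValuationSubring.nonunits_le_nonunits.2 (hmin W' h3 fun t ht =>
    h1 (hBA t (Algebra.subset_adjoin (Set.mem_insert_of_mem _ ht))))
  let := Ideal.Quotient.field n
  let ψ : B →+* A ⧸ n := (Ideal.Quotient.mk n).comp
    (B.val.toRingHom.codRestrict A fun b => hBA b b.2)
  have hψ : Function.Surjective ψ := fun z => by
    obtain ⟨⟨a, b, hb, h⟩, rfl⟩ := Ideal.Quotient.mk_surjective z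
    exact ⟨⟨b, hb⟩, (Ideal.Quotient.eq.2 (hIn h)).symm⟩
  have : Algebra.FiniteType ℤ B := Algebra.FiniteType.adjoin_of_finite (hT.insert x)
  have : Algebra.FiniteType ℤ (A ⧸ n) := Algebra.FiniteType.of_surjective ψ.toIntAlgHom hψ
  have hp0 : (p : A ⧸ n) = 0 := by
    rw [← map_natCast (Ideal.Quotient.mk n), Ideal.Quotient.eq_zero_iff_mem]
    exact hIn (show W.valuation ((p : A) : Ω) < 1 by simpa using hpW)
  have := Fact.mk hp
  have : CharP (A ⧸ n) p := (CharP.charP_iff_prime_eq_zero hp).2 hp0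
  let := ZMod.algebra (A ⧸ n) p
  have := Algebra.FiniteType.of_restrictScalars_finiteType ℤ (ZMod p) (A ⧸ n)
  have := finite_of_finite_type_of_isJacobsonRing (ZMod p) (A ⧸ n)
  have : Finite (A ⧸ n) := Module.finite_of_finite (ZMod p)
  let := Fintype.ofFinite (A ⧸ n)
  have hc : 1 < Fintype.card (A ⧸ n) := Fintype.one_lt_card
  let x' : A := ⟨x, hBA x (Algebra.subset_adjoin (Set.mem_insert _ _))⟩
  refine ⟨Fintype.card (A ⧸ n) - 1, by omega, W.mem_nonunits_iff.1 (h4 (h2
    ⟨x' ^ Fintype.card (A ⧸ n) - x', ?_, ?_⟩))⟩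
  · exact Ideal.Quotient.eq.1 (by rw [map_pow, FiniteField.pow_card])
  · rw [Nat.sub_add_cancel hc.le]; simp [x']

end Min

variable {L Ω : Type} [Field L] [Field Ω] [Algebra L Ω]

theorem coeff_inv {x : Ω} (hx : IsIntegral L x) (hx' : IsIntegral L x⁻¹) (h0 : x ≠ 0) :
    (minpoly L x).coeff 0 * (minpoly L x⁻¹).coeff 0 = 1 := by
  have key : ∀ y : Ω, y ≠ 0 → minpoly L y⁻¹ ∣ (minpoly L y).reverse := fun y hy => by
    let := invertibleOfNonzero hy
    refine minpoly.dvd L _ ?_
    rw [aeval_def, ← invOf_eq_inv, eval₂_reverse_eq_zero_iff]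
    exact minpoly.aeval L y
  have h1 := key x⁻¹ (inv_ne_zero h0)
  rw [inv_inv] at h1
  have h2 := (natDegree_le_of_dvd h1 (by
    rw [Ne, reverse_eq_zero]; exact minpoly.ne_zero hx')).trans (reverse_natDegree_le _)
  have h3 := eq_leadingCoeff_mul_of_monic_of_dvd_of_natDegree_le (minpoly.monic hx') (key x h0)
    ((reverse_natDegree_le _).trans h2)
  have h4 := congrArg (coeff · 0) h3
  simp only [coeff_zero_reverse, reverse_leadingCoeff, coeff_C_mul,
    trailingCoeff_eq_coeff_zero (minpoly.coeff_zero_ne_zero hx h0)] at h4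
  rw [← h4]; exact minpoly.monic hx

variable {p : ℕ} {O : ValuationSubring L}

theorem integral_of_coeff (h : Model p O) {x : Ω} (hx : IsIntegral L x)
    (h0 : (minpoly L x).coeff 0 ∈ O) : IsIntegral O x := by
  refine IsIntegral.of_aeval_monic_of_isIntegral_coeff ((minpoly.monic hx).map (algebraMap L Ω))
    (by rw [natDegree_map]; exact (minpoly.natDegree_pos hx).ne')
    (by rw [eval_map_algebraMap, minpoly.aeval]; exact isIntegral_zero) fun i => ?_
  rw [coeff_map]
  exact isIntegral_algebraMap (x := (⟨_, h.hens _ (minpoly.monic hx) (minpoly.irreducible hx) h0 i⟩ : O))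

/-- The extension of the valuation ring. -/
def ext [Algebra.IsAlgebraic L Ω] (h : Model p O) : ValuationSubring Ω where
  toSubring := (integralClosure O Ω).toSubring
  mem_or_inv_mem' x := by
    by_cases h0 : x = 0
    · exact Or.inl (h0 ▸ isIntegral_zero)
    have hx := Algebra.IsIntegral.isIntegral (R := L) x
    have hx' := Algebra.IsIntegral.isIntegral (R := L) x⁻¹
    rcases O.mem_or_inv_mem ((minpoly L x).coeff 0) with h1 | h1
    · exact Or.inl (integral_of_coeff h hx h1)
    · refine Or.inr (integral_of_coeff h hx' ?_)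
      rwa [eq_inv_of_mul_eq_one_right (coeff_inv hx hx' h0)]

variable [Algebra.IsAlgebraic L Ω] (h : Model p O)

theorem mem_ext {x : Ω} : x ∈ ext h ↔ IsIntegral O x := Iff.rfl

theorem map_mem_ext {y : L} : algebraMap L Ω y ∈ ext (Ω := Ω) h ↔ y ∈ O := by
  rw [mem_ext, isIntegral_algebraMap_iff (algebraMap L Ω).injective,
    IsIntegrallyClosed.isIntegral_iff]
  exact ⟨fun ⟨z, hz⟩ => hz ▸ z.2, fun hy => ⟨⟨y, hy⟩, rfl⟩⟩

theorem map_lt {y : L} (hy : O.valuation y < 1) :
    algebraMap L Ω y ∈ (ext (Ω := Ω) h).nonunits := by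
  rw [← O.mem_nonunits_iff, O.mem_nonunits_iff_or] at hy
  rw [ValuationSubring.mem_nonunits_iff_or, ← map_inv₀, map_mem_ext, map_eq_zero]
  exact hy

theorem smul_mem (g : Ω ≃ₐ[L] Ω) {x : Ω} (hx : x ∈ ext h) : g x ∈ ext h :=
  IsIntegral.map (A := L) g hx

theorem smul_lt (g : Ω ≃ₐ[L] Ω) {x : Ω} (hx : x ∈ (ext h).nonunits) : g x ∈ (ext h).nonunits := by
  rw [ValuationSubring.mem_nonunits_iff_or] at hx ⊢
  refine hx.imp (fun e => by rw [e, map_zero]) fun h1 h2 => h1 ?_
  have := smul_mem h g.symm h2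
  rwa [← map_inv₀, g.symm_apply_apply] at this

theorem inv_ext [IsAlgClosed Ω] [Normal L Ω] (g : Ω ≃ₐ[L] Ω) {x : Ω} (hx : x ∈ ext h) :
    g x - x ∈ (ext h).nonunits := by
  have hi := Algebra.IsIntegral.isIntegral (R := L) x
  obtain ⟨c, -, hc⟩ := h.res _ (minpoly.monic hi) (minpoly.natDegree_pos hi) fun i => by
    rw [minpoly.isIntegrallyClosed_eq_field_fractions' L ((mem_ext h).1 hx), coeff_map]
    exact Subtype.property _
  have h1 := (ext h).mem_nonunits_iff.1 (map_lt (Ω := Ω) h hc)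
  rw [← eval_map_apply, (IsAlgClosed.splits _).eval_eq_prod_roots_of_monic
    ((minpoly.monic hi).map _), map_multiset_prod] at h1
  obtain ⟨r, hr, hr'⟩ : ∃ r ∈ ((minpoly L x).map (algebraMap L Ω)).roots,
      (ext h).valuation (algebraMap L Ω c - r) < 1 := by
    by_contra hne
    push Not at hne
    refine absurd h1 (not_lt.2 (Multiset.one_le_prod_of_one_le fun a ha => ?_))
    obtain ⟨_, hb, rfl⟩ := Multiset.mem_map.1 ha
    obtain ⟨r, hr, rfl⟩ := Multiset.mem_map.1 hb
    exact hne r hr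
  obtain ⟨σ, hσ⟩ := minpoly.exists_algEquiv_of_root (K := L) (x := r) hi.isAlgebraic (by
    rw [← eval_map_algebraMap]; exact isRoot_of_mem_roots hr)
  have h2 := smul_lt h σ ((ext h).mem_nonunits_iff.2 hr')
  rw [map_sub, σ.commutes, hσ] at h2
  have h3 := smul_lt h g h2
  rw [map_sub, g.commutes] at h3
  have := sub_mem h2 h3
  rwa [sub_sub_sub_cancel_left] at this

end MD

theorem Model.setting {p : ℕ} [Fact p.Prime] {L : Type} [Field L] {O : ValuationSubring L}
    (h : Model p O) (Y : Finset L) : ∃ W : ValuationSubring (AlgebraicClosure L),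
      Setting W.valuation p (AlgebraicClosure L ≃ₐ[L] AlgebraicClosure L) ∧
      ∀ y ∈ Y, (y ∈ O → W.valuation (algebraMap L _ y) ≤ 1) ∧
        (O.valuation y < 1 → W.valuation (algebraMap L _ y) < 1) := by
  have hp : p.Prime := Fact.out
  have : CharZero L := charZero_of_inj_zero fun n hn => by
    by_contra h0
    exact h.char n (Nat.pos_of_ne_zero h0) hn
  obtain ⟨W, h1, h2, h3⟩ := MD.exists_min (MD.ext (Ω := AlgebraicClosure L) h)
    (algebraMap L _ '' ((Y : Set L) ∩ O)) (by
      rintro _ ⟨y, hy, rfl⟩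
      exact (MD.map_mem_ext h).2 hy.2)
  have h4 := ValuationSubring.nonunits_le_nonunits.2 h1
  have h5 : ∀ y, O.valuation y < 1 → W.valuation (algebraMap L _ y) < 1 := fun y hy =>
    W.mem_nonunits_iff.1 (h4 (MD.map_lt h hy))
  have hpO : O.valuation p < 1 := O.mem_nonunits_iff.1 (O.mem_nonunits_iff_or.2 (Or.inr h.vp))
  have hpW : W.valuation p < 1 := by simpa using h5 _ hpO
  refine ⟨W, ⟨⟨MD.resAlg ((Y.finite_toSet.inter_of_left _).image _) h2 h3 hp hpW,
    fun g x hx => W.mem_nonunits_iff.1 (h4 (MD.inv_ext h g (h1 ((W.valuation_le_one_iff x).1 hx)))),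
    fun x => ((minpoly L x).rootSet_finite (AlgebraicClosure L)).subset ?_⟩, hpW,
    fun y hy hy' => ?_⟩, fun y hy => ⟨fun hO => (W.valuation_le_one_iff _).2 (h2 ⟨y, ⟨hy, hO⟩, rfl⟩),
      h5 y⟩⟩
  · rintro _ ⟨g, rfl⟩
    rw [mem_rootSet_of_ne (minpoly.ne_zero (Algebra.IsIntegral.isIntegral x))]
    change aeval (g x) (minpoly L x) = 0
    rw [aeval_algHom_apply, minpoly.aeval, map_zero]
  · obtain ⟨y, rfl⟩ := (InfiniteGalois.mem_range_algebraMap_iff_fixed y).2 hy
    obtain ⟨f, hf, hf'⟩ := hy'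
    have hf2 : aeval y f = 0 := (algebraMap L (AlgebraicClosure L)).injective (by
      rw [map_zero, ← aeval_algebraMap_apply]; exact hf')
    refine ⟨Md p f.natDegree, Nat.mul_pos (Nat.sub_pos_of_lt (Nat.one_lt_pow
      (Nat.factorial_ne_zero _) hp.one_lt)) (Nat.sub_pos_of_lt (Nat.one_lt_pow
      (Nat.factorial_ne_zero _) (by have := pow_pos hp.pos 2; omega))), fun N => ?_⟩
    obtain ⟨w, hw, hw'⟩ := h.alg f y hf hf2 (N + 1)
    have hp0 : (p : L) ≠ 0 := h.char p hp.pos
    refine ⟨algebraMap L _ w, ?_, ?_⟩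
    · have : Rmu L (Md p f.natDegree) ≤ (Rmu (AlgebraicClosure L) (Md p f.natDegree)).comap
          (algebraMap L _) := Subring.closure_le.2 fun ξ hξ => Subring.subset_closure (by
        change algebraMap L _ ξ ^ _ = 1
        rw [← map_pow, hξ, map_one])
      exact this hw
    · have e : y - w = (p * ((y - w) / p ^ (N + 1))) * p ^ N := by field_simp; ring
      have h6 := h5 (p * ((y - w) / p ^ (N + 1))) (by
        rw [map_mul]
        exact mul_lt_one_of_lt_of_le hpO ((O.valuation_le_one_iff _).2 hw'))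
      rw [← map_sub, e, map_mul, map_mul, map_pow, map_natCast, map_pow]
      exact mul_le_of_le_one_left' h6.le

end Pool.Agent.Lib.MP_132c47_lc
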