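import Pool.Agent.Lib.MP_132c47_lc.ST3
import Pool.Agent.Lib.MP_132c47_lc.AP

/-! Block ST: rational points of the chart. -/

namespace Pool.Agent.Lib.MP_132c47_lc

variable {Ω : Type} [Field Ω] {Γ₀ : Type} [LinearOrderedCommGroupWithZero Γ₀]
  {v : Valuation Ω Γ₀} {G : Type} [Group G] [MulSemiringAction G Ω] {p : ℕ} [Fact p.Prime]

theorem step [IsAlgClosed Ω] [CharZero Ω] (hA : Act v G) {M : Subfield Ω} (hM : ACl M)
    (hG : ∀ g : G, ∀ x ∈ M, g • x ∈ M) (Y : Finset Ω) (hY : ∀ y ∈ Y, ∀ g : G, g • y = y)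
    {z b : Ω} {μ : Polynomial Ω} (hc : Chart v G M Y z b μ) :
    ∃ T : Finset Ω, (∀ x ∈ T, x ∈ M) ∧ ∀ (E : Type) [NormedField E] [IsUltrametricDist E]
      [CompleteSpace E] [CharZero E] (H : Type) [Group H] [Fintype H] [MulSemiringAction H E]
      [FaithfulSMul H E] (_ : Tgt p E H) (A : Subring Ω) (ι : Ω → E) (γ : H → G),
      IsPH A ι → (∀ x ∈ A, x ∈ M) → (∀ x ∈ T, x ∈ A) → (∀ g : G, ∀ x ∈ A, g • x ∈ A) →
      Resp v T ι → (∀ τ, ∀ x ∈ A, τ • ι x = ι (γ τ • x)) →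
      (∀ τ τ', ∀ x ∈ T, γ (τ * τ') • x = γ τ • γ τ' • x) → (∀ x ∈ T, γ 1 • x = x) →
      ∃ φ : Ω → E, IsPH (Subring.closure (Y : Set Ω)) φ ∧ (∀ y ∈ Y, ∀ τ : H, τ • φ y = φ y) ∧
        Resp v Y φ :=
  (step_of (p := p) hA hM hG Y hY hc).imp fun _ h => ⟨h.1, fun E _ _ _ _ H _ _ _ _ hE =>
    h.2 E H hE (fun _ _ => hE.dense) fun _ => hE.trace⟩

end Pool.Agent.Lib.MP_132c47_lc
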