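import Pool.Agent.Lib.MP_132c47_lc.GS
import Pool.Agent.Lib.MP_132c47_lc.CY
import Pool.Agent.Lib.MP_132c47_lc.BS
import Pool.Agent.Lib.MP_132c47_lc.MD
import Pool.Agent.Lib.MP_132c47_lc.CH
import Pool.Agent.Lib.MP_132c47_lc.ST

/-! The main induction and the transfer theorems. -/

namespace Pool.Agent.Lib.MP_132c47_lc

open Polynomial

set_option linter.unusedSectionVars false

section Main
variable {Ω : Type} [Field Ω] {Γ₀ : Type} [LinearOrderedCommGroupWithZero Γ₀]
  {v : Valuation Ω Γ₀} {G : Type} [Group G] [MulSemiringAction G Ω]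
  {C : Type} [NormedField C] [IsUltrametricDist C] [CompleteSpace C] [IsAlgClosed C] [CharZero C]
  {p : ℕ} [Fact p.Prime]

namespace MN

theorem alg_int [CharZero Ω] {y : Ω} (hy : y ∈ acl (Subfield.closure (∅ : Set Ω))) :
    IsAlgebraic ℤ y := by
  obtain ⟨f, hf, hc, h0⟩ := isAlgebraic_iff.1 (mem_acl.1 hy)
  rw [Subfield.closure_empty, Subfield.bot_eq_of_charZero] at hc
  obtain ⟨g, rfl⟩ := (mem_lifts f).1 ((lifts_iff_coeff_lifts (f := algebraMap ℚ Ω) f).2 hc)
  refine (IsFractionRing.isAlgebraic_iff ℤ ℚ Ω).2 ⟨g, ?_, ?_⟩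
  · rintro rfl
    exact hf.ne_zero (Polynomial.map_zero _)
  · rw [aeval_def, ← eval_map, h0]

theorem stable {S : Set Ω} (hS : ∀ s ∈ S, ∀ g : G, g • s = s) (g : G) :
    ∀ x ∈ acl (Subfield.closure S), g • x ∈ acl (Subfield.closure S) := by
  intro x hx
  obtain ⟨f, hf, hc, h0⟩ := isAlgebraic_iff.1 (mem_acl.1 hx)
  have hle : Subfield.closure S ≤ FixedPoints.subfield G Ω :=
    Subfield.closure_le.2 fun s hs g => hS s hs g
  refine mem_acl.2 (isAlgebraic_iff.2 ⟨f, hf, hc, ?_⟩)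
  rw [GS.smul_eval fun i => hle (hc i) g, h0, smul_zero]

theorem countable (S : Finset Ω) : (Subfield.closure (S : Set Ω) : Set Ω).Countable := by
  rw [← Cardinal.le_aleph0_iff_set_countable]
  refine (Subfield.cardinalMk_closure_le_max (S : Set Ω)).trans (max_le ?_ le_rfl)
  exact Cardinal.le_aleph0_iff_set_countable.2 S.countable_toSet

theorem ind [IsAlgClosed Ω] [CharZero Ω] (hS : Setting v p G) (hC : CRes p C) (S : Finset Ω) :
    (∀ s ∈ S, ∀ g : G, g • s = s) → ∀ Y : Finset Ω,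
      (∀ y ∈ Y, y ∈ acl (Subfield.closure (S : Set Ω)) ∧ ∀ g : G, g • y = y) →
      Spec v (Kz C) Y := by
  classical
  induction S using Finset.induction_on with
  | empty =>
    intro _ Y hY
    refine base hS hC Y fun y hy => ⟨(hY y hy).2, alg_int ?_⟩
    simpa using (hY y hy).1
  | insert w S _ ih =>
    intro hfix Y hY
    have hfix' : ∀ s ∈ S, ∀ g : G, g • s = s := fun s hs => hfix s (Finset.mem_insert_of_mem hs)
    have IH := ih hfix'
    set M := acl (Subfield.closure (S : Set Ω)) with hMdef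
    have hSM : ∀ s ∈ S, s ∈ M := fun s hs => le_acl _ (Subfield.subset_closure hs)
    by_cases hw : w ∈ M
    · have hle : Subfield.closure ((insert w S : Finset Ω) : Set Ω) ≤ M := by
        rw [Subfield.closure_le]
        intro s hs
        rcases Finset.mem_insert.1 hs with rfl | hs
        · exact hw
        · exact hSM s hs
      exact IH Y fun y hy => ⟨acl_le_acl hle (hY y hy).1, (hY y hy).2⟩
    · have hM : ACl M := acl_acl _
      have hG : ∀ g : G, ∀ x ∈ M, g • x ∈ M := stable hfix'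
      have hle : Subfield.closure ((insert w S : Finset Ω) : Set Ω) ≤ Adj M {w} := by
        rw [Subfield.closure_le]
        intro s hs
        rcases Finset.mem_insert.1 hs with rfl | hs
        · exact mem_Adj M rfl
        · exact le_Adj M _ (hSM s hs)
      have hY' : ∀ y ∈ insert w Y, ∀ g : G, g • y = y := by
        intro y hy
        rcases Finset.mem_insert.1 hy with rfl | hy
        · exact hfix _ (Finset.mem_insert_self _ _)
        · exact (hY y hy).2
      have halg : ∀ y ∈ insert w Y, IsAlgebraic (Adj M {w}) y := by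
        intro y hy
        rcases Finset.mem_insert.1 hy with rfl | hy
        · exact mem_acl.1 (le_acl _ (mem_Adj M rfl))
        · exact mem_acl.1 (acl_mono hle (hY y hy).1)
      obtain ⟨z, b, μ, hc⟩ := exists_chart hS.toAct hM (acl_countable (countable S)) hG
        (insert w Y) hw (Finset.mem_insert_self _ _) hY' halg
      obtain ⟨T, hT, hst⟩ := step (p := p) hS.toAct hM hG (insert w Y) hY' hc
      obtain ⟨K₁, _, _, A, ι, γ, h1, h2, h3, h4, h5, h6, h7, h8⟩ :=
        galSpec hS.toAct (Kz C) hG IH T hT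
      have := complete_of_finite hC.vp K₁
      obtain ⟨φ, g1, g2, g3⟩ := hst K₁ (K₁ ≃ₐ[Kz C] K₁) (tgt_of_galois hC K₁) A ι γ
        h1 h2 h3 h4 h5 h6 h7 h8
      have hsub : Subring.closure (Y : Set Ω) ≤ Subring.closure ((insert w Y : Finset Ω) : Set Ω) :=
        Subring.closure_mono (Finset.coe_subset.2 (Finset.subset_insert _ _))
      have g1' := g1.mono hsub
      refine ⟨fun y => (φ y : C), ⟨?_, ?_, ?_⟩, ?_, ?_⟩
      · simp only [g1'.one]; rfl
      · intro x hx y hy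
        simp only [g1'.add x hx y hy]; rfl
      · intro x hx y hy
        simp only [g1'.mul x hx y hy]; rfl
      · intro y hy
        obtain ⟨c, hc⟩ := (IsGalois.mem_range_algebraMap_iff_fixed (F := Kz C) (φ y)).2
          (g2 y (Finset.mem_insert_of_mem hy))
        simp only [← hc]
        exact c.2
      · intro y hy
        exact g3 y (Finset.mem_coe.2 (Finset.mem_insert_of_mem hy))

end MN

theorem main [IsAlgClosed Ω] [CharZero Ω] (hS : Setting v p G) (hC : CRes p C) (Y : Finset Ω)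
    (hY : ∀ y ∈ Y, ∀ g : G, g • y = y) : Spec v (Kz C) Y :=
  MN.ind hS hC Y hY Y fun y hy => ⟨le_acl _ (Subfield.subset_closure hy), hY y hy⟩

theorem transfer {L : Type} [Field L] {O : ValuationSubring L} (h : Model p O) (hC : CRes p C)
    (Y : Finset L) : Spec O.valuation (Kz C) Y := by
  classical
  have : CharZero L := charZero_of_inj_zero fun n hn => by
    by_contra h0
    exact h.char n (Nat.pos_of_ne_zero h0) hn
  obtain ⟨W, hS, hW⟩ := h.setting Y
  obtain ⟨φ, h1, h2, h3⟩ := main hS hC (Y.image (algebraMap L (AlgebraicClosure L))) (by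
    intro y hy g
    obtain ⟨c, -, rfl⟩ := Finset.mem_image.1 hy
    exact g.commutes c)
  have hm : ∀ x ∈ Subring.closure (Y : Set L), algebraMap L (AlgebraicClosure L) x ∈
      Subring.closure ((Y.image (algebraMap L (AlgebraicClosure L)) : Finset _) : Set _) := by
    intro x hx
    rw [Finset.coe_image, ← RingHom.map_closure]
    exact ⟨x, hx, rfl⟩
  have hy' : ∀ y ∈ (Y : Set L), algebraMap L (AlgebraicClosure L) y ∈
      ((Y.image (algebraMap L (AlgebraicClosure L)) : Finset _) : Set _) := fun y hy =>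
    Finset.mem_coe.2 (Finset.mem_image_of_mem _ hy)
  refine ⟨fun y => φ (algebraMap L _ y), ⟨?_, ?_, ?_⟩, fun y hy => h2 _ (hy' y hy), ?_⟩
  · simp only [map_one, h1.one]
  · intro x hx y hy
    simp only [map_add, h1.add _ (hm x hx) _ (hm y hy)]
  · intro x hx y hy
    simp only [map_mul, h1.mul _ (hm x hx) _ (hm y hy)]
  · intro y hy
    exact ⟨fun e => (h3 _ (hy' y hy)).1 ((hW y hy).1 ((O.valuation_le_one_iff y).1 e)),
      fun e => (h3 _ (hy' y hy)).2 ((hW y hy).2 e)⟩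

namespace MN

theorem bd (t : Tm) : ∃ B : ℕ, ∀ (R : Type) [CommRing R] (x x' : ℕ → R),
    (∀ i < B, x' i = x i) → t.val x' = t.val x := by
  induction t with
  | var i => exact ⟨i + 1, fun R _ x x' h => h i (Nat.lt_succ_self i)⟩
  | zero => exact ⟨0, fun R _ x x' _ => rfl⟩
  | one => exact ⟨0, fun R _ x x' _ => rfl⟩
  | neg t ih =>
    obtain ⟨B, hB⟩ := ih
    exact ⟨B, fun R _ x x' h => by simp only [Tm.val, hB R x x' h]⟩
  | add s t ih ih' =>
    obtain ⟨B, hB⟩ := ih
    obtain ⟨B', hB'⟩ := ih'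
    exact ⟨max B B', fun R _ x x' h => by
      simp only [Tm.val, hB R x x' fun i hi => h i (lt_max_of_lt_left hi),
        hB' R x x' fun i hi => h i (lt_max_of_lt_right hi)]⟩
  | mul s t ih ih' =>
    obtain ⟨B, hB⟩ := ih
    obtain ⟨B', hB'⟩ := ih'
    exact ⟨max B B', fun R _ x x' h => by
      simp only [Tm.val, hB R x x' fun i hi => h i (lt_max_of_lt_left hi),
        hB' R x x' fun i hi => h i (lt_max_of_lt_right hi)]⟩

theorem bd_list (l : List (Tm × Tm)) : ∃ B : ℕ, ∀ (R : Type) [CommRing R] (x x' : ℕ → R),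
    (∀ i < B, x' i = x i) → ∀ e ∈ l, e.1.val x' - e.2.val x' = e.1.val x - e.2.val x := by
  induction l with
  | nil => exact ⟨0, fun R _ x x' _ e he => by simp at he⟩
  | cons a l ih =>
    obtain ⟨B, hB⟩ := ih
    obtain ⟨B₁, h₁⟩ := bd a.1
    obtain ⟨B₂, h₂⟩ := bd a.2
    refine ⟨max B (max B₁ B₂), fun R _ x x' h e he => ?_⟩
    rcases List.mem_cons.1 he with rfl | he
    · rw [h₁ R x x' fun i hi => h i (by omega), h₂ R x x' fun i hi => h i (by omega)]
    · exact hB R x x' (fun i hi => h i (by omega)) e he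

/-- An assignment can be replaced by one with finite range. -/
theorem trunc (l : List (Tm × Tm)) {R : Type} [CommRing R] (x : ℕ → R) : ∃ x' : ℕ → R,
    (Set.range x').Finite ∧ (∀ i, x' i = x i ∨ x' i = 0) ∧
    ∀ e ∈ l, e.1.val x' - e.2.val x' = e.1.val x - e.2.val x := by
  obtain ⟨B, hB⟩ := bd_list l
  refine ⟨fun i => if i < B then x i else 0, ?_, fun i => ?_, hB R x _ fun i hi => if_pos hi⟩
  · refine (((Set.finite_Iio B).image x).insert 0).subset ?_
    rintro _ ⟨i, rfl⟩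
    by_cases hi : i < B
    · exact Or.inr ⟨i, hi, (if_pos hi).symm⟩
    · exact Or.inl (if_neg hi)
  · by_cases hi : i < B
    · exact Or.inl (if_pos hi)
    · exact Or.inr (if_neg hi)

theorem lip {x y : ℕ → C} {ε : ℝ} (hε : 0 ≤ ε) (hx : ∀ i, ‖x i‖ ≤ 1) (hy : ∀ i, ‖y i‖ ≤ 1)
    (h : ∀ i, ‖x i - y i‖ ≤ ε) (t : Tm) :
    ‖t.val x‖ ≤ 1 ∧ ‖t.val y‖ ≤ 1 ∧ ‖t.val x - t.val y‖ ≤ ε := by
  induction t with
  | var i => exact ⟨hx i, hy i, h i⟩
  | zero => simp [Tm.val, hε]
  | one => simp [Tm.val, hε]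
  | neg t ih =>
    simp only [Tm.val, norm_neg]
    refine ⟨ih.1, ih.2.1, ?_⟩
    rw [show -t.val x - -t.val y = -(t.val x - t.val y) by ring, norm_neg]
    exact ih.2.2
  | add s t ih ih' =>
    simp only [Tm.val]
    refine ⟨(IsUltrametricDist.norm_add_le_max _ _).trans (max_le ih.1 ih'.1),
      (IsUltrametricDist.norm_add_le_max _ _).trans (max_le ih.2.1 ih'.2.1), ?_⟩
    rw [show s.val x + t.val x - (s.val y + t.val y) =
      (s.val x - s.val y) + (t.val x - t.val y) by ring]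
    exact (IsUltrametricDist.norm_add_le_max _ _).trans (max_le ih.2.2 ih'.2.2)
  | mul s t ih ih' =>
    simp only [Tm.val, norm_mul]
    refine ⟨mul_le_one₀ ih.1 (norm_nonneg _) ih'.1, mul_le_one₀ ih.2.1 (norm_nonneg _) ih'.2.1, ?_⟩
    rw [show s.val x * t.val x - s.val y * t.val y =
      s.val x * (t.val x - t.val y) + (s.val x - s.val y) * t.val y by ring]
    refine (IsUltrametricDist.norm_add_le_max _ _).trans (max_le ?_ ?_)
    · rw [norm_mul]
      exact (mul_le_of_le_one_left (norm_nonneg _) ih.1).trans ih'.2.2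
    · rw [norm_mul]
      exact (mul_le_of_le_one_right (norm_nonneg _) ih'.2.1).trans ih.2.2

theorem lip_le {x y : ℕ → C} {ε : ℝ} (hε : 0 ≤ ε) (hx : ∀ i, ‖x i‖ ≤ 1) (hy : ∀ i, ‖y i‖ ≤ 1)
    (h : ∀ i, ‖x i - y i‖ ≤ ε) (e : Tm × Tm) (he : ‖e.1.val y - e.2.val y‖ ≤ ε) :
    ‖e.1.val x - e.2.val x‖ ≤ ε := by
  rw [show e.1.val x - e.2.val x = (e.1.val x - e.1.val y) + (e.1.val y - e.2.val y) +
    -(e.2.val x - e.2.val y) by ring]
  refine (IsUltrametricDist.norm_add_le_max _ _).trans (max_le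
    ((IsUltrametricDist.norm_add_le_max _ _).trans (max_le (lip hε hx hy h e.1).2.2 he)) ?_)
  rw [norm_neg]
  exact (lip hε hx hy h e.2).2.2

variable {L : Type} [Field L] {O : ValuationSubring L} {Y : Set L} {φ : L → C} {n : ℕ}

theorem le_of_mem (h : IsPH (Subring.closure Y) φ) (hr : Resp O.valuation Y φ) (hn : (n : L) ≠ 0)
    {d : L} (hY : d / n ∈ Y) (hO : d / n ∈ O) : ‖φ d‖ ≤ ‖(n : C)‖ := by
  have e := h.mul _ (Subring.subset_closure hY) n (natCast_mem _ n)
  rw [div_mul_cancel₀ d hn, h.natCast] at e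
  rw [e, norm_mul]
  exact mul_le_of_le_one_left (norm_nonneg _) ((hr _ hY).1 ((O.valuation_le_one_iff _).2 hO))

theorem lt_of_not_mem (h : IsPH (Subring.closure Y) φ) (hr : Resp O.valuation Y φ) (hn : 0 < n)
    {d : L} (hd : d ∈ Subring.closure Y) (hY : (d / n)⁻¹ ∈ Y) (hO : d / n ∉ O) :
    ‖(n : C)‖ < ‖φ d‖ := by
  have h0 : d / n ≠ 0 := fun e => hO (e ▸ O.zero_mem)
  have hd0 : d ≠ 0 := fun e => h0 (by rw [e, zero_div])
  have e := h.mul _ (Subring.subset_closure hY) d hd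
  rw [inv_div, div_mul_cancel₀ _ hd0, h.natCast, ← inv_div] at e
  have h1 : O.valuation (d / n)⁻¹ < 1 := by
    rw [map_inv₀]
    exact inv_lt_one_of_one_lt₀ (not_le.1 fun h => hO ((O.valuation_le_one_iff _).1 h))
  have h2 := (hr _ hY).2 h1
  have h3 : φ d ≠ 0 := fun h => (Nat.cast_ne_zero.2 hn.ne' : (n : C) ≠ 0) (by rw [e, h, mul_zero])
  rw [e, norm_mul]
  exact mul_lt_of_lt_one_left (norm_pos_iff.2 h3) h2

theorem val_sub (h : IsPH (Subring.closure Y) φ) {x : ℕ → L} (hx : ∀ i, x i ∈ Subring.closure Y)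
    (e : Tm × Tm) : e.1.val x - e.2.val x ∈ Subring.closure Y ∧
      φ (e.1.val x - e.2.val x) = (e.1.val fun i => φ (x i)) - e.2.val fun i => φ (x i) :=
  ⟨sub_mem (h.tm hx e.1).1 (h.tm hx e.2).1, by
    rw [h.sub (h.tm hx e.1).1 (h.tm hx e.2).1, (h.tm hx e.1).2, (h.tm hx e.2).2]⟩

theorem transfer_set (h : Model p O) (hC : CRes p C) (hY : Y.Finite) :
    Spec O.valuation (Kz C) Y := by
  lift Y to Finset L using hY
  exact transfer h hC Y

end MN

theorem locV_iff {L : Type} [Field L] {O : ValuationSubring L} (h : Model p O) (hC : CRes p C)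
    {n : ℕ} (hn : 0 < n) (eqs : List (Tm × Tm)) (ne : Tm × Tm) :
    LocV O n eqs ne ↔ Loc C n eqs ne := by
  have hnL := h.char n hn
  have hnC : 0 < ‖(n : C)‖ := norm_pos_iff.2 (Nat.cast_ne_zero.2 hn.ne')
  constructor
  · rintro ⟨x₀, hx₀, he₀, hne₀⟩
    obtain ⟨x, hfin, hx, hxe⟩ := MN.trunc (ne :: eqs) x₀
    have hxO : ∀ i, x i ∈ O := fun i => by
      rcases hx i with e | e
      · rw [e]; exact hx₀ i
      · rw [e]; exact O.zero_mem
    have he : ∀ e ∈ eqs, (e.1.val x - e.2.val x) / n ∈ O := fun e he' => by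
      rw [hxe e (List.mem_cons_of_mem _ he')]; exact he₀ e he'
    have hne : (ne.1.val x - ne.2.val x) / n ∉ O := by
      rw [hxe ne List.mem_cons_self]; exact hne₀
    obtain ⟨φ, h1, h2, h3⟩ := MN.transfer_set (C := C) h hC
      (Y := Set.range x ∪ ((fun e : Tm × Tm => (e.1.val x - e.2.val x) / n) '' {e | e ∈ eqs} ∪
        {((ne.1.val x - ne.2.val x) / n)⁻¹}))
      (hfin.union (((List.finite_toSet eqs).image _).union (Set.finite_singleton _)))
    have hxY : ∀ i, x i ∈ Subring.closure (Set.range x ∪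
        ((fun e : Tm × Tm => (e.1.val x - e.2.val x) / n) '' {e | e ∈ eqs} ∪
          {((ne.1.val x - ne.2.val x) / n)⁻¹})) := fun i =>
      Subring.subset_closure (Or.inl ⟨i, rfl⟩)
    have hy1 : ∀ i, ‖φ (x i)‖ ≤ 1 := fun i =>
      (h3 _ (Or.inl ⟨i, rfl⟩)).1 ((O.valuation_le_one_iff _).2 (hxO i))
    choose r hr hr' using fun i => Kz_dense hC.vp (h2 _ (Or.inl ⟨i, rfl⟩)) (hy1 i) hnC
    have hr1 : ∀ i, ‖r i‖ ≤ 1 := fun i => norm_le_one_of_mem_Rall (hr i)
    refine ⟨r, hr, fun e he' => ?_, ?_⟩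
    · refine MN.lip_le hnC.le hr1 hy1 (fun i => by rw [norm_sub_rev]; exact (hr' i).le) e ?_
      rw [← (MN.val_sub h1 hxY e).2]
      exact MN.le_of_mem h1 h3 hnL (Or.inr (Or.inl ⟨e, he', rfl⟩)) (he e he')
    · refine not_le.1 fun hle => ?_
      have h4 := MN.lip_le hnC.le hy1 hr1 (fun i => (hr' i).le) ne hle
      rw [← (MN.val_sub h1 hxY ne).2] at h4
      exact (MN.lt_of_not_mem h1 h3 hn (MN.val_sub h1 hxY ne).1 (Or.inr (Or.inr rfl)) hne).not_ge h4
  · rintro ⟨x₀, hx₀, he₀, hne₀⟩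
    obtain ⟨x, hfin, hx, hxe⟩ := MN.trunc (ne :: eqs) x₀
    have hxR : ∀ i, x i ∈ Rall C := fun i => by
      rcases hx i with e | e
      · rw [e]; exact hx₀ i
      · rw [e]; exact zero_mem _
    obtain ⟨M, hM, -, hlev⟩ := exists_level hfin.toFinset (fun y hy => by
      obtain ⟨i, rfl⟩ := hfin.mem_toFinset.1 hy
      exact hxR i) one_pos
    have : NeZero ((M : ℕ) : C) := ⟨Nat.cast_ne_zero.2 hM.ne'⟩
    have : NeZero M := ⟨hM.ne'⟩
    obtain ⟨ξ, hξ⟩ := HasEnoughRootsOfUnity.exists_primitiveRoot C M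
    choose a ha using fun i =>
      (mem_Rmu_iff hξ hM).1 (hlev (x i) (hfin.mem_toFinset.2 ⟨i, rfl⟩))
    obtain ⟨ζ, hζ⟩ := h.mu M hM
    let X : ℕ → ℕ → L := fun c i => ∑ j ∈ Finset.range M, (a i j : L) * (ζ ^ c) ^ j
    obtain ⟨Y, hYf, hY1, hY2, hY3, hY4⟩ : ∃ Y : Set L, Y.Finite ∧ ζ ∈ Y ∧
        (∀ i < M, (ζ ^ i - 1)⁻¹ ∈ Y) ∧
        (∀ c < M, ∀ e ∈ eqs, ((e.1.val (X c) - e.2.val (X c)) / n)⁻¹ ∈ Y) ∧
        ∀ c < M, (ne.1.val (X c) - ne.2.val (X c)) / n ∈ Y := by
      refine ⟨insert ζ ((fun i => (ζ ^ i - 1)⁻¹) '' Set.Iio M ∪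
        ((fun q : ℕ × Tm × Tm => ((q.2.1.val (X q.1) - q.2.2.val (X q.1)) / n)⁻¹) ''
          (Set.Iio M ×ˢ {e | e ∈ eqs}) ∪
        (fun c => (ne.1.val (X c) - ne.2.val (X c)) / n) '' Set.Iio M)), ?_, Or.inl rfl,
        fun i hi => Or.inr (Or.inl ⟨i, hi, rfl⟩),
        fun c hc e he => Or.inr (Or.inr (Or.inl ⟨(c, e), ⟨hc, he⟩, rfl⟩)),
        fun c hc => Or.inr (Or.inr (Or.inr ⟨c, hc, rfl⟩))⟩
      exact (((Set.finite_Iio M).image _).union
        ((((Set.finite_Iio M).prod (List.finite_toSet eqs)).image _).union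
          ((Set.finite_Iio M).image _))).insert ζ
    obtain ⟨φ, h1, -, h3⟩ := MN.transfer_set (C := C) h hC hYf
    have hζY : ζ ∈ Subring.closure Y := Subring.subset_closure hY1
    have hprim : IsPrimitiveRoot (φ ζ) M := by
      refine IsPrimitiveRoot.mk_of_lt _ hM (by rw [← h1.pow hζY, hζ.pow_eq_one, h1.one]) ?_
      intro l hl hlM e
      have hmem : ζ ^ l - 1 ∈ Subring.closure Y := sub_mem (pow_mem hζY l) (one_mem _)
      refine h1.ne_zero (sub_ne_zero.2 (hζ.pow_ne_one_of_pos_of_lt hl.ne' hlM)) hmem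
        (Subring.subset_closure (hY2 l hlM)) ?_
      rw [h1.sub (pow_mem hζY l) (one_mem _), h1.pow hζY, h1.one, e, sub_self]
    obtain ⟨c, hc, hcξ⟩ := hprim.eq_pow_of_pow_eq_one hξ.pow_eq_one
    have hterm : ∀ (B : Subring L), ζ ∈ B → ∀ i, ∀ j ∈ Finset.range M,
        (a i j : L) * (ζ ^ c) ^ j ∈ B := fun B hB i j _ =>
      mul_mem (intCast_mem _ _) (pow_mem (pow_mem hB c) j)
    have hXY : ∀ i, X c i ∈ Subring.closure Y := fun i => sum_mem (hterm _ hζY i)
    have hφX : (fun i => φ (X c i)) = x := by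
      funext i
      rw [ha i, h1.sum _ _ (hterm _ hζY i)]
      refine Finset.sum_congr rfl fun j _ => ?_
      rw [h1.mul _ (intCast_mem _ _) _ (pow_mem (pow_mem hζY c) j), h1.intCast,
        h1.pow (pow_mem hζY c), h1.pow hζY, hcξ]
    have hζO : ζ ∈ O := by
      rw [← O.valuation_le_one_iff]
      have e := congrArg O.valuation hζ.pow_eq_one
      rw [map_pow, map_one] at e
      exact ((pow_eq_one_iff_left hM.ne').1 e).le
    refine ⟨X c, fun i => sum_mem (hterm O.toSubring hζO i), fun e he => ?_, fun hO => ?_⟩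
    · by_contra hO
      have h4 := MN.lt_of_not_mem h1 h3 hn (MN.val_sub h1 hXY e).1 (hY3 c hc e he) hO
      rw [(MN.val_sub h1 hXY e).2, hφX, hxe e (List.mem_cons_of_mem _ he)] at h4
      exact h4.not_ge (he₀ e he)
    · have h4 := MN.le_of_mem h1 h3 hnL (hY4 c hc) hO
      rw [(MN.val_sub h1 hXY ne).2, hφX, hxe ne List.mem_cons_self] at h4
      exact hne₀.not_ge h4

end Main

end Pool.Agent.Lib.MP_132c47_lc
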