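import Pool.Agent.Lib.MP_132c47_lc.FN0
import Pool.Agent.Lib.MP_132c47_lc.MN
import Pool.Agent.Lib.MP_132c47_lc.AL
import Pool.Agent.Lib.MP_132c47_lc.LG
import Pool.Agent.Lib.MP_132c47_lc.GL

/-! Block FN: assembly. -/

namespace Pool.Agent.Lib.MP_132c47_lc

open Pool.Agent.Lib.MP_a1ec0a_al

theorem s1_locP {p n : ℕ} (hp : p.Prime) (hn : 0 < n) :
    (S1 fun x : List (ℕ × ℕ) × ℕ × ℕ => LocP p n (x.1.map decE) (decE x.2)) ∧
    S1 fun x : List (ℕ × ℕ) × ℕ × ℕ => ¬ LocP p n (x.1.map decE) (decE x.2) := by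
  have := Fact.mk hp
  have hC : CRes p (PadicComplex p) := cres_padic
  refine ⟨(s1_locV p n hp.pos hn).congr fun x => ⟨fun h => ?_, fun h L _ O hO => ?_⟩,
    (s1_not_locV p n hp.pos hn).congr fun x => ⟨fun h h' => ?_, fun h L _ O hO h' => ?_⟩⟩
  · exact ⟨hp, (locV_iff (std_model hC) hC hn _ _).1 (h _ _ (std_model hC))⟩
  · exact (locV_iff hO hC hn _ _).2 h.2
  · exact h _ _ (std_model hC) ((locV_iff (std_model hC) hC hn _ _).2 h'.2)
  · exact h ⟨hp, (locV_iff hO hC hn _ _).1 h'⟩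

theorem decidable_exists {n : ℕ} (hn : 0 < n) : ComputablePred fun c : ℕ => ∃ φ : QF, φ.code = c ∧
    ∃ x : ℕ → Zab ⧸ Ideal.span {(n : Zab)}, φ.Sat x :=
  FN.decidable_of n.primeFactors (fun p => LocP p n)
    (fun _ hp => s1_locP (Nat.prime_of_mem_primeFactors hp) hn) (global_iff hn)

end Pool.Agent.Lib.MP_132c47_lc
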