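import Pool.Agent.Lib.MP_132c47_lc.Defs3
import Pool.Agent.Lib.MP_a1ec0a_al.S1

/-! Block FN, first part: disjunctive normal forms of codes and the computability assembly. -/

namespace Pool.Agent.Lib.MP_132c47_lc

open Pool.Agent.Lib.MP_a1ec0a_al

namespace FN

section Kit
variable {α β : Type} [Primcodable α] [Primcodable β]

@[fun_prop] theorem pr_unpair {f : α → ℕ} (hf : PR f) : PR fun a => (f a).unpair :=
  Primrec.unpair.comp hf

/-- Course-of-values recursion. -/
def cv (G : ℕ → List β → β) (n : ℕ) : β :=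
  G n ((List.range n).attach.map fun m => cv G m.1)
termination_by n
decreasing_by exact List.mem_range.1 m.2

omit [Primcodable β] in
theorem cv_eq (G : ℕ → List β → β) (n : ℕ) : cv G n = G n ((List.range n).map (cv G)) := by
  rw [cv]; simp

theorem pr_cv {G : ℕ → List β → β} (hG : PR fun p : ℕ × List β => G p.1 p.2) : PR (cv G) := by
  have h : Primrec₂ fun (_ : Unit) (n : ℕ) => cv G n := by
    refine Primrec.nat_strong_rec (fun (_ : Unit) n => cv G n)
      (g := fun _ L => some (G L.length L)) ?_ fun _ n => ?_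
    · exact Primrec.option_some.comp (Primrec.comp hG
        ((Primrec.list_length.comp Primrec.snd).pair Primrec.snd))
    · rw [cv_eq G n]; simp
  exact h.comp (Primrec.const ()) Primrec.id

omit [Primcodable β] in
theorem getD_range (f : ℕ → β) {n m : ℕ} (h : m < n) (d : β) :
    ((List.range n).map f).getD m d = f m := by
  simp [List.getD_eq_getElem?_getD, h]

/-- Both the predicate and its negation are recursively enumerable. -/
def D1 (p : α → Prop) : Prop := S1 p ∧ S1 fun a => ¬ p a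

theorem D1.congr {p q : α → Prop} (hp : D1 p) (h : ∀ a, p a ↔ q a) : D1 q :=
  ⟨hp.1.congr h, hp.2.congr fun a => not_congr (h a)⟩

theorem D1.comp {p : β → Prop} {g : α → β} (hp : D1 p) (hg : PR g) : D1 fun a => p (g a) :=
  ⟨hp.1.comp hg, hp.2.comp hg⟩

theorem D1.not {p : α → Prop} (hp : D1 p) : D1 fun a => ¬ p a :=
  ⟨hp.2, hp.1.congr fun _ => not_not.symm⟩

theorem D1.and {p q : α → Prop} (hp : D1 p) (hq : D1 q) : D1 fun a => p a ∧ q a :=
  ⟨hp.1.and hq.1, (hp.2.or hq.2).congr fun _ => not_and_or.symm⟩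

theorem D1.bool {b : α → Bool} (hb : PR b) : D1 fun a => b a = true :=
  ⟨S1.eq hb (PR.const true), (S1.eq hb (PR.const false)).congr fun _ => by simp⟩

theorem D1.all {p : α → β → Prop} {l : α → List β} (hp : D1 fun x : α × β => p x.1 x.2)
    (hl : PR l) : D1 fun a => ∀ x ∈ l a, p a x := by
  classical
  refine ⟨S1.all hp.1 hl, ?_⟩
  have h1 : S1 fun x : α × β => ((l x.1).any fun y => y == x.2) = true :=
    S1.eq (by fun_prop) (PR.const true)
  refine (S1.ex (p := fun a x => ((l a).any fun y => y == x) = true ∧ ¬ p a x)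
    (h1.and hp.2)).congr fun a => ?_
  simp

theorem D1.ex {p : α → β → Prop} {l : α → List β} (hp : D1 fun x : α × β => p x.1 x.2)
    (hl : PR l) : D1 fun a => ∃ x ∈ l a, p a x :=
  (D1.all (p := fun a x => ¬ p a x) hp.not hl).not.congr fun a => by simp

theorem D1.fall {ι : Type} (s : Finset ι) {p : ι → α → Prop} (hp : ∀ i ∈ s, D1 (p i)) :
    D1 fun a => ∀ i ∈ s, p i a := by
  classical
  induction s using Finset.induction_on with
  | empty => exact (D1.bool (PR.const true)).congr fun a => by simp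
  | insert i s _ ih =>
    exact ((hp i (Finset.mem_insert_self _ _)).and
      (ih fun j hj => hp j (Finset.mem_insert_of_mem hj))).congr fun a => by simp

theorem D1.fex {ι : Type} (s : Finset ι) {p : ι → α → Prop} (hp : ∀ i ∈ s, D1 (p i)) :
    D1 fun a => ∃ i ∈ s, p i a :=
  (D1.fall s (p := fun i a => ¬ p i a) fun i hi => (hp i hi).not).not.congr fun a => by simp

theorem D1.computable {p : α → Prop} (hp : D1 p) : ComputablePred p := by
  classical
  exact ComputablePred.computable_iff_re_compl_re.2 ⟨hp.1.re, hp.2.re⟩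

end Kit

theorem lt_pair {a : ℕ} (ha : a ≠ 0) (b : ℕ) : b < Nat.pair a b :=
  (Nat.right_le_pair 0 b).trans_lt (Nat.pair_lt_pair_left b (Nat.pos_of_ne_zero ha))

theorem lt_pair1 {a : ℕ} (ha : a ≠ 0) (b c : ℕ) : b < Nat.pair a (Nat.pair b c) :=
  (Nat.left_le_pair b c).trans_lt (lt_pair ha _)

theorem lt_pair2 {a : ℕ} (ha : a ≠ 0) (b c : ℕ) : c < Nat.pair a (Nat.pair b c) :=
  (Nat.right_le_pair b c).trans_lt (lt_pair ha _)

theorem decT_code (t : Tm) : decT t.code = t := by
  induction t with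
  | var i => rw [decT]; simp [Tm.code]
  | zero => rw [decT]; simp [Tm.code]
  | one => rw [decT]; simp [Tm.code]
  | neg t ih => rw [decT]; simp [Tm.code, ih]
  | add s t ihs iht => rw [decT]; simp [Tm.code, ihs, iht]
  | mul s t ihs iht => rw [decT]; simp [Tm.code, ihs, iht]

/-- Step of the recognition of term codes. -/
def gT (n : ℕ) (L : List Bool) : Bool :=
  bif n.unpair.1 == 0 then true
  else bif n.unpair.1 == 1 then n.unpair.2 == 0
  else bif n.unpair.1 == 2 then n.unpair.2 == 0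
  else bif n.unpair.1 == 3 then L.getD n.unpair.2 false
  else bif n.unpair.1 == 4 then L.getD n.unpair.2.unpair.1 false && L.getD n.unpair.2.unpair.2 false
  else bif n.unpair.1 == 5 then L.getD n.unpair.2.unpair.1 false && L.getD n.unpair.2.unpair.2 false
  else false

/-- Recognition of term codes. -/
def iT : ℕ → Bool := cv gT

theorem pr_iT : PR iT := pr_cv (by unfold gT; fun_prop)

/-- Step of the recognition of formula codes. -/
def gF (n : ℕ) (L : List Bool) : Bool :=
  bif n.unpair.1 == 0 then iT n.unpair.2.unpair.1 && iT n.unpair.2.unpair.2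
  else bif n.unpair.1 == 1 then L.getD n.unpair.2 false
  else bif n.unpair.1 == 2 then L.getD n.unpair.2.unpair.1 false && L.getD n.unpair.2.unpair.2 false
  else bif n.unpair.1 == 3 then L.getD n.unpair.2.unpair.1 false && L.getD n.unpair.2.unpair.2 false
  else false

/-- Recognition of formula codes. -/
def iF : ℕ → Bool := cv gF

theorem pr_iF : PR iF := by
  have := pr_iT
  exact pr_cv (by unfold gF; fun_prop)

theorem iT_code (t : Tm) : iT t.code = true := by
  induction t with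
  | var i => rw [iT, cv_eq]; simp [gT, Tm.code]
  | zero => rw [iT, cv_eq]; simp [gT, Tm.code]
  | one => rw [iT, cv_eq]; simp [gT, Tm.code]
  | neg t ih =>
    rw [iT, cv_eq]
    simp only [gT, Tm.code, Nat.unpair_pair, getD_range _ (lt_pair three_ne_zero _)]
    simp only [iT] at ih
    simp [ih]
  | add s t ihs iht =>
    rw [iT, cv_eq]
    simp only [gT, Tm.code, Nat.unpair_pair, getD_range _ (lt_pair1 four_ne_zero _ _),
      getD_range _ (lt_pair2 four_ne_zero _ _)]
    simp only [iT] at ihs iht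
    simp [ihs, iht]
  | mul s t ihs iht =>
    rw [iT, cv_eq]
    simp only [gT, Tm.code, Nat.unpair_pair, getD_range _ (lt_pair1 (Nat.succ_ne_zero 4) _ _),
      getD_range _ (lt_pair2 (Nat.succ_ne_zero 4) _ _)]
    simp only [iT] at ihs iht
    simp [ihs, iht]

theorem iF_code (φ : QF) : iF φ.code = true := by
  induction φ with
  | eq s t => rw [iF, cv_eq]; simp [gF, QF.code, iT_code]
  | not a ih =>
    rw [iF, cv_eq]
    simp only [gF, QF.code, Nat.unpair_pair, getD_range _ (lt_pair one_ne_zero _)]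
    simp only [iF] at ih
    simp [ih]
  | and a b iha ihb =>
    rw [iF, cv_eq]
    simp only [gF, QF.code, Nat.unpair_pair, getD_range _ (lt_pair1 two_ne_zero _ _),
      getD_range _ (lt_pair2 two_ne_zero _ _)]
    simp only [iF] at iha ihb
    simp [iha, ihb]
  | or a b iha ihb =>
    rw [iF, cv_eq]
    simp only [gF, QF.code, Nat.unpair_pair, getD_range _ (lt_pair1 three_ne_zero _ _),
      getD_range _ (lt_pair2 three_ne_zero _ _)]
    simp only [iF] at iha ihb
    simp [iha, ihb]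

theorem exists_tm (n : ℕ) (h : iT n = true) : ∃ t : Tm, t.code = n := by
  induction n using Nat.strong_induction_on with
  | _ n ih =>
    obtain ⟨a, b, rfl⟩ : ∃ a b, n = Nat.pair a b := ⟨_, _, (Nat.pair_unpair n).symm⟩
    obtain ⟨c, d, rfl⟩ : ∃ c d, b = Nat.pair c d := ⟨_, _, (Nat.pair_unpair b).symm⟩
    rw [iT, cv_eq] at h
    rcases a with _ | _ | _ | _ | _ | _ | a
    · exact ⟨.var _, rfl⟩
    · simp only [gT, Nat.unpair_pair] at h
      refine ⟨.zero, ?_⟩
      rw [show Nat.pair c d = 0 by simpa using h]; rfl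
    · simp only [gT, Nat.unpair_pair] at h
      refine ⟨.one, ?_⟩
      rw [show Nat.pair c d = 0 by simpa using h]; rfl
    · simp only [gT, Nat.unpair_pair, getD_range _ (lt_pair (Nat.succ_ne_zero _) _)] at h
      simp only [zero_add, Nat.reduceAdd, Nat.reduceBEq, BEq.rfl, cond_true, cond_false] at h
      obtain ⟨s, hs⟩ := ih _ (lt_pair (Nat.succ_ne_zero _) _) h
      exact ⟨.neg s, by rw [← hs]; rfl⟩
    · simp only [gT, Nat.unpair_pair, getD_range _ (lt_pair1 (Nat.succ_ne_zero _) _ _),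
        getD_range _ (lt_pair2 (Nat.succ_ne_zero _) _ _)] at h
      simp only [zero_add, Nat.reduceAdd, Nat.reduceBEq, BEq.rfl, cond_true, cond_false,
        Bool.and_eq_true] at h
      obtain ⟨s, rfl⟩ := ih c (lt_pair1 (Nat.succ_ne_zero _) _ _) h.1
      obtain ⟨t, rfl⟩ := ih d (lt_pair2 (Nat.succ_ne_zero _) _ _) h.2
      exact ⟨.add s t, rfl⟩
    · simp only [gT, Nat.unpair_pair, getD_range _ (lt_pair1 (Nat.succ_ne_zero _) _ _),
        getD_range _ (lt_pair2 (Nat.succ_ne_zero _) _ _)] at h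
      simp only [zero_add, Nat.reduceAdd, Nat.reduceBEq, BEq.rfl, cond_true, cond_false,
        Bool.and_eq_true] at h
      obtain ⟨s, rfl⟩ := ih c (lt_pair1 (Nat.succ_ne_zero _) _ _) h.1
      obtain ⟨t, rfl⟩ := ih d (lt_pair2 (Nat.succ_ne_zero _) _ _) h.2
      exact ⟨.mul s t, rfl⟩
    · simp [gT] at h

theorem exists_qf (n : ℕ) (h : iF n = true) : ∃ φ : QF, φ.code = n := by
  induction n using Nat.strong_induction_on with
  | _ n ih =>
    obtain ⟨a, b, rfl⟩ : ∃ a b, n = Nat.pair a b := ⟨_, _, (Nat.pair_unpair n).symm⟩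
    obtain ⟨c, d, rfl⟩ : ∃ c d, b = Nat.pair c d := ⟨_, _, (Nat.pair_unpair b).symm⟩
    rw [iF, cv_eq] at h
    rcases a with _ | _ | _ | _ | a
    · simp only [gF, Nat.unpair_pair, BEq.rfl, cond_true, Bool.and_eq_true] at h
      obtain ⟨s, rfl⟩ := exists_tm c h.1
      obtain ⟨t, rfl⟩ := exists_tm d h.2
      exact ⟨.eq s t, rfl⟩
    · simp only [gF, Nat.unpair_pair, getD_range _ (lt_pair (Nat.succ_ne_zero _) _)] at h
      simp only [zero_add, Nat.reduceBEq, BEq.rfl, cond_true, cond_false] at h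
      obtain ⟨s, hs⟩ := ih _ (lt_pair (Nat.succ_ne_zero _) _) h
      exact ⟨.not s, by rw [← hs]; rfl⟩
    · simp only [gF, Nat.unpair_pair, getD_range _ (lt_pair1 (Nat.succ_ne_zero _) _ _),
        getD_range _ (lt_pair2 (Nat.succ_ne_zero _) _ _)] at h
      simp only [zero_add, Nat.reduceAdd, Nat.reduceBEq, BEq.rfl, cond_true, cond_false,
        Bool.and_eq_true] at h
      obtain ⟨s, rfl⟩ := ih c (lt_pair1 (Nat.succ_ne_zero _) _ _) h.1
      obtain ⟨t, rfl⟩ := ih d (lt_pair2 (Nat.succ_ne_zero _) _ _) h.2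
      exact ⟨.and s t, rfl⟩
    · simp only [gF, Nat.unpair_pair, getD_range _ (lt_pair1 (Nat.succ_ne_zero _) _ _),
        getD_range _ (lt_pair2 (Nat.succ_ne_zero _) _ _)] at h
      simp only [zero_add, Nat.reduceAdd, Nat.reduceBEq, BEq.rfl, cond_true, cond_false,
        Bool.and_eq_true] at h
      obtain ⟨s, rfl⟩ := ih c (lt_pair1 (Nat.succ_ne_zero _) _ _) h.1
      obtain ⟨t, rfl⟩ := ih d (lt_pair2 (Nat.succ_ne_zero _) _ _) h.2
      exact ⟨.or s t, rfl⟩
    · simp [gF] at h

/-- Clauses: a list of equations and a list of inequations. -/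
abbrev Cl : Type := List (ℕ × ℕ) × List (ℕ × ℕ)

/-- Conjunction of two disjunctive normal forms. -/
def pr (A B : List Cl) : List Cl := A.flatMap fun a => B.map fun b => (a.1 ++ b.1, a.2 ++ b.2)

/-- Step of the computation of normal forms of a formula and of its negation. -/
def gD (n : ℕ) (L : List (List Cl × List Cl)) : List Cl × List Cl :=
  bif n.unpair.1 == 0 then ([([n.unpair.2.unpair], [])], [([], [n.unpair.2.unpair])])
  else bif n.unpair.1 == 1 then ((L.getD n.unpair.2 ([], [])).2, (L.getD n.unpair.2 ([], [])).1)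
  else bif n.unpair.1 == 2 then
    (pr (L.getD n.unpair.2.unpair.1 ([], [])).1 (L.getD n.unpair.2.unpair.2 ([], [])).1,
      (L.getD n.unpair.2.unpair.1 ([], [])).2 ++ (L.getD n.unpair.2.unpair.2 ([], [])).2)
  else ((L.getD n.unpair.2.unpair.1 ([], [])).1 ++ (L.getD n.unpair.2.unpair.2 ([], [])).1,
      pr (L.getD n.unpair.2.unpair.1 ([], [])).2 (L.getD n.unpair.2.unpair.2 ([], [])).2)

/-- Normal forms of a formula and of its negation. -/
def dnf : ℕ → List Cl × List Cl := cv gD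

theorem pr_dnf : PR dnf := pr_cv (by unfold gD pr; fun_prop)

/-- Truth of a clause. -/
def SatC {R : Type} [CommRing R] (x : ℕ → R) (c : Cl) : Prop :=
  (∀ e ∈ c.1.map decE, e.1.val x = e.2.val x) ∧ ∀ e ∈ c.2.map decE, e.1.val x ≠ e.2.val x

theorem sat_pr {R : Type} [CommRing R] (x : ℕ → R) (A B : List Cl) :
    (∃ c ∈ pr A B, SatC x c) ↔ (∃ c ∈ A, SatC x c) ∧ ∃ c ∈ B, SatC x c := by
  simp only [pr, List.mem_flatMap, List.mem_map]
  constructor
  · rintro ⟨_, ⟨a, ha, b, hb, rfl⟩, h1, h2⟩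
    simp only [List.map_append, List.forall_mem_append] at h1 h2
    exact ⟨⟨a, ha, h1.1, h2.1⟩, b, hb, h1.2, h2.2⟩
  · rintro ⟨⟨a, ha, h1⟩, b, hb, h2⟩
    refine ⟨_, ⟨a, ha, b, hb, rfl⟩, ?_, ?_⟩ <;>
      simp only [List.map_append, List.forall_mem_append]
    exacts [⟨h1.1, h2.1⟩, ⟨h1.2, h2.2⟩]

theorem sat_app {R : Type} [CommRing R] (x : ℕ → R) (A B : List Cl) :
    (∃ c ∈ A ++ B, SatC x c) ↔ (∃ c ∈ A, SatC x c) ∨ ∃ c ∈ B, SatC x c := by
  simp only [List.mem_append, or_and_right, exists_or]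

theorem dnf_code {R : Type} [CommRing R] (x : ℕ → R) (φ : QF) :
    ((∃ c ∈ (dnf φ.code).1, SatC x c) ↔ φ.Sat x) ∧
      ((∃ c ∈ (dnf φ.code).2, SatC x c) ↔ ¬ φ.Sat x) := by
  induction φ with
  | eq s t => rw [dnf, cv_eq]; simp [gD, QF.code, SatC, decE, decT_code, QF.Sat]
  | not a ih =>
    rw [dnf, cv_eq]
    simp only [gD, QF.code, Nat.unpair_pair, getD_range _ (lt_pair one_ne_zero _)]
    simp only [dnf] at ih
    simp only [Nat.reduceBEq, BEq.rfl, cond_true, cond_false, ih, QF.Sat, not_not, and_self]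
  | and a b iha ihb =>
    rw [dnf, cv_eq]
    simp only [gD, QF.code, Nat.unpair_pair, getD_range _ (lt_pair1 two_ne_zero _ _),
      getD_range _ (lt_pair2 two_ne_zero _ _)]
    simp only [dnf] at iha ihb
    simp only [Nat.reduceBEq, BEq.rfl, cond_true, cond_false, sat_pr, sat_app, iha, ihb, QF.Sat,
      not_and_or, and_self]
  | or a b iha ihb =>
    rw [dnf, cv_eq]
    simp only [gD, QF.code, Nat.unpair_pair, getD_range _ (lt_pair1 three_ne_zero _ _),
      getD_range _ (lt_pair2 three_ne_zero _ _)]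
    simp only [dnf] at iha ihb
    simp only [Nat.reduceBEq, BEq.rfl, cond_true, cond_false, sat_pr, sat_app, iha, ihb, QF.Sat,
      not_or, and_self]

theorem decidable_of {R : Type} [CommRing R] (s : Finset ℕ)
    (P : ℕ → List (Tm × Tm) → Tm × Tm → Prop)
    (hP : ∀ p ∈ s, D1 fun x : List (ℕ × ℕ) × ℕ × ℕ => P p (x.1.map decE) (decE x.2))
    (hG : ∀ eqs nes : List (Tm × Tm), (∃ x : ℕ → R, (∀ e ∈ eqs, e.1.val x = e.2.val x) ∧
      ∀ e ∈ nes, e.1.val x ≠ e.2.val x) ↔
      (∀ p ∈ s, P p eqs (Tm.one, Tm.zero)) ∧ ∀ e ∈ nes, ∃ p ∈ s, P p eqs e) :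
    ComputablePred fun c : ℕ => ∃ φ : QF, φ.code = c ∧ ∃ x : ℕ → R, φ.Sat x := by
  have h1 : D1 fun c : Cl => ∀ p ∈ s, P p (c.1.map decE) (decE (Tm.one.code, Tm.zero.code)) :=
    D1.fall s fun p hp => (hP p hp).comp (g := fun c : Cl => (c.1, Tm.one.code, Tm.zero.code))
      (by fun_prop)
  have h2 : D1 fun c : Cl => ∀ e ∈ c.2, ∃ p ∈ s, P p (c.1.map decE) (decE e) :=
    D1.all (D1.fex s fun p hp => (hP p hp).comp (g := fun x : Cl × ℕ × ℕ => (x.1.1, x.2))
      (by fun_prop)) (by fun_prop)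
  have h3 : D1 fun c : Cl => ∃ x : ℕ → R, SatC x c := (h1.and h2).congr fun c => by
    unfold SatC
    rw [hG]
    simp only [decE, decT_code, List.forall_mem_map]
  have h4 := pr_dnf
  have h5 : D1 fun n : ℕ => ∃ c ∈ (dnf n).1, ∃ x : ℕ → R, SatC x c :=
    D1.ex (h3.comp (g := fun x : ℕ × Cl => x.2) (by fun_prop)) (by fun_prop)
  refine (((D1.bool pr_iF).and h5).congr fun n => ?_).computable
  constructor
  · rintro ⟨h, c, hc, x, hx⟩
    obtain ⟨φ, rfl⟩ := exists_qf n h
    exact ⟨φ, rfl, x, (dnf_code x φ).1.1 ⟨c, hc, hx⟩⟩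
  · rintro ⟨φ, rfl, x, hx⟩
    obtain ⟨c, hc, h⟩ := (dnf_code x φ).1.2 hx
    exact ⟨iF_code φ, c, hc, x, h⟩

end FN

end Pool.Agent.Lib.MP_132c47_lc
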