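import Pool.Agent.Lib.MP_132c47_lc.Defs3

/-! Maps which are ring homomorphisms on a subring. -/

namespace Pool.Agent.Lib.MP_132c47_lc

open Polynomial

section Val
variable {Ω : Type} [Field Ω] {Γ₀ : Type} [LinearOrderedCommGroupWithZero Γ₀]
  {v : Valuation Ω Γ₀}

section PH
variable {E : Type} [Field E] {A : Subring Ω} {φ : Ω → E}

theorem IsPH.mono (h : IsPH A φ) {B : Subring Ω} (hB : B ≤ A) : IsPH B φ :=
  ⟨h.one, fun x hx y hy => h.add x (hB hx) y (hB hy), fun x hx y hy => h.mul x (hB hx) y (hB hy)⟩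

theorem IsPH.zero (h : IsPH A φ) : φ 0 = 0 := by
  have := h.add 0 A.zero_mem 0 A.zero_mem
  rw [add_zero] at this
  exact left_eq_add.1 this

/-- The ring homomorphism on the subring. -/
def IsPH.hom (h : IsPH A φ) : A →+* E where
  toFun x := φ x
  map_one' := h.one
  map_mul' x y := h.mul x x.2 y y.2
  map_zero' := h.zero
  map_add' x y := h.add x x.2 y y.2

theorem IsPH.hom_apply (h : IsPH A φ) (x : A) : h.hom x = φ x := rfl

theorem IsPH.neg (h : IsPH A φ) {x : Ω} (hx : x ∈ A) : φ (-x) = -φ x :=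
  map_neg h.hom ⟨x, hx⟩

theorem IsPH.sub (h : IsPH A φ) {x y : Ω} (hx : x ∈ A) (hy : y ∈ A) : φ (x - y) = φ x - φ y :=
  map_sub h.hom ⟨x, hx⟩ ⟨y, hy⟩

theorem IsPH.pow (h : IsPH A φ) {x : Ω} (hx : x ∈ A) (n : ℕ) : φ (x ^ n) = φ x ^ n :=
  map_pow h.hom ⟨x, hx⟩ n

theorem IsPH.natCast (h : IsPH A φ) (n : ℕ) : φ n = n := map_natCast h.hom n

theorem IsPH.intCast (h : IsPH A φ) (n : ℤ) : φ n = n := map_intCast h.hom n

theorem IsPH.sum (h : IsPH A φ) {ι : Type} (s : Finset ι) (f : ι → Ω) (hf : ∀ i ∈ s, f i ∈ A) :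
    φ (∑ i ∈ s, f i) = ∑ i ∈ s, φ (f i) := by
  classical
  induction s using Finset.induction_on with
  | empty => simpa using h.zero
  | insert a s ha ih =>
    have hs : ∀ i ∈ s, f i ∈ A := fun i hi => hf i (Finset.mem_insert_of_mem hi)
    rw [Finset.sum_insert ha, Finset.sum_insert ha,
      h.add _ (hf a (Finset.mem_insert_self _ _)) _ (A.sum_mem hs), ih hs]

theorem IsPH.prod (h : IsPH A φ) {ι : Type} (s : Finset ι) (f : ι → Ω) (hf : ∀ i ∈ s, f i ∈ A) :
    φ (∏ i ∈ s, f i) = ∏ i ∈ s, φ (f i) := by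
  classical
  induction s using Finset.induction_on with
  | empty => simpa using h.one
  | insert a s ha ih =>
    have hs : ∀ i ∈ s, f i ∈ A := fun i hi => hf i (Finset.mem_insert_of_mem hi)
    rw [Finset.prod_insert ha, Finset.prod_insert ha,
      h.mul _ (hf a (Finset.mem_insert_self _ _)) _ (A.prod_mem hs), ih hs]

theorem IsPH.ne_zero (h : IsPH A φ) {x : Ω} (h0 : x ≠ 0) (hx : x ∈ A) (hx' : x⁻¹ ∈ A) :
    φ x ≠ 0 := by
  have := h.mul x hx _ hx'
  rw [mul_inv_cancel₀ h0, h.one] at this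
  exact left_ne_zero_of_mul_eq_one this.symm

theorem IsPH.inv (h : IsPH A φ) {x : Ω} (hx : x ∈ A) (hx' : x⁻¹ ∈ A) : φ x⁻¹ = (φ x)⁻¹ := by
  by_cases h0 : x = 0
  · subst h0
    rw [inv_zero, h.zero, inv_zero]
  · have := h.mul x hx _ hx'
    rw [mul_inv_cancel₀ h0, h.one] at this
    exact eq_inv_of_mul_eq_one_right this.symm

theorem IsPH.zpow (h : IsPH A φ) {x : Ω} (hx : x ∈ A) (hx' : x⁻¹ ∈ A) (n : ℤ) :
    φ (x ^ n) = φ x ^ n := by
  rcases n with n | n
  · simpa using h.pow hx n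
  · rw [zpow_negSucc, zpow_negSucc, ← inv_pow, h.pow hx', h.inv hx hx', inv_pow]

theorem IsPH.tm (h : IsPH A φ) {x : ℕ → Ω} (hx : ∀ i, x i ∈ A) (t : Tm) :
    t.val x ∈ A ∧ φ (t.val x) = t.val fun i => φ (x i) := by
  induction t with
  | var i => exact ⟨hx i, rfl⟩
  | zero => exact ⟨A.zero_mem, h.zero⟩
  | one => exact ⟨A.one_mem, h.one⟩
  | neg t ih => exact ⟨A.neg_mem ih.1, by simp only [Tm.val]; rw [h.neg ih.1, ih.2]⟩
  | add s t ih ih' =>
    exact ⟨A.add_mem ih.1 ih'.1, by simp only [Tm.val]; rw [h.add _ ih.1 _ ih'.1, ih.2, ih'.2]⟩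
  | mul s t ih ih' =>
    exact ⟨A.mul_mem ih.1 ih'.1, by simp only [Tm.val]; rw [h.mul _ ih.1 _ ih'.1, ih.2, ih'.2]⟩

theorem IsPH.eq_on_closure {ψ : Ω → E} (h : IsPH A φ) (h' : IsPH A ψ) {S : Set Ω} (hS : S ⊆ A)
    (e : ∀ s ∈ S, φ s = ψ s) : ∀ x ∈ Subring.closure S, φ x = ψ x := by
  have hle : Subring.closure S ≤ A := Subring.closure_le.2 hS
  intro x hx
  induction hx using Subring.closure_induction with
  | mem x hx => exact e x hx
  | zero => rw [h.zero, h'.zero]
  | one => rw [h.one, h'.one]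
  | add x y hx hy ih ih' => rw [h.add _ (hle hx) _ (hle hy), h'.add _ (hle hx) _ (hle hy), ih, ih']
  | neg x hx ih => rw [h.neg (hle hx), h'.neg (hle hx), ih]
  | mul x y hx hy ih ih' => rw [h.mul _ (hle hx) _ (hle hy), h'.mul _ (hle hx) _ (hle hy), ih, ih']

theorem IsPH.map_closure (h : IsPH A φ) {S : Set Ω} (hS : S ⊆ A) (B : Subring E)
    (e : ∀ s ∈ S, φ s ∈ B) : ∀ x ∈ Subring.closure S, φ x ∈ B := by
  have hle : Subring.closure S ≤ A := Subring.closure_le.2 hS
  intro x hx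
  induction hx using Subring.closure_induction with
  | mem x hx => exact e x hx
  | zero => rw [h.zero]; exact B.zero_mem
  | one => rw [h.one]; exact B.one_mem
  | add x y hx hy ih ih' => rw [h.add _ (hle hx) _ (hle hy)]; exact B.add_mem ih ih'
  | neg x hx ih => rw [h.neg (hle hx)]; exact B.neg_mem ih
  | mul x y hx hy ih ih' => rw [h.mul _ (hle hx) _ (hle hy)]; exact B.mul_mem ih ih'

theorem coeff_pm (h0 : φ 0 = 0) (f : Polynomial Ω) (i : ℕ) :
    (pm φ f).coeff i = φ (f.coeff i) := by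
  simp only [pm, finsetSum_coeff, coeff_monomial, Finset.sum_ite_eq', Finset.mem_range]
  split_ifs with hi
  · rfl
  · rw [coeff_eq_zero_of_natDegree_lt (by omega), h0]

theorem IsPH.monic_pm (h : IsPH A φ) {f : Polynomial Ω} (hf : f.Monic) :
    (pm φ f).Monic ∧ (pm φ f).natDegree = f.natDegree := by
  have h1 : (pm φ f).coeff f.natDegree = 1 := by
    rw [coeff_pm h.zero, hf.coeff_natDegree, h.one]
  have h2 : (pm φ f).natDegree ≤ f.natDegree := by
    rw [natDegree_le_iff_coeff_eq_zero]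
    intro N hN
    rw [coeff_pm h.zero, coeff_eq_zero_of_natDegree_lt hN, h.zero]
  exact ⟨monic_of_natDegree_le_of_coeff_eq_one _ h2 h1,
    le_antisymm h2 (le_natDegree_of_ne_zero (by rw [h1]; exact one_ne_zero))⟩

namespace PH

theorem exists_lift {f : Polynomial Ω} (hf : ∀ i, f.coeff i ∈ A) :
    ∃ g : Polynomial A, g.map A.subtype = f :=
  (mem_lifts _).1 ((lifts_iff_coeff_lifts _).2 fun i => ⟨⟨_, hf i⟩, rfl⟩)

theorem pm_map (h : IsPH A φ) (g : Polynomial A) : pm φ (g.map A.subtype) = g.map h.hom := by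
  ext i
  rw [coeff_pm h.zero, coeff_map, coeff_map]
  rfl

theorem mem_closure_iff {b x : Ω} : x ∈ Subring.closure (insert b (A : Set Ω)) ↔
    ∃ g : Polynomial A, eval₂RingHom A.subtype b g = x := by
  constructor
  · intro hx
    have : Subring.closure (insert b (A : Set Ω)) ≤ (eval₂RingHom A.subtype b).range := by
      rw [Subring.closure_le]
      rintro y (rfl | hy)
      · exact ⟨X, by simp⟩
      · exact ⟨C ⟨y, hy⟩, by simp⟩
    exact this hx
  · rintro ⟨g, rfl⟩
    induction g using Polynomial.induction_on' with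
    | add p q hp hq => rw [map_add]; exact Subring.add_mem _ hp hq
    | monomial n a =>
      rw [coe_eval₂RingHom, eval₂_monomial]
      exact Subring.mul_mem _ (Subring.subset_closure (Or.inr a.2))
        (Subring.pow_mem _ (Subring.subset_closure (Set.mem_insert _ _)) _)

theorem ext (h : IsPH A φ) {b : Ω} {b' : E}
    (hk : ∀ g : Polynomial A, eval₂RingHom A.subtype b g = 0 → eval₂RingHom h.hom b' g = 0) :
    ∃ ψ : Ω → E, IsPH (Subring.closure (insert b (A : Set Ω))) ψ ∧ (∀ a ∈ A, ψ a = φ a) ∧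
      ψ b = b' := by
  classical
  let ψ : Ω → E := fun x =>
    if hx : ∃ g : Polynomial A, eval₂RingHom A.subtype b g = x then
      eval₂RingHom h.hom b' hx.choose else 0
  have key : ∀ g : Polynomial A, ψ (eval₂RingHom A.subtype b g) = eval₂RingHom h.hom b' g := by
    intro g
    have hx : ∃ g' : Polynomial A, eval₂RingHom A.subtype b g' = eval₂RingHom A.subtype b g :=
      ⟨g, rfl⟩
    have := hk (hx.choose - g) (by rw [map_sub, hx.choose_spec, sub_self])
    rw [map_sub, sub_eq_zero] at this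
    simp only [ψ]
    rw [dif_pos hx, this]
  refine ⟨ψ, ⟨?_, ?_, ?_⟩, ?_, ?_⟩
  · simpa using key 1
  · intro x hx y hy
    obtain ⟨f, rfl⟩ := mem_closure_iff.1 hx
    obtain ⟨g, rfl⟩ := mem_closure_iff.1 hy
    rw [← map_add, key, key, key, map_add]
  · intro x hx y hy
    obtain ⟨f, rfl⟩ := mem_closure_iff.1 hx
    obtain ⟨g, rfl⟩ := mem_closure_iff.1 hy
    rw [← map_mul, key, key, key, map_mul]
  · intro a ha
    simpa [IsPH.hom_apply] using key (C ⟨a, ha⟩)
  · simpa using key X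

end PH

theorem IsPH.derivative_pm (h : IsPH A φ) {f : Polynomial Ω} (hf : ∀ i, f.coeff i ∈ A) :
    (pm φ f).derivative = pm φ f.derivative := by
  obtain ⟨g, rfl⟩ := PH.exists_lift hf
  rw [PH.pm_map h, derivative_map, derivative_map, PH.pm_map h]

theorem IsPH.eval_pm (h : IsPH A φ) {f : Polynomial Ω} (hf : ∀ i, f.coeff i ∈ A) {x : Ω}
    (hx : x ∈ A) : f.eval x ∈ A ∧ φ (f.eval x) = (pm φ f).eval (φ x) := by
  obtain ⟨g, rfl⟩ := PH.exists_lift hf
  have e : (g.map A.subtype).eval x = (g.eval ⟨x, hx⟩ : A) := by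
    rw [eval_map]
    exact eval₂_at_apply A.subtype (⟨x, hx⟩ : A)
  rw [e, PH.pm_map h, eval_map]
  exact ⟨Subtype.property _, (eval₂_at_apply h.hom (⟨x, hx⟩ : A)).symm⟩

theorem IsPH.pm_prod (h : IsPH A φ) (s : Multiset Ω) (hs : ∀ r ∈ s, r ∈ A) :
    pm φ (s.map fun r => X - C r).prod = (s.map fun r => X - C (φ r)).prod := by
  lift s to Multiset A using hs
  have e : ((s.map fun r : A => (r : Ω)).map fun r => X - C r).prod =
      ((s.map fun r => X - C r).prod).map A.subtype := by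
    rw [Polynomial.map_multiset_prod, Multiset.map_map, Multiset.map_map]
    simp
  rw [e, PH.pm_map h, Polynomial.map_multiset_prod, Multiset.map_map, Multiset.map_map]
  simp [IsPH.hom_apply]

/-- Extension to a transcendental element. -/
theorem IsPH.ext_trans (h : IsPH A φ) {z : Ω}
    (hz : ∀ f : Polynomial Ω, (∀ i, f.coeff i ∈ A) → f.eval z = 0 → f = 0) (z' : E) :
    ∃ ψ : Ω → E, IsPH (Subring.closure (insert z (A : Set Ω))) ψ ∧ (∀ a ∈ A, ψ a = φ a) ∧
      ψ z = z' := by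
  refine PH.ext h fun g hg => ?_
  have h1 := hz (g.map A.subtype) (fun i => by rw [coeff_map]; exact Subtype.property _)
    (by rw [eval_map]; exact hg)
  rw [(Polynomial.map_eq_zero_iff A.subtype_injective).1 h1, map_zero]

/-- Extension to fractions. -/
theorem IsPH.ext_frac (h : IsPH A φ) : ∃ (B : Subring Ω) (ψ : Ω → E), IsPH B ψ ∧ A ≤ B ∧
    (∀ a ∈ A, ψ a = φ a) ∧ (∀ s ∈ A, φ s ≠ 0 → s⁻¹ ∈ B) ∧
    ∀ x ∈ B, ∃ s ∈ A, φ s ≠ 0 ∧ x * s ∈ A := by
  classical
  have h1 : φ 1 ≠ 0 := by rw [h.one]; exact one_ne_zero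
  have hm : ∀ s ∈ A, ∀ t ∈ A, φ s ≠ 0 → φ t ≠ 0 → φ (s * t) ≠ 0 := fun s hs t ht a b => by
    rw [h.mul s hs t ht]; exact mul_ne_zero a b
  have hadd : ∀ {x y s t : Ω}, s ∈ A → t ∈ A → x * s ∈ A → y * t ∈ A → (x + y) * (s * t) ∈ A := by
    intro x y s t hs ht hx hy
    have := A.add_mem (A.mul_mem hx ht) (A.mul_mem hy hs)
    convert this using 1
    ring
  have hmul : ∀ {x y s t : Ω}, x * s ∈ A → y * t ∈ A → (x * y) * (s * t) ∈ A := by
    intro x y s t hx hy
    have := A.mul_mem hx hy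
    convert this using 1
    ring
  let B : Subring Ω :=
    { carrier := {x | ∃ s ∈ A, φ s ≠ 0 ∧ x * s ∈ A}
      zero_mem' := ⟨1, A.one_mem, h1, by simp⟩
      one_mem' := ⟨1, A.one_mem, h1, by simp⟩
      add_mem' := by
        rintro x y ⟨s, hs, es, hx⟩ ⟨t, ht, et, hy⟩
        exact ⟨s * t, A.mul_mem hs ht, hm s hs t ht es et, hadd hs ht hx hy⟩
      mul_mem' := by
        rintro x y ⟨s, hs, es, hx⟩ ⟨t, ht, et, hy⟩
        exact ⟨s * t, A.mul_mem hs ht, hm s hs t ht es et, hmul hx hy⟩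
      neg_mem' := by
        rintro x ⟨s, hs, es, hx⟩
        exact ⟨s, hs, es, by rw [neg_mul]; exact A.neg_mem hx⟩ }
  let ψ : Ω → E := fun x =>
    if hx : ∃ s ∈ A, φ s ≠ 0 ∧ x * s ∈ A then φ (x * hx.choose) / φ hx.choose else 0
  have key : ∀ x s, s ∈ A → φ s ≠ 0 → x * s ∈ A → ψ x = φ (x * s) / φ s := by
    intro x s hs es hx
    have hx' : ∃ s ∈ A, φ s ≠ 0 ∧ x * s ∈ A := ⟨s, hs, es, hx⟩
    obtain ⟨ht, et, hy⟩ := hx'.choose_spec
    simp only [ψ]
    rw [dif_pos hx', div_eq_div_iff et es, ← h.mul _ hy _ hs, ← h.mul _ hx _ ht]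
    congr 1
    ring
  have hA : ∀ a ∈ A, ψ a = φ a := fun a ha => by
    rw [key a 1 A.one_mem h1 (by simpa using ha), h.one, mul_one, div_one]
  refine ⟨B, ψ, ⟨?_, ?_, ?_⟩, fun a ha => ⟨1, A.one_mem, h1, by simpa using ha⟩, hA, ?_,
    fun x hx => hx⟩
  · rw [hA 1 A.one_mem, h.one]
  · rintro x ⟨s, hs, es, hx⟩ y ⟨t, ht, et, hy⟩
    rw [key _ _ (A.mul_mem hs ht) (hm s hs t ht es et) (hadd hs ht hx hy), key x s hs es hx,
      key y t ht et hy, show (x + y) * (s * t) = x * s * t + y * t * s by ring,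
      h.add _ (A.mul_mem hx ht) _ (A.mul_mem hy hs), h.mul _ hx _ ht, h.mul _ hy _ hs,
      h.mul _ hs _ ht]
    field_simp
  · rintro x ⟨s, hs, es, hx⟩ y ⟨t, ht, et, hy⟩
    rw [key _ _ (A.mul_mem hs ht) (hm s hs t ht es et) (hmul hx hy), key x s hs es hx,
      key y t ht et hy, show (x * y) * (s * t) = x * s * (y * t) by ring,
      h.mul _ hx _ hy, h.mul _ hs _ ht]
    field_simp
  · intro s hs es
    have h0 : s ≠ 0 := by rintro rfl; exact es h.zero
    exact ⟨s, hs, es, by rw [inv_mul_cancel₀ h0]; exact A.one_mem⟩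

/-- Extension to an algebraic element. -/
theorem IsPH.ext_alg (h : IsPH A φ) {b : Ω} {μ : Polynomial Ω} (hm : μ.Monic)
    (hc : ∀ i, μ.coeff i ∈ A) (hb : μ.eval b = 0)
    (hmin : ∀ f : Polynomial Ω, (∀ i, f.coeff i ∈ A) → f.eval b = 0 → f ≠ 0 →
      μ.natDegree ≤ f.natDegree) {b' : E} (hb' : (pm φ μ).eval b' = 0) :
    ∃ ψ : Ω → E, IsPH (Subring.closure (insert b (A : Set Ω))) ψ ∧ (∀ a ∈ A, ψ a = φ a) ∧
      ψ b = b' := by
  obtain ⟨m, rfl⟩ := PH.exists_lift hc
  have hinj := A.subtype_injective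
  have hm' : m.Monic := monic_of_injective hinj hm
  rw [PH.pm_map h, eval_map] at hb'
  rw [eval_map] at hb
  refine PH.ext h fun g hg => ?_
  have e := modByMonic_add_div g m
  have h0 : g %ₘ m = 0 := by
    by_contra hne
    have h1 : eval₂RingHom A.subtype b (g %ₘ m) = 0 := by
      rw [← e, map_add, map_mul, coe_eval₂RingHom, hb, zero_mul, add_zero] at hg
      exact hg
    have h2 := hmin ((g %ₘ m).map A.subtype) (fun i => by rw [coeff_map]; exact Subtype.property _)
      (by rw [eval_map]; exact h1) (fun h => hne ((Polynomial.map_eq_zero_iff hinj).1 h))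
    rw [natDegree_map_eq_of_injective hinj, natDegree_map_eq_of_injective hinj] at h2
    exact (natDegree_lt_natDegree hne (degree_modByMonic_lt g hm')).not_ge h2
  rw [← e, h0, zero_add, map_mul, coe_eval₂RingHom, hb', zero_mul]

end PH

namespace PH

theorem v_le_one {S : Set Ω} (hS : ∀ s ∈ S, v s ≤ 1) {x : Ω} (hx : x ∈ Subring.closure S) :
    v x ≤ 1 :=
  (Subring.closure_le (t := v.integer)).2 hS hx

theorem norm_le_one {E : Type} [NormedField E] [IsUltrametricDist E] {S : Set Ω} {φ : Ω → E}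
    (h : IsPH (Subring.closure S) φ) (hS : ∀ s ∈ S, ‖φ s‖ ≤ 1) {x : Ω}
    (hx : x ∈ Subring.closure S) : ‖φ x‖ ≤ 1 := by
  induction hx using Subring.closure_induction with
  | mem x hx => exact hS x hx
  | zero => rw [h.zero]; simp
  | one => rw [h.one]; simp
  | add x y hx hy ih ih' =>
    rw [h.add _ hx _ hy]
    exact (IsUltrametricDist.norm_add_le_max _ _).trans (max_le ih ih')
  | neg x hx ih => rw [h.neg hx, norm_neg]; exact ih
  | mul x y hx hy ih ih' =>
    rw [h.mul _ hx _ hy, norm_mul]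
    exact mul_le_one₀ ih (norm_nonneg _) ih'

end PH

/-- Finitely many conditions suffice to respect the valuation on a finitely generated ring. -/
theorem exists_resp_finset (S : Finset Ω) (hS : ∀ s ∈ S, v s ≤ 1) : ∃ T : Finset Ω,
    (∀ t ∈ T, t ∈ Subring.closure (S : Set Ω)) ∧ S ⊆ T ∧
    ∀ (E : Type) [NormedField E] [IsUltrametricDist E] (φ : Ω → E),
      IsPH (Subring.closure (S : Set Ω)) φ → Resp v T φ →
      Resp v (Subring.closure (S : Set Ω)) φ := by
  classical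
  have hN : IsNoetherianRing (Subring.closure (S : Set Ω)) :=
    is_noetherian_subring_closure _ S.finite_toSet
  let I : Ideal (Subring.closure (S : Set Ω)) :=
    { carrier := {x | v x < 1}
      zero_mem' := by simp
      add_mem' := fun {a b} ha hb => v.map_add_lt ha hb
      smul_mem' := fun c x hx => by
        have h1 : v (c : Ω) ≤ 1 := PH.v_le_one hS c.2
        change v ((c : Ω) * x) < 1
        rw [map_mul]
        exact mul_lt_one_of_nonneg_of_lt_one_right h1 zero_le hx }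
  obtain ⟨U, hU⟩ := IsNoetherian.noetherian I
  refine ⟨S ∪ U.image Subtype.val, ?_, Finset.subset_union_left, ?_⟩
  · intro t ht
    rcases Finset.mem_union.1 ht with ht | ht
    · exact Subring.subset_closure ht
    · obtain ⟨u, -, rfl⟩ := Finset.mem_image.1 ht
      exact u.2
  · intro E _ _ φ h hr
    have h1 : ∀ x ∈ Subring.closure (S : Set Ω), ‖φ x‖ ≤ 1 := fun x hx =>
      PH.norm_le_one h (fun s hs => (hr s (by simp [show s ∈ S from hs])).1 (hS s hs)) hx
    have h2 : ∀ x ∈ Submodule.span (Subring.closure (S : Set Ω))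
        (U : Set (Subring.closure (S : Set Ω))), ‖φ x‖ < 1 := by
      intro x hx
      induction hx using Submodule.span_induction with
      | mem x hx =>
        have hxI : x ∈ I := by rw [← hU]; exact Submodule.subset_span hx
        refine (hr x ?_).2 hxI
        rw [Finset.coe_union]
        exact Or.inr (Finset.mem_image_of_mem _ hx)
      | zero => rw [ZeroMemClass.coe_zero, h.zero]; simp
      | add x y _ _ ih ih' =>
        rw [Subring.coe_add, h.add _ x.2 _ y.2]
        exact (IsUltrametricDist.norm_add_le_max _ _).trans_lt (max_lt ih ih')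
      | smul c x _ ih =>
        rw [smul_eq_mul, Subring.coe_mul, h.mul _ c.2 _ x.2, norm_mul]
        exact mul_lt_one_of_nonneg_of_lt_one_right (h1 _ c.2) (norm_nonneg _) ih
    intro y hy
    exact ⟨fun _ => h1 y hy, fun hv => h2 ⟨y, hy⟩ (by rw [hU]; exact hv)⟩

/-- Units go to units. -/
theorem Resp.unit (hv : ResAlg v) {E : Type} [NormedField E] [IsUltrametricDist E] {A : Subring Ω}
    {φ : Ω → E} (h : IsPH A φ) (hr : Resp v A φ) {x : Ω} (hx : x ∈ A) (h1 : v x = 1) :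
    ‖φ x‖ = 1 := by
  obtain ⟨N, hN, e⟩ := hv x h1.le
  rw [show x ^ (N + 1) - x = x * (x ^ N - 1) by ring, map_mul, h1, one_mul] at e
  have h2 := (hr _ (A.sub_mem (A.pow_mem hx N) A.one_mem)).2 e
  rw [h.sub (A.pow_mem hx N) A.one_mem, h.pow hx, h.one] at h2
  refine le_antisymm ((hr x hx).1 h1.le) (not_lt.1 fun hlt => ?_)
  have h3 : ‖φ x ^ N‖ < 1 := by
    rw [norm_pow]
    exact pow_lt_one₀ (norm_nonneg _) hlt hN.ne'
  have h4 := IsUltrametricDist.norm_add_le_max (φ x ^ N) (-(φ x ^ N - 1))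
  rw [norm_neg, show φ x ^ N + -(φ x ^ N - 1) = 1 by ring, norm_one] at h4
  exact (max_lt h3 h2).not_ge h4

end Val

end Pool.Agent.Lib.MP_132c47_lc
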