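import Pool.Agent.Lib.MP_132c47_lc.VB
import Pool.Agent.Lib.MP_132c47_lc.PH

/-! Galois specialization. -/

namespace Pool.Agent.Lib.MP_132c47_lc

open Polynomial

set_option linter.unusedSectionVars false

namespace GS

variable {Ω : Type} [Field Ω] {G : Type} [Group G] [MulSemiringAction G Ω]

theorem mem_P {A : Subring Ω} {f : Polynomial Ω} :
    f ∈ (mapRingHom A.subtype).range ↔ ∀ i, f.coeff i ∈ A := by
  refine (mem_lifts f).symm.trans ((lifts_iff_coeff_lifts f).trans (forall_congr' fun i => ?_))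
  exact ⟨fun ⟨a, e⟩ => e ▸ a.2, fun h => ⟨⟨_, h⟩, rfl⟩⟩

theorem C_mem {A : Subring Ω} {a : Ω} (h : a ∈ A) : C a ∈ (mapRingHom A.subtype).range :=
  ⟨C ⟨a, h⟩, by simp⟩

theorem lin_mem {A : Subring Ω} {a : Ω} (h : a ∈ A) : X - C a ∈ (mapRingHom A.subtype).range :=
  sub_mem ⟨X, by simp⟩ (C_mem h)

theorem fix_coeff {f : Polynomial Ω} {g : G} (h : f.map (MulSemiringAction.toRingHom G Ω g) = f)
    (i : ℕ) : g • f.coeff i = f.coeff i := by
  simpa using congrArg (coeff · i) h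

theorem smul_eval {f : Polynomial Ω} {g : G} (h : ∀ i, g • f.coeff i = f.coeff i) (x : Ω) :
    f.eval (g • x) = g • f.eval x := by
  simp only [eval_eq_sum_range, Finset.smul_sum, smul_mul', smul_pow', h]

theorem fix_prod {S : Finset Ω} (hS : ∀ g : G, ∀ y ∈ S, g • y ∈ S) (g : G) (i : ℕ) :
    g • (∏ o ∈ S, (X - C o)).coeff i = (∏ o ∈ S, (X - C o)).coeff i := by
  refine fix_coeff ?_ i
  rw [Polynomial.map_prod]
  exact Finset.prod_nbij' (fun o => g • o) (fun o => g⁻¹ • o) (hS g) (hS g⁻¹) (by simp) (by simp)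
    (by simp)

theorem exists_theta [CharZero Ω] (hf : ∀ x : Ω, (Set.range fun g : G => g • x).Finite)
    {M : Subfield Ω} (S : Finset Ω) (hS : ∀ x ∈ S, x ∈ M) :
    ∃ θ ∈ M, ∀ g : G, g • θ = θ ↔ ∀ x ∈ S, g • x = x := by
  classical
  induction S using Finset.induction_on with
  | empty => exact ⟨0, zero_mem _, by simp⟩
  | insert x S _ ih =>
    obtain ⟨θ, h1, h2⟩ := ih fun y hy => hS y (Finset.mem_insert_of_mem hy)
    obtain ⟨n, hn⟩ := ((((hf θ).prod (hf x)).image fun p => (θ - p.1) / (p.2 - x)).preimage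
      (Nat.cast_injective (R := Ω)).injOn).exists_notMem
    have e : ∀ g : G, g • (θ + n * x) = g • θ + n * g • x := fun g => by
      rw [smul_add, ← nsmul_eq_mul, smul_comm, nsmul_eq_mul]
    refine ⟨θ + n * x, add_mem h1 (mul_mem (natCast_mem M n) (hS x (Finset.mem_insert_self _ _))),
      fun g => ?_⟩
    rw [Finset.forall_mem_insert, ← h2, e]
    refine ⟨fun h => ?_, fun h => by rw [h.1, h.2]⟩
    have : g • x = x := by
      by_contra c
      refine hn ⟨(g • θ, g • x), ⟨⟨g, rfl⟩, ⟨g, rfl⟩⟩, ?_⟩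
      have := sub_ne_zero.2 c
      field_simp
      linear_combination -h
    exact ⟨this, by simpa [this] using h⟩

theorem interp {M : Subfield Ω} (hG : ∀ g : G, ∀ x ∈ M, g • x ∈ M) {θ x : Ω} (hθ : θ ∈ M)
    (hx : x ∈ M) {O : Finset Ω} (hO : ∀ y, y ∈ O ↔ ∃ g : G, g • θ = y)
    (h : ∀ g : G, g • θ = θ → g • x = x) : ∃ P : Polynomial Ω,
      (∀ i, P.coeff i ∈ M ∧ ∀ g : G, g • P.coeff i = P.coeff i) ∧ P.eval θ = x := by
  classical
  choose! c hc using fun y => (hO y).1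
  have hm : ∀ y ∈ O, y ∈ M := fun y hy => hc y hy ▸ hG _ _ hθ
  have ev : ∀ g : G, (Lagrange.interpolate O id fun y => c y • x).eval (g • θ) = g • x := fun g => by
    have hg := (hO _).2 ⟨g, rfl⟩
    refine (Lagrange.eval_interpolate_at_node _ (Set.injOn_id _) hg).trans ?_
    rw [← inv_smul_eq_iff, smul_smul]
    exact h _ (by rw [mul_smul, hc _ hg, inv_smul_smul])
  have dg := Lagrange.degree_interpolate_lt (s := O) (fun y => c y • x) (Set.injOn_id _)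
  refine ⟨Lagrange.interpolate O id fun y => c y • x, fun i => ⟨?_, fun g => ?_⟩, ?_⟩
  · refine (mem_P (A := M.toSubring)).1 ?_ i
    rw [Lagrange.interpolate_apply]
    exact sum_mem fun y hy => mul_mem (C_mem (hG _ _ hx)) (prod_mem fun z hz =>
      mul_mem (C_mem (M.inv_mem (M.sub_mem (hm y hy) (hm z (Finset.mem_of_mem_erase hz)))))
        (lin_mem (hm z (Finset.mem_of_mem_erase hz))))
  · refine fix_coeff (eq_of_degrees_lt_of_eval_finset_eq O (by rwa [degree_map]) dg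
      fun y hy => ?_) i
    obtain ⟨g', rfl⟩ := (hO y).1 hy
    have := eval_map_apply (p := Lagrange.interpolate O id fun y => c y • x)
      (MulSemiringAction.toRingHom G Ω g) ((g⁻¹ * g') • θ)
    rw [ev] at this
    rw [ev]
    simpa [smul_smul] using this
  · simpa using ev 1

variable {Γ₀ : Type} [LinearOrderedCommGroupWithZero Γ₀] {v : Valuation Ω Γ₀}

theorem v_coeff {S : Finset Ω} {x : Ω} (hS : ∀ y ∈ S, v y = v x) (i : ℕ) (hi : i ≤ S.card) :
    v ((∏ o ∈ S, (X - C o)).coeff i) ≤ v x ^ (S.card - i) := by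
  obtain ⟨a, ha, e⟩ := coeff_prod_mem v.integer x S.val (fun r hr => by
    by_cases c : x = 0
    · exact ⟨0, zero_mem _, by simpa [c] using hS r hr⟩
    · exact ⟨r / x, by simp [Valuation.mem_integer_iff, hS r hr, c], by field_simp⟩)
    (i := S.card - i) (Nat.sub_le _ _)
  rw [Finset.card_val, Nat.sub_sub_self hi] at e
  rw [Finset.prod_eq_multiset_prod, e, map_mul, map_pow]
  exact mul_le_of_le_one_right' ha

end GS

variable {Ω : Type} [Field Ω] {Γ₀ : Type} [LinearOrderedCommGroupWithZero Γ₀]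
  {v : Valuation Ω Γ₀} {G : Type} [Group G] [MulSemiringAction G Ω]
  {C : Type} [NormedField C] [IsUltrametricDist C] [CompleteSpace C] [IsAlgClosed C] [CharZero C]
  {p : ℕ} [Fact p.Prime]

open GS in
theorem galSpec [CharZero Ω] (hA : Act v G) (K₀ : Subfield C) {M : Subfield Ω}
    (hG : ∀ g : G, ∀ x ∈ M, g • x ∈ M)
    (IH : ∀ Y : Finset Ω, (∀ y ∈ Y, y ∈ M ∧ ∀ g : G, g • y = y) → Spec v K₀ Y)
    (T : Finset Ω) (hT : ∀ x ∈ T, x ∈ M) :
    ∃ (K₁ : IntermediateField K₀ C) (_ : FiniteDimensional K₀ K₁) (_ : IsGalois K₀ K₁)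
      (A : Subring Ω) (ι : Ω → K₁) (γ : (K₁ ≃ₐ[K₀] K₁) → G),
      IsPH A ι ∧ (∀ x ∈ A, x ∈ M) ∧ (∀ x ∈ T, x ∈ A) ∧ (∀ g : G, ∀ x ∈ A, g • x ∈ A) ∧
      Resp v T ι ∧ (∀ τ, ∀ x ∈ A, τ • ι x = ι (γ τ • x)) ∧
      (∀ τ τ', ∀ x ∈ T, γ (τ * τ') • x = γ τ • γ τ' • x) ∧ ∀ x ∈ T, γ 1 • x = x := by
  classical
  obtain ⟨O, hO⟩ : ∃ O : Ω → Finset Ω, ∀ x y, y ∈ O x ↔ ∃ g : G, g • x = y :=
    ⟨fun x => (hA.fin x).toFinset, by simp⟩
  have Oself : ∀ x, x ∈ O x := fun x => (hO x x).2 ⟨1, one_smul _ _⟩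
  have Ost : ∀ x (g : G), ∀ y ∈ O x, g • y ∈ O x := fun x g y hy => by
    obtain ⟨g', rfl⟩ := (hO x y).1 hy
    exact (hO _ _).2 ⟨g * g', mul_smul _ _ _⟩
  have OM : ∀ x ∈ M, ∀ y ∈ O x, y ∈ M := fun x hx y hy => by
    obtain ⟨g', rfl⟩ := (hO x y).1 hy
    exact hG _ _ hx
  obtain ⟨θ, θM, hθ⟩ := exists_theta hA.fin (T.biUnion O) fun y hy => by
    obtain ⟨x, hx, h⟩ := Finset.mem_biUnion.1 hy
    exact OM x (hT x hx) y h
  have fT : ∀ g : G, g • θ = θ → ∀ x ∈ T, g • x = x := fun g h x hx =>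
    (hθ g).1 h x (Finset.mem_biUnion.2 ⟨x, hx, Oself x⟩)
  have fO : ∀ g : G, g • θ = θ → ∀ o ∈ O θ, g • o = o := fun g h o ho => by
    obtain ⟨g', rfl⟩ := (hO _ _).1 ho
    rw [eq_comm, smul_smul, eq_comm, ← inv_smul_eq_iff, smul_smul]
    refine (hθ _).2 fun y hy => ?_
    obtain ⟨x, hx, hy⟩ := Finset.mem_biUnion.1 hy
    rw [mul_smul, mul_smul, (hθ g).1 h _ (Finset.mem_biUnion.2 ⟨x, hx, Ost x _ _ hy⟩),
      inv_smul_smul]
  set Z := T ∪ O θ ∪ (O θ ×ˢ O θ).image fun q => (q.1 - q.2)⁻¹ with hZ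
  have hZ' : ∀ x ∈ Z, x ∈ M ∧ ∀ g : G, g • θ = θ → g • x = x := fun x hx => by
    simp only [hZ, Finset.mem_union, Finset.mem_image, Finset.mem_product] at hx
    rcases hx with (hx | hx) | ⟨q, hq, rfl⟩
    · exact ⟨hT x hx, fun g h => fT g h x hx⟩
    · exact ⟨OM θ θM x hx, fun g h => fO g h x hx⟩
    · exact ⟨M.inv_mem (M.sub_mem (OM θ θM _ hq.1) (OM θ θM _ hq.2)), fun g h => by
        rw [smul_inv'', smul_sub, fO g h _ hq.1, fO g h _ hq.2]⟩
  choose! P hP1 hP2 using fun x (hx : x ∈ Z) => interp hG θM (hZ' x hx).1 (hO θ) (hZ' x hx).2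
  set h : Ω → Polynomial Ω := fun x => ∏ o ∈ O x, (X - Polynomial.C o) with hh
  have hm : ∀ x, (h x).Monic := fun x => monic_prod_of_monic _ _ fun o _ => monic_X_sub_C o
  have hd : ∀ x, (h x).natDegree = (O x).card := fun x => natDegree_finsetProd_X_sub_C_eq_card _ _
  have hd0 : ∀ x, 0 < (h x).natDegree := fun x => hd x ▸ Finset.card_pos.2 ⟨x, Oself x⟩
  have he : ∀ x, (h x).eval x = 0 := fun x => by
    rw [hh, eval_prod]; exact Finset.prod_eq_zero (Oself x) (by simp)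
  have hc : ∀ x ∈ M, ∀ i, (h x).coeff i ∈ M ∧ ∀ g : G, g • (h x).coeff i = (h x).coeff i :=
    fun x hx i => ⟨(mem_P (A := M.toSubring)).1 (prod_mem fun o ho => lin_mem (OM x hx o ho)) i,
      fun g => fix_prod (Ost x) g i⟩
  obtain ⟨Y, Y1, Y2, Y3⟩ : ∃ Y : Finset Ω, (∀ y ∈ Y, y ∈ M ∧ ∀ g : G, g • y = y) ∧
      (∀ x ∈ Z, ∀ i, (P x).coeff i ∈ Y) ∧ ∀ x ∈ Z, ∀ i, (h x).coeff i ∈ Y := by
    have co : ∀ (f : Polynomial Ω) i, f.coeff i = 0 ∨ f.coeff i ∈ f.coeffs := fun f i =>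
      (eq_or_ne _ _).imp_right (coeff_mem_coeffs)
    refine ⟨insert 0 (Z.biUnion fun x => (P x).coeffs ∪ (h x).coeffs), fun y hy => ?_,
      fun x hx i => Finset.mem_insert.2 ((co _ i).imp_right fun e =>
        Finset.mem_biUnion.2 ⟨x, hx, Finset.mem_union_left _ e⟩),
      fun x hx i => Finset.mem_insert.2 ((co _ i).imp_right fun e =>
        Finset.mem_biUnion.2 ⟨x, hx, Finset.mem_union_right _ e⟩)⟩
    simp only [Finset.mem_insert, Finset.mem_biUnion, Finset.mem_union, mem_coeffs_iff] at hy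
    rcases hy with rfl | ⟨x, hx, ⟨i, -, rfl⟩ | ⟨i, -, rfl⟩⟩
    exacts [⟨zero_mem _, fun g => smul_zero g⟩, hP1 x hx i, hc x (hZ' x hx).1 i]
  obtain ⟨φ, φ1, φ2, φ3⟩ := IH Y Y1
  set R := Subring.closure (Y : Set Ω) with hR
  have YR : ∀ y ∈ Y, y ∈ R := fun y hy => Subring.subset_closure hy
  have RM : ∀ y ∈ R, y ∈ M ∧ ∀ g : G, g • y = y := fun y hy =>
    (Subring.closure_le (t := M.toSubring ⊓ FixedPoints.subring Ω G)).2 (fun y hy => Y1 y hy) hy
  have φK : ∀ y ∈ R, φ y ∈ K₀ := φ1.map_closure Subring.subset_closure K₀.toSubring φ2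
  have θZ : θ ∈ Z := by simp [hZ, Oself]
  have OZ : ∀ o ∈ O θ, o ∈ Z := fun o ho => by simp [hZ, ho]
  have TZ : ∀ x ∈ T, x ∈ Z := fun x hx => by simp [hZ, hx]
  obtain ⟨m1, m2⟩ := φ1.monic_pm (hm θ)
  obtain ⟨θ₀, hθ₀⟩ := IsAlgClosed.exists_root (pm φ (h θ))
    (natDegree_pos_iff_degree_pos.1 (m2 ▸ hd0 θ)).ne'
  obtain ⟨ι, ι1, ι2, ι3⟩ := φ1.ext_alg (hm θ) (fun i => YR _ (Y3 θ θZ i)) (he θ) (fun f f1 f2 f3 => by
    rw [hd]
    refine card_le_degree_of_subset_roots fun o ho => ?_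
    obtain ⟨g, rfl⟩ := (hO θ o).1 ho
    rw [mem_roots f3, IsRoot, smul_eval fun i => (RM _ (f1 i)).2 g, f2, smul_zero]) hθ₀
  set A := Subring.closure (insert θ (R : Set Ω)) with hAd
  have θA : θ ∈ A := Subring.subset_closure (Set.mem_insert _ _)
  have RA : ∀ y ∈ R, y ∈ A := fun y hy => Subring.subset_closure (Set.mem_insert_of_mem _ hy)
  have ZA : ∀ x ∈ Z, x ∈ A := fun x hx =>
    hP2 x hx ▸ (ι1.eval_pm (fun i => RA _ (YR _ (Y2 x hx i))) θA).1
  have gA : ∀ g : G, ∀ x ∈ A, g • x ∈ A := fun g x hx =>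
    (Subring.closure_le (t := A.comap (MulSemiringAction.toRingHom G Ω g))).2 (by
      rintro y (rfl | hy)
      · exact ZA _ (OZ _ (Ost _ g _ (Oself _)))
      · show g • y ∈ A
        rw [(RM y hy).2]; exact RA y hy) hx
  obtain ⟨q, hq⟩ : ∃ q : Polynomial K₀, q.map (algebraMap K₀ C) = pm φ (h θ) :=
    (mem_lifts _).1 ((lifts_iff_coeff_lifts _).2 fun i =>
      ⟨⟨_, φK _ (YR _ (Y3 θ θZ i))⟩, (coeff_pm φ1.zero _ i).symm⟩)
  have q0 : q ≠ 0 := fun e => m1.ne_zero (by rw [← hq, e, Polynomial.map_zero])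
  have sp := IntermediateField.adjoin_rootSet_isSplittingField (p := q) (L := C)
    (IsAlgClosed.splits _)
  set K₁ := IntermediateField.adjoin K₀ (q.rootSet C)
  have fd : FiniteDimensional K₀ K₁ := IsSplittingField.finiteDimensional K₁ q
  have nm : Normal K₀ K₁ := Normal.of_isSplittingField q
  have rt : θ₀ ∈ q.rootSet C := mem_rootSet.2 ⟨q0, by rw [aeval_def, eval₂_eq_eval_map, hq, hθ₀]⟩
  have ιK : ∀ x ∈ A, ι x ∈ K₁ := ι1.map_closure Subring.subset_closure K₁.toSubring (by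
    rintro y (rfl | hy)
    · rw [ι3]; exact IntermediateField.subset_adjoin _ _ rt
    · rw [ι2 y hy]; exact K₁.algebraMap_mem ⟨_, φK y hy⟩)
  obtain ⟨j, hj⟩ : ∃ j : Ω → K₁, ∀ x ∈ A, (j x : C) = ι x :=
    ⟨fun x => if c : ι x ∈ K₁ then ⟨ι x, c⟩ else 0, fun x hx => by simp [ιK x hx]⟩
  have j1 : IsPH A j := ⟨Subtype.ext (by rw [hj 1 A.one_mem, ι1.one]; rfl),
    fun x hx y hy => Subtype.ext (by
      rw [hj _ (A.add_mem hx hy), ι1.add x hx y hy, ← hj x hx, ← hj y hy]; rfl),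
    fun x hx y hy => Subtype.ext (by
      rw [hj _ (A.mul_mem hx hy), ι1.mul x hx y hy, ← hj x hx, ← hj y hy]; rfl)⟩
  have pe : pm φ (h θ) = ∏ o ∈ O θ, (X - Polynomial.C (ι o)) := by
    refine Eq.trans ?_ (ι1.pm_prod (O θ).val fun o ho => ZA o (OZ o ho))
    ext i
    rw [coeff_pm φ1.zero, coeff_pm ι1.zero]
    exact (ι2 _ (YR _ (Y3 θ θZ i))).symm
  have ex : ∀ τ : K₁ ≃ₐ[K₀] K₁, ∃ g : G, τ • j θ = j (g • θ) := fun τ => by
    have e1 : aeval (j θ) q = 0 := Subtype.ext (by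
      rw [← IntermediateField.aeval_coe, hj θ θA, ι3]; exact (mem_rootSet.1 rt).2)
    have e2 : aeval ((τ (j θ) : K₁) : C) q = 0 := by
      rw [IntermediateField.aeval_coe, aeval_algEquiv, AlgHom.comp_apply, e1]; simp
    rw [aeval_def, eval₂_eq_eval_map, hq, pe, eval_prod, Finset.prod_eq_zero_iff] at e2
    obtain ⟨o, ho, e⟩ := e2
    obtain ⟨g, rfl⟩ := (hO θ o).1 ho
    exact ⟨g, Subtype.ext (by rw [hj _ (gA g θ θA)]; simpa [sub_eq_zero] using e)⟩
  choose γ hγ using ex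
  have main : ∀ τ, ∀ x ∈ A, τ • j x = j (γ τ • x) := fun τ =>
    IsPH.eq_on_closure (A := A) (φ := fun x => τ • j x) (ψ := fun x => j (γ τ • x))
      ⟨by simp [j1.one], fun x hx y hy => by simp [j1.add x hx y hy],
        fun x hx y hy => by simp [j1.mul x hx y hy]⟩
      ⟨by simp [j1.one], fun x hx y hy => by
        simp [j1.add _ (gA _ x hx) _ (gA _ y hy)], fun x hx y hy => by
        simp [j1.mul _ (gA _ x hx) _ (gA _ y hy)]⟩ Subring.subset_closure (by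
      rintro y (rfl | hy)
      · exact hγ τ
      · have : j y = algebraMap K₀ K₁ ⟨_, φK y hy⟩ :=
          Subtype.ext (by rw [hj y (RA y hy), ι2 y hy]; rfl)
        rw [(RM y hy).2, this]
        exact τ.commutes _)
  have inj : ∀ g g' : G, j (g • θ) = j (g' • θ) → ∀ x ∈ T, g • x = g' • x := fun g g' e x hx => by
    have : g • θ = g' • θ := by
      by_contra c
      refine j1.ne_zero (sub_ne_zero.2 c) (A.sub_mem (gA g θ θA) (gA g' θ θA)) (ZA _ ?_)
        (by rw [j1.sub (gA g θ θA) (gA g' θ θA), e, sub_self])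
      exact Finset.mem_union_right _ (Finset.mem_image.2 ⟨(g • θ, g' • θ),
        Finset.mem_product.2 ⟨Ost _ _ _ (Oself _), Ost _ _ _ (Oself _)⟩, rfl⟩)
    rw [← inv_smul_eq_iff, smul_smul] at this ⊢
    exact fT _ this x hx
  refine ⟨K₁, fd, IsGalois.mk, A, j, γ, j1, fun x hx => ?_, fun x hx => ZA x (TZ x hx), gA,
    fun x hx => ?_, main, fun τ τ' x hx => ?_, fun x hx => ?_⟩
  · exact (Subring.closure_le (t := M.toSubring)).2 (by
      rintro y (rfl | hy)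
      exacts [θM, (RM y hy).1]) hx
  · have xZ := TZ x hx
    have cA : ∀ i, (h x).coeff i ∈ R := fun i => YR _ (Y3 x xZ i)
    obtain ⟨n1, n2⟩ := ι1.monic_pm (hm x)
    have ev : (pm ι (h x)).eval (ι x) = 0 := by
      rw [← (ι1.eval_pm (fun i => RA _ (cA i)) (ZA x xZ)).2, he, ι1.zero]
    have vc := v_coeff (v := v) (S := O x) (x := x) fun y hy => by
      obtain ⟨g, rfl⟩ := (hO x y).1 hy
      exact hA.v_smul g x
    have nj : ‖j x‖ = ‖ι x‖ := by rw [← hj x (ZA x xZ)]; rfl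
    rw [nj]
    refine ⟨fun c => ?_, fun c => ?_⟩
    · refine v_le_one_of_monic (v := NormedField.valuation) n1 (fun i => ?_) (x := ι x)
        (by simp [ev]) (n2 ▸ hd0 x)
      rw [coeff_pm ι1.zero, ι2 _ (cA i)]
      refine (φ3 _ (Y3 x xZ i)).1 ?_
      by_cases l : i ≤ (O x).card
      · exact (vc i l).trans (pow_le_one₀ zero_le c)
      · rw [coeff_eq_zero_of_natDegree_lt (by rw [hd]; omega)]; simp
    · refine v_lt_one_of_monic (v := NormedField.valuation) n1 (fun i hi => ?_) (by simp [ev])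
        (n2 ▸ hd0 x)
      rw [coeff_pm ι1.zero, ι2 _ (cA i)]
      rw [n2, hd] at hi
      exact (φ3 _ (Y3 x xZ i)).2 ((vc i hi.le).trans_lt (pow_lt_one₀ zero_le c (by omega)))
  · rw [smul_smul]
    refine inj _ _ ?_ x hx
    rw [← hγ, mul_smul, hγ, main _ _ (gA _ θ θA), mul_smul]
  · simpa using inj (γ 1) 1 (by rw [← hγ, one_smul, one_smul]) x hx

end Pool.Agent.Lib.MP_132c47_lc
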