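import Pool.Agent.Lib.MP_132c47_lc.Defs3

/-! Hensel's lemma and integral functions on the open unit disc. -/

namespace Pool.Agent.Lib.MP_132c47_lc

open Polynomial

namespace KL

variable {E : Type} [NormedField E] [IsUltrametricDist E]

lemma add_le {a b : E} {r : ℝ} (ha : ‖a‖ ≤ r) (hb : ‖b‖ ≤ r) : ‖a + b‖ ≤ r :=
  (IsUltrametricDist.norm_add_le_max a b).trans (max_le ha hb)

lemma add_lt {a b : E} {r : ℝ} (ha : ‖a‖ < r) (hb : ‖b‖ < r) : ‖a + b‖ < r :=
  (IsUltrametricDist.norm_add_le_max a b).trans_lt (max_lt ha hb)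

lemma sub_le {a b : E} {r : ℝ} (ha : ‖a‖ ≤ r) (hb : ‖b‖ ≤ r) : ‖a - b‖ ≤ r := by
  rw [sub_eq_add_neg]; exact add_le ha (by rwa [norm_neg])

lemma sub_lt {a b : E} {r : ℝ} (ha : ‖a‖ < r) (hb : ‖b‖ < r) : ‖a - b‖ < r := by
  rw [sub_eq_add_neg]; exact add_lt ha (by rwa [norm_neg])

lemma sub_le_max (a b : E) : ‖a - b‖ ≤ max ‖a‖ ‖b‖ := sub_le (le_max_left _ _) (le_max_right _ _)

lemma sum_le {ι : Type} (s : Finset ι) (f : ι → E) {r : ℝ} (hr : 0 ≤ r)
    (h : ∀ i ∈ s, ‖f i‖ ≤ r) : ‖∑ i ∈ s, f i‖ ≤ r :=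
  IsUltrametricDist.norm_sum_le_of_forall_le_of_nonneg hr h

lemma sum_lt {ι : Type} (s : Finset ι) (f : ι → E) {r : ℝ} (hr : 0 < r)
    (h : ∀ i ∈ s, ‖f i‖ < r) : ‖∑ i ∈ s, f i‖ < r := by
  classical
  induction s using Finset.induction_on with
  | empty => simpa using hr
  | insert a s ha ih =>
    rw [Finset.sum_insert ha]
    exact add_lt (h a (Finset.mem_insert_self _ _))
      (ih fun i hi => h i (Finset.mem_insert_of_mem hi))

lemma norm_eq_of_sub_lt {a b : E} (h : ‖a - b‖ < ‖b‖) : ‖a‖ = ‖b‖ := by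
  apply le_antisymm
  · have : a = (a - b) + b := by ring
    rw [this]; exact add_le h.le le_rfl
  · by_contra hlt
    push Not at hlt
    have : b = a - (a - b) := by ring
    have h2 : ‖a - (a - b)‖ < ‖b‖ := sub_lt hlt h
    rw [← this] at h2
    exact lt_irrefl _ h2

omit [IsUltrametricDist E] in
lemma mul_le_left {a b : E} {r : ℝ} (ha : ‖a‖ ≤ r) (hb : ‖b‖ ≤ 1) : ‖a * b‖ ≤ r := by
  rw [norm_mul]
  exact (mul_le_of_le_one_right (norm_nonneg _) hb).trans ha

omit [IsUltrametricDist E] in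
lemma mul_le_right {a b : E} {r : ℝ} (ha : ‖a‖ ≤ 1) (hb : ‖b‖ ≤ r) : ‖a * b‖ ≤ r := by
  rw [mul_comm]; exact mul_le_left hb ha

omit [IsUltrametricDist E] in
lemma mul_lt_left {a b : E} {r : ℝ} (ha : ‖a‖ < r) (hb : ‖b‖ ≤ 1) : ‖a * b‖ < r :=
  (mul_le_left le_rfl hb).trans_lt ha

omit [IsUltrametricDist E] in
lemma mul_lt_right {a b : E} {r : ℝ} (ha : ‖a‖ ≤ 1) (hb : ‖b‖ < r) : ‖a * b‖ < r :=
  (mul_le_right ha le_rfl).trans_lt hb

omit [IsUltrametricDist E] in
lemma mul_le_mul_norm {a b : E} {r s : ℝ} (ha : ‖a‖ ≤ r) (hb : ‖b‖ ≤ s) : ‖a * b‖ ≤ r * s := by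
  rw [norm_mul]
  exact mul_le_mul ha hb (norm_nonneg _) ((norm_nonneg _).trans ha)

omit [IsUltrametricDist E] in
lemma pow_le {a : E} (ha : ‖a‖ ≤ 1) (n : ℕ) : ‖a ^ n‖ ≤ 1 := by
  rw [norm_pow]; exact pow_le_one₀ (norm_nonneg _) ha

lemma nat_le (n : ℕ) : ‖(n : E)‖ ≤ 1 := IsUltrametricDist.norm_natCast_le_one E n

lemma eval_le {f : Polynomial E} {r : ℝ} (hr : 0 ≤ r) (hc : ∀ i, ‖f.coeff i‖ ≤ r) {x : E}
    (hx : ‖x‖ ≤ 1) : ‖f.eval x‖ ≤ r := by
  rw [eval_eq_sum_range]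
  exact sum_le _ _ hr fun i _ => mul_le_left (hc i) (pow_le hx i)

lemma deriv_le {f : Polynomial E} {r : ℝ} (hc : ∀ i, ‖f.coeff i‖ ≤ r) (i : ℕ) :
    ‖f.derivative.coeff i‖ ≤ r := by
  rw [coeff_derivative]
  refine mul_le_left (hc _) ?_
  have := nat_le (E := E) (i + 1)
  simpa using this

lemma taylor_pow {x y : E} (hx : ‖x‖ ≤ 1) (hy : ‖y‖ ≤ 1) (n : ℕ) :
    ‖y ^ n - x ^ n - n * x ^ (n - 1) * (y - x)‖ ≤ ‖y - x‖ ^ 2 := by
  induction n with
  | zero => simp
  | succ n ih =>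
    have e : y ^ (n + 1) - x ^ (n + 1) - ((n + 1 : ℕ) : E) * x ^ (n + 1 - 1) * (y - x) =
        y * (y ^ n - x ^ n - n * x ^ (n - 1) * (y - x)) + n * x ^ (n - 1) * (y - x) ^ 2 := by
      rcases n with _ | n
      · simp
      · simp only [Nat.add_sub_cancel]
        push_cast
        ring
    rw [e]
    refine add_le (mul_le_right hy ih) (mul_le_right ?_ (by rw [norm_pow]))
    exact mul_le_left (nat_le n) (pow_le hx _)

lemma taylor {f : Polynomial E} (hc : ∀ i, ‖f.coeff i‖ ≤ 1) {x y : E} (hx : ‖x‖ ≤ 1)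
    (hy : ‖y‖ ≤ 1) : ‖f.eval y - f.eval x - f.derivative.eval x * (y - x)‖ ≤ ‖y - x‖ ^ 2 := by
  rw [derivative_eval, eval_eq_sum, eval_eq_sum, Polynomial.sum, Polynomial.sum, Polynomial.sum,
    Finset.sum_mul, ← Finset.sum_sub_distrib, ← Finset.sum_sub_distrib]
  refine sum_le _ _ (by positivity) fun i _ => ?_
  have e : f.coeff i * y ^ i - f.coeff i * x ^ i - f.coeff i * i * x ^ (i - 1) * (y - x) =
      f.coeff i * (y ^ i - x ^ i - i * x ^ (i - 1) * (y - x)) := by ring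
  rw [e]
  exact mul_le_right (hc i) (taylor_pow hx hy i)

lemma eval_lip {f : Polynomial E} (hc : ∀ i, ‖f.coeff i‖ ≤ 1) {x y : E} (hx : ‖x‖ ≤ 1)
    (hy : ‖y‖ ≤ 1) : ‖f.eval y - f.eval x‖ ≤ ‖y - x‖ := by
  have e : f.eval y - f.eval x = (f.eval y - f.eval x - f.derivative.eval x * (y - x)) +
      f.derivative.eval x * (y - x) := by ring
  rw [e]
  refine add_le ((taylor hc hx hy).trans ?_)
    (mul_le_right (eval_le zero_le_one (deriv_le hc) hx) le_rfl)
  have h1 : ‖y - x‖ ≤ 1 := sub_le hy hx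
  rw [sq]
  exact mul_le_of_le_one_right (norm_nonneg _) h1

lemma contract [CompleteSpace E] (T : E → E) (a : E) {r k : ℝ} (hr : 0 ≤ r) (hk0 : 0 ≤ k)
    (hk : k < 1) (hT : ∀ x y, ‖x - a‖ ≤ r → ‖y - a‖ ≤ r → ‖T x - T y‖ ≤ k * ‖x - y‖)
    (ha : ‖T a - a‖ ≤ r) : ∃ x, ‖x - a‖ ≤ r ∧ T x = x := by
  have hs : IsComplete (Metric.closedBall a r) := Metric.isClosed_closedBall.isComplete
  have hm : Set.MapsTo T (Metric.closedBall a r) (Metric.closedBall a r) := by
    intro x hx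
    rw [mem_closedBall_iff_norm] at hx ⊢
    have e : T x - a = (T x - T a) + (T a - a) := by ring
    rw [e]
    refine add_le ((hT x a hx (by simpa using hr)).trans ?_) ha
    exact (mul_le_of_le_one_left (norm_nonneg _) hk.le).trans hx
  have hc : ContractingWith ⟨k, hk0⟩ (hm.restrict T _ _) := by
    refine ⟨hk, LipschitzWith.of_dist_le_mul fun x y => ?_⟩
    have hx := mem_closedBall_iff_norm.1 x.2
    have hy := mem_closedBall_iff_norm.1 y.2
    have := hT x y hx hy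
    rw [Subtype.dist_eq, Subtype.dist_eq, dist_eq_norm, dist_eq_norm]
    exact this
  obtain ⟨y, hy, hf, -⟩ := hc.exists_fixedPoint' hs hm (x := a)
    (Metric.mem_closedBall_self hr) (edist_ne_top _ _)
  exact ⟨y, mem_closedBall_iff_norm.1 hy, hf⟩

/-- `HH` with explicit derivative. -/
def HD (u : E) (h : E → E) : Prop := ‖u‖ ≤ 1 ∧ (∀ x, ‖x‖ < 1 → ‖h x‖ ≤ 1) ∧
  ∀ x y, ‖x‖ < 1 → ‖y‖ < 1 → ‖h x - h y - u * (x - y)‖ ≤ ‖x - y‖ * max ‖x‖ ‖y‖

lemma HD.lip {u : E} {h : E → E} (hh : HD u h) {x y : E} (hx : ‖x‖ < 1) (hy : ‖y‖ < 1) :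
    ‖h x - h y‖ ≤ ‖x - y‖ := by
  have e : h x - h y = (h x - h y - u * (x - y)) + u * (x - y) := by ring
  rw [e]
  refine add_le ((hh.2.2 x y hx hy).trans ?_) (mul_le_right hh.1 le_rfl)
  exact mul_le_of_le_one_right (norm_nonneg _) (max_le hx.le hy.le)

lemma HD.lip0 {u : E} {h : E → E} (hh : HD u h) {x : E} (hx : ‖x‖ < 1) : ‖h x - h 0‖ ≤ ‖x‖ := by
  simpa using hh.lip hx (y := 0) (by simp)

end KL

open KL

variable {E : Type} [NormedField E] [IsUltrametricDist E]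

theorem hensel [CompleteSpace E] {f : Polynomial E} (hc : ∀ i, ‖f.coeff i‖ ≤ 1) {a : E}
    (ha : ‖a‖ ≤ 1) (h0 : ‖f.eval a‖ < 1) (h1 : ‖f.derivative.eval a‖ = 1) :
    ∃ b, f.eval b = 0 ∧ ‖b - a‖ < 1 := by
  set D := f.derivative.eval a with hD
  have hD0 : D ≠ 0 := by
    intro h; rw [h, norm_zero] at h1; exact zero_ne_one h1
  have hint : ∀ x, ‖x - a‖ ≤ ‖f.eval a‖ → ‖x‖ ≤ 1 := by
    intro x hx
    have : x = (x - a) + a := by ring
    rw [this]; exact add_le (hx.trans h0.le) ha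
  obtain ⟨x, hx, hT⟩ := contract (fun x => x - f.eval x / D) a (norm_nonneg (f.eval a))
    (norm_nonneg (f.eval a)) h0 (fun x y hx hy => by
      have e : x - f.eval x / D - (y - f.eval y / D) =
          -((f.eval x - f.eval y - f.derivative.eval y * (x - y)) +
            (f.derivative.eval y - D) * (x - y)) / D := by
        field_simp
        ring
      rw [e, norm_div, h1, div_one, norm_neg]
      have hxy : ‖x - y‖ ≤ ‖f.eval a‖ := by
        have : x - y = (x - a) - (y - a) := by ring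
        rw [this]; exact sub_le hx hy
      refine add_le ((taylor hc (hint y hy) (hint x hx)).trans ?_) (mul_le_mul_norm ?_ le_rfl)
      · rw [sq]; exact mul_le_mul_of_nonneg_right hxy (norm_nonneg _)
      · exact (eval_lip (deriv_le hc) ha (hint y hy)).trans hy)
    (by simp [norm_div, h1])
  refine ⟨x, ?_, hx.trans_lt h0⟩
  have : f.eval x / D = 0 := by linear_combination -hT
  exact (div_eq_zero_iff.1 this).resolve_right hD0

theorem hensel_unique {f : Polynomial E} (hc : ∀ i, ‖f.coeff i‖ ≤ 1) {b b' : E} (hb : ‖b‖ ≤ 1)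
    (h1 : ‖f.derivative.eval b‖ = 1) (e : f.eval b = 0) (e' : f.eval b' = 0)
    (h : ‖b' - b‖ < 1) : b' = b := by
  have hb' : ‖b'‖ ≤ 1 := by
    have : b' = (b' - b) + b := by ring
    rw [this]; exact add_le h.le hb
  have := taylor hc hb hb'
  rw [e, e', sub_zero, zero_sub, norm_neg, norm_mul, h1, one_mul] at this
  by_contra hne
  have hpos : 0 < ‖b' - b‖ := norm_pos_iff.2 (sub_ne_zero.2 hne)
  nlinarith

omit [IsUltrametricDist E] in
theorem HH.congr {f g : E → E} (h : HH f) (e : ∀ x, ‖x‖ < 1 → g x = f x) : HH g := by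
  obtain ⟨u, hu, h1, h2⟩ := h
  refine ⟨u, hu, fun x hx => by rw [e x hx]; exact h1 x hx, fun x y hx hy => ?_⟩
  rw [e x hx, e y hy]; exact h2 x y hx hy

omit [IsUltrametricDist E] in
theorem HH.const {c : E} (hc : ‖c‖ ≤ 1) : HH fun _ : E => c :=
  ⟨0, by simp, fun _ _ => hc, fun x y _ _ => by simp; positivity⟩

omit [IsUltrametricDist E] in
theorem HH.id : HH fun x : E => x :=
  ⟨1, by simp, fun _ hx => hx.le, fun x y _ _ => by simp; positivity⟩

theorem HH.add {f g : E → E} (hf : HH f) (hg : HH g) : HH fun x => f x + g x := by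
  obtain ⟨u, hu, h1, h2⟩ := hf
  obtain ⟨w, hw, k1, k2⟩ := hg
  refine ⟨u + w, add_le hu hw, fun x hx => add_le (h1 x hx) (k1 x hx), fun x y hx hy => ?_⟩
  have e : f x + g x - (f y + g y) - (u + w) * (x - y) =
      (f x - f y - u * (x - y)) + (g x - g y - w * (x - y)) := by ring
  simp only
  rw [e]
  exact add_le (h2 x y hx hy) (k2 x y hx hy)

omit [IsUltrametricDist E] in
theorem HH.neg {f : E → E} (hf : HH f) : HH fun x => -f x := by
  obtain ⟨u, hu, h1, h2⟩ := hf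
  refine ⟨-u, by simpa using hu, fun x hx => by simpa using h1 x hx, fun x y hx hy => ?_⟩
  have e : -f x - -f y - -u * (x - y) = -(f x - f y - u * (x - y)) := by ring
  simp only
  rw [e, norm_neg]
  exact h2 x y hx hy

theorem HH.mul {f g : E → E} (hf : HH f) (hg : HH g) : HH fun x => f x * g x := by
  obtain ⟨u, hf⟩ := hf
  obtain ⟨w, hg⟩ := hg
  have hf' : HD u f := hf
  have hg' : HD w g := hg
  have z : ‖(0 : E)‖ < 1 := by simp
  refine ⟨f 0 * w + g 0 * u, add_le (mul_le_left (hf.2.1 0 z) hg.1) (mul_le_left (hg.2.1 0 z) hf.1),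
    fun x hx => mul_le_left (hf.2.1 x hx) (hg.2.1 x hx), fun x y hx hy => ?_⟩
  have e : f x * g x - f y * g y - (f 0 * w + g 0 * u) * (x - y) =
      (f x * (g x - g y - w * (x - y)) + (x - y) * ((f x - f 0) * w)) +
      (g y * (f x - f y - u * (x - y)) + (x - y) * ((g y - g 0) * u)) := by ring
  simp only
  rw [e]
  refine add_le (add_le (mul_le_right (hf.2.1 x hx) (hg.2.2 x y hx hy)) ?_)
    (add_le (mul_le_right (hg.2.1 y hy) (hf.2.2 x y hx hy)) ?_)
  · exact mul_le_mul_norm le_rfl (mul_le_left ((hf'.lip0 hx).trans (le_max_left _ _)) hg.1)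
  · exact mul_le_mul_norm le_rfl (mul_le_left ((hg'.lip0 hy).trans (le_max_right _ _)) hf.1)

theorem HH.inv {f : E → E} (hf : HH f) (h : ∀ x, ‖x‖ < 1 → ‖f x‖ = 1) :
    HH fun x => (f x)⁻¹ := by
  obtain ⟨u, hf⟩ := hf
  have hf' : HD u f := hf
  have z : ‖(0 : E)‖ < 1 := by simp
  have hne : ∀ x, ‖x‖ < 1 → f x ≠ 0 := fun x hx h0 => by
    have := h x hx
    rw [h0, norm_zero] at this
    exact zero_ne_one this
  refine ⟨-u / f 0 ^ 2, by simpa [h 0 z] using hf.1, fun x hx => by simp [h x hx],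
    fun x y hx hy => ?_⟩
  have e : (f x)⁻¹ - (f y)⁻¹ - -u / f 0 ^ 2 * (x - y) =
      (-(f x - f y - u * (x - y)) * f 0 ^ 2 +
        (x - y) * (u * (f x * (f y - f 0) + f 0 * (f x - f 0)))) / (f x * f y * f 0 ^ 2) := by
    have := hne x hx
    have := hne y hy
    have := hne 0 z
    field_simp
    ring
  simp only
  rw [e, norm_div, norm_mul (f x * f y), norm_mul (f x), norm_pow, h x hx, h y hy, h 0 z]
  simp only [one_pow, mul_one, div_one]
  refine add_le (mul_le_left (by rw [norm_neg]; exact hf.2.2 x y hx hy)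
    (pow_le (h 0 z).le 2)) (mul_le_mul_norm le_rfl (mul_le_right hf.1 (add_le ?_ ?_)))
  · exact mul_le_right (h x hx).le ((hf'.lip0 hy).trans (le_max_right _ _))
  · exact mul_le_right (h 0 z).le ((hf'.lip0 hx).trans (le_max_left _ _))

theorem HH.one_add_zpow (i : ℤ) : HH fun x : E => (1 + x) ^ i := by
  have h1 : HH fun x : E => 1 + x := (HH.const (by simp)).add HH.id
  have hn : ∀ n : ℕ, HH fun x : E => (1 + x) ^ n := by
    intro n
    induction n with
    | zero => exact (HH.const (c := 1) (by simp)).congr fun x _ => by simp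
    | succ n ih => exact (ih.mul h1).congr fun x _ => pow_succ _ _
  rcases Int.eq_nat_or_neg i with ⟨n, rfl | rfl⟩
  · exact (hn n).congr fun x _ => zpow_natCast _ _
  · refine ((hn n).inv fun x hx => ?_).congr fun x _ => by simp
    have : ‖1 + x‖ = ‖(1 : E)‖ := norm_eq_of_sub_lt (by simpa using hx)
    rw [norm_pow, this]; simp

theorem HH.root {F : E → Polynomial E} {d : ℕ} (hd : ∀ x, ‖x‖ < 1 → (F x).natDegree ≤ d)
    (hc : ∀ i, HH fun x => (F x).coeff i) {β : E → E} (hβ : ∀ x, ‖x‖ < 1 → ‖β x‖ ≤ 1)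
    (hn : ∀ x y, ‖x‖ < 1 → ‖y‖ < 1 → ‖β x - β y‖ < 1)
    (h0 : ∀ x, ‖x‖ < 1 → (F x).eval (β x) = 0)
    (h1 : ∀ x, ‖x‖ < 1 → ‖(F x).derivative.eval (β x)‖ = 1) : HH β := by
  choose u hu using hc
  have hu' : ∀ i, HD (u i) fun x => (F x).coeff i := hu
  have z : ‖(0 : E)‖ < 1 := by simp
  have hint : ∀ x, ‖x‖ < 1 → ∀ i, ‖(F x).coeff i‖ ≤ 1 := fun x hx i => (hu i).2.1 x hx
  have hdiff : ∀ x y, ‖x‖ < 1 → ‖y‖ < 1 → ∀ i, ‖(F x - F y).coeff i‖ ≤ ‖x - y‖ := by
    intro x y hx hy i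
    rw [coeff_sub]; exact (hu' i).lip hx hy
  have hlip : ∀ x y, ‖x‖ < 1 → ‖y‖ < 1 → ‖β x - β y‖ ≤ ‖x - y‖ := by
    intro x y hx hy
    by_contra hlt
    push Not at hlt
    have hT := taylor (hint y hy) (hβ y hy) (hβ x hx)
    have hS := eval_le (norm_nonneg _) (hdiff x y hx hy) (hβ x hx)
    have e : (F y).derivative.eval (β y) * (β x - β y) =
        -((F y).eval (β x) - (F y).eval (β y) - (F y).derivative.eval (β y) * (β x - β y)) -
          (F x - F y).eval (β x) := by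
      rw [eval_sub, h0 x hx, h0 y hy]; ring
    have hpos : 0 < ‖β x - β y‖ := (norm_nonneg _).trans_lt hlt
    have h2 : ‖(F y).derivative.eval (β y) * (β x - β y)‖ < ‖β x - β y‖ := by
      rw [e]
      refine sub_lt ?_ (hS.trans_lt hlt)
      rw [norm_neg]
      refine hT.trans_lt ?_
      have := hn x y hx hy
      nlinarith
    rw [norm_mul, h1 y hy, one_mul] at h2
    exact lt_irrefl _ h2
  set W : Polynomial E := ∑ i ∈ Finset.range (d + 1), monomial i (u i) with hW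
  have hWc : ∀ i, W.coeff i = if i < d + 1 then u i else 0 := by
    intro i
    simp [hW, finsetSum_coeff, coeff_monomial]
  have hWi : ∀ i, ‖W.coeff i‖ ≤ 1 := by
    intro i
    rw [hWc]
    split_ifs
    · exact (hu i).1
    · simp
  set D := (F 0).derivative.eval (β 0) with hD
  have hD1 : ‖D‖ = 1 := h1 0 z
  have hD0 : D ≠ 0 := by
    intro h; rw [h, norm_zero] at hD1; exact zero_ne_one hD1
  refine ⟨-W.eval (β 0) / D, ?_, hβ, fun x y hx hy => ?_⟩
  · rw [norm_div, hD1, div_one, norm_neg]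
    exact eval_le zero_le_one hWi (hβ 0 z)
  have e : β x - β y - -W.eval (β 0) / D * (x - y) =
      ((β x - β y) * ((D - (F 0).derivative.eval (β y)) - (F y - F 0).derivative.eval (β y)) -
        ((F y).eval (β x) - (F y).eval (β y) - (F y).derivative.eval (β y) * (β x - β y)) -
        (F x - F y - C (x - y) * W).eval (β x) - (x - y) * (W.eval (β x) - W.eval (β 0))) / D := by
    simp only [eval_sub, derivative_sub, eval_mul, eval_C, h0 x hx, h0 y hy]
    field_simp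
    ring
  rw [e, norm_div, hD1, div_one]
  have hxy : ‖x - y‖ ≤ max ‖x‖ ‖y‖ := sub_le_max x y
  have hy0 : ‖β y - β 0‖ ≤ ‖y‖ := by simpa using hlip y 0 hy z
  have hx0 : ‖β x - β 0‖ ≤ ‖x‖ := by simpa using hlip x 0 hx z
  refine sub_le (sub_le (sub_le (mul_le_mul_norm (hlip x y hx hy) (sub_le ?_ ?_)) ?_) ?_)
    (mul_le_mul_norm le_rfl ?_)
  · refine (eval_lip (deriv_le (hint 0 z)) (hβ y hy) (hβ 0 z)).trans ?_
    rw [norm_sub_rev]
    exact hy0.trans (le_max_right _ _)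
  · refine (eval_le (norm_nonneg y) (deriv_le fun i => ?_) (hβ y hy)).trans (le_max_right _ _)
    simpa using hdiff y 0 hy z i
  · refine (taylor (hint y hy) (hβ y hy) (hβ x hx)).trans ?_
    rw [sq]
    exact mul_le_mul (hlip x y hx hy) ((hlip x y hx hy).trans hxy) (norm_nonneg _) (norm_nonneg _)
  · refine eval_le (by positivity) (fun i => ?_) (hβ x hx)
    rw [coeff_sub, coeff_sub, coeff_C_mul, hWc]
    split_ifs with hi
    · rw [mul_comm]; exact (hu i).2.2 x y hx hy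
    · rw [coeff_eq_zero_of_natDegree_lt (by have := hd x hx; omega),
        coeff_eq_zero_of_natDegree_lt (by have := hd y hy; omega)]
      simp only [sub_self, mul_zero, norm_zero]
      positivity
  · exact (eval_lip hWi (hβ 0 z) (hβ x hx)).trans (hx0.trans (le_max_left _ _))

end Pool.Agent.Lib.MP_132c47_lc
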