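import Pool.Agent.Lib.MP_132c47_lc.KL

/-! Eigenvectors for approximate characters and the fixed point theorem on the disc. -/

namespace Pool.Agent.Lib.MP_132c47_lc

open Polynomial

namespace KL

variable {E : Type} [NormedField E] [IsUltrametricDist E] {p : ℕ} [Fact p.Prime]

/-- The unit ball. -/
def ball1 (E : Type) [NormedField E] [IsUltrametricDist E] : Subring E where
  carrier := {x | ‖x‖ ≤ 1}
  zero_mem' := by simp
  one_mem' := by simp
  add_mem' := fun ha hb => add_le ha hb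
  mul_mem' := fun ha hb => mul_le_left ha hb
  neg_mem' := fun {a} ha => by simpa using ha

lemma sub_one_lt_of_pow_prime (hp : ‖(p : E)‖ < 1) {x : E} (hx : ‖x‖ ≤ 1) (h : ‖x ^ p - 1‖ < 1) :
    ‖x - 1‖ < 1 := by
  have hx1 : ‖x - 1‖ ≤ 1 := sub_le hx (by simp)
  obtain ⟨r, hr⟩ := exists_add_pow_prime_eq (Fact.out : p.Prime)
    (⟨x - 1, hx1⟩ : ball1 E) (1 : ball1 E)
  have e := congrArg (fun y : ball1 E => (y : E)) hr
  simp only [Subring.coe_pow, Subring.coe_add, Subring.coe_mul, Subring.coe_one,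
    Subring.coe_natCast, sub_add_cancel, one_pow, mul_one] at e
  have e2 : (x - 1) ^ p = (x ^ p - 1) - p * (x - 1) * r := by rw [e]; ring
  have h3 : ‖(x - 1) ^ p‖ < 1 := by
    rw [e2]
    exact sub_lt h (mul_lt_left (mul_lt_left hp hx1) r.2)
  rw [norm_pow] at h3
  exact (pow_lt_one_iff_of_nonneg (norm_nonneg _) (Fact.out : p.Prime).ne_zero).1 h3

lemma sub_one_lt_of_pow (hp : ‖(p : E)‖ < 1) (k : ℕ) {x : E} (hx : ‖x‖ ≤ 1)
    (h : ‖x ^ p ^ k - 1‖ < 1) : ‖x - 1‖ < 1 := by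
  induction k with
  | zero => simpa using h
  | succ k ih =>
    apply ih
    apply sub_one_lt_of_pow_prime hp (pow_le hx _)
    rwa [← pow_mul, ← pow_succ]

lemma norm_nat_eq_one (hp : ‖(p : E)‖ < 1) {e : ℕ} (he : ¬ p ∣ e) : ‖(e : E)‖ = 1 := by
  refine le_antisymm (nat_le e) ?_
  by_contra hlt
  push Not at hlt
  have hc : IsCoprime (p : ℤ) (e : ℤ) :=
    Nat.isCoprime_iff_coprime.2 (((Fact.out : p.Prime).coprime_iff_not_dvd).2 he)
  obtain ⟨a, b, hab⟩ := hc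
  have h1 : (a : E) * p + (b : E) * e = 1 := by exact_mod_cast congrArg (fun z : ℤ => (z : E)) hab
  have h2 : ‖(a : E) * p + (b : E) * e‖ < 1 :=
    add_lt (mul_lt_right (IsUltrametricDist.norm_intCast_le_one E a) hp)
      (mul_lt_right (IsUltrametricDist.norm_intCast_le_one E b) hlt)
  rw [h1, norm_one] at h2
  exact lt_irrefl _ h2

lemma pow_sub_one_lt {x : E} (hx : ‖x‖ ≤ 1) (h : ‖x - 1‖ < 1) (n : ℕ) : ‖x ^ n - 1‖ < 1 := by
  induction n with
  | zero => simp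
  | succ n ih =>
    have : x ^ (n + 1) - 1 = (x ^ n - 1) * x + (x - 1) := by ring
    rw [this]
    exact add_lt (mul_lt_left ih hx) h

lemma eq_one_of_pow (hp : ‖(p : E)‖ < 1) {e : ℕ} (he : ¬ p ∣ e) {ω : E} (h : ω ^ e = 1)
    (h1 : ‖ω - 1‖ < 1) : ω = 1 := by
  by_contra hne
  have hω : ‖ω‖ ≤ 1 := by
    have : ‖ω‖ = ‖(1 : E)‖ := norm_eq_of_sub_lt (by simpa using h1)
    rw [this, norm_one]
  have hs : ∑ i ∈ Finset.range e, ω ^ i = 0 := by
    have := mul_geom_sum ω e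
    rw [h, sub_self] at this
    exact (mul_eq_zero.1 this).resolve_left (sub_ne_zero.2 hne)
  have h2 : ‖∑ i ∈ Finset.range e, (ω ^ i - 1)‖ < 1 :=
    sum_lt _ _ one_pos fun i _ => pow_sub_one_lt hω h1 i
  rw [Finset.sum_sub_distrib, hs] at h2
  simp [norm_nat_eq_one hp he] at h2

omit [IsUltrametricDist E] in
lemma exists_root_near {e : ℕ} (he : 0 < e) {ζ : E} (hζ : IsPrimitiveRoot ζ e) {x : E}
    (h : ‖x ^ e - 1‖ < 1) : ∃ i : ℕ, ‖ζ ^ i - x‖ < 1 := by
  have := congrArg (eval x) (X_pow_sub_one_eq_prod he hζ)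
  simp only [eval_sub, eval_pow, eval_X, eval_one, eval_prod, eval_C] at this
  rw [this, norm_prod] at h
  by_contra hno
  push Not at hno
  have : 1 ≤ ∏ ω ∈ nthRootsFinset e (1 : E), ‖x - ω‖ := by
    refine Finset.prod_induction _ (fun t : ℝ => 1 ≤ t) (fun a b => one_le_mul_of_one_le_of_one_le)
      le_rfl fun ω hω => ?_
    have := NeZero.of_pos he
    obtain ⟨i, -, rfl⟩ := hζ.eq_pow_of_pow_eq_one ((mem_nthRootsFinset he 1).1 hω)
    rw [norm_sub_rev]
    exact hno i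
  exact absurd h (not_lt.2 this)

omit [IsUltrametricDist E] in
lemma one_near {u : E} (hu : ‖u‖ = 1) (h : ‖u - u * u‖ < 1) : ‖u - 1‖ < 1 := by
  have : u - u * u = -u * (u - 1) := by ring
  rwa [this, norm_mul, norm_neg, hu, one_mul] at h

end KL

open KL

variable {E : Type} [NormedField E] [IsUltrametricDist E] {p : ℕ} [Fact p.Prime]
variable {H : Type} [Group H] [Fintype H] [MulSemiringAction H E] [FaithfulSMul H E] [CharZero E]

omit [CharZero E] in
/-- Approximate characters have exact eigenvectors. -/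
theorem Tgt.eig (hE : Tgt p E H) (U : H → E) (hU : ∀ g, ‖U g‖ = 1)
    (hm : ∀ g h, ‖U (g * h) - U g * U h‖ < 1) : ∃ (β : E) (χ : H → E), β ≠ 0 ∧
      (∀ g, g • β = χ g * β) ∧ (∀ g h : H, h • χ g = χ g) ∧ (∀ g h, χ (g * h) = χ g * χ h) ∧
      ∀ g, ‖χ g - U g‖ < 1 := by
  obtain ⟨k, e, he, hN⟩ := Nat.exists_eq_pow_mul_and_not_dvd (n := Fintype.card H)
    Fintype.card_ne_zero p (Fact.out : p.Prime).ne_one
  have he0 : 0 < e := Nat.pos_of_ne_zero fun h => he (h ▸ dvd_zero p)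
  have h1 : ‖U 1 - 1‖ < 1 := one_near (hU 1) (by simpa using hm 1 1)
  have hpow : ∀ g (n : ℕ), ‖U (g ^ n) - U g ^ n‖ < 1 := by
    intro g n
    induction n with
    | zero => simpa using h1
    | succ n ih =>
      have : U (g ^ (n + 1)) - U g ^ (n + 1) =
          (U (g ^ n * g) - U (g ^ n) * U g) + (U (g ^ n) - U g ^ n) * U g := by
        rw [pow_succ g]; ring
      rw [this]
      exact add_lt (hm _ _) (mul_lt_left ih (hU g).le)
  have hE1 : ∀ g, ‖U g ^ e - 1‖ < 1 := by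
    intro g
    apply sub_one_lt_of_pow hE.vp k (pow_le (hU g).le _)
    have h2 := hpow g (Fintype.card H)
    rw [pow_card_eq_one] at h2
    have : (U g ^ e) ^ p ^ k - 1 = (U 1 - 1) - (U 1 - U g ^ Fintype.card H) := by
      rw [← pow_mul, hN, mul_comm e]; ring
    rw [this]
    exact sub_lt h1 h2
  obtain ⟨ζ, hζ, hζf⟩ := hE.mu e he0
  choose i hi using fun g => exists_root_near he0 hζ (hE1 g)
  set χ : H → E := fun g => ζ ^ i g with hχ
  have hχe : ∀ g, χ g ^ e = 1 := fun g => by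
    simp only [hχ]; rw [← pow_mul, mul_comm, pow_mul, hζ.pow_eq_one, one_pow]
  have hχn : ∀ g, ‖χ g‖ = 1 := fun g => by
    rw [← hU g]; exact norm_eq_of_sub_lt (by rw [hU g]; exact hi g)
  have hχ0 : ∀ g, χ g ≠ 0 := fun g h0 => by
    have := hχn g
    rw [h0, norm_zero] at this
    exact zero_ne_one this
  have hχf : ∀ g h : H, h • χ g = χ g := fun g h => by
    simp only [hχ]; rw [smul_pow', hζf]
  have hχm : ∀ g h, χ (g * h) = χ g * χ h := by
    intro g h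
    have h0 : χ g * χ h ≠ 0 := mul_ne_zero (hχ0 g) (hχ0 h)
    rw [← div_eq_one_iff_eq h0]
    apply eq_one_of_pow hE.vp he
    · rw [div_pow, mul_pow, hχe, hχe, hχe]; simp
    · have : χ (g * h) / (χ g * χ h) - 1 = ((χ (g * h) - U (g * h)) + (U (g * h) - U g * U h) -
          ((χ g - U g) * χ h + U g * (χ h - U h))) / (χ g * χ h) := by
        rw [div_sub_one h0]
        congr 1
        ring
      rw [this, norm_div, norm_mul (χ g), hχn, hχn, one_mul, div_one]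
      exact sub_lt (add_lt (hi _) (hm g h))
        (add_lt (mul_lt_left (hi g) (hχn h).le) (mul_lt_right (hU g).le (hi h)))
  have hli : LinearIndependent E fun g : H => fun y : E => g • y := by
    refine (linearIndependent_monoidHom E E).comp (MulDistribMulAction.toMonoidHom E) ?_
    intro g h hgh
    exact FaithfulSMul.eq_of_smul_eq_smul (α := E) fun y => DFunLike.congr_fun hgh y
  have hex : ∃ y : E, ∑ g : H, (χ g)⁻¹ * g • y ≠ 0 := by
    by_contra hno
    push Not at hno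
    have := Fintype.linearIndependent_iff.1 hli (fun g => (χ g)⁻¹) (by
      funext y
      simpa [Finset.sum_apply] using hno y) 1
    exact hχ0 1 (inv_eq_zero.1 this)
  obtain ⟨y, hy⟩ := hex
  refine ⟨_, χ, hy, fun h => ?_, hχf, hχm, hi⟩
  rw [Finset.smul_sum, Finset.mul_sum, ← Equiv.sum_comp (Equiv.mulLeft h)
    (fun g => χ h * ((χ g)⁻¹ * g • y))]
  refine Finset.sum_congr rfl fun g _ => ?_
  rw [smul_mul', smul_inv'', hχf, Equiv.coe_mulLeft, hχm, mul_smul]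
  have := hχ0 h
  have := hχ0 g
  field_simp

theorem Tgt.fixedPoint_of [CompleteSpace E] (hE : Tgt p E H)
    (dense : ∀ r s : ℝ, 0 ≤ r → r < s → ∃ c : E, (∀ g : H, g • c = c) ∧ r < ‖c‖ ∧ ‖c‖ < s)
    (trace : ∀ c : E, (∀ g : H, g • c = c) → ‖c‖ < 1 →
      ∃ α : E, ‖α‖ ≤ 1 ∧ ∑ g : H, g • α = c)
    (f : H → E → E) (hf : ∀ g, HH (f g))
    (hm : ∀ g x, ‖x‖ < 1 → ‖f g x‖ < 1) (h1 : ∀ x, ‖x‖ < 1 → f 1 x = x)
    (hmul : ∀ g h x, ‖x‖ < 1 → (g * h) • f (g * h) x = g • f g (h • f h x)) :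
    ∃ x, ‖x‖ < 1 ∧ ∀ g, g • f g x = x := by
  choose u hu using hf
  have hu' : ∀ g, HD (u g) (f g) := hu
  have z : ‖(0 : E)‖ < 1 := by simp
  have hA : ∀ (g : H) x, ‖x‖ < 1 → ‖g • f g x‖ < 1 := fun g x hx => by
    rw [hE.iso]; exact hm g x hx
  have hcomp : ∀ (g h : H) x, ‖x‖ < 1 → f g (h • f h x) = h • f (g * h) x := by
    intro g h x hx
    have := hmul g h x hx
    rw [mul_smul] at this
    exact (MulAction.injective g this).symm
  have hiso : ∀ (g : H) x y, ‖x‖ < 1 → ‖y‖ < 1 → ‖f g x - f g y‖ = ‖x - y‖ := by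
    intro g x y hx hy
    refine le_antisymm ((hu' g).lip hx hy) ?_
    have e1 := hcomp g⁻¹ g x hx
    have e2 := hcomp g⁻¹ g y hy
    rw [inv_mul_cancel, h1 x hx] at e1
    rw [inv_mul_cancel, h1 y hy] at e2
    have := (hu' g⁻¹).lip (hA g x hx) (hA g y hy)
    rwa [e1, e2, ← smul_sub, ← smul_sub, hE.iso, hE.iso] at this
  have hp0 : (p : E) ≠ 0 := Nat.cast_ne_zero.2 (Fact.out : p.Prime).ne_zero
  have hpp : 0 < ‖(p : E)‖ := norm_pos_iff.2 hp0
  have hpf : ∀ g : H, g • (p : E) = p := fun g => map_natCast (MulSemiringAction.toRingHom H E g) p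
  have hfirst : ∀ g, ‖f g p - f g 0 - u g * p‖ < ‖(p : E)‖ := by
    intro g
    have := (hu g).2.2 p 0 hE.vp z
    simp only [sub_zero, norm_zero, max_eq_left (norm_nonneg _)] at this
    refine this.trans_lt ?_
    have := hE.vp
    nlinarith
  have hu1 : ∀ g, ‖u g‖ = 1 := by
    intro g
    have h2 := hiso g p 0 hE.vp z
    rw [sub_zero] at h2
    have h3 : ‖u g * p‖ = ‖f g p - f g 0‖ :=
      norm_eq_of_sub_lt (by rw [norm_sub_rev, h2]; exact hfirst g)
    rw [h2, norm_mul] at h3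
    exact mul_right_cancel₀ hpp.ne' (by rw [h3, one_mul])
  have hum : ∀ g h, ‖u (g * h) - u g * u h‖ < 1 := by
    intro g h
    have a1 := hA h p hE.vp
    have a0 := hA h 0 z
    have e1 : ‖h • (f (g * h) p - f (g * h) 0 - u (g * h) * p)‖ < ‖(p : E)‖ := by
      rw [hE.iso]; exact hfirst _
    have e3 : ‖h • (f h p - f h 0 - u h * p)‖ < ‖(p : E)‖ := by
      rw [hE.iso]; exact hfirst _
    have e2 : ‖f g (h • f h p) - f g (h • f h 0) - u g * (h • f h p - h • f h 0)‖ < ‖(p : E)‖ := by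
      refine ((hu g).2.2 _ _ a1 a0).trans_lt ?_
      rw [← smul_sub, hE.iso, hiso h p 0 hE.vp z, sub_zero]
      exact mul_lt_of_lt_one_right hpp (max_lt a1 a0)
    rw [hcomp g h p hE.vp, hcomp g h 0 z] at e2
    simp only [smul_sub, smul_mul', hpf] at e1 e3
    have e4 : ‖(h • u (g * h) - u g * h • u h) * p‖ < ‖(p : E)‖ := by
      have : (h • u (g * h) - u g * h • u h) * p =
          (h • f (g * h) p - h • f (g * h) 0 - u g * (h • f h p - h • f h 0)) -
          (h • f (g * h) p - h • f (g * h) 0 - h • u (g * h) * p) +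
          u g * (h • f h p - h • f h 0 - h • u h * p) := by ring
      rw [this]
      exact add_lt (sub_lt e2 e1) (mul_lt_right (hu1 g).le e3)
    rw [norm_mul] at e4
    have e5 : ‖h • u (g * h) - u g * h • u h‖ < 1 := by
      by_contra hge
      push Not at hge
      nlinarith
    have : u (g * h) - u g * u h = (h • u (g * h) - u g * h • u h) - (h • u (g * h) - u (g * h)) +
        u g * (h • u h - u h) := by ring
    rw [this]
    exact add_lt (sub_lt e5 (hE.res h _ (hu1 _).le))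
      (mul_lt_right (hu1 g).le (hE.res h _ (hu1 _).le))
  obtain ⟨β, χ, hβ0, hβ, -, -, hχ⟩ := hE.eig u hu1 hum
  have hone : ‖u 1 - 1‖ < 1 := one_near (hu1 1) (by simpa using hum 1 1)
  have hχu : ∀ g, ‖χ g * u g⁻¹ - 1‖ < 1 := by
    intro g
    have h2 := hum g g⁻¹
    rw [mul_inv_cancel] at h2
    have : χ g * u g⁻¹ - 1 = (χ g - u g) * u g⁻¹ - (u 1 - u g * u g⁻¹) + (u 1 - 1) := by ring
    rw [this]
    exact add_lt (sub_lt (mul_lt_left (hχ g) (hu1 _).le) h2) hone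
  obtain ⟨ρ₀, hρ₀0, hρ₀1, hρa, hρb⟩ : ∃ ρ₀ : ℝ, 0 ≤ ρ₀ ∧ ρ₀ < 1 ∧ (∀ g, ‖f g 0‖ ≤ ρ₀) ∧
      ∀ g, ‖χ g * u g⁻¹ - 1‖ ≤ ρ₀ := by
    obtain ⟨g₀, -, hg₀⟩ := Finset.exists_max_image Finset.univ
      (fun g => max ‖f g 0‖ ‖χ g * u g⁻¹ - 1‖) Finset.univ_nonempty
    exact ⟨_, (norm_nonneg _).trans (le_max_left _ _), max_lt (hm g₀ 0 z) (hχu g₀),
      fun g => (le_max_left _ _).trans (hg₀ g (Finset.mem_univ g)),
      fun g => (le_max_right _ _).trans (hg₀ g (Finset.mem_univ g))⟩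
  obtain ⟨ρ, hρ0, hρ1⟩ := exists_between hρ₀1
  have hρp : 0 < ρ := hρ₀0.trans_lt hρ0
  obtain ⟨c, hcf, hc0, hc1⟩ := dense ρ 1 hρp.le hρ1
  obtain ⟨α, hα1, hαc⟩ := trace c hcf hc1
  obtain ⟨c', hcf', hc0', hc1'⟩ := dense (ρ₀ / ρ) 1 (by positivity) ((div_lt_one hρp).2 hρ0)
  obtain ⟨α', hα1', hαc'⟩ := trace c' hcf' hc1'
  have hcp : 0 < ‖c‖ := hρp.trans hc0
  have hcp' : 0 < ‖c'‖ := (div_nonneg hρ₀0 hρp.le).trans_lt hc0'
  have hbp : 0 < ‖β‖ := norm_pos_iff.2 hβ0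
  set Z : E → E := fun x => ∑ g : H, g • (β * α) * f g⁻¹ x with hZ
  set w : E := ∑ g : H, g • (β * α) * u g⁻¹ with hw
  have hZA : ∀ (h : H) x, ‖x‖ < 1 → Z (h • f h x) = h • Z x := by
    intro h x hx
    simp only [hZ]
    rw [Finset.smul_sum, ← Equiv.sum_comp (Equiv.mulLeft h)]
    refine Finset.sum_congr rfl fun g _ => ?_
    rw [Equiv.coe_mulLeft, hcomp _ h x hx, smul_mul' h, ← mul_smul]
    congr 3
    group
  have hwn : ‖w‖ = ‖β‖ * ‖c‖ := by
    have e : w = β * (c + ∑ g : H, g • α * (χ g * u g⁻¹ - 1)) := by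
      rw [← hαc, ← Finset.sum_add_distrib, Finset.mul_sum]
      refine Finset.sum_congr rfl fun g _ => ?_
      rw [smul_mul', hβ]
      ring
    rw [e, norm_mul]
    congr 1
    apply norm_eq_of_sub_lt
    rw [add_sub_cancel_left]
    refine (sum_le _ _ hρ₀0 fun g _ => mul_le_right ?_ (hρb g)).trans_lt (hρ0.trans hc0)
    rw [hE.iso]; exact hα1
  have hwp : 0 < ‖w‖ := by rw [hwn]; positivity
  have hw0 : w ≠ 0 := norm_pos_iff.1 hwp
  have hZd : ∀ x y, ‖x‖ ≤ ρ → ‖y‖ ≤ ρ → ‖Z x - Z y - w * (x - y)‖ ≤ ‖β‖ * (‖x - y‖ * ρ) := by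
    intro x y hx hy
    simp only [hZ, hw]
    rw [Finset.sum_mul, ← Finset.sum_sub_distrib, ← Finset.sum_sub_distrib]
    refine sum_le _ _ (by positivity) fun g _ => ?_
    have : g • (β * α) * f g⁻¹ x - g • (β * α) * f g⁻¹ y - g • (β * α) * u g⁻¹ * (x - y) =
        g • (β * α) * (f g⁻¹ x - f g⁻¹ y - u g⁻¹ * (x - y)) := by ring
    rw [this]
    refine mul_le_mul_norm (by rw [hE.iso]; exact mul_le_left le_rfl hα1) ?_
    exact ((hu _).2.2 x y (hx.trans_lt hρ1) (hy.trans_lt hρ1)).trans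
      (mul_le_mul_of_nonneg_left (max_le hx hy) (norm_nonneg _))
  have hZle : ∀ x y, ‖x‖ ≤ ρ → ‖y‖ ≤ ρ → ‖Z x - Z y‖ ≤ ‖w‖ * ‖x - y‖ := by
    intro x y hx hy
    have : Z x - Z y = (Z x - Z y - w * (x - y)) + w * (x - y) := by ring
    rw [this]
    refine add_le ((hZd x y hx hy).trans ?_) (norm_mul _ _).le
    rw [hwn, mul_assoc, mul_comm ‖c‖]
    exact mul_le_mul_of_nonneg_left (mul_le_mul_of_nonneg_left hc0.le (norm_nonneg _)) hbp.le
  have hZinj : ∀ x y, ‖x‖ ≤ ρ → ‖y‖ ≤ ρ → Z x = Z y → x = y := by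
    intro x y hx hy e
    have := hZd x y hx hy
    rw [e, sub_self, zero_sub, norm_neg, norm_mul, hwn, mul_assoc] at this
    have h2 := le_of_mul_le_mul_left this hbp
    by_contra hne
    have hpos : 0 < ‖x - y‖ := norm_pos_iff.2 (sub_ne_zero.2 hne)
    nlinarith
  have hB : ∀ (h : H) x, ‖x‖ ≤ ρ → ‖h • f h x‖ ≤ ρ := by
    intro h x hx
    rw [hE.iso]
    have : f h x = (f h x - f h 0) + f h 0 := by ring
    rw [this]
    exact add_le (((hu' h).lip0 (hx.trans_lt hρ1)).trans hx) ((hρa h).trans hρ0.le)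
  set b : E := (∑ g : H, g • (α' * Z 0)) / c' with hb
  have hc'0 : c' ≠ 0 := norm_pos_iff.1 hcp'
  have hbf : ∀ h : H, h • b = b := by
    intro h
    rw [hb, div_eq_mul_inv, smul_mul', smul_inv'', hcf', Finset.smul_sum,
      ← Equiv.sum_comp (Equiv.mulLeft h) (fun g => g • (α' * Z 0))]
    simp only [Equiv.coe_mulLeft, mul_smul]
  have hb0 : ‖Z 0 - b‖ ≤ ‖w‖ * ρ := by
    have e : Z 0 - b = -(∑ g : H, g • α' * (Z (g • f g 0) - Z 0)) / c' := by
      rw [hb, eq_div_iff hc'0, sub_mul, div_mul_cancel₀ _ hc'0, ← hαc', Finset.mul_sum,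
        ← Finset.sum_sub_distrib, ← Finset.sum_neg_distrib]
      refine Finset.sum_congr rfl fun g _ => ?_
      rw [hZA g 0 z, smul_mul']
      ring
    rw [e, norm_div, norm_neg, div_le_iff₀ hcp']
    have h2 : ‖∑ g : H, g • α' * (Z (g • f g 0) - Z 0)‖ ≤ ‖w‖ * ρ₀ := by
      refine sum_le _ _ (by positivity) fun g _ => mul_le_right (by rw [hE.iso]; exact hα1') ?_
      refine (hZle _ _ (hB g 0 (by simpa using hρp.le)) (by simpa using hρp.le)).trans ?_
      rw [sub_zero, hE.iso]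
      exact mul_le_mul_of_nonneg_left (hρa g) hwp.le
    refine h2.trans ?_
    rw [mul_assoc]
    refine mul_le_mul_of_nonneg_left ?_ hwp.le
    rw [div_lt_iff₀ hρp] at hc0'
    linarith
  obtain ⟨x, hx, hT⟩ := contract (fun x => x - (Z x - b) / w) 0 (k := ρ / ‖c‖) hρp.le
    (by positivity) ((div_lt_one hcp).2 hc0) (fun x y hx hy => by
      rw [sub_zero] at hx hy
      have e : x - (Z x - b) / w - (y - (Z y - b) / w) = -(Z x - Z y - w * (x - y)) / w := by
        field_simp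
        ring
      rw [e, norm_div, norm_neg, div_le_iff₀ hwp]
      refine (hZd x y hx hy).trans (le_of_eq ?_)
      rw [hwn]
      field_simp)
    (by
      simp only [zero_sub, sub_zero, norm_neg, norm_div]
      rw [div_le_iff₀ hwp, mul_comm]
      exact hb0)
  rw [sub_zero] at hx
  have hZx : Z x = b := by
    have : (Z x - b) / w = 0 := by linear_combination -hT
    exact sub_eq_zero.1 ((div_eq_zero_iff.1 this).resolve_right hw0)
  refine ⟨x, hx.trans_lt hρ1, fun g => hZinj _ _ (hB g x hx) hx ?_⟩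
  rw [hZA g x (hx.trans_lt hρ1), hZx, hbf]

end Pool.Agent.Lib.MP_132c47_lc
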