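import Pool.Agent.Lib.MP_132c47_lc.KL2
import Pool.Agent.Lib.MP_132c47_lc.AP

/-! The fixed point theorem on the disc. -/

namespace Pool.Agent.Lib.MP_132c47_lc

variable {E : Type} [NormedField E] [IsUltrametricDist E] {p : ℕ} [Fact p.Prime]
variable {H : Type} [Group H] [Fintype H] [MulSemiringAction H E] [FaithfulSMul H E] [CharZero E]

theorem Tgt.fixedPoint [CompleteSpace E] (hE : Tgt p E H) (f : H → E → E) (hf : ∀ g, HH (f g))
    (hm : ∀ g x, ‖x‖ < 1 → ‖f g x‖ < 1) (h1 : ∀ x, ‖x‖ < 1 → f 1 x = x)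
    (hmul : ∀ g h x, ‖x‖ < 1 → (g * h) • f (g * h) x = g • f g (h • f h x)) :
    ∃ x, ‖x‖ < 1 ∧ ∀ g, g • f g x = x :=
  hE.fixedPoint_of (fun _ _ hr hs => hE.dense hr hs) (fun _ hc h => hE.trace hc h) f hf hm h1 hmul

end Pool.Agent.Lib.MP_132c47_lc
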