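import Pool.Agent.Lib.MP_132c47_lc.Defs3
import Pool.Agent.Lib.MP_c13fce_lc.LogA2

/-! Block LG, part 1: consequences of a primitive recursive theory of valued fields are
recursively enumerable. -/

namespace Pool.Agent.Lib.MP_132c47_lc.LG

open Pool.Agent.Lib.MP_a1ec0a_al
open Pool.Agent.Lib.MP_c13fce_lc.LogA (At Cls satC satC_iff unsatB unsatB_iff pr_unsatB compactness
  pr_pair pr_unpair lt_pair lt_pair1 lt_pair2 unp_lt unp_lt1 unp_lt2)

def tVar (i : ℕ) : ℕ := Nat.pair 0 i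
def tZero : ℕ := Nat.pair 1 0
def tOne : ℕ := Nat.pair 2 0
def tNeg (t : ℕ) : ℕ := Nat.pair 3 t
def tAdd (s t : ℕ) : ℕ := Nat.pair 4 (Nat.pair s t)
def tMul (s t : ℕ) : ℕ := Nat.pair 5 (Nat.pair s t)
def fEq (s t : ℕ) : ℕ := Nat.pair 0 (Nat.pair s t)
def fMem (s t : ℕ) : ℕ := Nat.pair 1 (Nat.pair s t)
def fNot (a : ℕ) : ℕ := Nat.pair 2 a
def fImp (a b : ℕ) : ℕ := Nat.pair 3 (Nat.pair a b)
def fAll (i a : ℕ) : ℕ := Nat.pair 4 (Nat.pair i a)

section Sem
variable {L : Type} [Field L]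

/-- The value of the term with a given number. -/
def tv (ρ : ℕ → L) (s : ℕ) : L := (decT s).val ρ

@[simp] theorem tv_var (ρ : ℕ → L) (i : ℕ) : tv ρ (tVar i) = ρ i := by
  rw [tv, decT]; simp [tVar, Tm.val]
theorem tv_zero' (ρ : ℕ → L) (u : ℕ) : tv ρ (Nat.pair 1 u) = 0 := by
  rw [tv, decT]; simp [Tm.val]
theorem tv_one' (ρ : ℕ → L) (u : ℕ) : tv ρ (Nat.pair 2 u) = 1 := by
  rw [tv, decT]; simp [Tm.val]
@[simp] theorem tv_zero (ρ : ℕ → L) : tv ρ tZero = 0 := tv_zero' ρ 0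
@[simp] theorem tv_one (ρ : ℕ → L) : tv ρ tOne = 1 := tv_one' ρ 0
@[simp] theorem tv_neg (ρ : ℕ → L) (t : ℕ) : tv ρ (tNeg t) = -tv ρ t := by
  rw [tv, decT]; simp [tNeg, Tm.val, tv]
@[simp] theorem tv_add (ρ : ℕ → L) (s t : ℕ) : tv ρ (tAdd s t) = tv ρ s + tv ρ t := by
  rw [tv, decT]; simp [tAdd, Tm.val, tv]
theorem tv_mul' (ρ : ℕ → L) (w s t : ℕ) :
    tv ρ (Nat.pair (w + 5) (Nat.pair s t)) = tv ρ s * tv ρ t := by
  rw [tv, decT]; simp [Tm.val, tv]
@[simp] theorem tv_mul (ρ : ℕ → L) (s t : ℕ) : tv ρ (tMul s t) = tv ρ s * tv ρ t := tv_mul' ρ 0 s t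

theorem code_ind {P : ℕ → Prop} (h0 : ∀ u, P (Nat.pair 0 u)) (h1 : ∀ u, P (Nat.pair 1 u))
    (h : ∀ a c d, P c → P d → P (Nat.pair c d) → P (Nat.pair (a + 2) (Nat.pair c d))) (k : ℕ) :
    P k := by
  induction k using Nat.strong_induction_on with
  | _ k ih =>
    obtain ⟨a, b, rfl⟩ : ∃ a b, k = Nat.pair a b := ⟨_, _, (Nat.pair_unpair k).symm⟩
    obtain ⟨c, d, rfl⟩ : ∃ c d, b = Nat.pair c d := ⟨_, _, (Nat.pair_unpair b).symm⟩
    rcases a with _ | _ | a
    · exact h0 _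
    · exact h1 _
    · exact h a c d (ih _ (lt_pair1 (by omega) _ _)) (ih _ (lt_pair2 (by omega) _ _))
        (ih _ (lt_pair (by omega) _))

theorem tv_congr {ρ ρ' : ℕ → L} (s : ℕ) : (∀ i ≤ s, ρ i = ρ' i) → tv ρ s = tv ρ' s := by
  induction s using code_ind with
  | h0 u => exact fun h => (tv_var ρ u).trans ((h u (Nat.right_le_pair _ _)).trans (tv_var ρ' u).symm)
  | h1 u => intro _; rw [tv_zero', tv_zero']
  | h a c d hc hd hp =>
    intro h
    have e1 := hc fun i hi => h i (hi.trans (lt_pair1 (by omega) _ _).le)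
    have e2 := hd fun i hi => h i (hi.trans (lt_pair2 (by omega) _ _).le)
    have e3 := hp fun i hi => h i (hi.trans (lt_pair (by omega) _).le)
    rcases a with _ | _ | _ | a
    · rw [tv_one', tv_one']
    · exact (tv_neg ρ _).trans ((congrArg Neg.neg e3).trans (tv_neg ρ' _).symm)
    · exact (tv_add ρ _ _).trans ((congrArg₂ (· + ·) e1 e2).trans (tv_add ρ' _ _).symm)
    · exact (tv_mul' ρ a _ _).trans ((congrArg₂ (· * ·) e1 e2).trans (tv_mul' ρ' a _ _).symm)

variable (O : ValuationSubring L)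

/-- Truth of the formula with a given number. -/
def sat (k : ℕ) (ρ : ℕ → L) : Prop :=
  if _h : k.unpair.1 = 0 then tv ρ k.unpair.2.unpair.1 = tv ρ k.unpair.2.unpair.2
  else if k.unpair.1 = 1 then tv ρ k.unpair.2.unpair.1 * (tv ρ k.unpair.2.unpair.2)⁻¹ ∈ O
  else if k.unpair.1 = 2 then ¬ sat k.unpair.2 ρ
  else if k.unpair.1 = 3 then sat k.unpair.2.unpair.1 ρ → sat k.unpair.2.unpair.2 ρ
  else if k.unpair.1 = 4 then
    ∀ y, sat k.unpair.2.unpair.2 (Function.update ρ k.unpair.2.unpair.1 y)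
  else False
termination_by k
decreasing_by
  exacts [unp_lt _h, unp_lt1 _h, unp_lt2 _h, unp_lt2 _h]

variable {O}

@[simp] theorem sat_eq (s t : ℕ) (ρ : ℕ → L) : sat O (fEq s t) ρ ↔ tv ρ s = tv ρ t := by
  rw [sat]; simp [fEq]
@[simp] theorem sat_mem (s t : ℕ) (ρ : ℕ → L) :
    sat O (fMem s t) ρ ↔ tv ρ s * (tv ρ t)⁻¹ ∈ O := by
  rw [sat]; simp [fMem]
@[simp] theorem sat_not (a : ℕ) (ρ : ℕ → L) : sat O (fNot a) ρ ↔ ¬ sat O a ρ := by
  rw [sat]; simp [fNot]
@[simp] theorem sat_imp (a b : ℕ) (ρ : ℕ → L) :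
    sat O (fImp a b) ρ ↔ (sat O a ρ → sat O b ρ) := by
  rw [sat]; simp [fImp]
@[simp] theorem sat_all (i a : ℕ) (ρ : ℕ → L) :
    sat O (fAll i a) ρ ↔ ∀ y, sat O a (Function.update ρ i y) := by
  rw [sat]; simp [fAll]
theorem sat_junk (w u : ℕ) (ρ : ℕ → L) : ¬ sat O (Nat.pair (w + 5) u) ρ := by
  rw [sat]; simp

theorem sat_congr (k : ℕ) : ∀ {ρ ρ' : ℕ → L}, (∀ i ≤ k, ρ i = ρ' i) →
    (sat O k ρ ↔ sat O k ρ') := by
  have key : ∀ (a u : ℕ) {ρ ρ' : ℕ → L}, (∀ i ≤ Nat.pair a u, ρ i = ρ' i) →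
      tv ρ u.unpair.1 = tv ρ' u.unpair.1 ∧ tv ρ u.unpair.2 = tv ρ' u.unpair.2 := fun a u _ _ h =>
    ⟨tv_congr _ fun i hi => h i (hi.trans ((Nat.unpair_left_le _).trans (Nat.right_le_pair _ _))),
      tv_congr _ fun i hi => h i (hi.trans ((Nat.unpair_right_le _).trans (Nat.right_le_pair _ _)))⟩
  induction k using code_ind with
  | h0 u => intro ρ ρ' h; rw [sat, sat.eq_1 O _ ρ']; simp [key 0 u h]
  | h1 u => intro ρ ρ' h; rw [sat, sat.eq_1 O _ ρ']; simp [key 1 u h]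
  | h a c d hc hd hp =>
    intro ρ ρ' h
    have e1 := hc fun i hi => h i (hi.trans (lt_pair1 (by omega) _ _).le)
    have e2 := hd fun i hi => h i (hi.trans (lt_pair2 (by omega) _ _).le)
    have e3 := hp fun i hi => h i (hi.trans (lt_pair (by omega) _).le)
    rcases a with _ | _ | _ | a
    · exact (sat_not _ ρ).trans ((not_congr e3).trans (sat_not _ ρ').symm)
    · exact (sat_imp _ _ ρ).trans ((imp_congr e1 e2).trans (sat_imp _ _ ρ').symm)
    · refine (sat_all _ _ ρ).trans ((forall_congr' fun y => hd fun i hi => ?_).trans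
        (sat_all _ _ ρ').symm)
      simp only [Function.update_apply, h i (hi.trans (lt_pair2 (by omega) _ _).le)]
    · exact iff_of_false (sat_junk a _ ρ) (sat_junk a _ ρ')

end Sem

def nZ : ℕ := Nat.pair 0 0
def nO : ℕ := Nat.pair 1 0
def nA (u v : ℕ) : ℕ := Nat.pair 2 (Nat.pair u v)
def nN (u : ℕ) : ℕ := Nat.pair 3 u
def nM (u v : ℕ) : ℕ := Nat.pair 4 (Nat.pair u v)
def nI (u : ℕ) : ℕ := Nat.pair 5 u
def nT (s ρ : ℕ) : ℕ := Nat.pair 6 (Nat.pair s ρ)
def nW (a i ρ : ℕ) : ℕ := Nat.pair 7 (Nat.pair a (Nat.pair i ρ))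
def eC (i u ρ : ℕ) : ℕ := Nat.pair i (Nat.pair u ρ) + 1
def aE (u v : ℕ) : At := (true, u, v)
def aO (u : ℕ) : At := (false, 0, u)
def aT (a ρ : ℕ) : At := (false, a + 1, ρ)

/-- Instances of the clause schemes: congruence and the laws of valued fields. -/
def gen1 (u v w x : ℕ) : List Cls :=
  [([], [aE u u]), ([aE u v, aE u w], [aE v w]), ([aE u v, aE w x], [aE (nA u w) (nA v x)]),
    ([aE u v, aE w x], [aE (nM u w) (nM v x)]), ([aE u v], [aE (nN u) (nN v)]),
    ([aE u v], [aE (nI u) (nI v)]), ([aE u v, aO u], [aO v]),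
    ([], [aE (nA (nA u v) w) (nA u (nA v w))]), ([], [aE (nA nZ u) u]),
    ([], [aE (nA (nN u) u) nZ]), ([], [aE (nM (nM u v) w) (nM u (nM v w))]),
    ([], [aE (nM u v) (nM v u)]), ([], [aE (nM nO u) u]),
    ([], [aE u nZ, aE (nM u (nI u)) nO]), ([], [aE (nI nZ) nZ]),
    ([], [aE (nM u (nA v w)) (nA (nM u v) (nM u w))]), ([aE nZ nO], []),
    ([], [aO nZ]), ([], [aO nO]), ([aO u, aO v], [aO (nA u v)]), ([aO u, aO v], [aO (nM u v)]),
    ([aO u], [aO (nN u)]), ([], [aO u, aO (nI u)])]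

/-- Instances of the clause schemes: values of terms and truth of formulas. -/
def gen2 (u v w x : ℕ) : List Cls :=
  [([], [aE (nT (tVar u) (eC v w x)) (bif u == v then w else nT (tVar u) x)]),
    ([], [aE (nT (Nat.pair 1 u) x) nZ]), ([], [aE (nT (Nat.pair 2 u) x) nO]),
    ([], [aE (nT (tNeg u) x) (nN (nT u x))]), ([], [aE (nT (tAdd u v) x) (nA (nT u x) (nT v x))]),
    ([], [aE (nT (Nat.pair (w + 5) (Nat.pair u v)) x) (nM (nT u x) (nT v x))]),
    ([aT (fEq u v) x], [aE (nT u x) (nT v x)]), ([aE (nT u x) (nT v x)], [aT (fEq u v) x]),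
    ([aT (fMem u v) x], [aO (nM (nT u x) (nI (nT v x)))]),
    ([aO (nM (nT u x) (nI (nT v x)))], [aT (fMem u v) x]),
    ([aT (fNot u) x, aT u x], []), ([], [aT (fNot u) x, aT u x]),
    ([aT (fImp u v) x, aT u x], [aT v x]), ([], [aT (fImp u v) x, aT u x]),
    ([aT v x], [aT (fImp u v) x]), ([aT (fAll u v) x], [aT v (eC u w x)]),
    ([aT v (eC u (nW v u x) x)], [aT (fAll u v) x]), ([aT (Nat.pair (w + 5) u) x], [])]

/-- The clauses, as properties of three relations. -/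
structure Gd (E : ℕ → ℕ → Prop) (P : ℕ → Prop) (T : ℕ → ℕ → Prop) (u v w x : ℕ) : Prop where
  refl : E u u
  eucl : E u v → E u w → E v w
  cA : E u v → E w x → E (nA u w) (nA v x)
  cM : E u v → E w x → E (nM u w) (nM v x)
  cN : E u v → E (nN u) (nN v)
  cI : E u v → E (nI u) (nI v)
  cO : E u v → P u → P v
  assoc : E (nA (nA u v) w) (nA u (nA v w))
  zero : E (nA nZ u) u
  neg : E (nA (nN u) u) nZ
  massoc : E (nM (nM u v) w) (nM u (nM v w))
  mcomm : E (nM u v) (nM v u)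
  one : E (nM nO u) u
  inv : E u nZ ∨ E (nM u (nI u)) nO
  inv0 : E (nI nZ) nZ
  dist : E (nM u (nA v w)) (nA (nM u v) (nM u w))
  nt : E nZ nO → False
  oZ : P nZ
  oO : P nO
  oA : P u → P v → P (nA u v)
  oM : P u → P v → P (nM u v)
  oN : P u → P (nN u)
  oI : P u ∨ P (nI u)
  var : E (nT (tVar u) (eC v w x)) (bif u == v then w else nT (tVar u) x)
  tz : E (nT (Nat.pair 1 u) x) nZ
  tO : E (nT (Nat.pair 2 u) x) nO
  tn : E (nT (tNeg u) x) (nN (nT u x))
  ta : E (nT (tAdd u v) x) (nA (nT u x) (nT v x))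
  tm : E (nT (Nat.pair (w + 5) (Nat.pair u v)) x) (nM (nT u x) (nT v x))
  fe1 : T (fEq u v) x → E (nT u x) (nT v x)
  fe2 : E (nT u x) (nT v x) → T (fEq u v) x
  fm1 : T (fMem u v) x → P (nM (nT u x) (nI (nT v x)))
  fm2 : P (nM (nT u x) (nI (nT v x))) → T (fMem u v) x
  fn1 : T (fNot u) x → T u x → False
  fn2 : T (fNot u) x ∨ T u x
  fi1 : T (fImp u v) x → T u x → T v x
  fi2 : T (fImp u v) x ∨ T u x
  fi3 : T v x → T (fImp u v) x
  fa : T (fAll u v) x → T v (eC u w x)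
  fw : T v (eC u (nW v u x) x) → T (fAll u v) x
  fj : T (Nat.pair (w + 5) u) x → False

theorem gd_iff (b : At → Bool) (u v w x : ℕ) :
    (∀ c ∈ gen1 u v w x ++ gen2 u v w x, satC b c = true) ↔
      Gd (fun u v => b (aE u v) = true) (fun u => b (aO u) = true)
        (fun a ρ => b (aT a ρ) = true) u v w x := by
  simp only [gen1, gen2, List.cons_append, List.nil_append, List.forall_mem_cons]
  simp only [satC_iff, List.forall_mem_cons]
  simp only [List.not_mem_nil, false_imp_iff, implies_true, and_true, List.mem_cons, or_false,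
    exists_eq_left, true_imp_iff, and_imp, false_and, exists_false, exists_eq_or_imp]
  exact ⟨fun ⟨h1, h2, h3, h4, h5, h6, h7, h8, h9, h10, h11, h12, h13, h14, h15, h16, h17, h18, h19,
      h20, h21, h22, h23, k1, k2, k3, k4, k5, k6, k7, k8, k9, k10, k11, k12, k13, k14, k15, k16,
      k17, k18⟩ => ⟨h1, h2, h3, h4, h5, h6, h7, h8, h9, h10, h11, h12, h13, h14, h15, h16, h17,
      h18, h19, h20, h21, h22, h23, k1, k2, k3, k4, k5, k6, k7, k8, k9, k10, k11, k12, k13, k14,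
      k15, k16, k17, k18⟩,
    fun ⟨h1, h2, h3, h4, h5, h6, h7, h8, h9, h10, h11, h12, h13, h14, h15, h16, h17, h18, h19,
      h20, h21, h22, h23, k1, k2, k3, k4, k5, k6, k7, k8, k9, k10, k11, k12, k13, k14, k15, k16,
      k17, k18⟩ => ⟨h1, h2, h3, h4, h5, h6, h7, h8, h9, h10, h11, h12, h13, h14, h15, h16, h17,
      h18, h19, h20, h21, h22, h23, k1, k2, k3, k4, k5, k6, k7, k8, k9, k10, k11, k12, k13, k14,
      k15, k16, k17, k18⟩⟩

/-- All instances hold. -/
def Good (E : ℕ → ℕ → Prop) (P : ℕ → Prop) (T : ℕ → ℕ → Prop) : Prop := ∀ u v w x, Gd E P T u v w x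

section Complete
variable {E T : ℕ → ℕ → Prop} {P : ℕ → Prop} (h : Good E P T)

def Good.st : Setoid ℕ where
  r := E
  iseqv := ⟨fun u => (h u 0 0 0).refl, fun {u v} e => (h u v u 0).eucl e (h u 0 0 0).refl,
    fun {u v w} e e' => (h v u w 0).eucl ((h u v u 0).eucl e (h u 0 0 0).refl) e'⟩

/-- The field of names. -/
def Good.M : Type := Quotient h.st

def Good.cl (u : ℕ) : h.M := Quotient.mk h.st u

theorem Good.mk_eq {u v : ℕ} : h.cl u = h.cl v ↔ E u v := Quotient.eq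

theorem Good.ind {Q : h.M → Prop} (H : ∀ u, Q (h.cl u)) (x : h.M) : Q x := Quotient.ind H x

instance : Add h.M := ⟨Quotient.map₂ nA fun u v e w x e' => (h u v w x).cA e e'⟩
instance : Mul h.M := ⟨Quotient.map₂ nM fun u v e w x e' => (h u v w x).cM e e'⟩
instance : Neg h.M := ⟨Quotient.map nN fun u v e => (h u v 0 0).cN e⟩
instance : Inv h.M := ⟨Quotient.map nI fun u v e => (h u v 0 0).cI e⟩
instance : Zero h.M := ⟨h.cl nZ⟩
instance : One h.M := ⟨h.cl nO⟩

noncomputable instance : Field h.M :=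
  Field.ofMinimalAxioms h.M
    (h.ind fun u => h.ind fun v => h.ind fun w => h.mk_eq.2 (h u v w 0).assoc)
    (h.ind fun u => h.mk_eq.2 (h u 0 0 0).zero) (h.ind fun u => h.mk_eq.2 (h u 0 0 0).neg)
    (h.ind fun u => h.ind fun v => h.ind fun w => h.mk_eq.2 (h u v w 0).massoc)
    (h.ind fun u => h.ind fun v => h.mk_eq.2 (h u v 0 0).mcomm)
    (h.ind fun u => h.mk_eq.2 (h u 0 0 0).one)
    (h.ind fun u e => h.mk_eq.2 ((h u 0 0 0).inv.resolve_left fun e' => e (h.mk_eq.2 e')))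
    (h.mk_eq.2 (h 0 0 0 0).inv0)
    (h.ind fun u => h.ind fun v => h.ind fun w => h.mk_eq.2 (h u v w 0).dist)
    ⟨h.cl nZ, h.cl nO, fun e => (h 0 0 0 0).nt (h.mk_eq.1 e)⟩

/-- The valuation ring of names. -/
def Good.O : ValuationSubring h.M where
  carrier := {x | ∃ u, h.cl u = x ∧ P u}
  zero_mem' := ⟨nZ, rfl, (h 0 0 0 0).oZ⟩
  one_mem' := ⟨nO, rfl, (h 0 0 0 0).oO⟩
  add_mem' := by
    rintro _ _ ⟨u, rfl, hu⟩ ⟨v, rfl, hv⟩
    exact ⟨nA u v, rfl, (h u v 0 0).oA hu hv⟩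
  mul_mem' := by
    rintro _ _ ⟨u, rfl, hu⟩ ⟨v, rfl, hv⟩
    exact ⟨nM u v, rfl, (h u v 0 0).oM hu hv⟩
  neg_mem' := by
    rintro _ ⟨u, rfl, hu⟩
    exact ⟨nN u, rfl, (h u 0 0 0).oN hu⟩
  mem_or_inv_mem' := h.ind fun u =>
    (h u 0 0 0).oI.imp (fun e => ⟨u, rfl, e⟩) fun e => ⟨nI u, rfl, e⟩

theorem Good.mem_O {u : ℕ} : h.cl u ∈ h.O ↔ P u :=
  ⟨fun ⟨v, e, hv⟩ => (h v u 0 0).cO (h.mk_eq.1 e) hv, fun e => ⟨u, rfl, e⟩⟩

def Good.env (ρ : ℕ) (i : ℕ) : h.M := h.cl (nT (tVar i) ρ)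

theorem Good.env_eC (i u ρ : ℕ) : h.env (eC i u ρ) = Function.update (h.env ρ) i (h.cl u) := by
  funext j
  have := h.mk_eq.2 (h j i u ρ).var
  by_cases e : j = i
  · subst e; simpa [Good.env] using this
  · rw [Function.update_of_ne e]
    rwa [show (j == i) = false by simpa using e] at this

theorem Good.exists_env (ρ : ℕ → h.M) (B : ℕ) : ∃ x, ∀ i < B, h.env x i = ρ i := by
  induction B with
  | zero => exact ⟨0, fun _ hi => absurd hi (Nat.not_lt_zero _)⟩
  | succ B ih =>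
    obtain ⟨x, hx⟩ := ih
    obtain ⟨u, hu⟩ : ∃ u, h.cl u = ρ B := Quotient.exists_rep (ρ B)
    refine ⟨eC B u x, fun i hi => ?_⟩
    rw [h.env_eC, hu]
    rcases Nat.lt_succ_iff_lt_or_eq.1 hi with hi | rfl
    · rw [Function.update_of_ne hi.ne, hx i hi]
    · simp

theorem Good.val (ρ s : ℕ) : tv (h.env ρ) s = h.cl (nT s ρ) := by
  induction s using code_ind with
  | h0 u => exact tv_var _ u
  | h1 u => exact (tv_zero' _ u).trans (h.mk_eq.2 (h u 0 0 ρ).tz).symm
  | h a c d hc hd hp =>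
    rcases a with _ | _ | _ | a
    · exact (tv_one' _ _).trans (h.mk_eq.2 (h _ 0 0 ρ).tO).symm
    · exact (tv_neg _ _).trans ((congrArg Neg.neg hp).trans (h.mk_eq.2 (h _ 0 0 ρ).tn).symm)
    · exact (tv_add _ _ _).trans ((congrArg₂ (· + ·) hc hd).trans (h.mk_eq.2 (h c d 0 ρ).ta).symm)
    · exact (tv_mul' _ a _ _).trans
        ((congrArg₂ (· * ·) hc hd).trans (h.mk_eq.2 (h c d a ρ).tm).symm)

theorem Good.truth (k : ℕ) : ∀ ρ, sat h.O k (h.env ρ) ↔ T k ρ := by
  induction k using code_ind with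
  | h0 u =>
    intro ρ
    obtain ⟨c, d, rfl⟩ : ∃ c d, u = Nat.pair c d := ⟨_, _, (Nat.pair_unpair u).symm⟩
    refine (sat_eq c d _).trans ?_
    rw [h.val, h.val, h.mk_eq]
    exact ⟨(h c d 0 ρ).fe2, (h c d 0 ρ).fe1⟩
  | h1 u =>
    intro ρ
    obtain ⟨c, d, rfl⟩ : ∃ c d, u = Nat.pair c d := ⟨_, _, (Nat.pair_unpair u).symm⟩
    refine (sat_mem c d _).trans ?_
    rw [h.val, h.val]
    exact (h.mem_O (u := nM (nT c ρ) (nI (nT d ρ)))).trans ⟨(h c d 0 ρ).fm2, (h c d 0 ρ).fm1⟩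
  | h a c d hc hd hp =>
    intro ρ
    rcases a with _ | _ | _ | a
    · refine (sat_not _ _).trans ((not_congr (hp ρ)).trans ?_)
      exact ⟨(h _ 0 0 ρ).fn2.resolve_right, (h _ 0 0 ρ).fn1⟩
    · refine (sat_imp _ _ _).trans ((imp_congr (hc ρ) (hd ρ)).trans ?_)
      exact ⟨fun H => (h c d 0 ρ).fi2.elim id fun H' => (h c d 0 ρ).fi3 (H H'), (h c d 0 ρ).fi1⟩
    · refine (sat_all _ _ _).trans ⟨fun H => (h c d 0 ρ).fw ((hd _).1 ?_), fun H => ?_⟩
      · rw [h.env_eC]; exact H _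
      · refine h.ind fun u => ?_
        rw [← h.env_eC]
        exact (hd _).2 ((h c d u ρ).fa H)
    · exact iff_of_false (sat_junk a _ _) (h _ 0 a ρ).fj

end Complete

section Sound
variable {L : Type} [Field L] (O : ValuationSubring L) (v : ℕ → L)

open Classical in
/-- Values of names and of environments. -/
noncomputable def W (n : ℕ) : L × (ℕ → L) :=
  (if _h : n.unpair.1 = 0 then 0
    else if n.unpair.1 = 1 then 1
    else if n.unpair.1 = 2 then (W n.unpair.2.unpair.1).1 + (W n.unpair.2.unpair.2).1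
    else if n.unpair.1 = 3 then -(W n.unpair.2).1
    else if n.unpair.1 = 4 then (W n.unpair.2.unpair.1).1 * (W n.unpair.2.unpair.2).1
    else if n.unpair.1 = 5 then (W n.unpair.2).1⁻¹
    else if n.unpair.1 = 6 then tv (W n.unpair.2.unpair.2).2 n.unpair.2.unpair.1
    else Classical.epsilon fun x => ¬ sat O n.unpair.2.unpair.1
      (Function.update (W n.unpair.2.unpair.2.unpair.2).2 n.unpair.2.unpair.2.unpair.1 x),
  if _h : n = 0 then v
    else Function.update (W (n - 1).unpair.2.unpair.2).2 (n - 1).unpair.1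
      (W (n - 1).unpair.2.unpair.1).1)
termination_by n
decreasing_by
  · exact unp_lt1 _h
  · exact unp_lt2 _h
  · exact unp_lt _h
  · exact unp_lt1 _h
  · exact unp_lt2 _h
  · exact unp_lt _h
  · exact unp_lt2 _h
  · exact (Nat.unpair_right_le _).trans_lt (unp_lt2 _h)
  · exact ((Nat.unpair_right_le _).trans (Nat.unpair_right_le _)).trans_lt (by omega)
  · exact ((Nat.unpair_left_le _).trans (Nat.unpair_right_le _)).trans_lt (by omega)

theorem W_Z : (W O v nZ).1 = 0 := by rw [W]; simp [nZ]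
theorem W_O : (W O v nO).1 = 1 := by rw [W]; simp [nO]
theorem W_A (a b : ℕ) : (W O v (nA a b)).1 = (W O v a).1 + (W O v b).1 := by rw [W]; simp [nA]
theorem W_N (a : ℕ) : (W O v (nN a)).1 = -(W O v a).1 := by rw [W]; simp [nN]
theorem W_M (a b : ℕ) : (W O v (nM a b)).1 = (W O v a).1 * (W O v b).1 := by rw [W]; simp [nM]
theorem W_I (a : ℕ) : (W O v (nI a)).1 = (W O v a).1⁻¹ := by rw [W]; simp [nI]
theorem W_T (s ρ : ℕ) : (W O v (nT s ρ)).1 = tv (W O v ρ).2 s := by rw [W]; simp [nT]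
theorem W_W (a i ρ : ℕ) : (W O v (nW a i ρ)).1 = Classical.epsilon fun x =>
    ¬ sat O a (Function.update (W O v ρ).2 i x) := by rw [W]; simp [nW]
theorem W_0 : (W O v 0).2 = v := by rw [W]; simp
theorem W_C (i u ρ : ℕ) :
    (W O v (eC i u ρ)).2 = Function.update (W O v ρ).2 i (W O v u).1 := by rw [W]; simp [eC]

theorem good_W : Good (fun a b => (W O v a).1 = (W O v b).1) (fun a => (W O v a).1 ∈ O)
    fun a ρ => sat O a (W O v ρ).2 := fun u i w x =>
  { refl := rfl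
    eucl e e' := e.symm.trans e'
    cA e e' := by rw [W_A, W_A, e, e']
    cM e e' := by rw [W_M, W_M, e, e']
    cN e := by rw [W_N, W_N, e]
    cI e := by rw [W_I, W_I, e]
    cO e e' := e ▸ e'
    assoc := by simp only [W_A, add_assoc]
    zero := by simp only [W_A, W_Z, zero_add]
    neg := by simp only [W_A, W_Z, W_N, neg_add_cancel]
    massoc := by simp only [W_M, mul_assoc]
    mcomm := by simp only [W_M, mul_comm]
    one := by simp only [W_M, W_O, one_mul]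
    inv := by
      simp only [W_M, W_O, W_Z, W_I]
      exact (eq_or_ne _ 0).imp_right fun e => mul_inv_cancel₀ e
    inv0 := by simp only [W_Z, W_I, inv_zero]
    dist := by simp only [W_M, W_A, mul_add]
    nt := by simp [W_Z, W_O]
    oZ := by simp only [W_Z, zero_mem]
    oO := by simp only [W_O, one_mem]
    oA e e' := by rw [W_A]; exact add_mem e e'
    oM e e' := by rw [W_M]; exact mul_mem e e'
    oN e := by rw [W_N]; exact neg_mem e
    oI := by rw [W_I]; exact O.mem_or_inv_mem _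
    var := by
      by_cases e : u = i
      · subst e; simp [W_T, W_C]
      · rw [show (u == i) = false by simpa using e]
        simp [W_T, W_C, Function.update_of_ne e]
    tz := by simp only [W_T, W_Z, tv_zero']
    tO := by simp only [W_T, W_O, tv_one']
    tn := by simp only [W_T, W_N, tv_neg]
    ta := by simp only [W_T, W_A, tv_add]
    tm := by simp only [W_T, W_M, tv_mul']
    fe1 := by simp [W_T]
    fe2 := by simp [W_T]
    fm1 := by simp [W_T, W_M, W_I]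
    fm2 := by simp [W_T, W_M, W_I]
    fn1 := by simp
    fn2 := by simpa using em' _
    fi1 := (sat_imp _ _ _).1
    fi2 := by rw [sat_imp]; tauto
    fi3 e := (sat_imp _ _ _).2 fun _ => e
    fa H := by rw [W_C]; exact (sat_all _ _ _).1 H _
    fw H := by
      rw [sat_all]
      rw [W_C, W_W] at H
      by_contra H'
      exact Classical.epsilon_spec (not_forall.1 H') H
    fj := sat_junk _ _ _ }

end Sound

variable {J : Type} [Primcodable J]

/-- The clauses of the theory `A`. -/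
def gen (A : J → List ℕ) (p : (ℕ × ℕ × ℕ × ℕ) × J) : List Cls :=
  (gen1 p.1.1 p.1.2.1 p.1.2.2.1 p.1.2.2.2 ++ gen2 p.1.1 p.1.2.1 p.1.2.2.1 p.1.2.2.2) ++
    (A p.2).map fun a => ([], [aT a p.1.1])

theorem pr_gen {A : J → List ℕ} (hA : PR A) : PR (gen A) := by
  have h1 : PR fun p : (ℕ × ℕ × ℕ × ℕ) × J => gen1 p.1.1 p.1.2.1 p.1.2.2.1 p.1.2.2.2 := by
    unfold gen1 aE aO nA nN nM nI
    fun_prop
  have h2 : PR fun p : (ℕ × ℕ × ℕ × ℕ) × J => gen2 p.1.1 p.1.2.1 p.1.2.2.1 p.1.2.2.2 := by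
    unfold gen2 aE aO aT nA nN nM nI nT nW eC tVar tAdd tNeg fEq fMem fNot fImp fAll
    fun_prop
  refine PR.append (PR.append h1 h2) ?_
  unfold aT
  fun_prop

theorem s1_conseq [Inhabited J] {A : J → List ℕ} (hA : PR A) :
    S1 fun k => ∀ (L : Type) [Field L] (O : ValuationSubring L),
      (∀ j, ∀ a ∈ A j, ∀ ρ, sat O a ρ) → ∀ ρ, sat O k ρ := by
  classical
  have h : S1 fun k => ∃ l : List ((ℕ × ℕ × ℕ × ℕ) × J),
      unsatB (([aT k 0], []) :: l.flatMap (gen A)) = true := by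
    have h1 := pr_gen hA
    have h2 := pr_unsatB
    unfold aT
    fun_prop
  refine h.congr fun k => ⟨fun ⟨l, h⟩ L _ O hO v => ?_, fun H => ?_⟩
  · let b : At → Bool := fun a => if a.1 = true then decide ((W O v a.2.1).1 = (W O v a.2.2).1)
      else if a.2.1 = 0 then decide ((W O v a.2.2).1 ∈ O)
      else decide (sat O (a.2.1 - 1) (W O v a.2.2).2)
    obtain ⟨c, hc, e⟩ := unsatB_iff.1 h b
    rcases List.mem_cons.1 hc with rfl | hc
    · simpa [satC, b, aT, W_0] using e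
    · obtain ⟨p, -, hp⟩ := List.mem_flatMap.1 hc
      have : satC b c = true := by
        rcases List.mem_append.1 hp with hp | hp
        · refine (gd_iff b _ _ _ _).2 ?_ c hp
          simpa [b, aE, aO, aT] using good_W O v p.1.1 p.1.2.1 p.1.2.2.1 p.1.2.2.2
        · obtain ⟨a, ha, rfl⟩ := List.mem_map.1 hp
          simpa [satC, b, aT] using hO _ a ha _
      rw [this] at e
      exact absurd e (by simp)
  · refine compactness (gen A) _ fun b hb Hb => ?_
    have hg : Good (fun u v => b (aE u v) = true) (fun u => b (aO u) = true)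
        fun a ρ => b (aT a ρ) = true := fun u v w x => (gd_iff b u v w x).1 fun c hc =>
      Hb ((u, v, w, x), default) c (List.mem_append_left _ hc)
    have := H hg.M hg.O (fun j a ha ρ => by
      obtain ⟨x, hx⟩ := hg.exists_env ρ (a + 1)
      rw [← sat_congr a fun i hi => hx i (Nat.lt_succ_of_le hi), hg.truth]
      simpa [satC] using Hb ((x, 0, 0, 0), j) _
        (List.mem_append_right _ (List.mem_map.2 ⟨a, ha, rfl⟩))) (hg.env 0)
    rw [hg.truth] at this
    simp [satC, this] at hb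

end Pool.Agent.Lib.MP_132c47_lc.LG
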