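import Pool.Agent.Lib.MP_132c47_lc.VB
import Pool.Agent.Lib.MP_132c47_lc.PH
import Pool.Agent.Lib.MP_132c47_lc.KL

/-! Block ST, part 1: matching residues, points of a chart. -/

namespace Pool.Agent.Lib.MP_132c47_lc

open Polynomial

namespace ST

variable {Ω : Type} [Field Ω] {Γ₀ : Type} [LinearOrderedCommGroupWithZero Γ₀]
  {v : Valuation Ω Γ₀} {E : Type} [NormedField E] [IsUltrametricDist E]

lemma v_mul_lt {a b : Ω} (ha : v a < 1) (hb : v b ≤ 1) : v (a * b) < 1 := by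
  rw [v.map_mul]
  exact (mul_le_of_le_one_right' hb).trans_lt ha

lemma loc_ind {S : Set Ω} (Q : Ω → Prop) (hS : ∀ s ∈ S, Q s) (h0 : Q 0) (h1 : Q 1)
    (add : ∀ x ∈ loc v (Subring.closure S), ∀ y ∈ loc v (Subring.closure S),
      Q x → Q y → Q (x + y))
    (neg : ∀ x ∈ loc v (Subring.closure S), Q x → Q (-x))
    (mul : ∀ x ∈ loc v (Subring.closure S), ∀ y ∈ loc v (Subring.closure S),
      Q x → Q y → Q (x * y))
    (inv : ∀ x ∈ loc v (Subring.closure S), v x = 1 → Q x → Q x⁻¹) :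
    ∀ x ∈ loc v (Subring.closure S), Q x := by
  have h : ∀ x ∈ Subring.closure S, Q x := fun x hx => by
    induction hx using Subring.closure_induction with
    | mem x hx => exact hS x hx
    | zero => exact h0
    | one => exact h1
    | add x y hx hy a b => exact add x (le_loc _ hx) y (le_loc _ hy) a b
    | neg x hx a => exact neg x (le_loc _ hx) a
    | mul x y hx hy a b => exact mul x (le_loc _ hx) y (le_loc _ hy) a b
  rintro x ⟨y, hy, s, hs, e, k⟩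
  have s0 : s ≠ 0 := fun k => by simp [k] at e
  rw [show x = y * s⁻¹ by rw [← k]; field_simp]
  exact mul y (le_loc _ hy) _ (inv_mem_loc (le_loc _ hs) e) (h y hy)
    (inv s (le_loc _ hs) e (h s hs))

lemma ext_loc {F : Type} [Field F] {A : Subring Ω} {φ : Ω → F} (h : IsPH A φ) :
    ∃ (B : Subring Ω) (ψ : Ω → F), IsPH B ψ ∧ A ≤ B ∧ (∀ a ∈ A, ψ a = φ a) ∧
      (∀ s ∈ B, ψ s ≠ 0 → s⁻¹ ∈ B) ∧ ∀ K : Subfield Ω, (∀ a ∈ A, a ∈ K) → ∀ x ∈ B, x ∈ K := by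
  obtain ⟨B, ψ, h1, h2, h3, h4, h5⟩ := h.ext_frac
  refine ⟨B, ψ, h1, h2, h3, fun s hs k => ?_, fun K hK x hx => ?_⟩
  · obtain ⟨t, ht, t0, e⟩ := h5 s hs
    have t1 : t ≠ 0 := fun k => t0 (k ▸ h.zero)
    rw [show s⁻¹ = t * (s * t)⁻¹ by rw [mul_inv, mul_left_comm, mul_inv_cancel₀ t1, mul_one]]
    refine B.mul_mem (h2 ht) (h4 _ e ?_)
    rw [← h3 _ e, h1.mul _ hs _ (h2 ht), h3 _ ht]
    exact mul_ne_zero k t0
  · obtain ⟨t, ht, t0, e⟩ := h5 x hx
    have t1 : t ≠ 0 := fun k => t0 (k ▸ h.zero)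
    rw [show x = x * t / t by field_simp]
    exact K.div_mem (hK _ e) (hK _ ht)

/-- The elements `y` and `e` have matching residues. -/
def Rel (v : Valuation Ω Γ₀) (W : Subring Ω) (ι : Ω → E) (y : Ω) (e : E) : Prop :=
  ∃ w ∈ W, v (y - w) < 1 ∧ ‖e - ι w‖ < 1

/-- The map respects the valuation on the integral ring `W`. -/
structure WOK (v : Valuation Ω Γ₀) (W : Subring Ω) (ι : Ω → E) : Prop where
  res : ResAlg v
  ph : IsPH W ι
  int : ∀ w ∈ W, v w ≤ 1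
  resp : Resp v W ι

variable {W : Subring Ω} {ι : Ω → E} {y y' : Ω} {e e' : E}

omit [IsUltrametricDist E] in
lemma Rel.self {w : Ω} (hw : w ∈ W) : Rel v W ι w (ι w) := ⟨w, hw, by simp, by simp⟩

lemma Rel.congr (h : Rel v W ι y e) (h1 : v (y' - y) < 1) (h2 : ‖e' - e‖ < 1) :
    Rel v W ι y' e' := by
  obtain ⟨w, hw, a, b⟩ := h
  exact ⟨w, hw, by simpa using v.map_add_lt h1 a, by simpa using KL.add_lt h2 b⟩

omit [IsUltrametricDist E] in
lemma Rel.v_le (o : WOK v W ι) (h : Rel v W ι y e) : v y ≤ 1 := by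
  obtain ⟨w, hw, a, -⟩ := h
  simpa using v.map_add_le a.le (o.int w hw)

lemma Rel.le (o : WOK v W ι) (h : Rel v W ι y e) : ‖e‖ ≤ 1 := by
  obtain ⟨w, hw, -, b⟩ := h
  simpa using KL.add_le b.le ((o.resp w hw).1 (o.int w hw))

lemma Rel.lt (o : WOK v W ι) (h : Rel v W ι y e) (k : v y < 1) : ‖e‖ < 1 := by
  obtain ⟨w, hw, a, b⟩ := h
  simpa using KL.add_lt b ((o.resp w hw).2 (by simpa using v.map_sub_lt k a))

omit [IsUltrametricDist E] in
lemma Rel.zero (o : WOK v W ι) : Rel v W ι 0 0 := o.ph.zero ▸ Rel.self W.zero_mem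

omit [IsUltrametricDist E] in
lemma Rel.one (o : WOK v W ι) : Rel v W ι 1 1 := o.ph.one ▸ Rel.self W.one_mem

omit [IsUltrametricDist E] in
lemma Rel.natCast (o : WOK v W ι) (n : ℕ) : Rel v W ι n n :=
  o.ph.natCast n ▸ Rel.self (natCast_mem W n)

lemma Rel.add (o : WOK v W ι) (h : Rel v W ι y e) (h' : Rel v W ι y' e') :
    Rel v W ι (y + y') (e + e') := by
  obtain ⟨w, hw, a, b⟩ := h
  obtain ⟨w', hw', a', b'⟩ := h'
  refine ⟨w + w', W.add_mem hw hw', ?_, ?_⟩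
  · convert v.map_add_lt a a' using 2
    ring
  · convert KL.add_lt b b' using 2
    rw [o.ph.add w hw w' hw']
    ring

omit [IsUltrametricDist E] in
lemma Rel.neg (o : WOK v W ι) (h : Rel v W ι y e) : Rel v W ι (-y) (-e) := by
  obtain ⟨w, hw, a, b⟩ := h
  refine ⟨-w, W.neg_mem hw, ?_, ?_⟩
  · rwa [neg_sub_neg, v.map_sub_swap]
  · rwa [o.ph.neg hw, neg_sub_neg, norm_sub_rev]

lemma Rel.sub (o : WOK v W ι) (h : Rel v W ι y e) (h' : Rel v W ι y' e') :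
    Rel v W ι (y - y') (e - e') := by
  simpa only [sub_eq_add_neg] using h.add o (h'.neg o)

lemma Rel.mul (o : WOK v W ι) (h : Rel v W ι y e) (h' : Rel v W ι y' e') :
    Rel v W ι (y * y') (e * e') := by
  have k1 := h'.v_le o
  have k2 := h'.le o
  obtain ⟨w, hw, a, b⟩ := h
  obtain ⟨w', hw', a', b'⟩ := h'
  refine ⟨w * w', W.mul_mem hw hw', ?_, ?_⟩
  · convert v.map_add_lt (v_mul_lt a k1) (v_mul_lt a' (o.int w hw)) using 2
    ring
  · convert KL.add_lt (KL.mul_lt_left b k2) (KL.mul_lt_left b' ((Rel.self hw).le o)) using 2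
    rw [o.ph.mul w hw w' hw']
    ring

lemma Rel.pow (o : WOK v W ι) (h : Rel v W ι y e) (n : ℕ) : Rel v W ι (y ^ n) (e ^ n) := by
  induction n with
  | zero => simpa using Rel.one o
  | succ n ih => simpa only [pow_succ] using ih.mul o h

lemma Rel.close (o : WOK v W ι) (h : Rel v W ι y e) (h' : Rel v W ι y e') : ‖e - e'‖ < 1 :=
  (h.sub o h').lt o (by simp)

lemma Rel.unit (o : WOK v W ι) (h : Rel v W ι y e) (k : v y = 1) : ‖e‖ = 1 := by
  obtain ⟨m, hm, a⟩ := o.res.exists_pow k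
  have := KL.norm_eq_of_sub_lt (a := e ^ m) (b := 1)
    (by simpa using ((h.pow o m).sub o (Rel.one o)).lt o a)
  rw [norm_pow, norm_one] at this
  exact (pow_eq_one_iff_of_nonneg (norm_nonneg _) hm.ne').1 this

lemma Rel.inv (o : WOK v W ι) (h : Rel v W ι y e) (k : v y = 1) : Rel v W ι y⁻¹ e⁻¹ := by
  obtain ⟨m, hm, a⟩ := o.res.exists_pow k
  obtain ⟨m, rfl⟩ := Nat.exists_eq_succ_of_ne_zero hm.ne'
  have k1 := h.unit o k
  have y0 : y ≠ 0 := fun k' => by simp [k'] at k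
  have e0 : e ≠ 0 := fun k' => by simp [k'] at k1
  refine (h.pow o m).congr ?_ ?_
  · rw [v.map_sub_swap, show y ^ m - y⁻¹ = (y ^ (m + 1) - 1) * y⁻¹ by field_simp; ring]
    exact v_mul_lt a (by simp [k])
  · rw [norm_sub_rev, show e ^ m - e⁻¹ = (e ^ (m + 1) - 1) * e⁻¹ by field_simp; ring]
    exact KL.mul_lt_left (((h.pow o _).sub o (Rel.one o)).lt o a) (by simp [k1])

lemma Rel.eval (o : WOK v W ι) {f : Polynomial Ω} {F : Polynomial E}
    (hf : ∀ i, Rel v W ι (f.coeff i) (F.coeff i)) (h : Rel v W ι y e) :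
    Rel v W ι (f.eval y) (F.eval e) := by
  rw [eval_eq_sum_range' (n := f.natDegree + F.natDegree + 1) (by omega),
    eval_eq_sum_range' (n := f.natDegree + F.natDegree + 1) (by omega)]
  induction f.natDegree + F.natDegree + 1 with
  | zero => simpa using Rel.zero o
  | succ n ih => simpa only [Finset.sum_range_succ] using ih.add o ((hf n).mul o (h.pow o n))

lemma Rel.deriv (o : WOK v W ι) {f : Polynomial Ω} {F : Polynomial E}
    (hf : ∀ i, Rel v W ι (f.coeff i) (F.coeff i)) (i : ℕ) :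
    Rel v W ι (f.derivative.coeff i) (F.derivative.coeff i) := by
  simpa only [coeff_derivative] using (hf (i + 1)).mul o ((Rel.natCast o i).add o (Rel.one o))

lemma one_add_zpow {x : E} (hx : ‖x‖ < 1) (i : ℤ) : ‖(1 + x) ^ i - 1‖ < 1 := by
  obtain ⟨u, h⟩ := HH.one_add_zpow (E := E) i
  simpa using (KL.HD.lip0 h hx).trans_lt hx

lemma rel_loc (o : WOK v W ι) {B : Subring Ω} {φ : Ω → E} (h : IsPH B φ) {S : Set Ω}
    (hB : (∀ s ∈ B, φ s ≠ 0 → s⁻¹ ∈ B) ∨ loc v (Subring.closure S) ≤ B)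
    (hS : ∀ s ∈ S, s ∈ B ∧ Rel v W ι s (φ s)) :
    ∀ y ∈ loc v (Subring.closure S), y ∈ B ∧ Rel v W ι y (φ y) := by
  refine loc_ind _ hS ⟨B.zero_mem, h.zero ▸ Rel.zero o⟩ ⟨B.one_mem, h.one ▸ Rel.one o⟩
    (fun x _ y _ a b => ⟨B.add_mem a.1 b.1, h.add x a.1 y b.1 ▸ a.2.add o b.2⟩)
    (fun x _ a => ⟨B.neg_mem a.1, h.neg a.1 ▸ a.2.neg o⟩)
    (fun x _ y _ a b => ⟨B.mul_mem a.1 b.1, h.mul x a.1 y b.1 ▸ a.2.mul o b.2⟩) fun x hx k a => ?_
  have : x⁻¹ ∈ B := hB.elim (fun h' => h' x a.1 fun k' => by simpa [k'] using a.2.unit o k)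
    fun h' => h' (inv_mem_loc hx k)
  exact ⟨this, h.inv a.1 this ▸ a.2.inv o k⟩

/-- The monomials given by a set of pairs. -/
def mon (z : Ω) (P : Set (Ω × ℤ)) : Set Ω := (fun q : Ω × ℤ => q.1 * z ^ q.2) '' P

/-- The data needed to construct points. -/
structure Ctx (v : Valuation Ω Γ₀) (W A : Subring Ω) (ι : Ω → E) (M : Subfield Ω)
    (P : Set (Ω × ℤ)) (z b : Ω) (μ : Polynomial Ω) (d : E) : Prop where
  ok : WOK v W ι
  ph : IsPH A ι
  acl : ACl M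
  AM : ∀ a ∈ A, a ∈ M
  z_not : z ∉ M
  PA : ∀ q ∈ P, q.1 ∈ A
  d0 : d ≠ 0
  ra : ∀ q ∈ P, Rel v W ι (q.1 * z ^ q.2) (ι q.1 * d ^ q.2)
  rb : ∃ e, Rel v W ι b e
  monic : μ.Monic
  coeff : ∀ i, μ.coeff i ∈ loc v (Subring.closure (mon z P))
  root : μ.eval b = 0
  simple : v (μ.derivative.eval b) = 1
  min : ∀ f : Polynomial Ω, (∀ i, f.coeff i ∈ Adj M {z}) → f.eval b = 0 → f ≠ 0 →
    μ.natDegree ≤ f.natDegree

/-- The local ring of the chart. -/
abbrev LL (v : Valuation Ω Γ₀) (P : Set (Ω × ℤ)) (z b : Ω) : Subring Ω :=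
  loc v (Subring.closure (insert b (mon z P)))

/-- The common domain of all points. -/
abbrev Dm (v : Valuation Ω Γ₀) (A : Subring Ω) (P : Set (Ω × ℤ)) (z b : Ω) : Subring Ω :=
  Subring.closure ((A : Set Ω) ∪ {z, z⁻¹} ∪ LL v P z b)

/-- A point of the chart with coordinate `x`. -/
structure Pt (v : Valuation Ω Γ₀) (W A : Subring Ω) (ι : Ω → E) (P : Set (Ω × ℤ)) (z b : Ω)
    (d x : E) (φ : Ω → E) : Prop where
  lt : ‖x‖ < 1
  ph : IsPH (Dm v A P z b) φ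
  eq : ∀ a ∈ A, φ a = ι a
  hz : φ z = d * (1 + x)
  hb : Rel v W ι b (φ b)

variable {A : Subring Ω} {M : Subfield Ω} {P : Set (Ω × ℤ)} {z b : Ω} {μ : Polynomial Ω} {d x : E}
  {φ φ' : Ω → E}

lemma A_le {a : Ω} (h : a ∈ A) : a ∈ Dm v A P z b := Subring.subset_closure (.inl (.inl h))

lemma z_mem : z ∈ Dm v A P z b := Subring.subset_closure (.inl (.inr (by simp)))

lemma zi_mem : z⁻¹ ∈ Dm v A P z b := Subring.subset_closure (.inl (.inr (by simp)))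

lemma L_le : LL v P z b ≤ Dm v A P z b := fun _ h => Subring.subset_closure (.inr h)

lemma b_mem : b ∈ LL v P z b := le_loc _ (Subring.subset_closure (.inl rfl))

lemma L0_le : loc v (Subring.closure (mon z P)) ≤ LL v P z b :=
  loc_mono (Subring.closure_mono (Set.subset_insert _ _))

lemma zpow_mem {B : Subring Ω} (h : z ∈ B) (h' : z⁻¹ ∈ B) (i : ℤ) : z ^ i ∈ B := by
  obtain ⟨n, rfl | rfl⟩ := i.eq_nat_or_neg
  · simpa using B.pow_mem h n
  · simpa using B.pow_mem h' n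

lemma Ctx.mon (c : Ctx v W A ι M P z b μ d) {B : Subring Ω} (h : IsPH B φ) (hA : A ≤ B)
    (hz : z ∈ B) (hz' : z⁻¹ ∈ B) (e : ∀ a ∈ A, φ a = ι a) (hx : ‖x‖ < 1)
    (e' : φ z = d * (1 + x)) {q : Ω × ℤ} (hq : q ∈ P) :
    φ (q.1 * z ^ q.2) = ι q.1 * d ^ q.2 * (1 + x) ^ q.2 ∧ q.1 * z ^ q.2 ∈ B ∧
      Rel v W ι (q.1 * z ^ q.2) (φ (q.1 * z ^ q.2)) := by
  have h1 : φ (q.1 * z ^ q.2) = ι q.1 * d ^ q.2 * (1 + x) ^ q.2 := by
    rw [h.mul _ (hA (c.PA q hq)) _ (zpow_mem hz hz' _), h.zpow hz hz', e _ (c.PA q hq), e',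
      mul_zpow, mul_assoc]
  refine ⟨h1, B.mul_mem (hA (c.PA q hq)) (zpow_mem hz hz' _), (c.ra q hq).congr (by simp) ?_⟩
  rw [h1, ← mul_sub_one]
  exact KL.mul_lt_right ((c.ra q hq).le c.ok) (one_add_zpow hx _)

lemma Pt.mon (c : Ctx v W A ι M P z b μ d) (h : Pt v W A ι P z b d x φ) {q : Ω × ℤ} (hq : q ∈ P) :
    φ (q.1 * z ^ q.2) = ι q.1 * d ^ q.2 * (1 + x) ^ q.2 ∧ q.1 * z ^ q.2 ∈ Dm v A P z b ∧
      Rel v W ι (q.1 * z ^ q.2) (φ (q.1 * z ^ q.2)) :=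
  c.mon h.ph (fun _ => A_le) z_mem zi_mem h.eq h.lt h.hz hq

lemma Pt.rel (c : Ctx v W A ι M P z b μ d) (h : Pt v W A ι P z b d x φ) (hy : y ∈ LL v P z b) :
    Rel v W ι y (φ y) := by
  refine (rel_loc c.ok h.ph (.inr L_le) ?_ y hy).2
  rintro _ (rfl | ⟨q, hq, rfl⟩)
  · exact ⟨L_le b_mem, h.hb⟩
  · exact (h.mon c hq).2

lemma Pt.root (c : Ctx v W A ι M P z b μ d) (h : Pt v W A ι P z b d x φ) :
    (∀ i, (pm φ μ).coeff i = φ (μ.coeff i)) ∧ (∀ i, ‖(pm φ μ).coeff i‖ ≤ 1) ∧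
      (pm φ μ).eval (φ b) = 0 ∧ ‖(pm φ μ).derivative.eval (φ b)‖ = 1 := by
  have h1 := coeff_pm h.ph.zero μ
  have h2 : ∀ i, Rel v W ι (μ.coeff i) ((pm φ μ).coeff i) := fun i =>
    h1 i ▸ h.rel c (L0_le (c.coeff i))
  refine ⟨h1, fun i => (h2 i).le c.ok, ?_,
    (Rel.eval c.ok (Rel.deriv c.ok h2) h.hb).unit c.ok c.simple⟩
  rw [← (h.ph.eval_pm (fun i => L_le (L0_le (c.coeff i))) (L_le b_mem)).2, c.root, h.ph.zero]

lemma Ctx.exists_pt [CompleteSpace E] (c : Ctx v W A ι M P z b μ d) (hx : ‖x‖ < 1) :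
    ∃ φ, Pt v W A ι P z b d x φ := by
  have x0 : d * (1 + x) ≠ 0 := mul_ne_zero c.d0 fun k => by
    rw [(neg_eq_of_add_eq_zero_right k).symm] at hx
    simp at hx
  obtain ⟨ψ₁, a1, a2, a3⟩ := c.ph.ext_trans (z := z) (fun f hf k => by
    by_contra f0
    exact c.z_not (c.acl z (isAlgebraic_of_ne f0 (fun i => c.AM _ (hf i)) k))) (d * (1 + x))
  obtain ⟨B, ψ₂, b1, b2, b3, b4, b5⟩ := ext_loc a1
  have A1 : ∀ a ∈ A, a ∈ Subring.closure (insert z (A : Set Ω)) := fun a h =>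
    Subring.subset_closure (.inr h)
  have z1 : z ∈ Subring.closure (insert z (A : Set Ω)) := Subring.subset_closure (.inl rfl)
  have e2 : ∀ a ∈ A, ψ₂ a = ι a := fun a h => (b3 a (A1 a h)).trans (a2 a h)
  have z2 : ψ₂ z = d * (1 + x) := (b3 z z1).trans a3
  have zi : z⁻¹ ∈ B := b4 z (b2 z1) (z2 ▸ x0)
  have r2 := rel_loc c.ok b1 (S := ST.mon z P) (.inl b4) (by
    rintro _ ⟨q, hq, rfl⟩
    exact (c.mon b1 (fun a h => b2 (A1 a h)) (b2 z1) zi e2 hx z2 hq).2)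
  have h2 : ∀ i, Rel v W ι (μ.coeff i) ((pm ψ₂ μ).coeff i) := fun i =>
    coeff_pm b1.zero μ i ▸ (r2 _ (c.coeff i)).2
  obtain ⟨e, he⟩ := c.rb
  obtain ⟨b', k1, k2⟩ := hensel (fun i => (h2 i).le c.ok) (he.le c.ok)
    ((Rel.eval c.ok h2 he).lt c.ok (by simp [c.root]))
    ((Rel.eval c.ok (Rel.deriv c.ok h2) he).unit c.ok c.simple)
  have hB : ∀ y ∈ B, y ∈ Adj M {z} := b5 _ fun a h =>
    (Subring.closure_le (t := (Adj M {z}).toSubring)).2 (by
      rintro _ (rfl | k)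
      · exact mem_Adj M rfl
      · exact le_Adj M _ (c.AM _ k)) h
  obtain ⟨ψ₃, c1, c2, c3⟩ := b1.ext_alg c.monic (fun i => (r2 _ (c.coeff i)).1) c.root
    (fun f hf => c.min f fun i => hB _ (hf i)) k1
  obtain ⟨B', ψ, d1, d2, d3, d4, -⟩ := ext_loc c1
  have B1 : ∀ a ∈ B, a ∈ Subring.closure (insert b (B : Set Ω)) := fun a h =>
    Subring.subset_closure (.inr h)
  have b0 : b ∈ Subring.closure (insert b (B : Set Ω)) := Subring.subset_closure (.inl rfl)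
  have e4 : ∀ a ∈ B, ψ a = ψ₂ a := fun a h => (d3 a (B1 a h)).trans (c2 a h)
  have hb : Rel v W ι b (ψ b) := by
    rw [d3 b b0, c3]
    exact he.congr (by simp) k2
  have r4 := rel_loc c.ok d1 (S := insert b (ST.mon z P)) (.inl d4) (by
    rintro _ (rfl | k)
    · exact ⟨d2 b0, hb⟩
    · have := r2 _ (le_loc _ (Subring.subset_closure k))
      exact ⟨d2 (B1 _ this.1), e4 _ this.1 ▸ this.2⟩)
  refine ⟨ψ, hx, d1.mono (Subring.closure_le.2 ?_), fun a h => (e4 a (b2 (A1 a h))).trans (e2 a h),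
    (e4 z (b2 z1)).trans z2, hb⟩
  rintro y ((k | rfl | rfl) | k)
  · exact d2 (B1 _ (b2 (A1 _ k)))
  · exact d2 (B1 _ (b2 z1))
  · exact d2 (B1 _ zi)
  · exact (r4 y k).1

lemma Pt.unique (c : Ctx v W A ι M P z b μ d) (h : Pt v W A ι P z b d x φ)
    (h' : Pt v W A ι P z b d x φ') : ∀ y ∈ Dm v A P z b, φ y = φ' y := by
  have key : ∀ S : Set Ω, loc v (Subring.closure S) ≤ Dm v A P z b → (∀ s ∈ S, φ s = φ' s) →
      ∀ y ∈ loc v (Subring.closure S), φ y = φ' y := fun S k hS =>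
    loc_ind _ hS (h.ph.zero.trans h'.ph.zero.symm) (h.ph.one.trans h'.ph.one.symm)
      (fun x a y b e e' => by rw [h.ph.add x (k a) y (k b), h'.ph.add x (k a) y (k b), e, e'])
      (fun x a e => by rw [h.ph.neg (k a), h'.ph.neg (k a), e])
      (fun x a y b e e' => by rw [h.ph.mul x (k a) y (k b), h'.ph.mul x (k a) y (k b), e, e'])
      fun x a u e => by
        rw [h.ph.inv (k a) (k (inv_mem_loc a u)), h'.ph.inv (k a) (k (inv_mem_loc a u)), e]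
  have h1 : ∀ s ∈ ST.mon z P, φ s = φ' s := by
    rintro _ ⟨q, hq, rfl⟩
    exact (h.mon c hq).1.trans (h'.mon c hq).1.symm
  obtain ⟨a1, a2, a3, a4⟩ := h.root c
  obtain ⟨b1, -, b3, -⟩ := h'.root c
  have e : pm φ' μ = pm φ μ := Polynomial.ext fun i => by
    rw [a1, b1, key _ (L0_le.trans L_le) h1 _ (c.coeff i)]
  have h2 : φ' b = φ b := hensel_unique a2 (h.hb.le c.ok) a4 a3 (e ▸ b3) (h'.hb.close c.ok h.hb)
  have hz : φ z = φ' z := h.hz.trans h'.hz.symm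
  refine h.ph.eq_on_closure h'.ph Subring.subset_closure ?_
  rintro y ((k | rfl | rfl) | k)
  · exact (h.eq y k).trans (h'.eq y k).symm
  · exact hz
  · rw [h.ph.inv z_mem zi_mem, h'.ph.inv z_mem zi_mem, hz]
  · refine key _ L_le ?_ y k
    rintro _ (rfl | k)
    · exact h2.symm
    · exact h1 _ k

lemma Ctx.hh (c : Ctx v W A ι M P z b μ d) {Φ : E → Ω → E}
    (h : ∀ x, ‖x‖ < 1 → Pt v W A ι P z b d x (Φ x)) : ∀ y ∈ LL v P z b, HH fun x => Φ x y := by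
  have key : ∀ S : Set Ω, loc v (Subring.closure S) ≤ LL v P z b →
      (∀ s ∈ S, HH fun x => Φ x s) → ∀ y ∈ loc v (Subring.closure S), HH fun x => Φ x y :=
    fun S k hS => loc_ind _ hS ((HH.const (c := 0) (by simp)).congr fun x hx => (h x hx).ph.zero)
      ((HH.const (c := 1) (by simp)).congr fun x hx => (h x hx).ph.one)
      (fun y a y' b e e' => (e.add e').congr fun x hx =>
        (h x hx).ph.add y (L_le (k a)) y' (L_le (k b)))
      (fun y a e => e.neg.congr fun x hx => (h x hx).ph.neg (L_le (k a)))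
      (fun y a y' b e e' => (e.mul e').congr fun x hx =>
        (h x hx).ph.mul y (L_le (k a)) y' (L_le (k b)))
      fun y a u e => (e.inv fun x hx => ((h x hx).rel c (k a)).unit c.ok u).congr fun x hx =>
        (h x hx).ph.inv (L_le (k a)) (L_le (k (inv_mem_loc a u)))
  have h1 : ∀ s ∈ ST.mon z P, HH fun x => Φ x s := by
    rintro _ ⟨q, hq, rfl⟩
    exact ((HH.const ((c.ra q hq).le c.ok)).mul (HH.one_add_zpow q.2)).congr fun x hx =>
      ((h x hx).mon c hq).1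
  refine key _ le_rfl ?_
  rintro _ (rfl | k)
  · exact HH.root (F := fun x => pm (Φ x) μ) (d := μ.natDegree)
      (fun x hx => ((h x hx).ph.monic_pm c.monic).2.le)
      (fun i => (key _ L0_le h1 _ (c.coeff i)).congr fun x hx => ((h x hx).root c).1 i)
      (fun x hx => (h x hx).hb.le c.ok) (fun x y hx hy => (h x hx).hb.close c.ok (h y hy).hb)
      (fun x hx => ((h x hx).root c).2.2.1) fun x hx => ((h x hx).root c).2.2.2
  · exact h1 _ k

end ST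

end Pool.Agent.Lib.MP_132c47_lc
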