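import Pool.Agent.Lib.MP_132c47_lc.ST1
import Pool.Agent.Lib.MP_132c47_lc.KL2

/-! Block ST, part 2: the Galois action on the points of a chart. -/

namespace Pool.Agent.Lib.MP_132c47_lc

open Polynomial Filter Topology

namespace ST

variable {Ω : Type} [Field Ω] {Γ₀ : Type} [LinearOrderedCommGroupWithZero Γ₀]
  {v : Valuation Ω Γ₀} {E : Type} [NormedField E] [IsUltrametricDist E]
  {G : Type} [Group G] [MulSemiringAction G Ω] {H : Type} [Group H] [MulSemiringAction H E]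
  {p : ℕ} {W A : Subring Ω} {ι : Ω → E} {M : Subfield Ω} {P : Set (Ω × ℤ)} {z b : Ω}
  {μ : Polynomial Ω} {d x : E} {φ : Ω → E} {γ : H → G}

/-- The data needed for the action on points. -/
structure Eqv (v : Valuation Ω Γ₀) (W A : Subring Ω) (ι : Ω → E) (M : Subfield Ω)
    (P : Set (Ω × ℤ)) (z b : Ω) (μ : Polynomial Ω) (d : E) (p : ℕ) (γ : H → G) : Prop where
  c : Ctx v W A ι M P z b μ d
  act : Act v G
  tgt : Tgt p E H
  GA : ∀ g : G, ∀ a ∈ A, g • a ∈ A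
  GP : ∀ g : G, ∀ q ∈ P, (g • q.1, q.2) ∈ P
  gz : ∀ g : G, g • z / z ∈ LL v P z b
  gb : ∀ g : G, g • b ∈ LL v P z b
  eqv : ∀ τ, ∀ a ∈ A, τ • ι a = ι (γ τ • a)
  mul : ∀ τ τ', γ (τ * τ') • z = γ τ • γ τ' • z
  one : γ 1 • z = z
  rd : ∀ τ, Rel v W ι (γ τ • z / z) (τ • d / d)

lemma v_gz (hA : Act v G) (hz : z ≠ 0) (g : G) : v (g • z / z) = 1 := by
  rw [map_div₀, hA.v_smul, div_self ((map_ne_zero v).2 hz)]

omit [IsUltrametricDist E] in
lemma Eqv.z0 (e : Eqv v W A ι M P z b μ d p γ) : z ≠ 0 := fun k => e.c.z_not (k ▸ M.zero_mem)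

omit [IsUltrametricDist E] in
lemma Eqv.L_smul (e : Eqv v W A ι M P z b μ d p γ) (g : G) :
    ∀ y ∈ LL v P z b, g • y ∈ LL v P z b := by
  refine loc_ind _ ?_ (by simp) (by simp) (fun x _ y _ a b => smul_add g x y ▸ add_mem a b)
    (fun x _ a => smul_neg g x ▸ neg_mem a) (fun x _ y _ a b => smul_mul' g x y ▸ mul_mem a b)
    fun x _ k a => smul_inv'' g x ▸ inv_mem_loc a ((e.act.v_smul g x).trans k)
  rintro _ (rfl | ⟨q, hq, rfl⟩)
  · exact e.gb g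
  · have := e.z0
    rw [show g • (q.1 * z ^ q.2) = g • q.1 * z ^ q.2 * (g • z / z) ^ q.2 by
      rw [smul_mul', smul_zpow₀', div_zpow]
      field_simp]
    exact mul_mem (le_loc _ (Subring.subset_closure (.inr ⟨_, e.GP g q hq, rfl⟩)))
      (zpow_mem (e.gz g) (inv_mem_loc (e.gz g) (v_gz e.act this g)) _)

omit [IsUltrametricDist E] in
lemma Eqv.D_smul (e : Eqv v W A ι M P z b μ d p γ) (g : G) {y : Ω} (hy : y ∈ Dm v A P z b) :
    g • y ∈ Dm v A P z b := by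
  refine (Subring.closure_le (t := (Dm v A P z b).comap (MulSemiringAction.toRingHom G Ω g))).2
    ?_ hy
  have := e.z0
  rintro y ((k | rfl | rfl) | k)
  · exact A_le (e.GA g y k)
  · change g • y ∈ Dm v A P y b
    rw [show g • y = y * (g • y / y) by field_simp]
    exact mul_mem z_mem (L_le (e.gz g))
  · change g • z⁻¹ ∈ Dm v A P z b
    rw [show g • z⁻¹ = z⁻¹ * (g • z / z)⁻¹ by rw [smul_inv'']; field_simp]
    exact mul_mem zi_mem (L_le (inv_mem_loc (e.gz g) (v_gz e.act this g)))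
  · exact L_le (e.L_smul g y k)

omit [IsUltrametricDist E] in
lemma Eqv.phi_gz (e : Eqv v W A ι M P z b μ d p γ) (h : Pt v W A ι P z b d x φ) (τ : H) :
    τ⁻¹ • (τ • φ (γ τ⁻¹ • z) / d - 1) = (τ⁻¹ • d / d)⁻¹ * (φ (γ τ⁻¹ • z / z) * (1 + x)) - 1 := by
  have := e.z0
  have h1 := h.ph.mul z z_mem _ (L_le (e.gz (γ τ⁻¹)))
  rw [mul_div_cancel₀ _ this, h.hz] at h1
  rw [smul_sub, smul_div₀', inv_smul_smul, smul_one, h1, inv_div]
  ring

lemma Eqv.pt (e : Eqv v W A ι M P z b μ d p γ) (h : Pt v W A ι P z b d x φ) (τ : H) :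
    Pt v W A ι P z b d (τ • φ (γ τ⁻¹ • z) / d - 1) fun y => τ • φ (γ τ⁻¹ • y) := by
  have o := e.c.ok
  refine ⟨?_, ⟨by rw [smul_one, h.ph.one, smul_one], fun y a y' a' => ?_, fun y a y' a' => ?_⟩,
    fun a ha => ?_, ?_, ?_⟩
  · have k := v_gz e.act e.z0 (γ τ⁻¹)
    rw [← e.tgt.iso τ⁻¹, e.phi_gz h]
    refine Rel.lt o (((((e.rd τ⁻¹).inv o k).mul o ((h.rel e.c (e.gz _)).mul o
      ((Rel.one o).congr (y' := 1) (by simp) (by simpa using h.lt)))).sub o (Rel.one o))) ?_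
    rw [mul_one, inv_mul_cancel₀ fun k' => by simp [k'] at k]
    simp
  · rw [smul_add, h.ph.add _ (e.D_smul _ a) _ (e.D_smul _ a'), smul_add]
  · rw [smul_mul', h.ph.mul _ (e.D_smul _ a) _ (e.D_smul _ a'), smul_mul']
  · rw [h.eq _ (e.GA _ a ha), ← e.eqv _ a ha, smul_inv_smul]
  · have := e.c.d0
    field_simp
    ring
  · have k := h.rel e.c (e.gb (γ τ⁻¹))
    refine k.congr ?_ (e.tgt.res τ _ (k.le o))
    rw [v.map_sub_swap]
    exact e.act.inv _ b (h.hb.v_le o)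

lemma Eqv.fixed [Fact p.Prime] [Fintype H] [FaithfulSMul H E] [CharZero E] [CompleteSpace E]
    (e : Eqv v W A ι M P z b μ d p γ)
    (dense : ∀ r s : ℝ, 0 ≤ r → r < s → ∃ c : E, (∀ g : H, g • c = c) ∧ r < ‖c‖ ∧ ‖c‖ < s)
    (trace : ∀ c : E, (∀ g : H, g • c = c) → ‖c‖ < 1 →
      ∃ α : E, ‖α‖ ≤ 1 ∧ ∑ g : H, g • α = c) :
    ∃ x φ, Pt v W A ι P z b d x φ ∧ ∀ τ : H, ∀ y ∈ Dm v A P z b, τ • φ (γ τ⁻¹ • y) = φ y := by
  have : ∀ x : E, ∃ φ, ‖x‖ < 1 → Pt v W A ι P z b d x φ := fun x => by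
    by_cases hx : ‖x‖ < 1
    · exact (e.c.exists_pt hx).imp fun _ k _ => k
    · exact ⟨0, fun k => (hx k).elim⟩
  choose Φ hΦ using this
  refine (e.tgt.fixedPoint_of dense trace
    (fun τ x => τ⁻¹ • (τ • Φ x (γ τ⁻¹ • z) / d - 1)) (fun τ => ?_)
    (fun τ x hx => (e.tgt.iso _ _).trans_lt (e.pt (hΦ x hx) τ).lt) (fun x hx => ?_)
    fun τ τ' x hx => ?_).elim fun x ⟨hx, h⟩ => ⟨x, Φ x, hΦ x hx, fun τ => ?_⟩
  · have k := ((e.rd τ⁻¹).inv e.c.ok (v_gz e.act e.z0 _)).le e.c.ok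
    exact (((HH.const k).mul ((e.c.hh hΦ _ (e.gz (γ τ⁻¹))).mul
      ((HH.const (c := 1) (by simp)).add HH.id))).add (HH.const (c := -1) (by simp))).congr
      fun x hx => (e.phi_gz (hΦ x hx) τ).trans (sub_eq_add_neg _ _)
  · have := e.c.d0
    simp only [inv_one, one_smul, e.one, (hΦ x hx).hz]
    field_simp
    ring
  · have k := e.pt (hΦ x hx) τ'
    simp only [smul_inv_smul]
    rw [(hΦ _ k.lt).unique e.c k _ (e.D_smul _ z_mem), mul_inv_rev, e.mul, mul_smul]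
  · have k := e.pt (hΦ x hx) τ
    have := h τ
    rw [smul_inv_smul] at this
    rw [this] at k
    exact k.unique e.c (hΦ x hx)

lemma exists_rs {κ : Type} {s : Set κ} (hs : s.Finite) (a : κ → ℝ) (n : κ → ℤ)
    (ha : ∀ i, 0 ≤ a i) (h : ∀ i ∈ s, ∀ j ∈ s, 0 < n i → n j < 0 →
      a i ^ (-n j).toNat * a j ^ (n i).toNat < 1) :
    ∃ r u : ℝ, 0 ≤ r ∧ r < u ∧ ∀ t, r < t → t < u → ∀ i ∈ s, n i ≠ 0 → a i * t ^ n i < 1 := by
  let ρ : κ → ℝ := fun j => a j ^ (((-n j).toNat : ℝ)⁻¹)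
  have ρ0 : ∀ j, 0 ≤ ρ j := fun j => Real.rpow_nonneg (ha j) _
  have ρ1 : ∀ j, n j < 0 → ρ j ^ (-n j).toNat = a j := fun j k =>
    Real.rpow_inv_natCast_pow (ha j) (by omega)
  obtain ⟨r, h1, h2⟩ := Set.exists_max_image (insert 0 (ρ '' {j ∈ s | n j < 0})) id
    (((hs.subset fun _ k => k.1).image ρ).insert 0) ⟨0, .inl rfl⟩
  have r0 : 0 ≤ r := h2 0 (.inl rfl)
  have : ∀ᶠ t in 𝓝[>] r, ∀ i ∈ s, n i ≠ 0 → a i * t ^ n i < 1 := by
    refine (eventually_all_finite hs).2 fun i hi => ?_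
    rcases lt_trichotomy (n i) 0 with k | k | k
    · filter_upwards [self_mem_nhdsWithin] with t (ht : r < t) _
      have t0 := r0.trans_lt ht
      rw [show n i = -((-n i).toNat : ℤ) by omega, zpow_neg, zpow_natCast, ← div_eq_mul_inv,
        div_lt_one (pow_pos t0 _), ← ρ1 i k]
      exact pow_lt_pow_left₀ (lt_of_le_of_lt (h2 _ (.inr ⟨i, ⟨hi, k⟩, rfl⟩)) ht) (ρ0 i) (by omega)
    · exact Eventually.of_forall fun t k' => (k' k).elim
    · have e : a i * r ^ (n i).toNat < 1 := by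
        rcases h1 with rfl | ⟨j, ⟨hj, k'⟩, rfl⟩
        · rw [zero_pow (by omega), mul_zero]
          exact one_pos
        · refine lt_of_pow_lt_pow_left₀ (-n j).toNat zero_le_one ?_
          rw [one_pow, mul_pow, ← pow_mul, mul_comm (n i).toNat, pow_mul, ρ1 j k']
          exact h i hi j hj k k'
      have c : ContinuousAt (fun t : ℝ => a i * t ^ (n i).toNat) r := by fun_prop
      filter_upwards [(c.eventually_lt continuousAt_const e).filter_mono nhdsWithin_le_nhds]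
        with t ht _
      rwa [show n i = ((n i).toNat : ℤ) by omega, zpow_natCast]
  obtain ⟨u, hu, k⟩ := mem_nhdsGT_iff_exists_Ioo_subset.1 this
  exact ⟨r, u, r0, hu, fun t a b => k ⟨a, b⟩⟩

lemma fin_supp (v : Valuation Ω Γ₀) (M : Subfield Ω) (z : Ω) (S : Set Ω) {X : Set Ω}
    (hX : X.Finite) : ∃ F : Set (Ω × ℤ), F.Finite ∧ (∀ q ∈ F, q.1 ∈ M ∧ v (q.1 * z ^ q.2) ≤ 1) ∧
      ∀ x ∈ X, x ∈ loc v (Subring.closure (S ∪ Mon v M z)) →
        x ∈ loc v (Subring.closure (S ∪ mon z F)) := by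
  have h1 : ∀ y, y ∈ Subring.closure (S ∪ Mon v M z) → ∃ F : Set (Ω × ℤ), F.Finite ∧
      (∀ q ∈ F, q.1 ∈ M ∧ v (q.1 * z ^ q.2) ≤ 1) ∧ y ∈ Subring.closure (S ∪ mon z F) := by
    intro y hy
    obtain ⟨T, h1, h2⟩ := exists_finset_closure hy
    obtain ⟨F, k1, k2, k3⟩ := (Set.exists_subset_image_finite_and
      (f := fun q : Ω × ℤ => q.1 * z ^ q.2) (s := {q | q.1 ∈ M ∧ v (q.1 * z ^ q.2) ≤ 1})
      (p := fun t => (T : Set Ω) \ S ⊆ t)).1 ⟨T \ S, fun t k => by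
        obtain ⟨a, c, hc, i, rfl⟩ := (h1 k.1).resolve_left k.2
        exact ⟨(c, i), ⟨hc, a⟩, rfl⟩, T.finite_toSet.sdiff, le_rfl⟩
    exact ⟨F, k2, k1, Subring.closure_mono (Set.sdiff_subset_iff.1 k3) h2⟩
  have h2 : ∀ x, ∃ F : Set (Ω × ℤ), F.Finite ∧ (∀ q ∈ F, q.1 ∈ M ∧ v (q.1 * z ^ q.2) ≤ 1) ∧
      (x ∈ loc v (Subring.closure (S ∪ Mon v M z)) →
        x ∈ loc v (Subring.closure (S ∪ mon z F))) := fun x => by
    by_cases k : x ∈ loc v (Subring.closure (S ∪ Mon v M z))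
    · obtain ⟨y, hy, s, hs, e, k⟩ := k
      obtain ⟨F, a1, a2, a3⟩ := h1 y hy
      obtain ⟨F', b1, b2, b3⟩ := h1 s hs
      exact ⟨F ∪ F', a1.union b1, fun q k => k.elim (a2 q) (b2 q), fun _ =>
        ⟨y, Subring.closure_mono (Set.union_subset_union_right _
          (Set.image_mono Set.subset_union_left)) a3, s, Subring.closure_mono
          (Set.union_subset_union_right _ (Set.image_mono Set.subset_union_right)) b3, e, k⟩⟩
    · exact ⟨∅, Set.finite_empty, by simp, fun k' => (k k').elim⟩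
  choose F h3 h4 h5 using h2
  refine ⟨⋃ x ∈ X, F x, hX.biUnion fun x _ => h3 x, fun q k => ?_, fun x hx k =>
    loc_mono (Subring.closure_mono (Set.union_subset_union_right _
      (Set.image_mono (Set.subset_biUnion_of_mem hx)))) (h5 x k)⟩
  obtain ⟨x, -, k⟩ := Set.mem_iUnion₂.1 k
  exact h4 x q k

lemma v_mon_lt [IsAlgClosed Ω] (hM : ACl M) (hz : ∀ c ∈ M, v z ≠ v c) {c : Ω} (hc : c ∈ M) {i : ℤ}
    (hi : i ≠ 0) (h : v (c * z ^ i) ≤ 1) : v (c * z ^ i) < 1 := by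
  refine lt_of_le_of_ne h fun k => ?_
  have : ∃ u ∈ M, u ^ i = c⁻¹ := by
    obtain ⟨n, rfl | rfl⟩ := i.eq_nat_or_neg
    · simpa using hM.exists_pow (M.inv_mem hc) (n := n) (by omega)
    · simpa using hM.exists_pow hc (n := n) (by omega)
  obtain ⟨u, hu, e⟩ := this
  refine hz u hu ((zpow_left_inj₀ zero_le zero_le hi).1 ?_)
  rw [← map_zpow₀, ← map_zpow₀, e, map_inv₀]
  exact eq_inv_of_mul_eq_one_right (by rwa [← v.map_mul])

lemma v_zpow_sub (h : v (z - 1) < 1) (i : ℤ) : v z = 1 ∧ v (z ^ i - 1) < 1 := by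
  have h1 : v z = 1 := by simpa using v.map_one_add_of_lt h
  have h2 : ∀ n : ℕ, v (z ^ n - 1) < 1 := fun n => by
    rw [← mul_geom_sum]
    exact v_mul_lt h (v.map_sum_le fun j _ => by simp [h1])
  refine ⟨h1, ?_⟩
  obtain ⟨n, rfl | rfl⟩ := i.eq_nat_or_neg
  · simpa using h2 n
  · have z0 : z ≠ 0 := fun k => by simp [k] at h1
    rw [v.map_sub_swap, show 1 - z ^ (-n : ℤ) = (z ^ n - 1) * z ^ (-n : ℤ) by
      rw [zpow_neg, zpow_natCast]; field_simp]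
    exact v_mul_lt (h2 n) (by simp [h1])

lemma exists_d [IsAlgClosed Ω] [Fact p.Prime] [Fintype H] [FaithfulSMul H E] [CharZero E]
    (hA : Act v G) (hM : ACl M) (hE : Tgt p E H)
    (dense : ∀ r s : ℝ, 0 ≤ r → r < s → ∃ c : E, (∀ g : H, g • c = c) ∧ r < ‖c‖ ∧ ‖c‖ < s)
    (o : WOK v W ι) (z0 : z ≠ 0) (kind : v (z - 1) < 1 ∨ ∀ c ∈ M, v z ≠ v c) (hP : P.Finite)
    (hPM : ∀ q ∈ P, q.1 ∈ M ∧ v (q.1 * z ^ q.2) ≤ 1) (hPW : ∀ q ∈ P, v q.1 ≤ 1 → q.1 ∈ W)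
    (hW : ∀ g : G, ∃ e, Rel v W ι (g • z / z) e)
    (cp : ∀ q ∈ P, ∀ q' ∈ P, v (q.1 ^ (-q'.2).toNat * q'.1 ^ q.2.toNat) < 1 →
      ‖ι q.1‖ ^ (-q'.2).toNat * ‖ι q'.1‖ ^ q.2.toNat < 1)
    (mul : ∀ τ τ', γ (τ * τ') • z = γ τ • γ τ' • z) :
    ∃ d : E, d ≠ 0 ∧ (∀ q ∈ P, Rel v W ι (q.1 * z ^ q.2) (ι q.1 * d ^ q.2)) ∧
      ∀ τ : H, Rel v W ι (γ τ • z / z) (τ • d / d) := by
  rcases kind with k | k
  · refine ⟨1, one_ne_zero, fun q hq => ?_, fun τ => (Rel.one o).congr ?_ (by simp)⟩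
    · obtain ⟨h1, h2⟩ := v_zpow_sub k q.2
      have : v q.1 ≤ 1 := by simpa [h1] using (hPM q hq).2
      refine (Rel.self (hPW q hq this)).congr ?_ (by simp)
      rw [← mul_sub_one, mul_comm]
      exact v_mul_lt h2 this
    · have h1 := (v_zpow_sub k 0).1
      rw [div_sub_one z0, map_div₀, h1, div_one]
      exact hA.inv _ z h1.le
  choose U hU using hW
  obtain ⟨β, χ, β0, h1, -, -, h2⟩ := hE.eig (fun τ => U (γ τ))
    (fun τ => (hU _).unit o (v_gz hA z0 _)) fun τ τ' => by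
      refine (hU _).close o (((hU (γ τ)).mul o (hU (γ τ'))).congr ?_ (by simp))
      have : γ τ • z ≠ 0 := (smul_ne_zero_iff_ne _).2 z0
      rw [mul, show γ τ • γ τ' • z / z = γ τ • z / z * γ τ • (γ τ' • z / z) by
        rw [smul_div₀']; field_simp, ← mul_sub, mul_comm]
      exact v_mul_lt (hA.inv _ _ (v_gz hA z0 _).le) (v_gz hA z0 _).le
  obtain ⟨r, u, r0, ru, h3⟩ := exists_rs hP (fun q => ‖ι q.1‖) (fun q => q.2)
    (fun _ => norm_nonneg _) fun q hq q' hq' a a' => cp q hq q' hq' (by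
      rw [show q.1 ^ (-q'.2).toNat * q'.1 ^ q.2.toNat =
          (q.1 * z ^ q.2) ^ (-q'.2).toNat * (q'.1 * z ^ q'.2) ^ q.2.toNat by
        rw [mul_pow, mul_pow, mul_mul_mul_comm, ← zpow_natCast (z ^ q.2),
          ← zpow_natCast (z ^ q'.2), ← zpow_mul, ← zpow_mul, ← zpow_add₀ z0,
          Int.toNat_of_nonneg a.le, Int.toNat_of_nonneg (neg_pos.2 a').le]
        simp [mul_comm q'.2]]
      refine v_mul_lt ?_ ?_
      · rw [v.map_pow]
        exact pow_lt_one₀ zero_le (v_mon_lt hM k (hPM q hq).1 a.ne' (hPM q hq).2) (by omega)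
      · rw [v.map_pow]
        exact pow_le_one₀ zero_le (hPM q' hq').2)
  have β1 := norm_pos_iff.2 β0
  obtain ⟨c, c1, c2, c3⟩ := dense (r / ‖β‖) (u / ‖β‖) (by positivity) (by gcongr)
  have c0 : c ≠ 0 := norm_pos_iff.1 (lt_of_le_of_lt (by positivity) c2)
  refine ⟨β * c, mul_ne_zero β0 c0, fun q hq => ?_, fun τ => (hU (γ τ)).congr (by simp) ?_⟩
  · by_cases i0 : q.2 = 0
    · have := (hPM q hq).2
      simp only [i0, zpow_zero, mul_one] at this ⊢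
      exact Rel.self (hPW q hq this)
    · refine (Rel.zero o).congr
        (by simpa only [sub_zero] using v_mon_lt hM k (hPM q hq).1 i0 (hPM q hq).2) ?_
      rw [sub_zero, norm_mul, norm_zpow, norm_mul]
      exact h3 _ ((div_lt_iff₀' β1).1 c2) ((lt_div_iff₀' β1).1 c3) q hq i0
  · rw [smul_mul', h1, c1, mul_assoc, mul_div_cancel_right₀ _ (mul_ne_zero β0 c0)]
    exact h2 τ

end ST

end Pool.Agent.Lib.MP_132c47_lc
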