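import Pool.Agent.Lib.MP_132c47_lc.ST2

/-! Block ST, part 3: the choice of the finite set of parameters. -/

namespace Pool.Agent.Lib.MP_132c47_lc

open Polynomial _root_.Pool.Agent.Lib.MP_132c47_lc.ST

variable {Ω : Type} [Field Ω] {Γ₀ : Type} [LinearOrderedCommGroupWithZero Γ₀]
  {v : Valuation Ω Γ₀} {G : Type} [Group G] [MulSemiringAction G Ω] {p : ℕ} [Fact p.Prime]

theorem step_of [IsAlgClosed Ω] (hA : Act v G) {M : Subfield Ω} (hM : ACl M)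
    (hG : ∀ g : G, ∀ x ∈ M, g • x ∈ M) (Y : Finset Ω) (hY : ∀ y ∈ Y, ∀ g : G, g • y = y)
    {z b : Ω} {μ : Polynomial Ω} (hc : Chart v G M Y z b μ) :
    ∃ T : Finset Ω, (∀ x ∈ T, x ∈ M) ∧ ∀ (E : Type) [NormedField E] [IsUltrametricDist E]
      [CompleteSpace E] [CharZero E] (H : Type) [Group H] [Fintype H] [MulSemiringAction H E]
      [FaithfulSMul H E] (_ : Tgt p E H)
      (_ : ∀ r s : ℝ, 0 ≤ r → r < s → ∃ c : E, (∀ g : H, g • c = c) ∧ r < ‖c‖ ∧ ‖c‖ < s)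
      (_ : ∀ c : E, (∀ g : H, g • c = c) → ‖c‖ < 1 → ∃ α : E, ‖α‖ ≤ 1 ∧ ∑ g : H, g • α = c)
      (A : Subring Ω) (ι : Ω → E) (γ : H → G),
      IsPH A ι → (∀ x ∈ A, x ∈ M) → (∀ x ∈ T, x ∈ A) → (∀ g : G, ∀ x ∈ A, g • x ∈ A) →
      Resp v T ι → (∀ τ, ∀ x ∈ A, τ • ι x = ι (γ τ • x)) →
      (∀ τ τ', ∀ x ∈ T, γ (τ * τ') • x = γ τ • γ τ' • x) → (∀ x ∈ T, γ 1 • x = x) →
      ∃ φ : Ω → E, IsPH (Subring.closure (Y : Set Ω)) φ ∧ (∀ y ∈ Y, ∀ τ : H, τ • φ y = φ y) ∧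
        Resp v Y φ := by
  classical
  have z0 : z ≠ 0 := fun k => hc.z_not (k ▸ M.zero_mem)
  choose! c hcM j hj hu using hc.ys
  have hz : (Set.range fun g : G => g • z / z).Finite := by
    simpa only [← Set.range_comp, Function.comp_def] using (hA.fin z).image (· / z)
  obtain ⟨F, F1, F2, F3⟩ := fin_supp v M z {b} (((hz.union (hA.fin b)).union
    (Y.finite_toSet.image fun y => y / (c y * z ^ j y))).union
    (Y.finite_toSet.image fun y => c y * z ^ j y))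
  obtain ⟨F', G1, G2, G3⟩ := fin_supp v M z ∅ μ.finite_range_coeff
  simp only [Set.singleton_union, Set.empty_union] at F3 G3
  obtain ⟨P, P1, P2, P3, P4⟩ : ∃ P : Set (Ω × ℤ), P.Finite ∧ F ∪ F' ⊆ P ∧
      (∀ q ∈ P, q.1 ∈ M ∧ v (q.1 * z ^ q.2) ≤ 1) ∧ ∀ g : G, ∀ q ∈ P, (g • q.1, q.2) ∈ P := by
    refine ⟨⋃ q ∈ F ∪ F', (fun c => (c, q.2)) '' Set.range fun g : G => g • q.1,
      (F1.union G1).biUnion fun q _ => (hA.fin q.1).image _,
      fun q k => Set.mem_iUnion₂.2 ⟨q, k, _, ⟨1, rfl⟩, by simp⟩, fun q k => ?_, fun g q k => ?_⟩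
    · obtain ⟨q, h, _, ⟨g, rfl⟩, rfl⟩ := Set.mem_iUnion₂.1 k
      have := h.elim (F2 q) (G2 q)
      exact ⟨hG g _ this.1, by simpa [hA.v_smul] using this.2⟩
    · obtain ⟨q, h, _, ⟨g', rfl⟩, rfl⟩ := Set.mem_iUnion₂.1 k
      exact Set.mem_iUnion₂.2 ⟨q, h, _, ⟨g * g', rfl⟩, by simp [mul_smul]⟩
  have hL : loc v (Subring.closure (insert b (mon z F))) ≤ LL v P z b := loc_mono
    (Subring.closure_mono (Set.insert_subset_insert (Set.image_mono fun _ k => P2 (.inl k))))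
  have hco : ∀ i, μ.coeff i ∈ loc v (Subring.closure (mon z P)) := fun i => loc_mono
    (Subring.closure_mono (Set.image_mono fun _ k => P2 (.inr k))) (G3 _ ⟨i, rfl⟩ (hc.coeff i))
  have vb : v b ≤ 1 := v_le_one_of_root hc.monic
    (fun i => v_le_one_of_mem_loc (fun _ k => k.1) (hc.coeff i)) hc.root
  have : ∀ x : Ω, ∃ w ∈ M, v w ≤ 1 ∧ (v x ≤ 1 → v (x - w) < 1) := fun x => by
    by_cases k : v x ≤ 1
    · obtain ⟨w, a, e⟩ := hA.res.exists_root k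
      refine ⟨w, ?_, by simpa using v.map_sub_le k e.le, fun _ => e⟩
      rcases a with rfl | ⟨m, hm, a⟩
      · exact M.zero_mem
      · exact hM.mem_of_pow hm (a ▸ M.one_mem)
    · exact ⟨0, M.zero_mem, by simp, fun k' => (k k').elim⟩
  choose ω ω1 ω2 ω3 using this
  obtain ⟨S, S1, S2, S3⟩ : ∃ S : Finset Ω, (∀ s ∈ S, s ∈ M ∧ v s ≤ 1) ∧
      (∀ q ∈ P, v q.1 ≤ 1 → q.1 ∈ S) ∧ ∀ x ∈ insert b (Set.range fun g : G => g • z / z),
        ω x ∈ S := by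
    refine ⟨(((P1.image Prod.fst).sep fun x => v x ≤ 1).union ((hz.insert b).image ω)).toFinset,
      fun s k => ?_, fun q k k' => (Set.Finite.mem_toFinset _).2 (.inl ⟨⟨q, k, rfl⟩, k'⟩),
      fun x k => (Set.Finite.mem_toFinset _).2 (.inr ⟨x, k, rfl⟩)⟩
    obtain ⟨⟨q, h, rfl⟩, k'⟩ | ⟨x, -, rfl⟩ := (Set.Finite.mem_toFinset _).1 k
    · exact ⟨(P3 q h).1, k'⟩
    · exact ⟨ω1 x, ω2 x⟩
  obtain ⟨T₁, a1, a2, a3⟩ := exists_resp_finset S fun s k => (S1 s k).2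
  obtain ⟨T₀, b1, b2⟩ := exists_finset_closure_field hc.z_mem
  have hT := ((((T₁.finite_toSet.union (P1.image Prod.fst)).union
    ((Y.finite_toSet.sep (· ≠ 0)).image c)).union (T₀.finite_toSet.sep (· ∈ M))).union
    ((P1.prod P1).image fun q => q.1.1 ^ (-q.2.2).toNat * q.2.1 ^ q.1.2.toNat))
  refine ⟨hT.toFinset, fun x k => ?_, fun E _ _ _ _ H _ _ _ _ hE dense trace A ι γ ph AM TA GA rs
    eqv mul one => ?_⟩
  · replace k := hT.mem_toFinset.1 k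
    obtain (((k | ⟨q, k, rfl⟩) | ⟨y, k, rfl⟩) | k) | ⟨q, k, rfl⟩ := k
    · exact (Subring.closure_le (t := M.toSubring)).2 (fun s k => (S1 s k).1) (a1 x k)
    · exact (P3 q k).1
    · exact hcM y k.1 k.2
    · exact k.2
    · exact mul_mem (pow_mem (P3 _ k.1).1 _) (pow_mem (P3 _ k.2).1 _)
  simp only [Set.Finite.mem_toFinset, Set.Finite.coe_toFinset] at TA rs mul one
  have WA : Subring.closure (S : Set Ω) ≤ A :=
    Subring.closure_le.2 fun s k => TA s (.inl (.inl (.inl (.inl (a2 k)))))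
  have o : WOK v (Subring.closure (S : Set Ω)) ι := ⟨hA.res, ph.mono WA,
    fun w k => v_le_one_of_mem_closure (fun s k => (S1 s k).2) k,
    a3 E ι (ph.mono WA) fun y k => rs y (.inl (.inl (.inl (.inl k))))⟩
  have PA : ∀ q ∈ P, q.1 ∈ A := fun q k => TA _ (.inl (.inl (.inl (.inr ⟨q, k, rfl⟩))))
  have agree : ∀ g g' : G, (∀ x ∈ T₀, x ∈ M → g • x = g' • x) → g • z = g' • z := fun g g' k =>
    (Subfield.closure_le (t := RingHom.eqLocusField (MulSemiringAction.toRingHom G Ω g)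
      (MulSemiringAction.toRingHom G Ω g'))).2 (fun x hx => (b1 hx).elim (k x hx)
        fun h => (hY x h g).trans (hY x h g').symm) b2
  have mul' : ∀ τ τ', γ (τ * τ') • z = γ τ • γ τ' • z := fun τ τ' => by
    rw [← mul_smul]
    exact agree _ _ fun x h h' => (mul τ τ' x (.inl (.inr ⟨h, h'⟩))).trans (mul_smul _ _ _).symm
  have hω : ∀ x ∈ insert b (Set.range fun g : G => g • z / z), v x ≤ 1 →
      ∃ e, Rel v (Subring.closure (S : Set Ω)) ι x e := fun x k k' =>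
    ⟨ι (ω x), (Rel.self (Subring.subset_closure (S3 x k))).congr (ω3 x k') (by simp)⟩
  obtain ⟨d, d0, ra, rd⟩ := exists_d hA hM hE dense o z0 hc.kind P1 P3
    (fun q k k' => Subring.subset_closure (S2 q k k'))
    (fun g => hω _ (.inr ⟨g, rfl⟩) (v_gz hA z0 g).le) (fun q k q' k' h => by
      have := (rs _ (.inr ⟨(q, q'), ⟨k, k'⟩, rfl⟩)).2 h
      rwa [ph.mul _ (pow_mem (PA q k) _) _ (pow_mem (PA q' k') _), ph.pow (PA q k),
        ph.pow (PA q' k'), norm_mul, norm_pow, norm_pow] at this) mul'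
  have ct : Ctx v (Subring.closure (S : Set Ω)) A ι M P z b μ d := ⟨o, ph, hM, AM, hc.z_not, PA,
    d0, ra, hω b (.inl rfl) vb, hc.monic, hco, hc.root, hc.simple, hc.min⟩
  obtain ⟨x, φ, h, hφ⟩ := Eqv.fixed (γ := γ) ⟨ct, hA, hE, GA, P4,
    fun g => hL (F3 _ (.inl (.inl (.inl ⟨g, rfl⟩))) (hc.gz g)),
    fun g => hL (F3 _ (.inl (.inl (.inr ⟨g, rfl⟩))) (hc.gb g)), eqv, mul',
    (agree _ 1 fun x h h' => (one x (.inl (.inr ⟨h, h'⟩))).trans (one_smul _ _).symm).trans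
      (one_smul _ _), rd⟩ dense trace
  have hy : ∀ y ∈ Y, y ∈ Dm v A P z b ∧ (v y ≤ 1 → y ∈ LL v P z b) := fun y k => by
    by_cases y0 : y = 0
    · exact y0 ▸ ⟨zero_mem _, fun _ => zero_mem _⟩
    have e : y = c y * z ^ j y * (y / (c y * z ^ j y)) :=
      (mul_div_cancel₀ _ fun h => y0 (by simpa [h] using hj y k y0)).symm
    have u := hL (F3 _ (.inl (.inr ⟨y, k, rfl⟩)) (hu y k y0))
    refine ⟨e ▸ mul_mem (mul_mem (A_le (TA _ (.inl (.inl (.inr ⟨y, ⟨k, y0⟩, rfl⟩)))))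
      (zpow_mem z_mem zi_mem _)) (L_le u), fun k' => e ▸ mul_mem (hL (F3 _ (.inr ⟨y, k, rfl⟩)
        (le_loc _ (Subring.subset_closure (.inr ⟨hj y k y0 ▸ k', _, hcM y k y0, _, rfl⟩))))) u⟩
  refine ⟨φ, h.ph.mono (Subring.closure_le.2 fun y k => (hy y k).1), fun y k τ => ?_,
    fun y k => ⟨fun k' => (h.rel ct ((hy y k).2 k')).le o,
      fun k' => (h.rel ct ((hy y k).2 k'.le)).lt o k'⟩⟩
  simpa only [hY y k] using hφ τ y (hy y k).1

end Pool.Agent.Lib.MP_132c47_lc
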