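import Pool.Agent.Lib.MP_132c47_lc.VB2

/-! Block TA, part 1: sup norms, orthogonal families, determinants, values of polynomials. -/

namespace Pool.Agent.Lib.MP_132c47_lc

open Polynomial

namespace TA

variable {Ω : Type} [Field Ω] {Γ₀ : Type} [LinearOrderedCommGroupWithZero Γ₀]
  {v : Valuation Ω Γ₀}

section nrm
variable {ι : Type} [Fintype ι]

theorem le_nrm (x : ι → Ω) (j : ι) : v (x j) ≤ nrm v x :=
  Finset.le_sup (f := fun j => v (x j)) (Finset.mem_univ j)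

theorem nrm_le {x : ι → Ω} {g : Γ₀} (h : ∀ j, v (x j) ≤ g) : nrm v x ≤ g :=
  Finset.sup_le fun j _ => h j

theorem nrm_lt {x : ι → Ω} {g : Γ₀} (hg : 0 < g) (h : ∀ j, v (x j) < g) : nrm v x < g :=
  (Finset.sup_lt_iff (lt_of_le_of_lt bot_le hg)).2 fun j _ => h j

theorem nrm_pos {x : ι → Ω} (h : x ≠ 0) : 0 < nrm v x := by
  obtain ⟨j, hj⟩ := Function.ne_iff.1 h
  exact lt_of_lt_of_le ((Valuation.pos_iff v).2 hj) (le_nrm x j)

theorem exists_nrm {x : ι → Ω} (h : x ≠ 0) : ∃ j, x j ≠ 0 ∧ nrm v x = v (x j) := by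
  obtain ⟨j, -⟩ := Function.ne_iff.1 h
  obtain ⟨i, -, hi⟩ := Finset.exists_mem_eq_sup Finset.univ ⟨j, Finset.mem_univ _⟩
    fun j => v (x j)
  refine ⟨i, fun e => ?_, hi⟩
  have := nrm_pos (v := v) h
  rw [nrm, hi, e, v.map_zero] at this
  exact lt_irrefl _ this

theorem nrm_zero : nrm v (0 : ι → Ω) = 0 :=
  le_antisymm (nrm_le fun j => by simp) zero_le

theorem nrm_smul (a : Ω) (x : ι → Ω) : nrm v (a • x) = v a * nrm v x := by
  refine le_antisymm (nrm_le fun j => ?_) ?_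
  · rw [Pi.smul_apply, smul_eq_mul, v.map_mul]
    exact mul_le_mul_right (le_nrm x j) _
  · rcases eq_or_ne x 0 with rfl | h
    · simp [nrm_zero]
    · obtain ⟨j, -, e⟩ := exists_nrm (v := v) h
      rw [e, ← v.map_mul]
      exact le_nrm (a • x) j

theorem nrm_add_le {x y : ι → Ω} {g : Γ₀} (hx : nrm v x ≤ g) (hy : nrm v y ≤ g) :
    nrm v (x + y) ≤ g :=
  nrm_le fun j => v.map_add_le ((le_nrm x j).trans hx) ((le_nrm y j).trans hy)

theorem nrm_sub_le {x y : ι → Ω} {g : Γ₀} (hx : nrm v x ≤ g) (hy : nrm v y ≤ g) :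
    nrm v (x - y) ≤ g :=
  nrm_le fun j => v.map_sub_le ((le_nrm x j).trans hx) ((le_nrm y j).trans hy)

theorem nrm_add_lt {x y : ι → Ω} {g : Γ₀} (hx : nrm v x < g) (hy : nrm v y < g) :
    nrm v (x + y) < g :=
  nrm_lt (zero_le.trans_lt hx) fun j =>
    v.map_add_lt ((le_nrm x j).trans_lt hx) ((le_nrm y j).trans_lt hy)

theorem nrm_sum_lt {κ : Type} (s : Finset κ) {f : κ → ι → Ω} {g : Γ₀} (hg : 0 < g)
    (h : ∀ k ∈ s, nrm v (f k) < g) : nrm v (∑ k ∈ s, f k) < g :=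
  nrm_lt hg fun j => by
    rw [Finset.sum_apply]
    exact v.map_sum_lt' hg fun k hk => (le_nrm (f k) j).trans_lt (h k hk)

variable {K : Subfield Ω} {κ : Type} [Fintype κ]

/-- A small perturbation of an orthogonal family is linearly independent. -/
theorem orth_perturb {ψ w : κ → ι → Ω} (h : Orth v K ψ)
    (hw : ∀ k, nrm v (ψ k - w k) < nrm v (ψ k)) : LinearIndependent K w := by
  rw [Fintype.linearIndependent_iff]
  intro a ha
  by_contra hne
  push Not at hne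
  obtain ⟨k₁, hk₁⟩ := hne
  obtain ⟨k₀, -, hk₀⟩ := Finset.exists_max_image Finset.univ
    (fun k => v (a k : Ω) * nrm v (ψ k)) ⟨k₁, Finset.mem_univ _⟩
  have hp : 0 < v (a k₀ : Ω) * nrm v (ψ k₀) := lt_of_lt_of_le
    (mul_pos ((Valuation.pos_iff v).2 (by simpa using hk₁)) (nrm_pos (h.1 k₁)))
    (hk₀ k₁ (Finset.mem_univ _))
  have e : ∑ k, (a k : Ω) • ψ k = ∑ k, (a k : Ω) • (ψ k - w k) := by
    have ha' : ∑ k, (a k : Ω) • w k = 0 := ha
    simp only [smul_sub, Finset.sum_sub_distrib, ha', sub_zero]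
  refine (h.2 (fun k => a k) (fun k => (a k).2) k₀).not_gt ?_
  rw [e]
  refine nrm_sum_lt _ hp fun k _ => ?_
  rw [nrm_smul]
  rcases eq_or_ne (a k : Ω) 0 with h0 | h0
  · simpa [h0] using hp
  · exact lt_of_lt_of_le (mul_lt_mul_of_pos_left (hw k) ((Valuation.pos_iff v).2 h0))
      (hk₀ k (Finset.mem_univ _))

theorem orth_cons {m : ℕ} {ψ : Fin m → ι → Ω} (h : Orth v K ψ) {x : ι → Ω} (h0 : x ≠ 0)
    (hx : ∀ b : Fin m → Ω, (∀ i, b i ∈ K) → nrm v x ≤ nrm v (x - ∑ i, b i • ψ i)) :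
    Orth v K (Fin.cons x ψ : Fin (m + 1) → ι → Ω) := by
  refine ⟨fun i => Fin.cases h0 h.1 i, fun a ha i => ?_⟩
  rw [Fin.sum_univ_succ]
  simp only [Fin.cons_zero, Fin.cons_succ]
  have h1 : v (a 0) * nrm v x ≤ nrm v (a 0 • x + ∑ i : Fin m, a i.succ • ψ i) := by
    rcases eq_or_ne (a 0) 0 with e | e
    · simp [e]
    · have := hx (fun i => -(a i.succ / a 0)) fun i => K.neg_mem (K.div_mem (ha _) (ha _))
      have e2 : a 0 • x + ∑ i : Fin m, a i.succ • ψ i =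
          a 0 • (x - ∑ i : Fin m, (-(a i.succ / a 0)) • ψ i) := by
        rw [smul_sub, Finset.smul_sum, sub_eq_add_neg, ← Finset.sum_neg_distrib]
        congr 1
        refine Finset.sum_congr rfl fun i _ => ?_
        rw [smul_smul, ← neg_smul]
        congr 1
        field_simp
      rw [e2, nrm_smul]
      exact mul_le_mul_right this _
  refine Fin.cases ?_ (fun i => ?_) i
  · exact h1
  · refine (h.2 (fun i => a i.succ) (fun i => ha _) i).trans ?_
    have e3 : ∑ i : Fin m, a i.succ • ψ i = (a 0 • x + ∑ i : Fin m, a i.succ • ψ i) - a 0 • x := by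
      abel
    conv_lhs => rw [e3]
    exact nrm_sub_le le_rfl (by rw [nrm_smul]; exact h1)

theorem ob_fintype (hO : OB v K) {ψ : κ → ι → Ω} (h : LinearIndependent K ψ) :
    ∃ ψ' : Fin (Fintype.card κ) → ι → Ω,
      (∀ i, ψ' i ∈ Submodule.span K (Set.range ψ)) ∧ Orth v K ψ' := by
  obtain ⟨ψ', h1, h2⟩ := hO ι _ (ψ ∘ (Fintype.equivFin κ).symm)
    (h.comp _ (Fintype.equivFin κ).symm.injective)
  exact ⟨ψ', fun i => Submodule.span_mono (Set.range_comp_subset_range _ _) (h1 i), h2⟩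

end nrm

theorem v_prod_sub_lt {κ : Type} (s : Finset κ) {a b : κ → Ω} (hb : ∀ k ∈ s, v (b k) ≤ 1)
    (h : ∀ k ∈ s, v (a k - b k) < 1) : v (∏ k ∈ s, a k - ∏ k ∈ s, b k) < 1 := by
  classical
  induction s using Finset.induction_on with
  | empty => simp
  | insert k s hk ih =>
    rw [Finset.forall_mem_insert] at hb h
    rw [Finset.prod_insert hk, Finset.prod_insert hk]
    have h1 : v (∏ k ∈ s, b k) ≤ 1 := by
      rw [map_prod]
      exact Finset.prod_le_one' hb.2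
    have h2 : v (a k) ≤ 1 := by
      have := v.map_add_le h.1.le hb.1
      rwa [sub_add_cancel] at this
    have e : a k * ∏ k ∈ s, a k - b k * ∏ k ∈ s, b k =
        a k * (∏ k ∈ s, a k - ∏ k ∈ s, b k) + (a k - b k) * ∏ k ∈ s, b k := by ring
    rw [e]
    refine v.map_add_lt ?_ ?_ <;> rw [v.map_mul]
    · exact mul_lt_one_of_nonneg_of_lt_one_right h2 zero_le (ih hb.2 h.2)
    · exact mul_lt_one_of_nonneg_of_lt_one_left zero_le h.1 h1

theorem v_det_sub_lt {κ : Type} [Fintype κ] [DecidableEq κ] {A B : Matrix κ κ Ω}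
    (hB : ∀ i j, v (B i j) ≤ 1) (h : ∀ i j, v (A i j - B i j) < 1) : v (A.det - B.det) < 1 := by
  rw [Matrix.det_apply', Matrix.det_apply', ← Finset.sum_sub_distrib]
  refine v.map_sum_lt one_ne_zero fun σ _ => ?_
  rw [← mul_sub, v.map_mul]
  refine mul_lt_one_of_nonneg_of_lt_one_right ?_ zero_le
    (v_prod_sub_lt _ (fun _ _ => hB _ _) fun _ _ => h _ _)
  rcases Int.units_eq_one_or (Equiv.Perm.sign σ) with e | e <;> simp [e]

section VT
variable [IsAlgClosed Ω] {K : Subfield Ω} {z : Ω}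

omit [IsAlgClosed Ω] in
theorem vt_ne_zero (hv : ∀ c ∈ K, v z ≠ v c) : z ≠ 0 := fun e => hv 0 K.zero_mem (by rw [e])

omit [IsAlgClosed Ω] in
theorem vt_inv (hv : ∀ c ∈ K, v z ≠ v c) : ∀ c ∈ K, v z⁻¹ ≠ v c := fun c hc e =>
  hv c⁻¹ (K.inv_mem hc) (by rw [map_inv₀, ← e, map_inv₀, inv_inv])

theorem vt_pow (hK : ACl K) (hv : ∀ c ∈ K, v z ≠ v c) {c : Ω} (hc : c ∈ K) {n : ℕ}
    (e : v z ^ n = v c) : n = 0 := by
  by_contra hn
  obtain ⟨d, hd, rfl⟩ := hK.exists_pow hc (Nat.pos_of_ne_zero hn)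
  rw [v.map_pow] at e
  exact hv d hd ((pow_left_inj₀ zero_le zero_le hn).1 e)

theorem vt_zpow (hK : ACl K) (hv : ∀ c ∈ K, v z ≠ v c) {c : Ω} (hc : c ∈ K) {r : ℤ}
    (e : v z ^ r = v c) : r = 0 := by
  obtain ⟨n, rfl | rfl⟩ := r.eq_nat_or_neg
  · rw [zpow_natCast] at e
    exact_mod_cast vt_pow hK hv hc e
  · rw [zpow_neg, zpow_natCast, ← inv_pow, ← map_inv₀] at e
    simp [vt_pow hK (vt_inv hv) hc e]

theorem vt_eq (hK : ACl K) (hv : ∀ c ∈ K, v z ≠ v c) {c c' : Ω} (hc : c ∈ K) (hc' : c' ∈ K)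
    (h0 : c ≠ 0) {r r' : ℤ} (e : v c * v z ^ r = v c' * v z ^ r') : r = r' := by
  have hz : v z ≠ 0 := (Valuation.ne_zero_iff v).2 (vt_ne_zero hv)
  have hc0 : v c ≠ 0 := (Valuation.ne_zero_iff v).2 h0
  have : v z ^ (r - r') = v (c' / c) := by
    rw [zpow_sub₀ hz, map_div₀, div_eq_div_iff (zpow_ne_zero _ hz) hc0, mul_comm, e]
  exact sub_eq_zero.1 (vt_zpow hK hv (K.div_mem hc' hc) this)

omit [IsAlgClosed Ω] in
theorem mem_closure_poly {x : Ω} (hx : x ∈ Subring.closure (insert z (K : Set Ω))) :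
    ∃ f : Polynomial Ω, (∀ i, f.coeff i ∈ K) ∧ x = f.eval z := by
  have : Subring.closure (insert z (K : Set Ω)) ≤
      ((eval₂RingHom (algebraMap K Ω) z).range : Subring Ω) := by
    refine Subring.closure_le.2 ?_
    rintro y (rfl | hy)
    · exact ⟨X, by simp⟩
    · exact ⟨C ⟨y, hy⟩, by simp; rfl⟩
  obtain ⟨g, rfl⟩ := this hx
  exact ⟨g.map (algebraMap K Ω), coeff_map_mem g, by simp [eval_map]⟩

theorem val_poly (hK : ACl K) (hv : ∀ c ∈ K, v z ≠ v c) {x : Ω}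
    (hx : x ∈ Subring.closure (insert z (K : Set Ω))) :
    ∃ c ∈ K, ∃ e : ℕ, v x = v c * v z ^ e := by
  obtain ⟨f, hf, rfl⟩ := mem_closure_poly hx
  obtain ⟨s, hs, e⟩ := hK.splits hf
  have key : ∀ s : Multiset Ω, (∀ r ∈ s, r ∈ K) →
      ∃ c ∈ K, ∃ e : ℕ, v (((s.map fun r => X - C r).prod).eval z) = v c * v z ^ e := by
    intro s
    induction s using Multiset.induction_on with
    | empty => exact fun _ => ⟨1, K.one_mem, 0, by simp⟩
    | cons r s ih =>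
      intro h
      obtain ⟨c, hc, n, e⟩ := ih fun r hr => h r (Multiset.mem_cons_of_mem hr)
      have hr := h r (Multiset.mem_cons_self _ _)
      rw [Multiset.map_cons, Multiset.prod_cons, eval_mul, v.map_mul, e, eval_sub, eval_X, eval_C]
      rcases lt_or_gt_of_ne (hv r hr) with h1 | h1
      · exact ⟨r * c, K.mul_mem hr hc, n, by rw [v.map_sub_eq_of_lt_right h1, v.map_mul, mul_assoc]⟩
      · exact ⟨c, hc, n + 1, by rw [v.map_sub_eq_of_lt_left h1, pow_succ]; ac_rfl⟩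
  obtain ⟨c, hc, n, e'⟩ := key s hs
  refine ⟨f.leadingCoeff * c, K.mul_mem (hf _) hc, n, ?_⟩
  conv_lhs => rw [e]
  rw [eval_mul, eval_C, v.map_mul, e', v.map_mul, mul_assoc]

omit [IsAlgClosed Ω] in
theorem exists_deg (h0 : z ≠ 0) {x : Ω} (hx : x ∈ Subring.closure (insert z (K : Set Ω))) :
    ∃ C : ℕ, ∀ N : ℕ, C ≤ N → x / z ^ N ∈ Subring.closure (insert z⁻¹ (K : Set Ω)) := by
  set A := Subring.closure (insert z⁻¹ (K : Set Ω))
  have hz : z⁻¹ ∈ A := Subring.subset_closure (Set.mem_insert _ _)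
  have up : ∀ (y : Ω) (C : ℕ), y / z ^ C ∈ A → ∀ N : ℕ, C ≤ N → y / z ^ N ∈ A := by
    intro y C h N hN
    obtain ⟨k, rfl⟩ := Nat.exists_eq_add_of_le hN
    have : y / z ^ (C + k) = y / z ^ C * z⁻¹ ^ k := by
      rw [pow_add, inv_pow]; field_simp
    rw [this]
    exact A.mul_mem h (A.pow_mem hz k)
  induction hx using Subring.closure_induction with
  | mem y hy =>
    rcases hy with rfl | hy
    · exact ⟨1, up _ _ (by rw [pow_one, div_self h0]; exact A.one_mem)⟩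
    · exact ⟨0, up _ _ (by simpa using Subring.subset_closure (Set.mem_insert_of_mem _ hy))⟩
  | zero => exact ⟨0, fun N _ => by simp⟩
  | one => exact ⟨0, up _ _ (by simp)⟩
  | add x y _ _ hx hy =>
    obtain ⟨C, hC⟩ := hx
    obtain ⟨D, hD⟩ := hy
    exact ⟨max C D, fun N hN => by
      rw [add_div]
      exact A.add_mem (hC N (le_of_max_le_left hN)) (hD N (le_of_max_le_right hN))⟩
  | neg x _ hx =>
    obtain ⟨C, hC⟩ := hx
    exact ⟨C, fun N hN => by rw [neg_div]; exact A.neg_mem (hC N hN)⟩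
  | mul x y _ _ hx hy =>
    obtain ⟨C, hC⟩ := hx
    obtain ⟨D, hD⟩ := hy
    refine ⟨C + D, up _ _ ?_⟩
    rw [pow_add, ← div_mul_div_comm]
    exact A.mul_mem (hC C le_rfl) (hD D le_rfl)

/-- The value of a polynomial of bounded degree. -/
theorem val_bdd (hK : ACl K) (hv : ∀ c ∈ K, v z ≠ v c) {x : Ω} (h0 : x ≠ 0) {N : ℕ}
    (hx : x ∈ Subring.closure (insert z (K : Set Ω)))
    (hx' : x / z ^ N ∈ Subring.closure (insert z⁻¹ (K : Set Ω))) :
    ∃ c ∈ K, c ≠ 0 ∧ ∃ e : ℕ, e ≤ N ∧ v x = v c * v z ^ e := by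
  obtain ⟨c, hc, e, h⟩ := val_poly hK hv hx
  obtain ⟨c', hc', e', h'⟩ := val_poly hK (vt_inv hv) hx'
  have hz : v z ≠ 0 := (Valuation.ne_zero_iff v).2 (vt_ne_zero hv)
  have hc0 : c ≠ 0 := by
    rintro rfl
    exact h0 (by simpa using h)
  refine ⟨c, hc, hc0, e, ?_, h⟩
  have : v c * v z ^ ((e + e' : ℕ) : ℤ) = v c' * v z ^ (N : ℤ) := by
    rw [map_div₀, h, v.map_pow, map_inv₀, inv_pow] at h'
    rw [zpow_natCast, zpow_natCast, pow_add]
    field_simp at h'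
    rw [← mul_assoc, h', mul_comm]
  have := vt_eq hK hv hc hc' hc0 this
  omega

omit [IsAlgClosed Ω] in
theorem exists_denom {κ : Type} (s : Finset κ) {f : κ → Ω} (hf : ∀ k ∈ s, f k ∈ Adj K {z}) :
    ∃ g ∈ Subring.closure (insert z (K : Set Ω)), g ≠ 0 ∧
      ∀ k ∈ s, g * f k ∈ Subring.closure (insert z (K : Set Ω)) := by
  classical
  set A := Subring.closure (insert z (K : Set Ω))
  have hz : z ∈ A := Subring.subset_closure (Set.mem_insert _ _)
  have hKA : ∀ c ∈ K, c ∈ A := fun c hc => Subring.subset_closure (Set.mem_insert_of_mem _ hc)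
  induction s using Finset.induction_on with
  | empty => exact ⟨1, A.one_mem, one_ne_zero, by simp⟩
  | insert k s hk ih =>
    rw [Finset.forall_mem_insert] at hf
    obtain ⟨g, hg, h0, h⟩ := ih hf.2
    obtain ⟨p, q, hp, hq, e⟩ := mem_Adj_single.1 hf.1
    have hp' := eval_mem (A := A) (fun i => hKA _ (hp i)) hz
    have hq' := eval_mem (A := A) (fun i => hKA _ (hq i)) hz
    rcases eq_or_ne (q.eval z) 0 with hq0 | hq0
    · refine ⟨g, hg, h0, Finset.forall_mem_insert .. |>.2 ⟨?_, h⟩⟩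
      rw [e, hq0, div_zero, mul_zero]; exact A.zero_mem
    · refine ⟨q.eval z * g, A.mul_mem hq' hg, mul_ne_zero hq0 h0,
        Finset.forall_mem_insert .. |>.2 ⟨?_, fun k hk => ?_⟩⟩
      · have : q.eval z * g * f k = g * p.eval z := by rw [e]; field_simp
        rw [this]; exact A.mul_mem hg hp'
      · rw [mul_assoc]; exact A.mul_mem hq' (h k hk)

end VT

end TA

end Pool.Agent.Lib.MP_132c47_lc
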