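import Pool.Agent.Lib.MP_132c47_lc.TA1
import Pool.Agent.Lib.MP_132c47_lc.LR

/-! Block TA, part 2: conjugates, the lattice count and orthogonal bases over `K(z)`. -/

namespace Pool.Agent.Lib.MP_132c47_lc

open Polynomial

namespace TA

variable {Ω : Type} [Field Ω] {Γ₀ : Type} [LinearOrderedCommGroupWithZero Γ₀]
  {v : Valuation Ω Γ₀}

theorem newton {ι : Type} [Fintype ι] {f : ι → Ω} (h : f ≠ 0) : ∃ i, 0 < i ∧ i ≤ Fintype.card ι ∧
    v ((∏ k, (X - C (f k))).coeff (Fintype.card ι - i)) = nrm v f ^ i := by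
  obtain ⟨j, h0, e⟩ := exists_nrm (v := v) h
  have hp : 0 < v (f j) := (Valuation.pos_iff v).2 h0
  have hm : (∏ k, (X - C (f k))).Monic := monic_prod_of_monic _ _ fun k _ => monic_X_sub_C _
  have hd : (∏ k, (X - C (f k))).natDegree = Fintype.card ι := by
    rw [natDegree_prod_of_monic _ _ fun k _ => monic_X_sub_C _]; simp
  have hr : (∏ k, (X - C (f k))).eval (f j) = 0 := by
    rw [eval_prod]
    exact Finset.prod_eq_zero (Finset.mem_univ j) (by simp)
  by_contra H
  push Not at H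
  have := v_eval_eq_of_monic (v := v) hm h0 fun i hi => by
    rw [hd] at hi ⊢
    obtain ⟨a, ha, e'⟩ := coeff_prod_mem v.integer (f j) (Finset.univ.val.map f)
      (fun r hr => by
        obtain ⟨k, -, rfl⟩ := Multiset.mem_map.1 hr
        refine ⟨f k / f j, ?_, by field_simp⟩
        change v _ ≤ 1
        rw [map_div₀, div_le_one₀ hp, ← e]
        exact le_nrm f k) (i := Fintype.card ι - i) (by simp)
    rw [Multiset.map_map, Multiset.card_map] at e'
    have h1 := H (Fintype.card ι - i) (by omega) (by omega)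
    have h2 : v ((∏ k, (X - C (f k))).coeff (Fintype.card ι - (Fintype.card ι - i))) ≤
        v (f j) ^ (Fintype.card ι - i) := by
      refine le_trans (le_of_eq (congrArg v e')) ?_
      rw [v.map_mul, v.map_pow]
      exact mul_le_of_le_one_right' ha
    rw [e] at h1
    have h3 := lt_of_le_of_ne h2 h1
    rw [Nat.sub_sub_self hi.le] at h3
    calc _ < v (f j) ^ (Fintype.card ι - i) * v (f j) ^ i :=
          mul_lt_mul_of_pos_right h3 (pow_pos hp i)
      _ = _ := by rw [← pow_add, Nat.sub_add_cancel hi.le]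
  rw [hr, v.map_zero] at this
  exact (pow_pos hp _).ne this

theorem coeff_smul {ι : Type} [Fintype ι] (f : ι → Ω) (a : Ω) {i : ℕ} (hi : i ≤ Fintype.card ι) :
    (∏ k, (X - C (a * f k))).coeff (Fintype.card ι - i) =
      a ^ i * (∏ k, (X - C (f k))).coeff (Fintype.card ι - i) := by
  have key : ∀ g : ι → Ω, (∏ k, (X - C (g k))).coeff (Fintype.card ι - i) =
      (-1) ^ i * (Finset.univ.val.map g).esymm i := fun g => by
    have := Multiset.prod_X_sub_C_coeff (Finset.univ.val.map g) (k := Fintype.card ι - i) (by simp)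
    rw [Multiset.map_map, Multiset.card_map] at this
    refine this.trans ?_
    rw [show Finset.univ.val.card = Fintype.card ι from rfl, Nat.sub_sub_self hi]
  have := Multiset.pow_smul_esymm a i (Finset.univ.val.map f)
  rw [Multiset.map_map] at this
  rw [key, key, mul_left_comm]
  congr 1
  exact this.symm

section Emb
variable (E : Subfield Ω) {L : Type} [Field L] [Algebra E L] [FiniteDimensional E L]

/-- The vector of conjugates. -/
noncomputable def vec : L →+* ((L →ₐ[E] Ω) → Ω) := RingHom.pi fun σ => (σ : L →+* Ω)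

/-- The product of the `X - σ x`. -/
noncomputable def cp (x : L) : Polynomial Ω := ∏ σ : L →ₐ[E] Ω, (X - C (σ x))

variable {E}

omit [FiniteDimensional E L] in
theorem vec_apply (x : L) (σ : L →ₐ[E] Ω) : vec E x σ = σ x := rfl

omit [FiniteDimensional E L] in
theorem emb_smul (σ : L →ₐ[E] Ω) (a : E) (x : L) : σ (a • x) = a * σ x := by
  rw [map_smul]; rfl

omit [FiniteDimensional E L] in
theorem vec_smul (a : E) (x : L) : vec E (a • x) = (a : Ω) • vec E x :=
  funext fun σ => emb_smul σ a x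

omit [FiniteDimensional E L] in
theorem vec_comb {κ : Type} [Fintype κ] (a : κ → E) (x : κ → L) :
    vec E (∑ k, a k • x k) = ∑ k, (a k : Ω) • vec E (x k) := by
  simp only [map_sum, vec_smul]

theorem cp_monic (x : L) : (cp E x).Monic := monic_prod_of_monic _ _ fun _ _ => monic_X_sub_C _

theorem cp_eval (x : L) (σ : L →ₐ[E] Ω) : (cp E x).eval (σ x) = 0 := by
  rw [cp, eval_prod]
  exact Finset.prod_eq_zero (Finset.mem_univ σ) (by simp)

theorem cp_natDegree (x : L) : (cp E x).natDegree = Fintype.card (L →ₐ[E] Ω) := by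
  rw [cp, natDegree_prod_of_monic _ _ fun k _ => monic_X_sub_C _]; simp

variable [IsAlgClosed Ω] [CharZero Ω]

theorem vec_ne_zero {x : L} (h : x ≠ 0) : vec E x ≠ 0 := fun e => by
  obtain ⟨σ⟩ : Nonempty (L →ₐ[E] Ω) := ⟨IsAlgClosed.lift⟩
  exact h ((map_eq_zero σ).1 (congrFun e σ))

theorem det_eq {κ : Type} [Fintype κ] [DecidableEq κ] (b : Module.Basis κ E L) (x : L) :
    ((Algebra.leftMulMatrix b x).map (algebraMap E Ω)).det = ∏ σ : L →ₐ[E] Ω, σ x := by
  rw [← Algebra.norm_eq_prod_embeddings, Algebra.norm_eq_matrix_det b, RingHom.map_det]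
  rfl

theorem cp_eq {κ : Type} [Fintype κ] [DecidableEq κ] (b : Module.Basis κ E L) (x : L) :
    cp E x = ((Algebra.leftMulMatrix b x).map (algebraMap E Ω)).charpoly := by
  refine eq_of_infinite_eval_eq _ _ ((Set.infinite_range_of_injective
    (Nat.cast_injective (R := Ω))).mono ?_)
  rintro _ ⟨n, rfl⟩
  have := det_eq b ((n : L) - x)
  simp only [map_sub, map_natCast] at this
  simp only [Set.mem_ofPred_eq, cp, eval_prod, eval_sub, eval_X, eval_C, Matrix.eval_charpoly]
  rw [← this]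
  congr 1
  ext i j
  by_cases h : i = j <;> simp [h, Matrix.natCast_apply]

theorem cp_mem {κ : Type} [Fintype κ] [DecidableEq κ] (b : Module.Basis κ E L) {x : L}
    (A : Subring Ω) (h : ∀ i j, (Algebra.leftMulMatrix b x i j : Ω) ∈ A) (k : ℕ) :
    (cp E x).coeff k ∈ A := by
  have : (Algebra.leftMulMatrix b x).map (algebraMap E Ω) =
      (Matrix.of fun i j => (⟨_, h i j⟩ : A)).map A.subtype := rfl
  rw [cp_eq b, this, Matrix.charpoly_map, coeff_map]
  exact Subtype.prop _

theorem cp_memE (x : L) (k : ℕ) : (cp E x).coeff k ∈ E :=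
  cp_mem (Module.finBasis E L) E.toSubring (fun _ _ => Subtype.prop _) k

theorem nrm_pow_mem {x : L} (h : x ≠ 0) :
    ∃ n : ℕ, 0 < n ∧ ∃ c ∈ E, c ≠ 0 ∧ nrm v (vec E x) ^ n = v c := by
  obtain ⟨i, hi, -, e⟩ := newton (v := v) (vec_ne_zero (E := E) h)
  refine ⟨i, hi, _, cp_memE x _, fun e0 => ?_, e.symm⟩
  have h1 : v ((cp E x).coeff (Fintype.card (L →ₐ[E] Ω) - i)) = nrm v (vec E x) ^ i := e
  rw [e0, v.map_zero] at h1
  exact (pow_pos (nrm_pos (vec_ne_zero h)) _).ne h1

end Emb

section Count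
variable [IsAlgClosed Ω] [CharZero Ω] {K : Subfield Ω} {z : Ω}
  {L : Type} [Field L] [Algebra (Adj K {z}) L] [FiniteDimensional (Adj K {z}) L]

/-- Elements whose multiplication matrix consists of polynomials of degree at most `N`. -/
def Bd {κ : Type} [Fintype κ] [DecidableEq κ] (b : Module.Basis κ (Adj K {z}) L) (N : ℕ) (x : L) :
    Prop := ∀ i j,
  (Algebra.leftMulMatrix b x i j : Ω) ∈ Subring.closure (insert z (K : Set Ω)) ∧
  (Algebra.leftMulMatrix b x i j : Ω) / z ^ N ∈ Subring.closure (insert z⁻¹ (K : Set Ω))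

theorem Bd.val (hK : ACl K) (hv : ∀ c ∈ K, v z ≠ v c) {κ : Type} [Fintype κ] [DecidableEq κ]
    {b : Module.Basis κ (Adj K {z}) L} {N : ℕ} {x : L} (h : Bd b N x) (h0 : x ≠ 0) :
    ∃ i : ℕ, 0 < i ∧ ∃ c ∈ K, c ≠ 0 ∧ ∃ e : ℕ, e ≤ N * i ∧
      nrm v (vec (Adj K {z}) x) ^ i = v c * v z ^ e := by
  obtain ⟨i, hi, hi', e⟩ := newton (v := v) (vec_ne_zero (E := Adj K {z}) h0)
  have h1 : v ((cp (Adj K {z}) x).coeff (Fintype.card (L →ₐ[Adj K {z}] Ω) - i)) =
    nrm v (vec (Adj K {z}) x) ^ i := e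
  have hz : z ∈ Adj K {z} := mem_Adj K rfl
  set a : Adj K {z} := ⟨(z ^ N)⁻¹, inv_mem (pow_mem hz N)⟩
  have h2 := cp_mem b (x := a • x) (Subring.closure (insert z⁻¹ (K : Set Ω))) (fun i j => by
    have := (h i j).2
    rw [div_eq_inv_mul] at this
    rw [map_smul]
    exact this) (Fintype.card (L →ₐ[Adj K {z}] Ω) - i)
  have h3 : (cp (Adj K {z}) (a • x)).coeff (Fintype.card (L →ₐ[Adj K {z}] Ω) - i) =
      (cp (Adj K {z}) x).coeff (Fintype.card (L →ₐ[Adj K {z}] Ω) - i) / z ^ (N * i) := by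
    simp only [cp, emb_smul]
    rw [coeff_smul (fun σ : L →ₐ[Adj K {z}] Ω => σ x) a hi', div_eq_inv_mul, pow_mul, ← inv_pow]
  rw [h3] at h2
  obtain ⟨c, hc, c0, e, he, h4⟩ := val_bdd hK hv (fun e0 => by
    rw [e0, v.map_zero] at h1
    exact (pow_pos (nrm_pos (vec_ne_zero h0)) _).ne h1) (cp_mem b _ (fun i j => (h i j).1) _) h2
  exact ⟨i, hi, c, hc, c0, e, he, h1.symm.trans h4⟩

/-- Many independent elements of bounded degree. -/
theorem exists_family (hK : ACl K) (hv : ∀ c ∈ K, v z ≠ v c) (hO : OB v K) {κ : Type} [Fintype κ]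
    [DecidableEq κ] (b : Module.Basis κ (Adj K {z}) L) : ∃ C : ℕ, ∀ n : ℕ,
      ∃ x : Fin (Fintype.card (κ × Fin n)) → L, (∀ k, Bd b (n + C) (x k)) ∧
        Orth v K fun k => vec (Adj K {z}) (x k) := by
  have hz : z ∈ Adj K {z} := mem_Adj K rfl
  have z0 := vt_ne_zero hv
  set A := Subring.closure (insert z (K : Set Ω))
  set A' := Subring.closure (insert z⁻¹ (K : Set Ω))
  have hzA : z ∈ A := Subring.subset_closure (Set.mem_insert _ _)
  have hzA' : z⁻¹ ∈ A' := Subring.subset_closure (Set.mem_insert _ _)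
  have hAE : A ≤ (Adj K {z}).toSubring := Subring.closure_le.2
    (Set.insert_subset hz (le_Adj K _))
  obtain ⟨g, hg, g0, hgA⟩ := exists_denom (K := K) (z := z) (Finset.univ : Finset (κ × κ × κ))
    (f := fun t => (Algebra.leftMulMatrix b (b t.1) t.2.1 t.2.2 : Ω)) fun _ _ => Subtype.prop _
  choose C hC using fun t : κ × κ × κ => exists_deg z0 (hgA t (Finset.mem_univ t))
  refine ⟨Finset.univ.sup C, fun n => ?_⟩
  set y : κ × Fin n → L := fun t =>
    (⟨z ^ (t.2 : ℕ) * g, mul_mem (pow_mem hz _) (hAE hg)⟩ : Adj K {z}) • b t.1 with hy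
  have hind : LinearIndependent K fun t => vec (Adj K {z}) (y t) := by
    rw [Fintype.linearIndependent_iff]
    intro a ha
    have h1 : ∑ t, (⟨a t, le_Adj K _ (a t).2⟩ : Adj K {z}) • y t = 0 := by
      by_contra h
      exact vec_ne_zero (E := Adj K {z}) h ((vec_comb _ _).trans ha)
    simp only [hy, smul_smul, Fintype.sum_prod_type, ← Finset.sum_smul] at h1
    rintro ⟨i, k⟩
    have h2 := congrArg Subtype.val (Fintype.linearIndependent_iff.1 b.linearIndependent _ h1 i)
    have h3 : (∑ k : Fin n, monomial (k : ℕ) (a (i, k))) = 0 := by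
      by_contra hne
      refine hv z (hK z ⟨_, hne, ?_⟩) rfl
      refine mul_right_cancel₀ g0 ?_
      rw [zero_mul, map_sum, Finset.sum_mul]
      refine Eq.trans ?_ h2
      simp [aeval_monomial, mul_assoc]
      rfl
    have h4 := congrArg (fun p => coeff p k) h3
    simpa [coeff_monomial, Fin.val_inj] using h4
  obtain ⟨ψ, h1, h2⟩ := ob_fintype hO hind
  have key : ∀ w ∈ Submodule.span K (Set.range fun t => vec (Adj K {z}) (y t)),
      ∃ x, Bd b (n + Finset.univ.sup C) x ∧ vec (Adj K {z}) x = w := by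
    intro w hw
    induction hw using Submodule.span_induction with
    | mem w hw =>
      obtain ⟨t, rfl⟩ := hw
      refine ⟨y t, fun i j => ?_, rfl⟩
      have e : (Algebra.leftMulMatrix b (y t) i j : Ω) =
          z ^ (t.2 : ℕ) * (g * Algebra.leftMulMatrix b (b t.1) i j) := by
        rw [hy, map_smul, ← mul_assoc]; rfl
      rw [e]
      refine ⟨mul_mem (pow_mem hzA _) (hgA (t.1, i, j) (Finset.mem_univ _)), ?_⟩
      have h3 := hC (t.1, i, j) (n - t.2 + Finset.univ.sup C)
        (le_add_left (Finset.le_sup (Finset.mem_univ _)))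
      have e2 : n + Finset.univ.sup C = t.2 + (n - t.2 + Finset.univ.sup C) := by
        have := t.2.2; omega
      rw [e2, pow_add, mul_div_mul_left _ _ (pow_ne_zero _ z0)]
      exact h3
    | zero => exact ⟨0, fun i j => by simp, map_zero _⟩
    | add _ _ _ _ h h' =>
      obtain ⟨x, hx, rfl⟩ := h
      obtain ⟨x', hx', rfl⟩ := h'
      refine ⟨x + x', fun i j => ?_, map_add _ _ _⟩
      rw [map_add, Matrix.add_apply, Subfield.coe_add, add_div]
      exact ⟨add_mem (hx i j).1 (hx' i j).1, add_mem (hx i j).2 (hx' i j).2⟩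
    | smul a _ _ h =>
      obtain ⟨x, hx, rfl⟩ := h
      refine ⟨(⟨a, le_Adj K _ a.2⟩ : Adj K {z}) • x, fun i j => ?_, vec_smul _ _⟩
      rw [map_smul, Matrix.smul_apply, smul_eq_mul, Subfield.coe_mul, mul_div_assoc]
      exact ⟨mul_mem (Subring.subset_closure (Set.mem_insert_of_mem _ a.2)) (hx i j).1,
        mul_mem (Subring.subset_closure (Set.mem_insert_of_mem _ a.2)) (hx i j).2⟩
  choose x hx e using fun k => key _ (h1 k)
  exact ⟨x, hx, by simpa only [e] using h2⟩

end Count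

end TA

end Pool.Agent.Lib.MP_132c47_lc
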