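import Pool.Agent.Lib.MP_132c47_lc.TA2

/-! Block TA, part 3: orthogonal bases over `K(z)` and the separating element. -/

namespace Pool.Agent.Lib.MP_132c47_lc

open Polynomial

namespace TA

variable {Ω : Type} [Field Ω] {Γ₀ : Type} [LinearOrderedCommGroupWithZero Γ₀]
  {v : Valuation Ω Γ₀} [IsAlgClosed Ω] [CharZero Ω]

section Count
variable {K : Subfield Ω} {z : Ω}
  {L : Type} [Field L] [Algebra (Adj K {z}) L] [FiniteDimensional (Adj K {z}) L]

omit [CharZero Ω] in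
theorem val_Adj' (hK : ACl K) (hv : ∀ c ∈ K, v z ≠ v c) {x : Ω} (hx : x ∈ Adj K {z})
    (h0 : x ≠ 0) : ∃ c ∈ K, c ≠ 0 ∧ ∃ j : ℤ, v x = v c * v z ^ j ∧ v (x - c * z ^ j) < v x := by
  obtain ⟨c, hc, j, h⟩ := val_Adj hK hv hx h0
  have e := v.map_eq_of_sub_lt h
  refine ⟨c, hc, ?_, j, by rw [e, v.map_mul, map_zpow₀], e ▸ h⟩
  rintro rfl
  simp at h

omit [CharZero Ω] in
theorem exp_bound (hK : ACl K) (hv : ∀ c ∈ K, v z ≠ v c) {ρ r : Γ₀} {c c₁ c₂ : Ω} (hc : c ∈ K)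
    (hc₁ : c₁ ∈ K) (hc₂ : c₂ ∈ K) (h0 : c₁ ≠ 0) {l n e N : ℕ} {j f : ℤ} (hl : 0 < l) (hn : 0 < n)
    (he : e ≤ N * l) (h1 : ρ ^ l = v c₁ * v z ^ e) (h2 : r ^ n = v c₂ * v z ^ f)
    (h3 : ρ = v c * v z ^ j * r) {C : ℕ} (hC : f.natAbs ≤ C) : j ∈ Finset.Icc (-C : ℤ) (N + C) := by
  have hz : v z ≠ 0 := (Valuation.ne_zero_iff v).2 (vt_ne_zero hv)
  have h4 : v (c₁ ^ n) * v z ^ ((e : ℤ) * n) =
      v (c ^ (l * n) * c₂ ^ l) * v z ^ (j * (l * n : ℕ) + f * l) := by
    calc _ = (ρ ^ l) ^ n := by rw [h1, mul_pow, v.map_pow, zpow_mul, zpow_natCast, zpow_natCast]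
      _ = (v c * v z ^ j) ^ (l * n) * (r ^ n) ^ l := by
        rw [h3, ← pow_mul, ← pow_mul, mul_pow, mul_comm n l]
      _ = _ := by
        rw [h2, zpow_add₀ hz, zpow_mul, zpow_mul, zpow_natCast, zpow_natCast, v.map_mul, v.map_pow,
          v.map_pow, mul_pow, mul_pow]
        exact mul_mul_mul_comm _ _ _ _
  have h5 := vt_eq hK hv (pow_mem hc₁ n) (mul_mem (pow_mem hc _) (pow_mem hc₂ _))
    (pow_ne_zero _ h0) h4
  push_cast at h5
  have he' : (e : ℤ) ≤ N * l := by exact_mod_cast he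
  have hl' : (0 : ℤ) < l := by exact_mod_cast hl
  have hn' : (1 : ℤ) ≤ n := by exact_mod_cast hn
  have hf1 : f ≤ C := by omega
  have hf2 : -f ≤ C := by omega
  have hC0 : (0 : ℤ) ≤ C := by omega
  have he0 : (0 : ℤ) ≤ e := by omega
  have hln : (0 : ℤ) < l * n := by positivity
  have hCl : (C : ℤ) * l ≤ C * (l * n) := by
    rw [← mul_assoc]
    exact le_mul_of_one_le_right (by positivity) hn'
  refine Finset.mem_Icc.2 ⟨le_of_mul_le_mul_right ?_ hln, le_of_mul_le_mul_right ?_ hln⟩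
  · nlinarith [mul_le_mul_of_nonneg_right hf1 hl'.le, mul_nonneg he0 (zero_le_one.trans hn')]
  · nlinarith [mul_le_mul_of_nonneg_right hf2 hl'.le,
      mul_le_mul_of_nonneg_right he' (zero_le_one.trans hn')]

theorem count (hK : ACl K) (hv : ∀ c ∈ K, v z ≠ v c) (hO : OB v K) {m : ℕ} {φ : Fin m → L}
    (hφ : Orth v (Adj K {z}) fun i => vec (Adj K {z}) (φ i))
    (happ : ∀ x : L, x ≠ 0 → ∃ a : Fin m → Ω, (∀ i, a i ∈ Adj K {z}) ∧
      nrm v (vec (Adj K {z}) x - ∑ i, a i • vec (Adj K {z}) (φ i)) < nrm v (vec (Adj K {z}) x)) :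
    Module.finrank (Adj K {z}) L ≤ m := by
  classical
  obtain ⟨C, hC⟩ := exists_family hK hv hO (Module.finBasis (Adj K {z}) L)
  have h1 : ∀ i, ∃ n : ℕ, 0 < n ∧ ∃ c ∈ K, ∃ f : ℤ,
      nrm v (vec (Adj K {z}) (φ i)) ^ n = v c * v z ^ f := fun i => by
    obtain ⟨n, hn, c, hc, c0, e⟩ := nrm_pow_mem (v := v) (E := Adj K {z}) (x := φ i)
      fun e => hφ.1 i (by simp [e])
    obtain ⟨c', hc', -, j, e', -⟩ := val_Adj' hK hv hc c0
    exact ⟨n, hn, c', hc', j, e.trans e'⟩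
  choose nn hnn cc hcc ff hff using h1
  set D : ℕ := Finset.univ.sup fun i => (ff i).natAbs
  have key : ∀ n : ℕ, Module.finrank (Adj K {z}) L * n ≤ m * (n + C + 2 * D + 1) := fun n => by
    obtain ⟨x, hx, hx'⟩ := hC n
    set g : Fin m × Finset.Icc (-D : ℤ) ((n + C : ℕ) + D) → (L →ₐ[Adj K {z}] Ω) → Ω :=
      fun t => z ^ (t.2 : ℤ) • vec (Adj K {z}) (φ t.1) with hg
    have h2 : ∀ k, ∃ w ∈ Submodule.span K (Set.range g),
        nrm v (vec (Adj K {z}) (x k) - w) < nrm v (vec (Adj K {z}) (x k)) := fun k => by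
      have x0 : x k ≠ 0 := fun e => hx'.1 k (by simp [e])
      have hp := nrm_pos (v := v) (hx'.1 k)
      obtain ⟨a, ha, h⟩ := happ _ x0
      obtain ⟨l, hl, c₁, hc₁, c0, e, he, h3⟩ := (hx k).val hK hv x0
      have h4 : nrm v (∑ i, a i • vec (Adj K {z}) (φ i)) ≤ nrm v (vec (Adj K {z}) (x k)) := by
        have := nrm_sub_le (le_refl (nrm v (vec (Adj K {z}) (x k)))) h.le
        rwa [sub_sub_cancel] at this
      have h5 : ∀ i, ∃ w ∈ Submodule.span K (Set.range g),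
          nrm v (a i • vec (Adj K {z}) (φ i) - w) < nrm v (vec (Adj K {z}) (x k)) := fun i => by
        rcases ((hφ.2 a ha i).trans h4).lt_or_eq with h6 | h6
        · exact ⟨0, zero_mem _, by rwa [sub_zero, nrm_smul]⟩
        · have a0 : a i ≠ 0 := fun e => by simp [e] at h6; exact hp.ne h6
          obtain ⟨c, hc, -, j, e1, e2⟩ := val_Adj' hK hv (ha i) a0
          have hj := exp_bound hK hv hc hc₁ (hcc i) c0 hl (hnn i) he h3 (hff i)
            (by rw [← h6, e1]) (C := D)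
            (Finset.le_sup (f := fun i => (ff i).natAbs) (Finset.mem_univ i))
          refine ⟨(⟨c, hc⟩ : K) • g (i, ⟨j, hj⟩),
            Submodule.smul_mem _ _ (Submodule.subset_span ⟨_, rfl⟩), ?_⟩
          change nrm v (a i • _ - c • z ^ j • vec (Adj K {z}) (φ i)) < _
          rw [smul_smul, ← sub_smul, nrm_smul, ← h6]
          exact mul_lt_mul_of_pos_right e2 (nrm_pos (hφ.1 i))
      choose w hw hw' using h5
      refine ⟨∑ i, w i, sum_mem fun i _ => hw i, ?_⟩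
      have := nrm_add_lt h (nrm_sum_lt Finset.univ hp fun i _ => hw' i)
      rwa [Finset.sum_sub_distrib, sub_add_sub_cancel] at this
    choose w hw hw' using h2
    have h3 := (linearIndependent_le_span_aux' w (orth_perturb hx' hw') (Set.range g)
      (Set.range_subset_iff.2 hw)).trans (Fintype.card_range_le g)
    simp only [Fintype.card_fin, Fintype.card_prod, Fintype.card_coe, Int.card_Icc] at h3
    refine h3.trans (Nat.mul_le_mul_left _ ?_)
    omega
  by_contra hlt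
  have := key (m * (C + 2 * D + 1) + 1)
  nlinarith [Nat.mul_le_mul_right (m * (C + 2 * D + 1) + 1) (Nat.succ_le_of_lt (not_le.1 hlt))]

end Count

section Sep
variable {E : Subfield Ω} {L : Type} [Field L] [Algebra E L] [FiniteDimensional E L]

theorem exists_orth_basis (H : ∀ (m : ℕ) (φ : Fin m → L), (Orth v E fun i => vec E (φ i)) →
      (∀ x : L, x ≠ 0 → ∃ a : Fin m → Ω, (∀ i, a i ∈ E) ∧
        nrm v (vec E x - ∑ i, a i • vec E (φ i)) < nrm v (vec E x)) → Module.finrank E L ≤ m) :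
    ∃ b : Module.Basis (Fin (Module.finrank E L)) E L, Orth v E fun i => vec E (b i) := by
  have key : ∀ m ≤ Module.finrank E L, ∃ φ : Fin m → L, Orth v E fun i => vec E (φ i) := by
    intro m
    induction m with
    | zero => exact fun _ => ⟨Fin.elim0, fun i => i.elim0, fun _ _ i => i.elim0⟩
    | succ m ih =>
      intro hm
      obtain ⟨φ, hφ⟩ := ih (Nat.le_of_succ_le hm)
      obtain ⟨x, hx⟩ := not_forall.1 (mt (H m φ hφ) (not_le.2 hm))
      obtain ⟨x0, hx⟩ := Classical.not_imp.1 hx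
      have e : (fun i => vec E ((Fin.cons x φ : Fin (m + 1) → L) i)) =
          Fin.cons (vec E x) fun i => vec E (φ i) :=
        funext fun i => Fin.cases rfl (fun _ => rfl) i
      refine ⟨Fin.cons x φ, ?_⟩
      rw [e]
      exact orth_cons hφ (vec_ne_zero x0) fun a ha => not_lt.1 fun h => hx ⟨a, ha, h⟩
  obtain ⟨φ, hφ⟩ := key _ le_rfl
  have hi : LinearIndependent E φ := Fintype.linearIndependent_iff.2 fun a ha i => by
    have := hφ.2 (fun i => a i) (fun i => (a i).2) i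
    rw [← vec_comb, ha, map_zero (vec E), nrm_zero, le_zero_iff, mul_eq_zero] at this
    simpa using this.resolve_right (nrm_pos (hφ.1 i)).ne'
  have : Nonempty (Fin (Module.finrank E L)) := ⟨⟨0, Module.finrank_pos⟩⟩
  exact ⟨basisOfLinearIndependentOfCardEqFinrank hi (Fintype.card_fin _), by
    rwa [coe_basisOfLinearIndependentOfCardEqFinrank]⟩

omit [IsAlgClosed Ω] [CharZero Ω] in
theorem repr_le {κ : Type} [Fintype κ] {b : Module.Basis κ E L}
    (hb : Orth v E fun i => vec E (b i)) (y : L) (i : κ) :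
    v (b.repr y i : Ω) * nrm v (vec E (b i)) ≤ nrm v (vec E y) := by
  have := hb.2 (fun i => b.repr y i) (fun i => Subtype.prop _) i
  rwa [← vec_comb, b.sum_repr] at this

omit [IsAlgClosed Ω] [CharZero Ω] in
theorem exists_eps (σ₀ : L →ₐ[E] Ω)
    (hres : ∀ (x : L) (σ : L →ₐ[E] Ω), v (σ x) ≤ 1 → ∃ c ∈ E, v (σ x - c) < 1) :
    ∃ ε : L, nrm v (vec E ε) ≤ 1 ∧ v (σ₀ ε - 1) < 1 ∧ ∀ σ : L →ₐ[E] Ω,
      v (σ ε) < 1 ∨ ∀ x : L, nrm v (vec E x) ≤ 1 → v (σ x - σ₀ x) < 1 := by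
  classical
  have h1 : ∀ σ : L →ₐ[E] Ω, ∃ y : L, nrm v (vec E y) ≤ 1 ∧ v (σ₀ y - 1) < 1 ∧
      (v (σ y) < 1 ∨ ∀ x : L, nrm v (vec E x) ≤ 1 → v (σ x - σ₀ x) < 1) := fun σ => by
    by_cases h : ∀ x : L, nrm v (vec E x) ≤ 1 → v (σ x - σ₀ x) < 1
    · exact ⟨1, nrm_le fun τ => by simp, by simp, Or.inr h⟩
    push Not at h
    obtain ⟨x, hx, h⟩ := h
    have hτ : ∀ τ : L →ₐ[E] Ω, v (τ x) ≤ 1 := fun τ => (le_nrm (vec E x) τ).trans hx
    obtain ⟨c, hc, e⟩ := hres x σ (hτ σ)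
    obtain ⟨c', hc', e'⟩ := hres x σ₀ (hτ σ₀)
    have hc1 : v c ≤ 1 := by simpa using v.map_sub_le (hτ σ) e.le
    have hc1' : v c' ≤ 1 := by simpa using v.map_sub_le (hτ σ₀) e'.le
    have h2 : v (c' - c) = 1 := le_antisymm (v.map_sub_le hc1' hc1) (not_lt.1 fun h' => by
      have := v.map_sub_lt (v.map_sub_lt e e') h'
      rw [show σ x - c - (σ₀ x - c') - (c' - c) = σ x - σ₀ x by ring] at this
      exact this.not_ge h)
    have h3 : c' - c ≠ 0 := fun e => by simp [e] at h2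
    have h4 : ∀ τ : L →ₐ[E] Ω, τ ((⟨(c' - c)⁻¹, inv_mem (sub_mem hc' hc)⟩ : E) •
        (x - algebraMap E L ⟨c, hc⟩)) = (c' - c)⁻¹ * (τ x - c) := fun τ => by
      rw [emb_smul, map_sub, τ.commutes]; rfl
    refine ⟨(⟨(c' - c)⁻¹, inv_mem (sub_mem hc' hc)⟩ : E) • (x - algebraMap E L ⟨c, hc⟩),
      nrm_le fun τ => ?_, ?_, Or.inl ?_⟩
    · rw [vec_apply, h4, v.map_mul, map_inv₀, h2, inv_one, one_mul]
      exact v.map_sub_le (hτ τ) hc1
    · rw [h4, show (c' - c)⁻¹ * (σ₀ x - c) - 1 = (c' - c)⁻¹ * (σ₀ x - c') by field_simp; ring,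
        v.map_mul, map_inv₀, h2, inv_one, one_mul]
      exact e'
    · rw [h4, v.map_mul, map_inv₀, h2, inv_one, one_mul]
      exact e
  choose y hy hy' hy'' using h1
  have hτ : ∀ σ τ : L →ₐ[E] Ω, v (τ (y σ)) ≤ 1 := fun σ τ => (le_nrm (vec E (y σ)) τ).trans (hy σ)
  refine ⟨∏ σ, y σ, nrm_le fun τ => ?_, ?_, fun σ => (hy'' σ).imp_left fun h => ?_⟩
  · rw [vec_apply, map_prod, map_prod]
    exact Finset.prod_le_one' fun σ _ => hτ σ τ
  · have := v_prod_sub_lt (v := v) Finset.univ (a := fun σ => σ₀ (y σ)) (b := fun _ => 1)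
      (fun _ _ => by simp) fun σ _ => hy' σ
    simpa using this
  · rw [← Finset.mul_prod_erase _ _ (Finset.mem_univ σ), map_mul, v.map_mul, map_prod, map_prod]
    exact mul_lt_one_of_nonneg_of_lt_one_left zero_le h (Finset.prod_le_one' fun τ _ => hτ τ σ)

theorem lt_of_near {σ₀ σ : L →ₐ[E] Ω} (h : ∀ x : L, nrm v (vec E x) ≤ 1 → v (σ x - σ₀ x) < 1)
    {u y : L} (hu : u ≠ 0) (hy : nrm v (vec E y) ≤ nrm v (vec E u))
    (h0 : v (σ₀ y) < nrm v (vec E u)) : v (σ y) < nrm v (vec E u) := by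
  obtain ⟨n, hn, c, hc, c0, e⟩ := nrm_pow_mem (v := v) (E := E) hu
  have hp : 0 < v c := (Valuation.pos_iff v).2 c0
  have h1 : ∀ τ : L →ₐ[E] Ω, v (τ ((⟨c⁻¹, inv_mem hc⟩ : E) • y ^ n)) = v (τ y) ^ n / v c :=
    fun τ => by rw [emb_smul, v.map_mul, map_pow, v.map_pow, map_inv₀, div_eq_inv_mul]
  have h2 := h ((⟨c⁻¹, inv_mem hc⟩ : E) • y ^ n) (nrm_le fun τ => by
    rw [vec_apply, h1, div_le_one₀ hp, ← e]
    exact pow_le_pow_left₀ zero_le ((le_nrm (vec E y) τ).trans hy) n)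
  have h3 := v.map_add_lt h2 (show v (σ₀ _) < 1 by
    rw [h1, div_lt_one₀ hp, ← e]
    exact pow_lt_pow_left₀ h0 zero_le hn.ne')
  rw [sub_add_cancel, h1, div_lt_one₀ hp, ← e] at h3
  exact lt_of_pow_lt_pow_left₀ n zero_le h3

/-- The determinant of `1 + t ε` is congruent to `1 + t`. -/
theorem det_near {κ : Type} [Fintype κ] {b : Module.Basis κ E L}
    (hb : Orth v E fun i => vec E (b i)) {σ₀ : L →ₐ[E] Ω}
    (happ : ∀ x : L, x ≠ 0 → ∃ a ∈ E, v (σ₀ x - a) < v (σ₀ x)) {ε : L}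
    (h1 : nrm v (vec E ε) ≤ 1) (h2 : v (σ₀ ε - 1) < 1) (h3 : ∀ σ : L →ₐ[E] Ω,
      v (σ ε) < 1 ∨ ∀ x : L, nrm v (vec E x) ≤ 1 → v (σ x - σ₀ x) < 1) (t : E)
    (ht : v (t : Ω) ≤ 1) : v (∏ σ : L →ₐ[E] Ω, (1 + t * σ ε) - (1 + t)) < 1 := by
  classical
  choose a ha ha' using fun i => happ (b i) (b.ne_zero i)
  choose τ hτ0 hτ using fun i => exists_nrm (v := v) (hb.1 i)
  set θ : κ → Ω := fun i => vec E (b i) (τ i)
  have hθ : ∀ i, 0 < v (θ i) := fun i => (Valuation.pos_iff v).2 (hτ0 i)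
  have hb0 : ∀ i, v (σ₀ (b i)) ≤ v (θ i) := fun i => (le_nrm (vec E (b i)) σ₀).trans (hτ i).le
  have ha1 : ∀ i, v (a i) ≤ v (θ i) := fun i => by
    simpa using v.map_sub_le (hb0 i) ((ha' i).le.trans (hb0 i))
  have hβ : ∀ i, v (b.repr ε i : Ω) * v (θ i) ≤ 1 := fun i => by
    rw [← hτ]; exact (repr_le hb ε i).trans h1
  set M := (Algebra.leftMulMatrix b (1 + t • ε)).map (algebraMap E Ω) with hM
  have hd : (Matrix.of fun i l => θ i * ((θ l)⁻¹ * M i l)).det =
      ∏ σ : L →ₐ[E] Ω, (1 + t * σ ε) := by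
    refine (Matrix.det_mul_column θ (Matrix.of fun i l => (θ l)⁻¹ * M i l)).trans ?_
    rw [Matrix.det_mul_row, ← mul_assoc, ← Finset.prod_mul_distrib, det_eq]
    rw [Finset.prod_congr rfl fun i _ => mul_inv_cancel₀ (hτ0 i)]
    simp only [Finset.prod_const_one, one_mul, map_add, map_one, emb_smul]
  have hB := Matrix.det_one_add_replicateCol_mul_replicateRow (ι := Unit)
    (fun i => (t : Ω) * (b.repr ε i * θ i)) fun l => a l / θ l
  have h4 := v_det_sub_lt (v := v) (A := Matrix.of fun i l => θ i * ((θ l)⁻¹ * M i l))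
    (B := 1 + Matrix.replicateCol Unit (fun i => (t : Ω) * (b.repr ε i * θ i)) *
      Matrix.replicateRow Unit fun l => a l / θ l) (fun i l => by
      refine v.map_add_le (by rw [Matrix.one_apply]; split_ifs <;> simp) ?_
      simp only [Matrix.mul_apply, Finset.univ_unique, Finset.sum_singleton,
        Matrix.replicateCol_apply, Matrix.replicateRow_apply, map_mul, map_div₀]
      exact mul_le_one' (mul_le_one' ht (hβ i)) ((div_le_one₀ (hθ l)).2 (ha1 l))) fun i l => by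
      set y : L := b l - algebraMap E L ⟨a l, ha l⟩ with hy
      have hσ : ∀ σ : L →ₐ[E] Ω, σ y = σ (b l) - a l := fun σ => by
        rw [hy, map_sub, σ.commutes]; rfl
      have hy1 : nrm v (vec E y) ≤ nrm v (vec E (b l)) := nrm_le fun σ => by
        rw [vec_apply, hσ]
        exact v.map_sub_le (le_nrm (vec E (b l)) σ) ((ha1 l).trans (hτ l).ge)
      have hy2 : nrm v (vec E (ε * y)) < v (θ l) := nrm_lt (hθ l) fun σ => by
        rw [vec_apply, map_mul, v.map_mul]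
        rcases h3 σ with h | h
        · exact (mul_le_mul_right ((le_nrm (vec E y) σ).trans (hy1.trans (hτ l).le)) _).trans_lt
            (mul_lt_of_lt_one_left (hθ l) h)
        · refine (mul_le_of_le_one_left' ((le_nrm (vec E ε) σ).trans h1)).trans_lt ?_
          rw [← hτ]
          refine lt_of_near h (b.ne_zero l) hy1 ?_
          rw [hσ, hτ]
          exact (ha' l).trans_le (hb0 l)
      have e1 : b.repr (ε * y) i = b.repr (ε * b l) i - ⟨a l, ha l⟩ * b.repr ε i := by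
        rw [hy, mul_sub, mul_comm ε (algebraMap _ _ _), ← Algebra.smul_def]
        simp
      have e2 : M i l = (1 : Matrix κ κ Ω) i l + t * b.repr (ε * b l) i := by
        rw [hM, map_add, map_one, map_smul, Matrix.map_apply, Matrix.add_apply, Matrix.smul_apply,
          Algebra.leftMulMatrix_eq_repr_mul, map_add]
        congr 1
        simp only [Matrix.one_apply]
        split_ifs <;> simp
      have e3 : θ i * ((θ l)⁻¹ * (1 : Matrix κ κ Ω) i l) = (1 : Matrix κ κ Ω) i l := by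
        simp only [Matrix.one_apply]
        split_ifs with h
        · rw [h, mul_one, mul_inv_cancel₀ (hτ0 l)]
        · simp
      have e4 : (Matrix.of fun i l => θ i * ((θ l)⁻¹ * M i l)) i l -
          (1 + Matrix.replicateCol Unit (fun i => (t : Ω) * (b.repr ε i * θ i)) *
            Matrix.replicateRow Unit fun l => a l / θ l : Matrix κ κ Ω) i l =
          t * (b.repr (ε * y) i * θ i / θ l) := by
        simp only [Matrix.mul_apply, Finset.univ_unique, Finset.sum_singleton, Matrix.add_apply,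
          Matrix.replicateCol_apply, Matrix.replicateRow_apply, Matrix.of_apply, e2, mul_add, e3,
          e1, Subfield.coe_sub, Subfield.coe_mul]
        ring
      rw [e4, v.map_mul, map_div₀, v.map_mul]
      refine (mul_le_of_le_one_left' ht).trans_lt ((div_lt_one₀ (hθ l)).2 ?_)
      rw [← hτ i]
      exact (repr_le hb _ i).trans_lt hy2
  rw [hd, hB] at h4
  have h5 : v (∑ i, (b.repr ε i : Ω) * (a i - σ₀ (b i))) < 1 :=
    v.map_sum_lt one_ne_zero fun i _ => by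
      rw [v.map_mul, v.map_sub_swap]
      rcases eq_or_ne (v (b.repr ε i : Ω)) 0 with h | h
      · simp [h]
      · exact (mul_lt_mul_of_pos_left ((ha' i).trans_le (hb0 i)) (zero_lt_iff.2 h)).trans_le (hβ i)
  have e5 : σ₀ ε = ∑ i, (b.repr ε i : Ω) * σ₀ (b i) := by
    conv_lhs => rw [← b.sum_repr ε]
    simp only [map_sum, emb_smul]
  have e6 : (fun l => a l / θ l) ⬝ᵥ (fun i => (t : Ω) * (b.repr ε i * θ i)) =
      t * (∑ i, (b.repr ε i : Ω) * (a i - σ₀ (b i)) + σ₀ ε) := by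
    rw [e5, ← Finset.sum_add_distrib, Finset.mul_sum, dotProduct]
    refine Finset.sum_congr rfl fun i _ => ?_
    have : θ i ≠ 0 := hτ0 i
    field_simp
    ring
  have h6 := v.map_add_lt h4 (show v ((t : Ω) * (_ + (σ₀ ε - 1))) < 1 by
    rw [v.map_mul]
    exact (mul_le_of_le_one_left' ht).trans_lt (v.map_add_lt h5 h2))
  rw [e6] at h6
  convert h6 using 2
  ring

theorem exists_sep {κ : Type} [Fintype κ] {b : Module.Basis κ E L}
    (hb : Orth v E fun i => vec E (b i)) (σ₀ : L →ₐ[E] Ω)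
    (hres : ∀ (x : L) (σ : L →ₐ[E] Ω), v (σ x) ≤ 1 → ∃ c ∈ E, v (σ x - c) < 1)
    (happ : ∀ x : L, x ≠ 0 → ∃ a ∈ E, v (σ₀ x - a) < v (σ₀ x))
    (hlam : ∀ s : ℕ, 0 < s → ∃ l ∈ E, l * (l ^ s - 1) = 1) :
    ∃ ε : L, v (σ₀ ε - 1) < 1 ∧ ∀ σ : L →ₐ[E] Ω, σ ≠ σ₀ → v (σ ε) < 1 := by
  classical
  obtain ⟨ε, h1, h2, h3⟩ := exists_eps σ₀ hres
  refine ⟨ε, h2, fun σ hσ => not_le.1 fun hh => ?_⟩
  have h0 : ¬ v (σ₀ ε) < 1 := fun h => by simpa using v.map_sub_lt h h2
  set J := Finset.univ.filter fun τ : L →ₐ[E] Ω => ¬ v (τ ε) < 1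
  have hJ : 1 < J.card := Finset.one_lt_card.2 ⟨σ, by simpa [J] using hh, σ₀, by
    simpa [J] using h0, hσ⟩
  obtain ⟨l, hl, e⟩ := hlam (J.card - 1) (by omega)
  have l1 : v l ≤ 1 := not_lt.1 fun h => by
    have h4 : 1 < v (l ^ (J.card - 1)) := by
      rw [v.map_pow]; exact one_lt_pow₀ h (by omega)
    have h5 := congrArg v e
    rw [v.map_mul, v.map_sub_eq_of_lt_left (by rwa [v.map_one]), v.map_one] at h5
    exact (one_lt_mul'' h h4).ne' h5
  have ht : v (l - 1) ≤ 1 := v.map_sub_le l1 v.map_one.le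
  have h4 := det_near hb happ h1 h2 h3 ⟨l - 1, sub_mem hl (one_mem _)⟩ ht
  have h5 := v_prod_sub_lt (v := v) Finset.univ (a := fun τ : L →ₐ[E] Ω => 1 + (l - 1) * τ ε)
    (b := fun τ => if ¬ v (τ ε) < 1 then l else 1) (fun τ _ => by split_ifs <;> simp [l1])
    fun τ _ => by
      split_ifs with h
      · rw [add_sub_cancel_left, v.map_mul]
        exact (mul_le_of_le_one_left' ht).trans_lt h
      · rw [show 1 + (l - 1) * τ ε - l = (l - 1) * (τ ε - σ₀ ε + (σ₀ ε - 1)) by ring, v.map_mul]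
        exact (mul_le_of_le_one_left' ht).trans_lt
          (v.map_add_lt ((h3 τ).resolve_left h ε h1) h2)
  rw [← Finset.prod_filter, Finset.prod_const] at h5
  have h6 := v.map_sub_lt h4 h5
  have e2 : l ^ J.card = l * l ^ (J.card - 1) := by
    rw [← pow_succ']; congr 1; omega
  have e3 : ∀ P : Ω, P - (1 + (l - 1)) - (P - l ^ J.card) = 1 := fun P => by
    rw [e2]; linear_combination e
  exact lt_irrefl _ (lt_of_eq_of_lt ((congrArg v (e3 _)).trans v.map_one).symm h6)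

end Sep

end TA

end Pool.Agent.Lib.MP_132c47_lc
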