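import Pool.Agent.Lib.MP_132c47_lc.VB

/-! Block UL: ultrapowers of valued fields. -/

namespace Pool.Agent.Lib.MP_132c47_lc

open Polynomial Filter

variable {Ω : Type} [Field Ω] {Γ₀ : Type} [LinearOrderedCommGroupWithZero Γ₀]
  {v : Valuation Ω Γ₀}

namespace UL

/-- The valuation ring of the ultrapower. -/
def ring (v : Valuation Ω Γ₀) : ValuationSubring (Germ UU Ω) where
  carrier := {x | ∃ y : ℕ → Ω, (y : Germ UU Ω) = x ∧ ∀ᶠ n in UU, v (y n) ≤ 1}
  zero_mem' := ⟨0, rfl, by simp⟩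
  one_mem' := ⟨1, rfl, by simp⟩
  add_mem' := by
    rintro _ _ ⟨x, rfl, hx⟩ ⟨y, rfl, hy⟩
    exact ⟨x + y, rfl, (hx.and hy).mono fun n h => v.map_add_le h.1 h.2⟩
  mul_mem' := by
    rintro _ _ ⟨x, rfl, hx⟩ ⟨y, rfl, hy⟩
    exact ⟨x * y, rfl, (hx.and hy).mono fun n h => by
      simpa using mul_le_one' h.1 h.2⟩
  neg_mem' := by
    rintro _ ⟨x, rfl, hx⟩
    exact ⟨-x, rfl, by simpa using hx⟩
  mem_or_inv_mem' := fun a => by
    induction a using Germ.inductionOn with | h x => ?_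
    by_cases h : ∀ᶠ n in UU, v (x n) ≤ 1
    · exact Or.inl ⟨x, rfl, h⟩
    · refine Or.inr ⟨x⁻¹, rfl, (Ultrafilter.eventually_not.2 h).mono fun n h => ?_⟩
      simpa using inv_le_one_of_one_le₀ (not_le.1 h).le

theorem mem_ring (x : ℕ → Ω) : (x : Germ UU Ω) ∈ ring v ↔ ∀ᶠ n in UU, v (x n) ≤ 1 :=
  ⟨fun ⟨_, e, h⟩ => ((Germ.coe_eq.1 e).and h).mono fun _ h => h.1 ▸ h.2, fun h => ⟨x, rfl, h⟩⟩

end UL

theorem exists_ul (v : Valuation Ω Γ₀) : ∃ (Ω' Γ₁ : Type) (_ : Field Ω')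
    (_ : LinearOrderedCommGroupWithZero Γ₁) (v' : Valuation Ω' Γ₁) (π : (ℕ → Ω) →+* Ω'),
    IsUl v v' π := by
  refine ⟨Germ UU Ω, _, inferInstance, inferInstance, (UL.ring v).valuation, Germ.coeRingHom UU,
    fun a => ?_, fun x y => Germ.coe_eq, fun x y => ?_⟩
  · induction a using Germ.inductionOn with | h x => exact ⟨x, rfl⟩
  change (UL.ring v).valuation (x : Germ UU Ω) ≤ (UL.ring v).valuation (y : Germ UU Ω) ↔ _
  by_cases hy : (y : Germ UU Ω) = 0
  · rw [hy, map_zero, le_zero_iff, Valuation.zero_iff]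
    have hy' := Germ.coe_eq.1 hy
    constructor
    · exact fun h => (Germ.coe_eq.1 h).mono fun n e => by simp [show x n = 0 from e]
    · refine fun h => Germ.coe_eq.2 ((h.and hy').mono fun n e => ?_)
      have := e.1
      rw [show y n = 0 from e.2] at this
      simpa using this
  · have hy' : ∀ᶠ n in UU, y n ≠ 0 :=
      Ultrafilter.eventually_not.2 fun h => hy (Germ.coe_eq.2 h)
    rw [← div_le_one₀ (zero_lt_iff.2 (by simpa using hy)), ← map_div₀,
      ValuationSubring.valuation_le_one_iff, ← Germ.coe_div, UL.mem_ring]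
    refine eventually_congr (hy'.mono fun n h => ?_)
    rw [Pi.div_apply, map_div₀, div_le_one₀ (zero_lt_iff.2 (by simpa using h))]

variable {Ω' Γ₁ : Type} [Field Ω'] [LinearOrderedCommGroupWithZero Γ₁] {v' : Valuation Ω' Γ₁}
  {π : (ℕ → Ω) →+* Ω'}

theorem IsUl.lt_iff (h : IsUl v v' π) (x y : ℕ → Ω) :
    v' (π x) < v' (π y) ↔ ∀ᶠ n in UU, v (x n) < v (y n) := by
  rw [← not_le, h.le_iff, ← Ultrafilter.eventually_not]
  simp only [not_le]

theorem IsUl.veq_iff (h : IsUl v v' π) (x y : ℕ → Ω) :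
    v' (π x) = v' (π y) ↔ ∀ᶠ n in UU, v (x n) = v (y n) := by
  simp only [le_antisymm_iff, h.le_iff, eventually_and]

theorem IsUl.exists_poly (h : IsUl v v' π) {f : Polynomial Ω'} (hf : f.Monic) :
    ∃ F : ℕ → Polynomial Ω, (∀ n, (F n).Monic ∧ (F n).natDegree = f.natDegree) ∧
      (∀ i, π (fun n => (F n).coeff i) = f.coeff i) ∧
      (∀ x, π (fun n => (F n).eval (x n)) = f.eval (π x)) ∧
      ∀ x, π (fun n => (F n).derivative.eval (x n)) = f.derivative.eval (π x) := by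
  obtain ⟨g, rfl, hd, hm⟩ := lifts_and_natDegree_eq_and_monic
    (mem_lifts_of_surjective h.surj f) hf
  have key : ∀ (g : Polynomial (ℕ → Ω)) (x : ℕ → Ω),
      π (fun n => (g.map (Pi.evalRingHom (fun _ => Ω) n)).eval (x n)) = (g.map π).eval (π x) :=
    fun g x => by
      rw [eval_map_apply]
      congr 1
      funext n
      exact eval_map_apply (Pi.evalRingHom (fun _ => Ω) n) x
  refine ⟨fun n => g.map (Pi.evalRingHom (fun _ => Ω) n),
    fun n => ⟨hm.map _, (hm.natDegree_map _).trans hd⟩, fun i => ?_, key g, fun x => ?_⟩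
  · simp only [coeff_map]; rfl
  · simp only [derivative_map]; exact key _ x

theorem IsUl.isAlgClosed [IsAlgClosed Ω] (h : IsUl v v' π) : IsAlgClosed Ω' := by
  refine IsAlgClosed.of_exists_root _ fun f hm hi => ?_
  obtain ⟨F, hF, -, e, -⟩ := h.exists_poly hm
  choose x hx using fun n => IsAlgClosed.exists_root (F n)
    (natDegree_pos_iff_degree_pos.1 ((hF n).2 ▸ hi.natDegree_pos)).ne'
  refine ⟨π x, ?_⟩
  rw [← e, ← map_zero π, h.eq_iff]
  exact Eventually.of_forall hx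

theorem IsUl.charZero [CharZero Ω] (h : IsUl v v' π) : CharZero Ω' :=
  haveI := h.surj
  (π.comp (Pi.constRingHom ℕ Ω)).charZero_iff (RingHom.injective _) |>.1 inferInstance

theorem IsUl.exists_subring (h : IsUl v v' π) (A : ℕ → Subring Ω) : ∃ B : Subring Ω',
    ∀ x, π x ∈ B ↔ ∀ᶠ n in UU, x n ∈ A n := by
  let S : Subring (ℕ → Ω) :=
    { carrier := {x | ∀ᶠ n in UU, x n ∈ A n}
      zero_mem' := Eventually.of_forall fun n => (A n).zero_mem
      one_mem' := Eventually.of_forall fun n => (A n).one_mem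
      add_mem' := fun hx hy => (hx.and hy).mono fun n e => (A n).add_mem e.1 e.2
      mul_mem' := fun hx hy => (hx.and hy).mono fun n e => (A n).mul_mem e.1 e.2
      neg_mem' := fun hx => Eventually.mono hx fun n e => (A n).neg_mem e }
  refine ⟨S.map π, fun x => ⟨?_, fun hx => ⟨x, hx, rfl⟩⟩⟩
  rintro ⟨y, hy, e⟩
  exact (((h.eq_iff _ _).1 e).and hy).mono fun n e => e.1 ▸ e.2

theorem IsUl.exists_subfield (h : IsUl v v' π) (A : ℕ → Subfield Ω) : ∃ B : Subfield Ω',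
    ∀ x, π x ∈ B ↔ ∀ᶠ n in UU, x n ∈ A n := by
  obtain ⟨B, hB⟩ := h.exists_subring fun n => (A n).toSubring
  refine ⟨{ B with inv_mem' := fun a ha => ?_ }, hB⟩
  obtain ⟨x, rfl⟩ := h.surj a
  by_cases h0 : π x = 0
  · rw [h0, inv_zero]; exact B.zero_mem
  have : π (fun n => (x n)⁻¹) = (π x)⁻¹ := by
    refine eq_inv_of_mul_eq_one_left ?_
    rw [← map_mul, ← map_one π, h.eq_iff]
    rw [← map_zero π, h.eq_iff, ← Ultrafilter.eventually_not] at h0
    exact h0.mono fun n e => inv_mul_cancel₀ e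
  rw [← this]
  exact (hB _).2 (((hB x).1 ha).mono fun n e => (A n).inv_mem e)

theorem IsUl.acl (h : IsUl v v' π) {M : Subfield Ω} (hM : ACl M) {B : Subfield Ω'}
    (hB : ∀ x, π x ∈ B ↔ ∀ᶠ n in UU, x n ∈ M) : ACl B := by
  intro a ha
  obtain ⟨x, rfl⟩ := h.surj a
  obtain ⟨f, hm, hc, h0⟩ := isAlgebraic_iff.1 ha
  obtain ⟨F, hF, e1, e2, -⟩ := h.exists_poly hm
  rw [← e2, ← map_zero π, h.eq_iff] at h0
  have h2 : ∀ᶠ n in UU, ∀ i ∈ Finset.range (f.natDegree + 1), (F n).coeff i ∈ M :=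
    (eventually_all_finset _).2 fun i _ => (hB _).1 (e1 i ▸ hc i)
  refine (hB x).2 ((h0.and h2).mono fun n e => hM _ (isAlgebraic_iff.2
    ⟨F n, (hF n).1, fun i => ?_, e.1⟩))
  by_cases hi : i < f.natDegree + 1
  · exact e.2 i (Finset.mem_range.2 hi)
  · rw [coeff_eq_zero_of_natDegree_lt (by rw [(hF n).2]; omega)]
    exact M.zero_mem

theorem IsUl.sc (h : IsUl v v' π) {M : Subfield Ω} {B : Subfield Ω'}
    (hB : ∀ x, π x ∈ B ↔ ∀ᶠ n in UU, x n ∈ M) : SC v' B := by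
  classical
  intro a t ha ht hat
  choose A hA using fun k => h.surj (a k)
  choose T hT using fun k => h.surj (t k)
  let P : ℕ → ℕ → Prop := fun n k => ∀ j ≤ k, A j n ∈ M ∧ v (T (j + 1) n) ≤ v (T j n) ∧
    v (A (j + 1) n - A j n) ≤ v (T j n)
  have hP : ∀ k, ∀ᶠ n in UU, k ≤ n ∧ P n k := fun k => by
    refine Eventually.and (Eventually.filter_mono Nat.hyperfilter_le_atTop
      (eventually_ge_atTop k)) ((eventually_all_finite (Set.finite_Iic k)).2 fun j _ => ?_)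
    refine ((hB _).1 (hA j ▸ ha j)).and (((h.le_iff _ _).1 ?_).and
      ((h.le_iff (A (j + 1) - A j) _).1 ?_))
    · rw [hT, hT]; exact ht j
    · rw [map_sub, hA, hA, hT]; exact hat j
  have hK : ∀ k, ∀ᶠ n in UU, k ≤ Nat.findGreatest (P n) n ∧ P n (Nat.findGreatest (P n) n) :=
    fun k => (hP k).mono fun n e => ⟨Nat.le_findGreatest e.1 e.2, Nat.findGreatest_spec e.1 e.2⟩
  refine ⟨π fun n => A (Nat.findGreatest (P n) n) n,
    (hB _).2 ((hK 0).mono fun n e => (e.2 _ le_rfl).1), fun k => ?_⟩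
  rw [← hA, ← hT, ← map_sub, h.le_iff]
  refine (hK k).mono fun n e => ?_
  have key : ∀ m, k ≤ m → P n m → v (T m n) ≤ v (T k n) ∧ v (A m n - A k n) ≤ v (T k n) := by
    intro m hm
    induction m, hm using Nat.le_induction with
    | base => exact fun _ => ⟨le_rfl, by simp⟩
    | succ m hm ih =>
      intro hp
      obtain ⟨h1, h2⟩ := ih fun j hj => hp j (by omega)
      obtain ⟨-, h3, h4⟩ := hp m (by omega)
      refine ⟨h3.trans h1, ?_⟩
      rw [← sub_add_sub_cancel _ (A m n)]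
      exact v.map_add_le (h4.trans h1) h2
  exact (key _ e.1 e.2).2

end Pool.Agent.Lib.MP_132c47_lc
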