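import Pool.Agent.Lib.MP_132c47_lc.VB2

/-! Block VB, part 3: elements algebraic over a valued subfield. -/

namespace Pool.Agent.Lib.MP_132c47_lc

open Polynomial

variable {Ω : Type} [Field Ω] {Γ₀ : Type} [LinearOrderedCommGroupWithZero Γ₀]
  {v : Valuation Ω Γ₀}

/-- A primitive polynomial vanishing at an algebraic element. -/
theorem exists_prim (v : Valuation Ω Γ₀) {E : Subfield Ω} {x : Ω} (ha : IsAlgebraic E x) :
    ∃ f : Polynomial Ω, (∀ i, f.coeff i ∈ E) ∧ (∀ i, v (f.coeff i) ≤ 1) ∧ f.eval x = 0 ∧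
      ∃ j, v (f.coeff j) = 1 ∧ ∀ i, j < i → v (f.coeff i) < 1 := by
  classical
  obtain ⟨g, hm, hc, h0⟩ := isAlgebraic_iff.1 ha
  obtain ⟨k, hk, hmax⟩ := Finset.exists_max_image g.support (fun i => v (g.coeff i))
    (support_nonempty.2 hm.ne_zero)
  have hk0 : g.coeff k ≠ 0 := mem_support_iff.1 hk
  have hv : 0 < v (g.coeff k) := zero_lt_iff.2 (v.ne_zero_iff.2 hk0)
  set f := C (g.coeff k)⁻¹ * g with hf
  have h1 : ∀ i, v (f.coeff i) ≤ 1 := fun i => by
    rw [hf, coeff_C_mul, map_mul, map_inv₀, inv_mul_le_one₀ hv]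
    by_cases hi : i ∈ g.support
    · exact hmax i hi
    · simp [notMem_support_iff.1 hi]
  have hne : (f.support.filter fun i => v (f.coeff i) = 1).Nonempty :=
    ⟨k, by simp [hf, hk0]⟩
  refine ⟨f, fun i => ?_, h1, by simp [hf, h0], Finset.max' _ hne,
    (Finset.mem_filter.1 (Finset.max'_mem _ hne)).2, fun i hi => (h1 i).lt_of_ne fun e => ?_⟩
  · rw [hf, coeff_C_mul]; exact E.mul_mem (E.inv_mem (hc k)) (hc i)
  · refine hi.not_ge (Finset.le_max' _ i (Finset.mem_filter.2 ⟨mem_support_iff.2 fun e' => ?_, e⟩))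
    simp [e'] at e

namespace VB

variable {E : Type} [Field E] {A : Subring Ω} {φ : Ω → E}

/-- The ring homomorphism defined by a partial homomorphism. -/
def hom (h : IsPH A φ) : A →+* E where
  toFun x := φ x
  map_one' := h.one
  map_mul' x y := h.mul x x.2 y y.2
  map_add' x y := h.add x x.2 y y.2
  map_zero' := by
    have := h.add 0 A.zero_mem 0 A.zero_mem
    simpa using this

theorem map_closure (h : IsPH A φ) {S : Set Ω} (hS : S ⊆ A) (B : Subring E)
    (e : ∀ s ∈ S, φ s ∈ B) : ∀ x ∈ Subring.closure S, φ x ∈ B := fun x hx => by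
  have : Subring.closure S ≤ (B.comap (hom h)).map A.subtype :=
    Subring.closure_le.2 fun s hs => ⟨⟨s, hS hs⟩, e s hs, rfl⟩
  obtain ⟨y, hy, rfl⟩ := this hx
  exact hy

end VB

/-- An element of the valuation ring is a quotient of everywhere integral elements. -/
theorem st_trick {E : Subfield Ω} {x : Ω} (ha : IsAlgebraic E x) (hx : v x ≤ 1) :
    ∃ s ∈ Adj E {x}, v s = 1 ∧ ∀ (Ω' Γ₁ : Type) [Field Ω'] [LinearOrderedCommGroupWithZero Γ₁]
      (v' : Valuation Ω' Γ₁) (σ : Ω → Ω'), IsPH (Adj E {x}).toSubring σ →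
      (∀ c ∈ E, v c ≤ 1 → v' (σ c) ≤ 1) → v' (σ s) ≤ 1 ∧ v' (σ (x * s)) ≤ 1 := by
  by_cases h0 : x = 0
  · refine ⟨1, Subfield.one_mem _, v.map_one, fun Ω' Γ₁ _ _ v' σ h hE => ?_⟩
    exact ⟨hE 1 E.one_mem v.map_one.le, hE _ (by simp [h0]) (by simp [h0])⟩
  obtain ⟨f, hc, h1, hf, j, hj, hj'⟩ := exists_prim v ha
  set n := f.natDegree + 1
  set s := ∑ i ∈ Finset.range n, f.coeff (j + i) * x ^ i with hs
  have hxA : x ∈ Adj E {x} := mem_Adj E rfl
  have hv : v s = 1 := by
    rw [hs, Finset.sum_range_succ', v.map_add_eq_of_lt_right] <;> simp only [add_zero, pow_zero,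
      mul_one, hj]
    refine v.map_sum_lt one_ne_zero fun i _ => ?_
    rw [map_mul, map_pow]
    exact (mul_le_of_le_one_right' (pow_le_one₀ zero_le hx)).trans_lt (hj' _ (by omega))
  have ht : x * s = -∑ i ∈ Finset.range j, f.coeff i * x⁻¹ ^ (j - 1 - i) := by
    have e := hf
    rw [eval_eq_sum_range' (n := j + n) (by omega), Finset.sum_range_add] at e
    have e2 : ∑ i ∈ Finset.range n, f.coeff (j + i) * x ^ (j + i) = x ^ j * s := by
      rw [hs, Finset.mul_sum]
      exact Finset.sum_congr rfl fun i _ => by ring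
    rw [e2] at e
    have hj0 : j ≠ 0 := by
      rintro rfl
      have : s = 0 := by simpa using e
      simp [this] at hv
    obtain ⟨k, rfl⟩ := Nat.exists_eq_succ_of_ne_zero hj0
    refine mul_left_cancel₀ (pow_ne_zero k h0) ?_
    rw [mul_neg, eq_neg_iff_add_eq_zero, add_comm, ← e, ← mul_assoc, ← pow_succ, Finset.mul_sum]
    congr 1
    refine Finset.sum_congr rfl fun i hi => ?_
    have hi := Finset.mem_range.1 hi
    obtain ⟨m, rfl⟩ := Nat.exists_eq_add_of_le (Nat.lt_succ_iff.1 hi)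
    simp only [Nat.succ_sub_one, Nat.add_sub_cancel_left]
    rw [pow_add, inv_pow]
    field_simp
  have hsA : s ∈ Adj E {x} :=
    Subfield.sum_mem _ fun i _ => mul_mem (le_Adj E _ (hc _)) (pow_mem hxA i)
  refine ⟨s, hsA, hv, fun Ω' Γ₁ _ _ v' σ h hE => ?_⟩
  have key : ∀ y ∈ Adj E {x}, v' (σ y) ≤ 1 →
      ∀ w ∈ Subring.closure (insert y {c | c ∈ E ∧ v c ≤ 1}), v' (σ w) ≤ 1 := fun y hy h2 =>
    VB.map_closure h (Set.insert_subset hy fun c hc => le_Adj E _ hc.1) v'.integer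
      (by rintro c (rfl | hc); exacts [h2, hE c hc.1 hc.2])
  have hcm : ∀ y i, f.coeff i ∈ Subring.closure (insert y {c | c ∈ E ∧ v c ≤ 1}) := fun y i =>
    Subring.subset_closure (Or.inr ⟨hc i, h1 i⟩)
  have hym : ∀ y, y ∈ Subring.closure (insert y {c | c ∈ E ∧ v c ≤ 1}) := fun y =>
    Subring.subset_closure (Or.inl rfl)
  rcases le_total (v' (σ x)) 1 with h2 | h2
  · have := Subring.sum_mem _ fun i (_ : i ∈ Finset.range n) =>
      Subring.mul_mem _ (hcm x (j + i)) (Subring.pow_mem _ (hym x) i)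
    exact ⟨key x hxA h2 _ this, key x hxA h2 _ (Subring.mul_mem _ (hym x) this)⟩
  · have h3 : v' (σ x⁻¹) ≤ 1 := by
      have e := h.mul x hxA x⁻¹ ((Adj E {x}).inv_mem hxA)
      rw [mul_inv_cancel₀ h0, h.one] at e
      have := congrArg v' e
      rw [map_one, map_mul] at this
      exact (le_mul_of_one_le_left' h2).trans this.ge
    have h4 : x * s ∈ Subring.closure (insert x⁻¹ {c | c ∈ E ∧ v c ≤ 1}) := by
      rw [ht]
      exact Subring.neg_mem _ (Subring.sum_mem _ fun i _ =>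
        Subring.mul_mem _ (hcm _ i) (Subring.pow_mem _ (hym _) _))
    refine ⟨key _ (inv_mem hxA) h3 _ ?_, key _ (inv_mem hxA) h3 _ h4⟩
    have := Subring.mul_mem _ (hym x⁻¹) h4
    rwa [inv_mul_cancel_left₀ h0] at this

theorem res_mem [IsAlgClosed Ω] {K E : Subfield Ω} (hK : ACl K)
    (hE : ∀ c ∈ E, v c ≤ 1 → ∃ a ∈ K, v (c - a) < 1) {x : Ω} (ha : IsAlgebraic E x)
    (hx : v x ≤ 1) : ∃ a ∈ K, v (x - a) < 1 := by
  classical
  obtain ⟨f, hc, h1, hf, j, hj, hj'⟩ := exists_prim v ha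
  choose a haK hav using fun i => hE (f.coeff i / f.coeff j) (E.div_mem (hc i) (hc j))
    (by rw [map_div₀, hj, div_one]; exact h1 i)
  have hj0 : f.coeff j ≠ 0 := fun e => by simp [e] at hj
  set g : Polynomial Ω := X ^ j + ∑ i : Fin j, C (a i) * X ^ (i : ℕ) with hg
  have hm : g.Monic := monic_X_pow_add (degree_sum_fin_lt _)
  have hgK : ∀ i, g.coeff i ∈ K := fun i => by
    rw [hg, coeff_add, finsetSum_coeff]
    refine K.add_mem ?_ (K.sum_mem fun k _ => ?_)
    · rw [coeff_X_pow]; split_ifs; exacts [K.one_mem, K.zero_mem]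
    · rw [coeff_C_mul_X_pow]; split_ifs; exacts [haK _, K.zero_mem]
  have hgx : v (g.eval x) < 1 := by
    have e := hf
    rw [eval_eq_sum_range' (n := j + 1 + f.natDegree + 1) (by omega), add_assoc,
      Finset.sum_range_add, Finset.sum_range_succ] at e
    have : g.eval x = ∑ i ∈ Finset.range j, (a i - f.coeff i / f.coeff j) * x ^ i -
        (∑ i ∈ Finset.range (f.natDegree + 1), f.coeff (j + 1 + i) * x ^ (j + 1 + i)) /
          f.coeff j := by
      simp only [hg, eval_add, eval_pow, eval_X, eval_finsetSum, eval_mul, eval_C, sub_mul,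
        Finset.sum_sub_distrib, div_mul_eq_mul_div, ← Finset.sum_div]
      rw [Fin.sum_univ_eq_sum_range fun i => a i * x ^ i]
      field_simp
      linear_combination e
    rw [this]
    refine v.map_sub_lt (v.map_sum_lt one_ne_zero fun i _ => ?_) ?_
    · rw [map_mul, map_pow, v.map_sub_swap]
      exact (mul_le_of_le_one_right' (pow_le_one₀ zero_le hx)).trans_lt (hav i)
    · rw [map_div₀, hj, div_one]
      refine v.map_sum_lt one_ne_zero fun i _ => ?_
      rw [map_mul, map_pow]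
      exact (mul_le_of_le_one_right' (pow_le_one₀ zero_le hx)).trans_lt (hj' _ (by omega))
  obtain ⟨s, hs, e⟩ := hK.splits hgK
  rw [e, hm.leadingCoeff, C_1, one_mul, eval_multiset_prod, Multiset.map_map] at hgx
  obtain ⟨r, hr, e⟩ := exists_lt_one_of_prod hgx
  obtain ⟨ω, hω, rfl⟩ := Multiset.mem_map.1 hr
  exact ⟨ω, hs ω hω, by simpa using e⟩

/-- Two terms of a vanishing sum have the same value. -/
theorem exists_val_eq {f : Polynomial Ω} (hf : f ≠ 0) {x : Ω} (h0 : x ≠ 0) (hx : f.eval x = 0) :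
    ∃ i j, i < j ∧ j ≤ f.natDegree ∧ f.coeff j ≠ 0 ∧
      v x ^ (j - i) = v (f.coeff i / f.coeff j) := by
  classical
  obtain ⟨k, hk, hmax⟩ := Finset.exists_max_image f.support (fun i => v (f.coeff i * x ^ i))
    (support_nonempty.2 hf)
  have hk0 : v (f.coeff k * x ^ k) ≠ 0 := by simp [mem_support_iff.1 hk, h0]
  obtain ⟨l, hl, hlk, e⟩ : ∃ l ∈ f.support, l ≠ k ∧
      v (f.coeff l * x ^ l) = v (f.coeff k * x ^ k) := by
    by_contra H
    push Not at H
    rw [eval_eq_sum, sum_def, ← Finset.add_sum_erase _ _ hk] at hx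
    have := v.map_add_eq_of_lt_left (v.map_sum_lt (s := f.support.erase k)
      (f := fun i => f.coeff i * x ^ i) hk0 fun i hi => by
        obtain ⟨h1, h2⟩ := Finset.mem_erase.1 hi
        exact (hmax i h2).lt_of_ne (H i h2 h1))
    rw [hx, map_zero] at this
    exact hk0 this.symm
  have key : ∀ i j, i < j → j ∈ f.support → v (f.coeff i * x ^ i) = v (f.coeff j * x ^ j) →
      v x ^ (j - i) = v (f.coeff i / f.coeff j) := fun i j hij hj e => by
    obtain ⟨m, rfl⟩ := Nat.exists_eq_add_of_le hij.le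
    have h1 : v (f.coeff (i + m)) ≠ 0 := v.ne_zero_iff.2 (mem_support_iff.1 hj)
    have h2 : v x ^ i ≠ 0 := pow_ne_zero _ (v.ne_zero_iff.2 h0)
    simp only [map_mul, map_pow, pow_add] at e
    rw [Nat.add_sub_cancel_left, map_div₀, eq_div_iff h1]
    refine mul_right_cancel₀ h2 ?_
    rw [e]; ac_rfl
  rcases lt_or_gt_of_ne hlk with h | h
  · exact ⟨l, k, h, le_natDegree_of_mem_supp k hk, mem_support_iff.1 hk, key l k h hk e⟩
  · exact ⟨k, l, h, le_natDegree_of_mem_supp l hl, mem_support_iff.1 hl, key k l h hl e.symm⟩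

theorem val_pow_mem {E : Subfield Ω} {x : Ω} (ha : IsAlgebraic E x) :
    ∃ n : ℕ, 0 < n ∧ ∃ c ∈ E, v x ^ n = v c := by
  by_cases h0 : x = 0
  · exact ⟨1, one_pos, 0, E.zero_mem, by simp [h0]⟩
  obtain ⟨f, hm, hc, hx⟩ := isAlgebraic_iff.1 ha
  obtain ⟨i, j, hij, -, -, e⟩ := exists_val_eq (v := v) hm.ne_zero h0 hx
  exact ⟨j - i, by omega, _, E.div_mem (hc i) (hc j), e⟩

end Pool.Agent.Lib.MP_132c47_lc
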