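import Pool.Agent.Lib.MP_132c47_lc.Defs3

/-! Block VB, part 1: subfields, algebraic closures, localizations. -/

namespace Pool.Agent.Lib.MP_132c47_lc

open Polynomial

variable {Ω : Type} [Field Ω] {Γ₀ : Type} [LinearOrderedCommGroupWithZero Γ₀]
  {v : Valuation Ω Γ₀}

theorem exists_lift {K : Subfield Ω} {f : Polynomial Ω} (hf : ∀ i, f.coeff i ∈ K) :
    ∃ g : Polynomial K, g.map (algebraMap K Ω) = f :=
  (mem_lifts _).1 ((lifts_iff_coeff_lifts _).2 fun i => ⟨⟨_, hf i⟩, rfl⟩)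

theorem coeff_map_mem {K : Subfield Ω} (g : Polynomial K) (i : ℕ) :
    (g.map (algebraMap K Ω)).coeff i ∈ K := by
  rw [coeff_map]; exact (g.coeff i).2

theorem isAlgebraic_iff {K : Subfield Ω} {x : Ω} : IsAlgebraic K x ↔
    ∃ f : Polynomial Ω, f.Monic ∧ (∀ i, f.coeff i ∈ K) ∧ f.eval x = 0 := by
  constructor
  · intro h
    refine ⟨(minpoly K x).map (algebraMap K Ω), (minpoly.monic h.isIntegral).map _,
      coeff_map_mem _, ?_⟩
    rw [eval_map_algebraMap]; exact minpoly.aeval K x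
  · rintro ⟨f, hm, hc, h0⟩
    obtain ⟨g, rfl⟩ := exists_lift hc
    refine ⟨g, fun e => hm.ne_zero (by simp [e]), ?_⟩
    rwa [eval_map_algebraMap] at h0

theorem isAlgebraic_of_ne {K : Subfield Ω} {x : Ω} {f : Polynomial Ω} (hf : f ≠ 0)
    (hc : ∀ i, f.coeff i ∈ K) (h0 : f.eval x = 0) : IsAlgebraic K x := by
  obtain ⟨g, rfl⟩ := exists_lift hc
  refine ⟨g, fun e => hf (by simp [e]), ?_⟩
  rwa [eval_map_algebraMap] at h0

theorem ACl.mem_of_pow {K : Subfield Ω} (hK : ACl K) {x : Ω} {n : ℕ} (hn : 0 < n)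
    (hx : x ^ n ∈ K) : x ∈ K :=
  hK x (IsAlgebraic.of_pow hn (isAlgebraic_algebraMap (⟨_, hx⟩ : K)))

theorem ACl.exists_pow [IsAlgClosed Ω] {K : Subfield Ω} (hK : ACl K) {c : Ω} (hc : c ∈ K) {n : ℕ}
    (hn : 0 < n) : ∃ d ∈ K, d ^ n = c := by
  obtain ⟨d, hd⟩ := IsAlgClosed.exists_pow_nat_eq c hn
  exact ⟨d, hK.mem_of_pow hn (hd ▸ hc), hd⟩

theorem ACl.splits [IsAlgClosed Ω] {K : Subfield Ω} (hK : ACl K) {f : Polynomial Ω}
    (hf : ∀ i, f.coeff i ∈ K) : ∃ s : Multiset Ω, (∀ r ∈ s, r ∈ K) ∧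
      f = C f.leadingCoeff * (s.map fun r => X - C r).prod := by
  refine ⟨f.roots, fun r hr => ?_, (IsAlgClosed.splits f).eq_prod_roots⟩
  have := mem_roots'.1 hr
  exact hK r (isAlgebraic_of_ne this.1 hf this.2)

theorem le_Adj (K : Subfield Ω) (S : Set Ω) : K ≤ Adj K S := fun _ h =>
  Subfield.subset_closure (Or.inl h)

theorem mem_Adj (K : Subfield Ω) {S : Set Ω} {x : Ω} (h : x ∈ S) : x ∈ Adj K S :=
  Subfield.subset_closure (Or.inr h)

theorem Adj_le {K E : Subfield Ω} {S : Set Ω} (h : K ≤ E) (hS : ∀ x ∈ S, x ∈ E) : Adj K S ≤ E :=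
  Subfield.closure_le.2 (Set.union_subset h hS)

theorem Adj_eq (K : Subfield Ω) (S : Set Ω) :
    Adj K S = (IntermediateField.adjoin K S).toSubfield := by
  have : Set.range (algebraMap K Ω) = (K : Set Ω) := by
    ext x
    exact ⟨by rintro ⟨y, rfl⟩; exact y.2, fun h => ⟨⟨x, h⟩, rfl⟩⟩
  rw [IntermediateField.adjoin_toSubfield, this]

theorem eval_mem {A : Subring Ω} {f : Polynomial Ω} (hf : ∀ i, f.coeff i ∈ A) {x : Ω}
    (hx : x ∈ A) : f.eval x ∈ A := by
  rw [eval_eq_sum_range]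
  exact A.sum_mem fun i _ => A.mul_mem (hf i) (A.pow_mem hx i)

/-- Elements of `K(T)` are quotients of polynomials in `T`. -/
theorem mem_Adj_single {K : Subfield Ω} {T x : Ω} : x ∈ Adj K {T} ↔
    ∃ f g : Polynomial Ω, (∀ i, f.coeff i ∈ K) ∧ (∀ i, g.coeff i ∈ K) ∧
      x = f.eval T / g.eval T := by
  constructor
  · intro h
    rw [Adj_eq] at h
    obtain ⟨r, s, e⟩ := (IntermediateField.mem_adjoin_simple_iff K x).1 h
    exact ⟨r.map (algebraMap K Ω), s.map (algebraMap K Ω), coeff_map_mem _, coeff_map_mem _, by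
      rw [eval_map_algebraMap, eval_map_algebraMap, e]⟩
  · rintro ⟨f, g, hf, hg, rfl⟩
    have hT : T ∈ (Adj K {T}).toSubring := mem_Adj K rfl
    exact (Adj K {T}).div_mem (eval_mem (A := (Adj K {T}).toSubring) (fun i => le_Adj K _ (hf i)) hT)
      (eval_mem (A := (Adj K {T}).toSubring) (fun i => le_Adj K _ (hg i)) hT)

theorem mem_acl {E : Subfield Ω} {x : Ω} : x ∈ acl E ↔ IsAlgebraic E x :=
  mem_algebraicClosure_iff

theorem le_acl (E : Subfield Ω) : E ≤ acl E := fun x h =>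
  mem_acl.2 (isAlgebraic_algebraMap (⟨x, h⟩ : E))

theorem acl_acl (E : Subfield Ω) : ACl (acl E) := fun x h => by
  have h' : IsAlgebraic (algebraicClosure E Ω) x := h
  exact mem_acl.2 (h'.restrictScalars E)

theorem acl_mono {E E' : Subfield Ω} (h : E ≤ E') : acl E ≤ acl E' := fun x hx => by
  obtain ⟨f, hm, hc, h0⟩ := isAlgebraic_iff.1 (mem_acl.1 hx)
  exact mem_acl.2 (isAlgebraic_iff.2 ⟨f, hm, fun i => h (hc i), h0⟩)

theorem acl_le_acl {E E' : Subfield Ω} (h : E ≤ acl E') : acl E ≤ acl E' := fun x hx =>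
  acl_acl E' x (mem_acl.1 (acl_mono h hx))

theorem ACl.acl_eq {K : Subfield Ω} (hK : ACl K) : acl K = K :=
  le_antisymm (fun x h => hK x (mem_acl.1 h)) (le_acl K)

theorem acl_countable {E : Subfield Ω} (h : (E : Set Ω).Countable) :
    (acl E : Set Ω).Countable := by
  have : Countable E := h.to_subtype
  have : Countable (Polynomial E) := by
    have := Polynomial.toFinsupp_injective (R := E)
    have h2 : Countable (AddMonoidAlgebra E ℕ) :=
      (AddMonoidAlgebra.coeffEquiv (R := E) (M := ℕ)).injective.countable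
    exact this.countable
  refine (Set.countable_iUnion fun f : Polynomial E => (f.rootSet_finite Ω).countable).mono ?_
  intro x hx
  obtain ⟨f, h0, h1⟩ := mem_acl.1 hx
  exact Set.mem_iUnion.2 ⟨f, (mem_rootSet_of_ne h0).2 h1⟩

theorem exchange {K : Subfield Ω} {w T : Ω} (h : T ∈ acl (Adj K {w})) (h' : T ∉ acl K) :
    w ∈ acl (Adj K {T}) := by
  have key : ∀ a b : Ω, a ∈ acl (Adj K {b}) ↔
      a ∈ (AlgebraicIndependent.matroid K Ω).closure {b} := fun a b => by
    rw [AlgebraicIndependent.matroid_closure_eq, mem_acl, Adj_eq]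
    change IsAlgebraic (IntermediateField.adjoin K {b}) a ↔ IsAlgebraic (Algebra.adjoin K {b}) a
    exact IntermediateField.isAlgebraic_adjoin_iff
  rw [key] at h ⊢
  have h0 : T ∉ (AlgebraicIndependent.matroid K Ω).closure ∅ := by
    rw [AlgebraicIndependent.matroid_closure_eq, Algebra.adjoin_empty]
    intro hh
    refine h' (mem_acl.2 ?_)
    have : IsAlgebraic (⊥ : Subalgebra K Ω) T := hh
    exact this.restrictScalars K
  have := Matroid.closure_exchange (M := AlgebraicIndependent.matroid K Ω) (X := ∅) (e := T)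
    (f := w) ⟨by simpa using h, h0⟩
  simpa using this.1

theorem le_loc (A : Subring Ω) : A ≤ loc v A := fun x h =>
  ⟨x, h, 1, A.one_mem, v.map_one, mul_one x⟩

theorem loc_mono {A B : Subring Ω} (h : A ≤ B) : loc v A ≤ loc v B :=
  fun _ ⟨y, hy, s, hs, e⟩ => ⟨y, h hy, s, h hs, e⟩

theorem loc_loc (A : Subring Ω) : loc v (loc v A) = loc v A := by
  refine le_antisymm ?_ (le_loc _)
  rintro x ⟨y, ⟨y', hy', s', hs', e', h'⟩, s, ⟨t, ht, u, hu, eu, hh⟩, e, h⟩
  refine ⟨y' * u, A.mul_mem hy' hu, t * s', A.mul_mem ht hs', ?_, ?_⟩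
  · rw [← hh]; simp [e, eu, e']
  · rw [← hh, ← h', ← h]; ring

theorem loc_le_loc {A B : Subring Ω} (h : A ≤ loc v B) : loc v A ≤ loc v B :=
  (loc_mono h).trans (loc_loc B).le

theorem inv_mem_loc {A : Subring Ω} {x : Ω} (hx : x ∈ loc v A) (h : v x = 1) :
    x⁻¹ ∈ loc v A := by
  rw [← loc_loc]
  have h0 : x ≠ 0 := fun e => by simp [e] at h
  exact ⟨1, Subring.one_mem _, x, hx, h, inv_mul_cancel₀ h0⟩

theorem v_le_one_of_mem_closure {S : Set Ω} (hS : ∀ s ∈ S, v s ≤ 1) {x : Ω}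
    (hx : x ∈ Subring.closure S) : v x ≤ 1 :=
  (Subring.closure_le (t := v.integer)).2 hS hx

theorem v_le_one_of_mem_loc {S : Set Ω} (hS : ∀ s ∈ S, v s ≤ 1) {x : Ω}
    (hx : x ∈ loc v (Subring.closure S)) : v x ≤ 1 := by
  obtain ⟨y, hy, s, -, e, h⟩ := hx
  have := v_le_one_of_mem_closure hS hy
  rwa [← h, map_mul, e, mul_one] at this

theorem exists_finset_closure {S : Set Ω} {x : Ω} (hx : x ∈ Subring.closure S) :
    ∃ T : Finset Ω, (T : Set Ω) ⊆ S ∧ x ∈ Subring.closure (T : Set Ω) := by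
  classical
  have hu : ∀ {T T' : Finset Ω} {y : Ω}, y ∈ Subring.closure (T : Set Ω) →
      y ∈ Subring.closure ((T ∪ T' : Finset Ω) : Set Ω) ∧
      y ∈ Subring.closure ((T' ∪ T : Finset Ω) : Set Ω) := fun h =>
    ⟨Subring.closure_mono (by simp) h, Subring.closure_mono (by simp) h⟩
  induction hx using Subring.closure_induction with
  | mem x h => exact ⟨{x}, by simpa using h, Subring.subset_closure (by simp)⟩
  | zero => exact ⟨∅, by simp, Subring.zero_mem _⟩
  | one => exact ⟨∅, by simp, Subring.one_mem _⟩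
  | add x y _ _ hx hy =>
    obtain ⟨T, h, e⟩ := hx
    obtain ⟨T', h', e'⟩ := hy
    exact ⟨T ∪ T', by simp [h, h'], Subring.add_mem _ (hu e).1 (hu e').2⟩
  | neg x _ hx =>
    obtain ⟨T, h, e⟩ := hx
    exact ⟨T, h, Subring.neg_mem _ e⟩
  | mul x y _ _ hx hy =>
    obtain ⟨T, h, e⟩ := hx
    obtain ⟨T', h', e'⟩ := hy
    exact ⟨T ∪ T', by simp [h, h'], Subring.mul_mem _ (hu e).1 (hu e').2⟩

theorem exists_finset_closure_field {S : Set Ω} {x : Ω} (hx : x ∈ Subfield.closure S) :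
    ∃ T : Finset Ω, (T : Set Ω) ⊆ S ∧ x ∈ Subfield.closure (T : Set Ω) := by
  classical
  obtain ⟨y, hy, z, hz, rfl⟩ := Subfield.mem_closure_iff.1 hx
  obtain ⟨T, h, e⟩ := exists_finset_closure hy
  obtain ⟨T', h', e'⟩ := exists_finset_closure hz
  exact ⟨T ∪ T', by simp [h, h'], Subfield.mem_closure_iff.2
    ⟨y, Subring.closure_mono (by simp) e, z, Subring.closure_mono (by simp) e', rfl⟩⟩

end Pool.Agent.Lib.MP_132c47_lc
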