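import Pool.Agent.Lib.MP_132c47_lc.VB1

/-! Block VB, part 2: valuations of polynomials, group actions. -/

namespace Pool.Agent.Lib.MP_132c47_lc

open Polynomial

variable {Ω : Type} [Field Ω] {Γ₀ : Type} [LinearOrderedCommGroupWithZero Γ₀]
  {v : Valuation Ω Γ₀} {G : Type} [Group G] [MulSemiringAction G Ω]

theorem Act.v_smul_le_one (h : Act v G) (g : G) {x : Ω} (hx : v x ≤ 1) : v (g • x) ≤ 1 := by
  have := v.map_add_le (h.inv g x hx).le hx
  rwa [sub_add_cancel] at this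

theorem Act.v_smul_lt_one (h : Act v G) (g : G) {x : Ω} (hx : v x < 1) : v (g • x) < 1 := by
  have := v.map_add_lt (h.inv g x hx.le) hx
  rwa [sub_add_cancel] at this

theorem Act.exists_pow_smul (h : Act v G) (g : G) (x : Ω) : ∃ n : ℕ, 0 < n ∧ g ^ n • x = x := by
  have : Finite (Set.range fun g : G => g • x) := (h.fin x).to_subtype
  obtain ⟨a, b, hab, e'⟩ := Finite.exists_ne_map_eq_of_infinite
    fun n : ℕ => (⟨g ^ n • x, g ^ n, rfl⟩ : Set.range fun g : G => g • x)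
  have e : g ^ a • x = g ^ b • x := congrArg Subtype.val e'
  clear e'
  wlog hlt : a < b generalizing a b
  · exact this b a hab.symm e.symm (by omega)
  refine ⟨b - a, by omega, ?_⟩
  have : g ^ b = g ^ a * g ^ (b - a) := by rw [← pow_add]; congr 1; omega
  rw [this, mul_smul] at e
  exact (MulAction.injective _ e).symm

theorem Act.not_smul_lt (h : Act v G) (g : G) (x : Ω) : ¬ v (g • x) < v x := by
  intro hlt
  have h0 : x ≠ 0 := fun e => by simp [e] at hlt
  have hv : ∀ k : G, 0 < v (k • x) := fun k =>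
    zero_lt_iff.2 (v.ne_zero_iff.2 ((smul_ne_zero_iff_ne k).2 h0))
  have h1 : v (g • x / x) < 1 := by
    rw [map_div₀, div_lt_one₀ (by simpa using hv 1)]; exact hlt
  have h2 : ∀ n : ℕ, v (g ^ (n + 1) • x) < v (g ^ n • x) := fun n => by
    have := h.v_smul_lt_one (g ^ n) h1
    rwa [smul_div₀', map_div₀, div_lt_one₀ (hv _), ← mul_smul, ← pow_succ] at this
  have h3 : StrictAnti fun n : ℕ => v (g ^ n • x) := strictAnti_nat_of_succ_lt h2
  obtain ⟨n, hn, e⟩ := h.exists_pow_smul g x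
  have := h3 hn
  simp [e] at this

theorem Act.v_smul (h : Act v G) (g : G) (x : Ω) : v (g • x) = v x := by
  refine le_antisymm (not_lt.1 fun hlt => h.not_smul_lt g⁻¹ (g • x) ?_) (not_lt.1 (h.not_smul_lt g x))
  rwa [inv_smul_smul]

theorem exists_lt_one_of_prod {s : Multiset Ω} (h : v s.prod < 1) : ∃ r ∈ s, v r < 1 := by
  by_contra H
  push Not at H
  refine h.not_ge ?_
  rw [map_multiset_prod]
  exact Multiset.one_le_prod_of_one_le (by simpa using H)

theorem ResAlg.exists_root [IsAlgClosed Ω] (h : ResAlg v) {x : Ω} (hx : v x ≤ 1) :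
    ∃ ω : Ω, (ω = 0 ∨ ∃ m : ℕ, 0 < m ∧ ω ^ m = 1) ∧ v (x - ω) < 1 := by
  obtain ⟨N, hN, e⟩ := h x hx
  have hm : (X ^ (N + 1) - X : Polynomial Ω).Monic :=
    monic_X_pow_sub (by rw [degree_X]; exact_mod_cast (by omega : 1 < N + 1))
  have := (IsAlgClosed.splits (X ^ (N + 1) - X : Polynomial Ω)).eval_eq_prod_roots_of_monic hm x
  simp only [eval_sub, eval_pow, eval_X] at this
  rw [this] at e
  obtain ⟨r, hr, e⟩ := exists_lt_one_of_prod e
  obtain ⟨ω, hω, rfl⟩ := Multiset.mem_map.1 hr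
  refine ⟨ω, ?_, e⟩
  have := (mem_roots'.1 hω).2
  simp only [IsRoot.def, eval_sub, eval_pow, eval_X] at this
  by_cases h0 : ω = 0
  · exact Or.inl h0
  · exact Or.inr ⟨N, hN, mul_right_cancel₀ h0 (by linear_combination this)⟩

theorem ResAlg.exists_pow (h : ResAlg v) {x : Ω} (hx : v x = 1) :
    ∃ m : ℕ, 0 < m ∧ v (x ^ m - 1) < 1 := by
  obtain ⟨N, hN, e⟩ := h x hx.le
  refine ⟨N, hN, ?_⟩
  rwa [show x ^ (N + 1) - x = (x ^ N - 1) * x by ring, map_mul, hx, mul_one] at e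

theorem coeff_prod_mem (A : Subring Ω) (t : Ω) (s : Multiset Ω)
    (h : ∀ r ∈ s, ∃ a ∈ A, r = t * a) {i : ℕ} (hi : i ≤ s.card) :
    ∃ a ∈ A, ((s.map fun r => X - C r).prod).coeff (s.card - i) = t ^ i * a := by
  rw [Multiset.prod_X_sub_C_coeff s (Nat.sub_le _ _), Nat.sub_sub_self hi]
  have key : ∀ u : Multiset Ω, (∀ r ∈ u, ∃ a ∈ A, r = t * a) →
      ∃ a ∈ A, u.prod = t ^ u.card * a := fun u hu => by
    induction u using Multiset.induction_on with
    | empty => exact ⟨1, A.one_mem, by simp⟩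
    | cons r u ih =>
      obtain ⟨a, ha, e⟩ := ih fun r hr => hu r (Multiset.mem_cons_of_mem hr)
      obtain ⟨b, hb, e'⟩ := hu r (Multiset.mem_cons_self _ _)
      exact ⟨b * a, A.mul_mem hb ha, by rw [Multiset.prod_cons, e, e', Multiset.card_cons]; ring⟩
  have key2 : ∀ U : Multiset (Multiset Ω), (∀ u ∈ U, ∃ a ∈ A, u.prod = t ^ i * a) →
      ∃ a ∈ A, (U.map Multiset.prod).sum = t ^ i * a := fun U hU => by
    induction U using Multiset.induction_on with
    | empty => exact ⟨0, A.zero_mem, by simp⟩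
    | cons u U ih =>
      obtain ⟨a, ha, e⟩ := ih fun r hr => hU r (Multiset.mem_cons_of_mem hr)
      obtain ⟨b, hb, e'⟩ := hU u (Multiset.mem_cons_self _ _)
      exact ⟨b + a, A.add_mem hb ha, by rw [Multiset.map_cons, Multiset.sum_cons, e, e']; ring⟩
  obtain ⟨a, ha, e⟩ := key2 (s.powersetCard i) fun u hu => by
    obtain ⟨h1, h2⟩ := Multiset.mem_powersetCard.1 hu
    exact h2 ▸ key u fun r hr => h r (Multiset.mem_of_le h1 hr)
  exact ⟨(-1) ^ i * a, A.mul_mem (A.pow_mem (A.neg_mem A.one_mem) i) ha, by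
    rw [Multiset.esymm, e]; ring⟩

theorem coeff_prod_mem' (A : Subring Ω) (s : Multiset Ω) (h : ∀ r ∈ s, r ∈ A) (i : ℕ) :
    ((s.map fun r => X - C r).prod).coeff i ∈ A := by
  by_cases hi : i ≤ s.card
  · obtain ⟨a, ha, e⟩ := coeff_prod_mem A 1 s (fun r hr => ⟨r, h r hr, (one_mul r).symm⟩)
      (Nat.sub_le s.card i)
    rw [Nat.sub_sub_self hi, one_pow, one_mul] at e
    exact e ▸ ha
  · rw [coeff_eq_zero_of_natDegree_lt]
    · exact A.zero_mem
    · rw [natDegree_multiset_prod_X_sub_C_eq_card]; omega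

theorem v_eval_le {f : Polynomial Ω} (hc : ∀ i, v (f.coeff i) ≤ 1) {x : Ω} (hx : v x ≤ 1) :
    v (f.eval x) ≤ 1 := eval_mem (A := v.integer) hc hx

theorem v_eval_lt {f : Polynomial Ω} (hc : ∀ i, v (f.coeff i) < 1) {x : Ω} (hx : v x ≤ 1) :
    v (f.eval x) < 1 := by
  rw [eval_eq_sum_range]
  refine v.map_sum_lt one_ne_zero fun i _ => ?_
  rw [map_mul, map_pow]
  exact (mul_le_of_le_one_right' (pow_le_one₀ zero_le hx)).trans_lt (hc i)

theorem v_eval_sub_le {f : Polynomial Ω} (hc : ∀ i, v (f.coeff i) ≤ 1) {x y : Ω} (hx : v x ≤ 1)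
    (hy : v y ≤ 1) : v (f.eval x - f.eval y) ≤ v (x - y) := by
  rw [eval_eq_sum_range, eval_eq_sum_range, ← Finset.sum_sub_distrib]
  refine v.map_sum_le fun i _ => ?_
  rw [← mul_sub, ← Commute.mul_geom_sum₂ (Commute.all x y), map_mul, map_mul]
  refine (mul_le_of_le_one_left' (hc i)).trans (mul_le_of_le_one_right' ?_)
  refine v.map_sum_le fun j _ => ?_
  rw [map_mul, map_pow, map_pow]
  exact mul_le_one' (pow_le_one₀ zero_le hx) (pow_le_one₀ zero_le hy)

theorem v_eval_eq_of_monic {f : Polynomial Ω} (hf : f.Monic) {x : Ω} (h0 : x ≠ 0)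
    (hc : ∀ i < f.natDegree, v (f.coeff i) * v x ^ i < v x ^ f.natDegree) :
    v (f.eval x) = v x ^ f.natDegree := by
  rw [eval_eq_sum_range, Finset.sum_range_succ, hf.coeff_natDegree, one_mul, ← map_pow]
  refine v.map_add_eq_of_lt_right (v.map_sum_lt (by simpa using fun h => absurd h h0) ?_)
  intro i hi
  simpa using hc i (Finset.mem_range.1 hi)

theorem v_le_one_of_monic {f : Polynomial Ω} (hf : f.Monic) (hc : ∀ i, v (f.coeff i) ≤ 1) {x : Ω}
    (hx : v (f.eval x) ≤ 1) (hd : 0 < f.natDegree) : v x ≤ 1 := by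
  by_contra H
  push Not at H
  rw [v_eval_eq_of_monic hf (fun e => by simp [e] at H) fun i hi =>
    (mul_le_of_le_one_left' (hc i)).trans_lt (pow_lt_pow_right₀ H hi)] at hx
  exact hx.not_gt (one_lt_pow₀ H hd.ne')

theorem v_le_one_of_root {f : Polynomial Ω} (hf : f.Monic) (hc : ∀ i, v (f.coeff i) ≤ 1) {x : Ω}
    (hx : f.eval x = 0) : v x ≤ 1 := by
  refine v_le_one_of_monic hf hc (by simp [hx]) (Nat.pos_of_ne_zero fun e => ?_)
  rw [hf.natDegree_eq_zero] at e
  simp [e] at hx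

theorem v_lt_one_of_monic {f : Polynomial Ω} (hf : f.Monic)
    (hc : ∀ i < f.natDegree, v (f.coeff i) < 1) {x : Ω} (hx : v (f.eval x) < 1)
    (_hd : 0 < f.natDegree) : v x < 1 := by
  by_contra H
  push Not at H
  have h0 : 0 < v x := zero_lt_one.trans_le H
  rw [v_eval_eq_of_monic hf (fun e => by simp [e] at h0) fun i hi =>
    (mul_lt_of_lt_one_left (pow_pos h0 i) (hc i hi)).trans_le (pow_le_pow_right₀ H hi.le)] at hx
  exact hx.not_ge (one_le_pow₀ H)

end Pool.Agent.Lib.MP_132c47_lc
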